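import Pool.Agent.W564.MY.Defs

/-!
# Matrices: the optimal linear map
-/

set_option autoImplicit false
set_option linter.unusedVariables false
set_option linter.unusedSimpArgs false
set_option linter.unusedSectionVars false

noncomputable section

namespace Pool.Agent.W564.MY

open MeasureTheory Filter Topology
open scoped ENNReal Matrix

/-- `‖Bᵀ M‖²` -/
def qf {d : ℕ} (B M : Fin d → Fin d → ℝ) : ℝ := ∑ i, ∑ m, (∑ j, B j m * M j i) ^ 2

/-- Frobenius norm squared -/
def fro {d : ℕ} (M : Fin d → Fin d → ℝ) : ℝ := ∑ j, ∑ i, M j i ^ 2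

theorem fro_nonneg {d : ℕ} (M : Fin d → Fin d → ℝ) : 0 ≤ fro M :=
  Finset.sum_nonneg fun _ _ => Finset.sum_nonneg fun _ _ => sq_nonneg _

theorem qf_nonneg {d : ℕ} (B M : Fin d → Fin d → ℝ) : 0 ≤ qf B M :=
  Finset.sum_nonneg fun _ _ => Finset.sum_nonneg fun _ _ => sq_nonneg _

theorem qf_le {d : ℕ} (B M : Fin d → Fin d → ℝ) : qf B M ≤ fro B * fro M := by
  unfold qf
  calc ∑ i, ∑ m, (∑ j, B j m * M j i) ^ 2 ≤ ∑ i, ∑ m, (∑ j, B j m ^ 2) * ∑ j, M j i ^ 2 := by
        apply Finset.sum_le_sum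
        intro i _
        apply Finset.sum_le_sum
        intro m _
        exact Finset.sum_mul_sq_le_sq_mul_sq _ _ _
    _ = fro B * fro M := by
        unfold fro
        rw [Finset.sum_comm (f := fun j i => B j i ^ 2), Finset.sum_comm (f := fun j i => M j i ^ 2),
          Finset.sum_mul_sum, Finset.sum_comm]

theorem qf_one {d : ℕ} (M : Fin d → Fin d → ℝ) : qf (fun i j => if i = j then 1 else 0) M = fro M := by
  unfold qf fro
  simp only [ite_mul, one_mul, zero_mul, Finset.sum_ite_eq', Finset.mem_univ, if_true]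
  rw [Finset.sum_comm]

theorem continuous_qf {d : ℕ} (M : Fin d → Fin d → ℝ) : Continuous fun B => qf B M := by
  unfold qf
  apply continuous_finsetSum
  intro i _
  apply continuous_finsetSum
  intro m _
  apply Continuous.pow
  apply continuous_finsetSum
  intro j _
  exact (continuous_apply_apply j m).mul continuous_const

theorem qf_opt {d : ℕ} (hd : 0 < d) (M : Fin d → Fin d → ℝ) (hM : 0 < (Matrix.of M).det) :
    ∃ B : Fin d → Fin d → ℝ, (Matrix.of B).det = 1 ∧
      qf B M = d * (Matrix.of M).det ^ (2 / (d : ℝ)) := by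
  set c : ℝ := (Matrix.of M).det ^ (1 / (d : ℝ)) with hc
  have hdr : (0 : ℝ) < d := by exact_mod_cast hd
  have hcd : c ^ d = (Matrix.of M).det := by
    rw [hc, ← Real.rpow_natCast, ← Real.rpow_mul hM.le]
    rw [one_div_mul_cancel hdr.ne', Real.rpow_one]
  have hc2 : c ^ 2 = (Matrix.of M).det ^ (2 / (d : ℝ)) := by
    rw [hc, ← Real.rpow_natCast, ← Real.rpow_mul hM.le]
    congr 1
    push_cast
    ring
  have hunit : IsUnit (Matrix.of M).det := hM.ne'.isUnit
  refine ⟨fun j m => c * (Matrix.of M)⁻¹ m j, ?_, ?_⟩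
  · have h1 : (Matrix.of fun j m => c * (Matrix.of M)⁻¹ m j) = c • ((Matrix.of M)⁻¹)ᵀ := by
      ext j m
      simp
    rw [h1, Matrix.det_smul, Matrix.det_transpose, Matrix.det_nonsing_inv, Fintype.card_fin, hcd,
      Ring.inverse_eq_inv']
    exact mul_inv_cancel₀ hM.ne'
  · have h2 : ∀ i m, ∑ j, c * (Matrix.of M)⁻¹ m j * M j i = c * if m = i then 1 else 0 := by
      intro i m
      have h3 := Matrix.nonsing_inv_mul (Matrix.of M) hunit
      have h4 := congrFun (congrFun h3 m) i
      rw [Matrix.mul_apply, Matrix.one_apply] at h4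
      rw [← h4, Finset.mul_sum]
      apply Finset.sum_congr rfl
      intro j _
      simp [mul_assoc]
    unfold qf
    simp_rw [h2]
    simp [mul_pow, ite_pow, hc2]

/-- a countable family of unimodular matrices which is good enough -/
theorem exists_Bs {d : ℕ} (hd : 0 < d) : ∃ Bs : ℕ → Fin d → Fin d → ℝ,
    (∀ n, (Matrix.of (Bs n)).det = 1) ∧ Bs 0 = (fun i j => if i = j then 1 else 0) ∧
    ∀ M : Fin d → Fin d → ℝ, 0 < (Matrix.of M).det → ∀ η : ℝ, 0 < η →
      ∃ n, qf (Bs n) M < d * (Matrix.of M).det ^ (2 / (d : ℝ)) + η := by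
  set I : Fin d → Fin d → ℝ := fun i j => if i = j then 1 else 0 with hI
  have hI1 : (Matrix.of I).det = 1 := by
    have : Matrix.of I = (1 : Matrix (Fin d) (Fin d) ℝ) := by
      ext i j
      simp [hI, Matrix.one_apply]
    rw [this, Matrix.det_one]
  let T := {B : Fin d → Fin d → ℝ // (Matrix.of B).det = 1}
  have : Nonempty T := ⟨⟨I, hI1⟩⟩
  refine ⟨fun n => Nat.casesOn n I fun n => (TopologicalSpace.denseSeq T n).1, ?_, rfl, ?_⟩
  · rintro (_ | n)
    · exact hI1
    · exact (TopologicalSpace.denseSeq T n).2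
  · intro M hM η hη
    obtain ⟨B, hB1, hB2⟩ := qf_opt hd M hM
    have hcont : Continuous fun B : T => qf B.1 M := (continuous_qf M).comp continuous_subtype_val
    have hopen : IsOpen {B : T | qf B.1 M < d * (Matrix.of M).det ^ (2 / (d : ℝ)) + η} :=
      isOpen_lt hcont continuous_const
    obtain ⟨n, hn⟩ := (TopologicalSpace.denseRange_denseSeq T).exists_mem_open hopen
      ⟨⟨B, hB1⟩, by simp only [Set.mem_ofPred_eq]; linarith⟩
    exact ⟨n + 1, hn⟩

/-- AM-GM -/
theorem amgm {d : ℕ} (hd : 0 < d) (M : Fin d → Fin d → ℝ) (hM : 0 ≤ (Matrix.of M).det) :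
    d * (Matrix.of M).det ^ (2 / (d : ℝ)) ≤ fro M := by
  set A : Matrix (Fin d) (Fin d) ℝ := Matrix.of M with hA
  have hdr : (0 : ℝ) < d := by exact_mod_cast hd
  have hps : (Aᴴ * A).PosSemidef := Matrix.posSemidef_conjTranspose_mul_self A
  have hh := hps.isHermitian
  have h1 : (Aᴴ * A).det = ∏ i, hh.eigenvalues i := by
    have := hh.det_eq_prod_eigenvalues
    simpa using this
  have h2 : (Aᴴ * A).trace = ∑ i, hh.eigenvalues i := by
    have := hh.trace_eq_sum_eigenvalues
    simpa using this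
  have h3 : (Aᴴ * A).det = A.det ^ 2 := by
    rw [Matrix.det_mul, Matrix.det_conjTranspose]
    simp
    ring
  have h4 : (Aᴴ * A).trace = fro M := by
    rw [Matrix.trace]
    unfold fro
    simp only [Matrix.diag_apply, Matrix.mul_apply, Matrix.conjTranspose_apply, star_trivial]
    rw [Finset.sum_comm]
    apply Finset.sum_congr rfl
    intro i _
    apply Finset.sum_congr rfl
    intro j _
    simp [hA]
    ring
  have h5 := Real.geom_mean_le_arith_mean_weighted Finset.univ (fun _ : Fin d => 1 / (d : ℝ))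
    hh.eigenvalues (fun i _ => by positivity) (by simp [hdr.ne'])
    (fun i _ => hps.eigenvalues_nonneg i)
  rw [Real.finsetProd_rpow _ _ (fun i _ => hps.eigenvalues_nonneg i), ← Finset.mul_sum, ← h1, ← h2,
    h3, h4, ← Real.rpow_natCast, ← Real.rpow_mul hM] at h5
  have h6 : ((2 : ℕ) : ℝ) * (1 / (d : ℝ)) = 2 / d := by push_cast; ring
  rw [h6] at h5
  calc (d : ℝ) * A.det ^ (2 / (d : ℝ)) ≤ d * (1 / d * fro M) := mul_le_mul_of_nonneg_left h5 hdr.le
    _ = fro M := by field_simp

end Pool.Agent.W564.MY
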