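import Pool.Agent.W564.MY.Defs

/-!
# The recursive window system on the cube
-/

set_option autoImplicit false
set_option linter.unusedVariables false
set_option linter.unusedSimpArgs false
set_option linter.unusedSectionVars false

noncomputable section

namespace Pool.Agent.W564.MY

open MeasureTheory Filter Topology
open scoped ENNReal ComplexConjugate

/-- inner product on the cube -/
def bip {d : ℕ} (F G : E d → ℂ) : ℂ := ∫ s in Set.Icc (0 : E d) 1, F s * conj (G s)

theorem bip_zero (F G : E 0 → ℂ) : bip F G = F 0 * conj (G 0) := by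
  unfold bip
  have h0 : Set.Icc (0 : E 0) 1 = Set.univ := by
    ext x
    simp only [Set.mem_Icc, Set.mem_univ, iff_true]
    exact ⟨fun i => Fin.elim0 i, fun i => Fin.elim0 i⟩
  rw [h0, Measure.restrict_univ, Measure.volume_pi_eq_dirac (0 : E 0), integral_dirac]

/-- product functions -/
def pro {d : ℕ} (f : ℝ → ℂ) (G : E d → ℂ) (s : E (d + 1)) : ℂ := f (s 0) * G (Fin.tail s)

theorem bip_pro {d : ℕ} (f f' : ℝ → ℂ) (G G' : E d → ℂ) :
    bip (pro f G) (pro f' G') = (∫ s in (0 : ℝ)..1, f s * conj (f' s)) * bip G G' := by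
  unfold bip
  have hvp := volume_preserving_piFinSuccAbove (fun _ : Fin (d + 1) => ℝ) 0
  have h3 := (hvp.symm).setIntegral_preimage_emb
    (MeasurableEquiv.measurableEmbedding _)
    (fun s : E (d + 1) => pro f G s * conj (pro f' G' s)) (Set.Icc (0 : E (d + 1)) 1)
  have h4 : ((MeasurableEquiv.piFinSuccAbove (fun _ : Fin (d + 1) => ℝ) 0).symm ⁻¹'
      Set.Icc (0 : E (d + 1)) 1) = Set.Icc (0 : ℝ) 1 ×ˢ Set.Icc (0 : E d) 1 := by
    ext q
    simp only [Set.mem_preimage, Set.mem_Icc, Set.mem_prod, Pi.le_def]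
    constructor
    · rintro ⟨h5, h6⟩
      refine ⟨⟨?_, ?_⟩, fun i => ?_, fun i => ?_⟩
      · simpa using h5 0
      · simpa using h6 0
      · simpa using h5 i.succ
      · simpa using h6 i.succ
    · rintro ⟨⟨h5, h6⟩, h7, h8⟩
      refine ⟨fun j => ?_, fun j => ?_⟩
      · refine Fin.cases ?_ (fun i => ?_) j
        · simpa using h5
        · simpa using h7 i
      · refine Fin.cases ?_ (fun i => ?_) j
        · simpa using h6
        · simpa using h8 i
  rw [h4] at h3
  rw [← h3, Measure.volume_eq_prod, ← Measure.prod_restrict,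
    intervalIntegral.integral_of_le zero_le_one, ← integral_Icc_eq_integral_Ioc,
    ← integral_prod_mul]
  congr 1
  funext q
  have e1 : ((MeasurableEquiv.piFinSuccAbove (fun _ : Fin (d + 1) => ℝ) 0).symm q) =
      (Fin.cons q.1 q.2 : E (d + 1)) := by
    simp
    rfl
  rw [e1]
  simp only [pro, Fin.cons_zero, Fin.tail_cons, map_mul]
  ring

/-- a family of functions amplitude times plane waves -/
structure Fam (d : ℕ) (a : E d → ℝ) (b : Fin d → E d → ℝ) (len : Fin d → ℝ)
    (F : (Fin d → ℤ) → E d → ℂ) : Prop where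
  smooth : ∀ k, ContDiff ℝ ((⊤ : ℕ∞) : WithTop ℕ∞) (F k)
  pos : ∀ j, 0 < len j
  ph : ∀ k s, ∃ z : ℂ, ‖z‖ = 1 ∧ F k s = (a s : ℂ) * z / ((Real.sqrt (∏ j, len j) : ℝ) : ℂ) ∧
    ∀ j, HasDerivAt (fun t : ℝ => F k (Function.update s j t))
      (((b j s : ℂ) + (2 * Real.pi * k j / len j * a s : ℝ) * Complex.I) * z /
        ((Real.sqrt (∏ j, len j) : ℝ) : ℂ)) (s j)

/-- products of families -/
theorem Fam.prod {d : ℕ} {a : E d → ℝ} {b : Fin d → E d → ℝ} {len : Fin d → ℝ}
    {F : (Fin d → ℤ) → E d → ℂ} (H : Fam d a b len F) {f : ℤ → ℝ → ℂ} {α β : ℝ → ℝ} {l : ℝ}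
    (hl : 0 < l) (hf : ∀ k, ContDiff ℝ ((⊤ : ℕ∞) : WithTop ℕ∞) (f k))
    (hph : ∀ k s, ∃ z : ℂ, ‖z‖ = 1 ∧ f k s = (α s : ℂ) * z / ((Real.sqrt l : ℝ) : ℂ) ∧
      HasDerivAt (f k) ((((β s : ℝ) : ℂ) + (2 * Real.pi * k / l * α s : ℝ) * Complex.I) * z /
        ((Real.sqrt l : ℝ) : ℂ)) s) :
    Fam (d + 1) (fun s => α (s 0) * a (Fin.tail s))
      (Fin.cons (fun s => β (s 0) * a (Fin.tail s)) (fun j s => α (s 0) * b j (Fin.tail s)))
      (Fin.cons l len) (fun k => pro (f (k 0)) (F (Fin.tail k))) := by
  refine ⟨fun k => ?_, fun j => ?_, fun k s => ?_⟩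
  · apply ContDiff.mul
    · exact (hf _).comp (contDiff_apply ℝ ℝ 0)
    · apply (H.smooth _).comp
      rw [contDiff_pi]
      intro j
      exact contDiff_apply ℝ ℝ j.succ
  · refine Fin.cases ?_ (fun i => ?_) j
    · simpa using hl
    · simpa using H.pos i
  · obtain ⟨z, hz, hz1, hz2⟩ := hph (k 0) (s 0)
    obtain ⟨z', hz', hz1', hz2'⟩ := H.ph (Fin.tail k) (Fin.tail s)
    have hsq : ((Real.sqrt (∏ j, (Fin.cons l len : Fin (d + 1) → ℝ) j) : ℝ) : ℂ) =
        ((Real.sqrt l : ℝ) : ℂ) * ((Real.sqrt (∏ j, len j) : ℝ) : ℂ) := by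
      rw [Fin.prod_univ_succ]
      simp only [Fin.cons_zero, Fin.cons_succ]
      rw [Real.sqrt_mul hl.le]
      push_cast
      rfl
    have h1 : ((Real.sqrt l : ℝ) : ℂ) ≠ 0 := by
      exact_mod_cast (Real.sqrt_pos.2 hl).ne'
    have h2 : ((Real.sqrt (∏ j, len j) : ℝ) : ℂ) ≠ 0 := by
      exact_mod_cast (Real.sqrt_pos.2 (Finset.prod_pos fun j _ => H.pos j)).ne'
    refine ⟨z * z', by rw [norm_mul, hz, hz', one_mul], ?_, fun j => ?_⟩
    · rw [hsq]
      simp only [pro, hz1, hz1']
      push_cast
      field_simp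
    · rw [hsq]
      refine Fin.cases ?_ (fun i => ?_) j
      · have e1 : (fun t : ℝ => pro (f (k 0)) (F (Fin.tail k)) (Function.update s 0 t)) =
            fun t => f (k 0) t * F (Fin.tail k) (Fin.tail s) := by
          funext t
          unfold pro
          rw [Function.update_self, Fin.tail_update_zero]
        rw [e1]
        have := hz2.mul_const (F (Fin.tail k) (Fin.tail s))
        refine this.congr_deriv ?_
        simp only [Fin.cons_zero, hz1']
        push_cast
        field_simp
      · have e1 : (fun t : ℝ => pro (f (k 0)) (F (Fin.tail k)) (Function.update s i.succ t)) =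
            fun t => f (k 0) (s 0) * F (Fin.tail k) (Function.update (Fin.tail s) i t) := by
          funext t
          unfold pro
          rw [Function.update_of_ne (Fin.succ_ne_zero i).symm, Fin.tail_update_succ]
        rw [e1]
        have h3 := (hz2' i).const_mul (f (k 0) (s 0))
        have e2 : s i.succ = Fin.tail s i := rfl
        rw [e2]
        refine h3.congr_deriv ?_
        simp only [Fin.cons_succ, hz1]
        have e3 : Fin.tail k i = k i.succ := rfl
        rw [e3]
        push_cast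
        field_simp

/-- plane waves -/
def PW : (d : ℕ) → (Fin d → ℤ) → E d → ℂ
  | 0 => fun _ _ => 1
  | (d + 1) => fun k => pro (fun s => Complex.exp ((2 * Real.pi * k 0 * s : ℝ) * Complex.I))
      (PW d (Fin.tail k))

theorem pw_one (k : ℤ) (s : ℝ) : ∃ z : ℂ, ‖z‖ = 1 ∧
    Complex.exp ((2 * Real.pi * k * s : ℝ) * Complex.I) = ((1 : ℝ) : ℂ) * z /
      ((Real.sqrt 1 : ℝ) : ℂ) ∧
    HasDerivAt (fun s : ℝ => Complex.exp ((2 * Real.pi * k * s : ℝ) * Complex.I))
      ((((0 : ℝ) : ℂ) + (2 * Real.pi * k / 1 * 1 : ℝ) * Complex.I) * z /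
        ((Real.sqrt 1 : ℝ) : ℂ)) s := by
  refine ⟨Complex.exp ((2 * Real.pi * k * s : ℝ) * Complex.I), ?_, ?_, ?_⟩
  · exact Complex.norm_exp_ofReal_mul_I _
  · simp
  · have h1 : HasDerivAt (fun s : ℝ => ((2 * Real.pi * k * s : ℝ) : ℂ) * Complex.I)
        (((2 * Real.pi * k : ℝ) : ℂ) * Complex.I) s := by
      have : HasDerivAt (fun s : ℝ => (2 * Real.pi * k * s : ℝ)) (2 * Real.pi * k) s := by
        simpa using (hasDerivAt_id s).const_mul (2 * Real.pi * k)
      exact this.ofReal_comp.mul_const _
    have h2 := h1.cexp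
    convert h2 using 1
    simp
    ring

theorem pw_int (k k' : ℤ) : ∫ s in (0 : ℝ)..1, Complex.exp ((2 * Real.pi * k * s : ℝ) * Complex.I) *
    conj (Complex.exp ((2 * Real.pi * k' * s : ℝ) * Complex.I)) = if k = k' then 1 else 0 := by
  have h1 : ∀ s : ℝ, Complex.exp ((2 * Real.pi * k * s : ℝ) * Complex.I) *
      conj (Complex.exp ((2 * Real.pi * k' * s : ℝ) * Complex.I)) =
      Complex.exp ((2 * Real.pi * (k - k' : ℤ) * Complex.I) * s) := by
    intro s
    rw [← Complex.exp_conj, ← Complex.exp_add]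
    congr 1
    simp only [map_mul, Complex.conj_ofReal, Complex.conj_I]
    push_cast
    ring
  simp_rw [h1]
  split_ifs with h
  · rw [h]
    simp
  · have h2 : (2 * Real.pi * (k - k' : ℤ) * Complex.I : ℂ) ≠ 0 := by
      have : ((k - k' : ℤ) : ℂ) ≠ 0 := by
        exact_mod_cast sub_ne_zero.2 h
      have hpi : (Real.pi : ℂ) ≠ 0 := by exact_mod_cast Real.pi_ne_zero
      exact mul_ne_zero (mul_ne_zero (mul_ne_zero two_ne_zero hpi) this) Complex.I_ne_zero
    rw [integral_exp_mul_complex h2]
    have h3 : Complex.exp (2 * Real.pi * (k - k' : ℤ) * Complex.I * (1 : ℝ)) = 1 := by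
      rw [Complex.exp_eq_one_iff]
      exact ⟨k - k', by push_cast; ring⟩
    rw [h3]
    simp

theorem PW_fam (d : ℕ) : Fam d (fun _ => 1) (fun _ _ => 0) (fun _ => 1) (PW d) := by
  induction d with
  | zero =>
    refine ⟨fun k => contDiff_const, fun j => Fin.elim0 j, fun k s => ⟨1, by simp, by simp [PW],
      fun j => Fin.elim0 j⟩⟩
  | succ d ih =>
    have h := ih.prod (f := fun k s => Complex.exp ((2 * Real.pi * k * s : ℝ) * Complex.I))
      (α := fun _ => 1) (β := fun _ => 0) (l := 1) one_pos (fun k => by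
        apply ContDiff.cexp
        apply ContDiff.mul _ contDiff_const
        apply Complex.ofRealCLM.contDiff.comp
        exact contDiff_const.mul contDiff_id) (fun k s => pw_one k s)
    convert h using 1
    · funext s
      simp
    · funext j s
      refine Fin.cases ?_ (fun i => ?_) j <;> simp
    · funext j
      refine Fin.cases ?_ (fun i => ?_) j <;> simp
    · rfl

theorem PW_bip (d : ℕ) (k k' : Fin d → ℤ) : bip (PW d k) (PW d k') = if k = k' then 1 else 0 := by
  induction d with
  | zero =>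
    rw [bip_zero, if_pos (Subsingleton.elim _ _)]
    simp [PW]
  | succ d ih =>
    change bip (pro _ _) (pro _ _) = _
    rw [bip_pro, pw_int, ih]
    by_cases h0 : k 0 = k' 0
    · by_cases h1 : Fin.tail k = Fin.tail k'
      · have : k = k' := by
          rw [← Fin.cons_self_tail k, ← Fin.cons_self_tail k', h0, h1]
        simp [h0, h1, this]
      · have : k ≠ k' := fun h => h1 (by rw [h])
        simp [h1, this]
    · have : k ≠ k' := fun h => h0 (by rw [h])
      simp [h0, this]

/-- neighbourhood of the skeleton -/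
def Sk (d J : ℕ) (p : ℝ) : Set (E d) :=
  {s | ∃ j : Fin d, ∃ i : ℕ, i ≤ J ∧ |s j - i / J| < 2 * p / J}

/-- the properties of the window system -/
structure SysP (d N J : ℕ) (p lam C : ℝ) {ι : Type} [Fintype ι] [DecidableEq ι]
    (a : ι → E d → ℝ) (b : ι → Fin d → E d → ℝ) (len : ι → Fin d → ℝ) (n : ι → ℕ)
    (F : ι → (Fin d → ℤ) → E d → ℂ) (cell : ι → Prop) : Prop where
  fam : ∀ c, Fam d (a c) (b c) (len c) (F c)
  lenb : ∀ c j, lam ≤ len c j ∧ len c j ≤ 1
  hn : ∀ c, (n c : ℝ) = N * ∏ j, len c j
  hsum : ∑ c, n c = N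
  on : ∀ c c' k k', bip (F c k) (F c' k') = if c = c' ∧ k = k' then 1 else 0
  ab : ∀ c s, |a c s| ≤ 1
  bb : ∀ c j s, |b c j s| ≤ C
  part : ∀ s ∈ Set.Icc (0 : E d) 1, ∑ c, a c s ^ 2 = 1
  cell_dist : ∀ c, cell c → ∀ s s', a c s ≠ 0 → a c s' ≠ 0 → dist s s' ≤ 1 / J
  skel_sub : ∀ c, ¬ cell c → ∀ s, a c s ≠ 0 → s ∈ Sk d J p

theorem exists_sys (hw : S_win) {J : ℕ} (hJ : 0 < J) {p : ℝ} (hp : 0 < p) (hp4 : p ≤ 1 / 4) :
    ∃ lam C : ℝ, 0 < lam ∧ 0 ≤ C ∧ ∀ d : ℕ, ∃ (ι : Type) (_ : Fintype ι) (_ : DecidableEq ι)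
      (N₀ : ℕ), ∀ N : ℕ, N₀ ≤ N → ∃ (a : ι → E d → ℝ) (b : ι → Fin d → E d → ℝ)
        (len : ι → Fin d → ℝ) (n : ι → ℕ) (F : ι → (Fin d → ℤ) → E d → ℂ) (cell : ι → Prop),
        SysP d N J p lam C a b len n F cell := by
  obtain ⟨hw1, hw2, ⟨C0, hC0, hw3⟩, hw4, hw5⟩ := hw
  have hJr : (0 : ℝ) < J := by exact_mod_cast hJ
  have hJ1 : (1 : ℝ) ≤ J := by exact_mod_cast hJ
  refine ⟨min (1 / (2 * J)) p, C0 * J / p, lt_min (by positivity) hp, by positivity, fun d => ?_⟩
  induction d with
  | zero =>
    refine ⟨Unit, inferInstance, inferInstance, 0, fun N _ => ⟨fun _ _ => 1, fun _ _ _ => 0,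
      fun _ _ => 1, fun _ => N, fun _ => PW 0, fun _ => True, ?_⟩⟩
    refine ⟨fun c => PW_fam 0, fun c j => Fin.elim0 j, fun c => by simp, by simp, ?_,
      fun c s => by simp, fun c j => Fin.elim0 j, fun s hs => by simp, ?_,
      fun c hc => absurd trivial hc⟩
    · intro c c' k k'
      rw [PW_bip]
      simp
    · intro c _ s s' _ _
      rw [Subsingleton.elim s s', dist_self]
      positivity
  | succ d ih =>
    obtain ⟨ι, _, _, M₀, hM⟩ := ih
    refine ⟨Option (Fin J × ι), inferInstance, inferInstance,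
      max (2 * J * (M₀ + 1)) (⌈(4 * J) / p⌉₊ + 1), fun N hN => ?_⟩
    have hN1 : 2 * J * (M₀ + 1) ≤ N := le_trans (le_max_left _ _) hN
    have hN2 : ⌈(4 * J) / p⌉₊ + 1 ≤ N := le_trans (le_max_right _ _) hN
    have hN3 : (4 * J) / p ≤ N := by
      have : (⌈(4 * J) / p⌉₊ : ℝ) ≤ N := by exact_mod_cast (by omega : ⌈(4 * (J : ℝ)) / p⌉₊ ≤ N)
      exact (Nat.le_ceil _).trans this
    have hN0 : 0 < N := by omega
    have hNr : (0 : ℝ) < N := by exact_mod_cast hN0
    have hN4 : (J : ℝ) / N ≤ p / 4 := by
      rw [div_le_iff₀ hNr]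
      rw [div_le_iff₀ hp] at hN3
      linarith
    -- the number of orbitals in a cell
    set N1 : ℕ := ⌊(1 - p) * N / J⌋₊ with hN1d
    have hpos : 0 ≤ (1 - p) * N / J := div_nonneg (mul_nonneg (by linarith) hNr.le) hJr.le
    have f1 : (N1 : ℝ) ≤ (1 - p) * N / J := Nat.floor_le hpos
    have f2 : (1 - p) * N / J < N1 + 1 := Nat.lt_floor_add_one _
    have f1' : (N1 : ℝ) * J ≤ (1 - p) * N := by rwa [le_div_iff₀ hJr] at f1
    have f2' : (1 - p) * N < (N1 + 1) * J := by rwa [div_lt_iff₀ hJr] at f2
    have hN1J : J * N1 ≤ N := by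
      have : ((J * N1 : ℕ) : ℝ) ≤ N := by
        push_cast
        nlinarith
      exact_mod_cast this
    set u : ℝ := 1 / J - N1 / N with hu
    have hlen : 1 / (J : ℝ) - u = N1 / N := by rw [hu]; ring
    -- bounds on `u`
    have hJu : J * u = 1 - J * N1 / N := by
      rw [hu]
      field_simp
    have hu1 : p ≤ J * u := by
      rw [hJu]
      have : (J : ℝ) * N1 / N ≤ 1 - p := by
        rw [div_le_iff₀ hNr]
        linarith
      linarith
    have hu2 : J * u ≤ p + J / N := by
      rw [hJu]
      have : 1 - p - J / N ≤ (J : ℝ) * N1 / N := by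
        rw [le_div_iff₀ hNr, sub_mul, div_mul_cancel₀ _ hNr.ne']
        linarith
      linarith
    have hu2' : J * u ≤ 2 * p := by linarith
    have hupos : 0 < u := by
      by_contra h
      push Not at h
      nlinarith
    have hu3 : 2 * u ≤ 1 / J := by
      rw [le_div_iff₀ hJr]
      linarith
    have hup : u ≤ 2 * p / J := by
      rw [le_div_iff₀ hJr]
      linarith
    have hpu : 1 / u ≤ J / p := by
      rw [div_le_div_iff₀ hupos hp]
      linarith
    -- lower bound on the number of orbitals in a cell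
    have hl1 : 1 / (2 * J) ≤ (N1 : ℝ) / N := by
      rw [← hlen]
      have : 1 / (2 * J : ℝ) = 1 / J - 1 / (2 * J) := by
        field_simp
        ring
      rw [this]
      have h2 : u ≤ 1 / (2 * J) := by
        rw [le_div_iff₀ (by positivity)]
        linarith
      linarith
    have hl0 : (0 : ℝ) < N1 / N := lt_of_lt_of_le (by positivity) hl1
    have hl2 : (N1 : ℝ) / N ≤ 1 := by
      rw [div_le_one hNr]
      have : N1 ≤ N := le_trans (Nat.le_mul_of_pos_left _ hJ) hN1J
      exact_mod_cast this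
    have hM1 : M₀ ≤ N1 := by
      rw [div_le_div_iff₀ (by positivity) hNr] at hl1
      have : (N : ℝ) ≤ N1 * (2 * J) := by linarith
      have h3 : N ≤ N1 * (2 * J) := by exact_mod_cast this
      have h4 : 2 * J * (M₀ + 1) ≤ 2 * J * N1 := by
        calc 2 * J * (M₀ + 1) ≤ N := hN1
          _ ≤ N1 * (2 * J) := h3
          _ = 2 * J * N1 := by ring
      have := Nat.le_of_mul_le_mul_left h4 (by positivity)
      omega
    obtain ⟨a', b', len', n', F', cell', H⟩ := hM N1 hM1
    obtain ⟨w1, w2, w3, w4, w5, w6⟩ := hw1 J u hJ hupos hu3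
    have w7 := hw3 J u (1 / J - u)
    refine ⟨fun c => match c with
        | none => fun s => Bf J u (s 0) * 1
        | some (i, c) => fun s => Wf u (1 / J - u) (s 0 - (i : ℕ) / J) * a' c (Fin.tail s),
      fun c => match c with
        | none => Fin.cons (fun s => deriv (Bf J u) (s 0) * 1) (fun j s => Bf J u (s 0) * 0)
        | some (i, c) => Fin.cons (fun s => deriv (Wf u (1 / J - u)) (s 0 - (i : ℕ) / J) *
            a' c (Fin.tail s))
            (fun j s => Wf u (1 / J - u) (s 0 - (i : ℕ) / J) * b' c j (Fin.tail s)),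
      fun c => match c with
        | none => Fin.cons (J * u) (fun _ => 1)
        | some (i, c) => Fin.cons (1 / J - u) (len' c),
      fun c => match c with
        | none => N - J * N1
        | some (i, c) => n' c,
      fun c => match c with
        | none => fun k => pro (skel J u (k 0)) (PW d (Fin.tail k))
        | some (i, c) => fun k => pro (bulk J u i (k 0)) (F' c (Fin.tail k)),
      fun c => match c with
        | none => False
        | some (i, c) => cell' c, ?_⟩
    refine ⟨?_, ?_, ?_, ?_, ?_, ?_, ?_, ?_, ?_, ?_⟩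
    · -- families
      rintro (_ | ⟨i, c⟩)
      · exact (PW_fam d).prod (f := fun k => skel J u k) (α := Bf J u)
          (β := deriv (Bf J u)) (l := J * u) (by positivity) (fun k => (hw2 J u 0 0 k).2.2.2)
          (fun k s => w6 k s)
      · exact (H.fam c).prod (f := fun k => bulk J u i k)
          (α := fun s => Wf u (1 / J - u) (s - (i : ℕ) / J))
          (β := fun s => deriv (Wf u (1 / J - u)) (s - (i : ℕ) / J)) (l := 1 / J - u)
          (by rw [hlen]; exact hl0) (fun k => (hw2 J u 0 i k).2.2.1)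
          (fun k s => w5 i k s)
    · -- lengths
      rintro (_ | ⟨i, c⟩) j
      · refine Fin.cases ?_ (fun j => ?_) j
        · simp only [Fin.cons_zero]
          exact ⟨(min_le_right _ _).trans hu1, by linarith⟩
        · simp only [Fin.cons_succ]
          exact ⟨(min_le_right _ _).trans (by linarith), le_refl _⟩
      · refine Fin.cases ?_ (fun j => ?_) j
        · simp only [Fin.cons_zero]
          rw [hlen]
          exact ⟨(min_le_left _ _).trans hl1, hl2⟩
        · simp only [Fin.cons_succ]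
          exact H.lenb c j
    · -- numbers
      rintro (_ | ⟨i, c⟩)
      · simp only [Fin.prod_univ_succ, Fin.cons_zero, Fin.cons_succ, Finset.prod_const_one, mul_one]
        rw [Nat.cast_sub hN1J, hJu]
        push_cast
        field_simp
      · simp only [Fin.prod_univ_succ, Fin.cons_zero, Fin.cons_succ]
        rw [H.hn c, hlen]
        field_simp
    · -- total number
      rw [Fintype.sum_option, Fintype.sum_prod_type]
      simp only [H.hsum, Finset.sum_const, Finset.card_univ, Fintype.card_fin, smul_eq_mul]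
      omega
    · -- orthonormality
      rintro (_ | ⟨i, c⟩) (_ | ⟨i', c'⟩) k k'
      · simp only
        rw [bip_pro, w3, PW_bip]
        simp only [true_and]
        by_cases h0 : k 0 = k' 0
        · by_cases h1 : Fin.tail k = Fin.tail k'
          · have : k = k' := by
              rw [← Fin.cons_self_tail k, ← Fin.cons_self_tail k', h0, h1]
            simp [h0, h1, this]
          · have : k ≠ k' := fun h => h1 (by rw [h])
            simp [h1, this]
        · have : k ≠ k' := fun h => h0 (by rw [h])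
          simp [h0, this]
      · simp only
        rw [bip_pro]
        have h1 := w2 i' i'.2 (k' 0) (k 0)
        have h2 : ∫ s in (0 : ℝ)..1, skel J u (k 0) s * conj (bulk J u i' (k' 0) s) =
            conj (∫ s in (0 : ℝ)..1, bulk J u i' (k' 0) s * conj (skel J u (k 0) s)) := by
          rw [intervalIntegral.integral_of_le zero_le_one,
            intervalIntegral.integral_of_le zero_le_one, ← integral_conj]
          congr 1
          funext s
          simp [mul_comm]
        rw [h2, h1]
        simp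
      · simp only
        rw [bip_pro, w2 i i.2 (k 0) (k' 0)]
        simp
      · simp only
        rw [bip_pro, w1 i i.2 i' i'.2, H.on]
        by_cases h0 : k 0 = k' 0
        · by_cases h1 : Fin.tail k = Fin.tail k'
          · have h3 : k = k' := by
              rw [← Fin.cons_self_tail k, ← Fin.cons_self_tail k', h0, h1]
            by_cases hi : i = i'
            · by_cases hc : c = c'
              · simp [h0, h1, h3, hi, hc]
              · simp [hc]
            · have : (i : ℕ) ≠ i' := fun h => hi (Fin.ext h)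
              simp [this, hi]
          · have : k ≠ k' := fun h => h1 (by rw [h])
            simp [h1, this]
        · have : k ≠ k' := fun h => h0 (by rw [h])
          simp [h0, this]
    · -- amplitudes
      rintro (_ | ⟨i, c⟩) s
      · simp only [mul_one]
        exact (w7 (s 0) hJ hupos hu3).2.1
      · simp only
        rw [abs_mul]
        exact mul_le_one₀ (w7 _ hJ hupos hu3).1 (abs_nonneg _) (H.ab c _)
    · -- derivatives
      have hCu : C0 / u ≤ C0 * J / p := by
        calc C0 / u = C0 * (1 / u) := by ring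
          _ ≤ C0 * (J / p) := mul_le_mul_of_nonneg_left hpu hC0.le
          _ = C0 * J / p := by ring
      rintro (_ | ⟨i, c⟩) j s
      · refine Fin.cases ?_ (fun j => ?_) j
        · simp only [Fin.cons_zero, mul_one]
          exact (w7 (s 0) hJ hupos hu3).2.2.2.trans hCu
        · simp only [Fin.cons_succ, mul_zero, abs_zero]
          positivity
      · refine Fin.cases ?_ (fun j => ?_) j
        · simp only [Fin.cons_zero]
          rw [abs_mul]
          calc |deriv (Wf u (1 / J - u)) (s 0 - (i : ℕ) / J)| * |a' c (Fin.tail s)|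
              ≤ (C0 / u) * 1 := mul_le_mul (w7 _ hJ hupos hu3).2.2.1 (H.ab c _) (abs_nonneg _)
                (by positivity)
            _ ≤ C0 * J / p := by rw [mul_one]; exact hCu
        · simp only [Fin.cons_succ]
          rw [abs_mul]
          calc |Wf u (1 / J - u) (s 0 - (i : ℕ) / J)| * |b' c j (Fin.tail s)|
              ≤ 1 * (C0 * J / p) := mul_le_mul (w7 _ hJ hupos hu3).1 (H.bb c j _) (abs_nonneg _)
                zero_le_one
            _ = C0 * J / p := one_mul _
    · -- partition of unity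
      intro s hs
      rw [Fintype.sum_option, Fintype.sum_prod_type]
      have hs0 : s 0 ∈ Set.Icc (0 : ℝ) 1 := ⟨hs.1 0, hs.2 0⟩
      have hst : Fin.tail s ∈ Set.Icc (0 : E d) 1 :=
        ⟨fun j => hs.1 j.succ, fun j => hs.2 j.succ⟩
      have e1 := w4 (s 0) hs0
      have e2 := H.part _ hst
      simp only [mul_one, mul_pow]
      simp_rw [← Finset.mul_sum, e2, mul_one]
      rw [add_comm]
      rw [Finset.sum_range] at e1
      exact e1
    · -- cells
      rintro (_ | ⟨i, c⟩) hc s s' hs hs'
      · exact absurd hc (by simp)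
      · simp only at hs hs' hc
        have g1 : Wf u (1 / J - u) (s 0 - (i : ℕ) / J) ≠ 0 := fun h => hs (by rw [h, zero_mul])
        have g2 : Wf u (1 / J - u) (s' 0 - (i : ℕ) / J) ≠ 0 := fun h => hs' (by rw [h, zero_mul])
        have g3 : a' c (Fin.tail s) ≠ 0 := fun h => hs (by rw [h, mul_zero])
        have g4 : a' c (Fin.tail s') ≠ 0 := fun h => hs' (by rw [h, mul_zero])
        have hul : u ≤ 1 / J - u := by linarith
        have k1 := hw4 u (1 / J - u) _ hupos hul g1
        have k2 := hw4 u (1 / J - u) _ hupos hul g2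
        have k3 := H.cell_dist c hc _ _ g3 g4
        rw [dist_pi_le_iff (by positivity)]
        intro j
        refine Fin.cases ?_ (fun j => ?_) j
        · rw [Real.dist_eq, abs_le]
          constructor <;> linarith [k1.1, k1.2, k2.1, k2.2]
        · exact (dist_le_pi_dist (Fin.tail s) (Fin.tail s') j).trans k3
    · -- skeleton
      rintro (_ | ⟨i, c⟩) hc s hs
      · simp only [mul_one] at hs
        obtain ⟨i, hi, hi2⟩ := hw5 J u (s 0) hupos hs
        exact ⟨0, i, hi, lt_of_lt_of_le hi2 hup⟩
      · simp only at hs hc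
        have g3 : a' c (Fin.tail s) ≠ 0 := fun h => hs (by rw [h, mul_zero])
        obtain ⟨j, i, hi, hi2⟩ := H.skel_sub c hc _ g3
        exact ⟨j.succ, i, hi, hi2⟩

end Pool.Agent.W564.MY
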