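import Pool.Agent.W564.MY.Orb
import Pool.Agent.W564.MY.Sys
import Pool.Agent.W564.MY.MatB

/-!
# Choice of the linear maps on the cells
-/

set_option autoImplicit false
set_option linter.unusedVariables false
set_option linter.unusedSimpArgs false
set_option linter.unusedSectionVars false

noncomputable section

namespace Pool.Agent.W564.MY

open MeasureTheory Filter Topology
open scoped ENNReal

/-- `Y` vanishes where `u` vanishes -/
theorem KD.zero {V : Type} [NormedAddCommGroup V] [NormedSpace ℝ V] [FiniteDimensional ℝ V]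
    [MeasureSpace V] [BorelSpace V] [(volume : Measure V).IsAddHaarMeasure] {d : ℕ}
    {e : Fin d → V} {u : V → ℝ} {h : V → V → ℝ} {S : V → E d}
    {Y : Fin d → V → V → ℝ} (H : HypH u h) (D : KD d e u S Y) (j : Fin d) (w : V) :
    ∀ᵐ x, u x = 0 → Y j w x = 0 := by
  have ht : Tendsto (fun n : ℕ => 1 / ((n : ℝ) + 1)) atTop (𝓝 0) :=
    tendsto_one_div_add_atTop_nhds_zero_nat
  have hmS : Measurable (fun x => S x j) := (measurable_pi_apply j).comp D.Smeas
  obtain ⟨ks, hks, hk2⟩ := exists_subseq_ae (μ := (volume : Measure V))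
    (φ := fun n x => u x * dq ((fun n : ℕ => 1 / ((n : ℝ) + 1)) n) w (fun x => S x j) x - Y j w x)
    (fun n => ((H.meas.mul (measurable_dq hmS _ _)).sub (D.Ymeas j w)).aestronglyMeasurable)
    (tendsto_seq_of (D.lim j w) (fun n => by positivity) ht)
  filter_upwards [hk2] with x hx hux
  simp only [hux, zero_mul, zero_sub] at hx
  have := tendsto_nhds_unique hx tendsto_const_nhds
  exact (neg_eq_zero.1 this.symm)

section

variable {d : ℕ} {u : E d → ℝ} {h : E d → E d → ℝ} {S : E d → E d}
  {Y : Fin d → E d → E d → ℝ}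

/-- the matrix `u · ∇S` -/
def Mx (Y : Fin d → E d → E d → ℝ) (x : E d) : Fin d → Fin d → ℝ :=
  fun j i => Y j (Pi.single i (1 : ℝ)) x

theorem measurable_fro (D : KD d (fun i => Pi.single i (1 : ℝ)) u S Y) :
    Measurable fun x => fro (Mx Y x) := by
  unfold fro Mx
  apply Finset.measurable_sum
  intro j _
  apply Finset.measurable_sum
  intro i _
  exact (D.Ymeas j _).pow_const 2

theorem measurable_qf (D : KD d (fun i => Pi.single i (1 : ℝ)) u S Y) (B : Fin d → Fin d → ℝ) :
    Measurable fun x => qf B (Mx Y x) := by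
  unfold qf Mx
  apply Finset.measurable_sum
  intro i _
  apply Finset.measurable_sum
  intro m _
  apply Measurable.pow_const
  apply Finset.measurable_sum
  intro j _
  exact (D.Ymeas j _).const_mul _

theorem lintegral_fro (D : KD d (fun i => Pi.single i (1 : ℝ)) u S Y) :
    ∫⁻ x, ENNReal.ofReal (fro (Mx Y x)) = ∑ j, ∑ i, I2 volume (Y j (Pi.single i (1 : ℝ))) := by
  have e1 : ∀ x, ENNReal.ofReal (fro (Mx Y x)) =
      ∑ j, ∑ i, ENNReal.ofReal (Y j (Pi.single i (1 : ℝ)) x ^ 2) := by
    intro x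
    unfold fro Mx
    rw [ENNReal.ofReal_sum_of_nonneg (fun j _ => Finset.sum_nonneg fun _ _ => sq_nonneg _)]
    apply Finset.sum_congr rfl
    intro j _
    rw [ENNReal.ofReal_sum_of_nonneg (fun i _ => sq_nonneg _)]
  simp_rw [e1]
  have hm : ∀ j i, Measurable fun x => ENNReal.ofReal (Y j (Pi.single i (1 : ℝ)) x ^ 2) :=
    fun j i => ((D.Ymeas j _).pow_const 2).ennreal_ofReal
  rw [lintegral_finsetSum _ (fun j _ => Finset.measurable_sum _ fun i _ => hm j i)]
  apply Finset.sum_congr rfl
  intro j _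
  rw [lintegral_finsetSum _ (fun i _ => hm j i)]
  apply Finset.sum_congr rfl
  intro i _
  rw [I2_real]

theorem lintegral_fro_lt (D : KD d (fun i => Pi.single i (1 : ℝ)) u S Y) :
    ∫⁻ x, ENNReal.ofReal (fro (Mx Y x)) < ∞ := by
  rw [lintegral_fro D]
  exact ENNReal.sum_lt_top.2 fun j _ => ENNReal.sum_lt_top.2 fun i _ => D.YL2 j _

theorem fro_zero (H : HypH u h) (D : KD d (fun i => Pi.single i (1 : ℝ)) u S Y) :
    ∀ᵐ x, u x = 0 → fro (Mx Y x) = 0 := by
  have h1 : ∀ᵐ x, ∀ j i, u x = 0 → Y j (Pi.single i (1 : ℝ)) x = 0 := by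
    rw [ae_all_iff]
    intro j
    rw [ae_all_iff]
    intro i
    exact KD.zero H D j _
  filter_upwards [h1] with x hx hux
  unfold fro Mx
  simp [hx _ _ hux]

/-- the target density -/
def tgt (u : E d → ℝ) (x : E d) : ℝ := d * (u x ^ 2) ^ (1 + 2 / (d : ℝ))

theorem tgt_eq (hd : 0 < d) (H : HypH u h) (D : KD d (fun i => Pi.single i (1 : ℝ)) u S Y) :
    ∀ᵐ x, u x ≠ 0 → 0 < (Matrix.of (Mx Y x)).det ∧
      d * (Matrix.of (Mx Y x)).det ^ (2 / (d : ℝ)) = tgt u x := by
  have hdr : (0 : ℝ) < d := by exact_mod_cast hd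
  filter_upwards [D.det] with x hx hux
  have hu0 : 0 < u x := lt_of_le_of_ne (H.nonneg x) (Ne.symm hux)
  have e1 : (Matrix.of (Mx Y x)).det = u x ^ (d + 2) := hx
  refine ⟨by rw [e1]; positivity, ?_⟩
  rw [e1, tgt]
  congr 1
  rw [← Real.rpow_natCast, ← Real.rpow_natCast, ← Real.rpow_mul hu0.le, ← Real.rpow_mul hu0.le]
  congr 1
  push_cast
  field_simp

theorem tgt_nonneg (u : E d → ℝ) (x : E d) : 0 ≤ tgt u x := by
  unfold tgt
  positivity

theorem tgt_le (hd : 0 < d) (H : HypH u h) (D : KD d (fun i => Pi.single i (1 : ℝ)) u S Y) :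
    ∀ᵐ x, tgt u x ≤ fro (Mx Y x) := by
  filter_upwards [tgt_eq hd H D] with x hx
  by_cases hux : u x = 0
  · have : tgt u x = 0 := by
      unfold tgt
      rw [hux]
      have : (1 + 2 / (d : ℝ)) ≠ 0 := by positivity
      rw [zero_pow two_ne_zero, Real.zero_rpow this, mul_zero]
    rw [this]
    exact fro_nonneg _
  · obtain ⟨h1, h2⟩ := hx hux
    rw [← h2]
    exact amgm hd _ h1.le

theorem measurable_tgt (hu : Measurable u) : Measurable (tgt u) :=
  ((hu.pow_const 2).pow_const _).const_mul _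

theorem lintegral_tgt_lt (hd : 0 < d) (H : HypH u h)
    (D : KD d (fun i => Pi.single i (1 : ℝ)) u S Y) : ∫⁻ x, ENNReal.ofReal (tgt u x) < ∞ := by
  refine lt_of_le_of_lt (lintegral_mono_ae ?_) (lintegral_fro_lt D)
  filter_upwards [tgt_le hd H D] with x hx
  exact ENNReal.ofReal_le_ofReal hx

/-- volume of the skeleton neighbourhood -/
theorem volume_Sk_le {J : ℕ} (hJ : 0 < J) {p : ℝ} (hp : 0 < p) :
    (volume.restrict (Set.Icc (0 : E d) 1)) (Sk d J p) ≤ ENNReal.ofReal (8 * d * p) := by
  have hJr : (0 : ℝ) < J := by exact_mod_cast hJ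
  have hJ1 : (1 : ℝ) ≤ J := by exact_mod_cast hJ
  have h1 : Sk d J p ⊆ ⋃ j : Fin d, ⋃ i ∈ Finset.range (J + 1),
      {s : E d | |s j - (i : ℝ) / J| < 2 * p / J} := by
    rintro s ⟨j, i, hi, hs⟩
    simp only [Set.mem_iUnion]
    exact ⟨j, i, Finset.mem_range.2 (by omega), hs⟩
  have h2 : ∀ (j : Fin d) (i : ℕ), (volume.restrict (Set.Icc (0 : E d) 1))
      {s : E d | |s j - (i : ℝ) / J| < 2 * p / J} ≤ ENNReal.ofReal (4 * p / J) := by
    intro j i
    have hm : MeasurableSet {s : E d | |s j - (i : ℝ) / J| < 2 * p / J} := by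
      apply measurableSet_lt _ measurable_const
      exact (((measurable_pi_apply j).sub_const _)).abs
    rw [Measure.restrict_apply hm]
    have h3 : {s : E d | |s j - (i : ℝ) / J| < 2 * p / J} ∩ Set.Icc (0 : E d) 1 ⊆
        Set.univ.pi (fun k => if k = j then Set.Ioo ((i : ℝ) / J - 2 * p / J) ((i : ℝ) / J + 2 * p / J)
          else Set.Icc (0 : ℝ) 1) := by
      rintro s ⟨hs1, hs2⟩ k _
      by_cases hk : k = j
      · subst hk
        simp only [if_true]
        have hs1' : |s k - (i : ℝ) / J| < 2 * p / J := hs1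
        rw [abs_lt] at hs1'
        constructor <;> linarith [hs1'.1, hs1'.2]
      · simp only [hk, if_false]
        exact ⟨hs2.1 k, hs2.2 k⟩
    refine (measure_mono h3).trans ?_
    rw [volume_pi_pi]
    rw [← Finset.mul_prod_erase Finset.univ _ (Finset.mem_univ j)]
    have h4 : ∏ k ∈ Finset.univ.erase j, volume (if k = j then
        Set.Ioo ((i : ℝ) / J - 2 * p / J) ((i : ℝ) / J + 2 * p / J) else Set.Icc (0 : ℝ) 1) = 1 := by
      apply Finset.prod_eq_one
      intro k hk
      rw [if_neg (Finset.ne_of_mem_erase hk)]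
      simp
    rw [h4, if_pos rfl, mul_one, Real.volume_Ioo]
    apply le_of_eq
    congr 1
    ring
  calc (volume.restrict (Set.Icc (0 : E d) 1)) (Sk d J p)
      ≤ (volume.restrict (Set.Icc (0 : E d) 1)) (⋃ j : Fin d, ⋃ i ∈ Finset.range (J + 1),
        {s : E d | |s j - (i : ℝ) / J| < 2 * p / J}) := measure_mono h1
    _ ≤ ∑ j : Fin d, (volume.restrict (Set.Icc (0 : E d) 1)) (⋃ i ∈ Finset.range (J + 1),
        {s : E d | |s j - (i : ℝ) / J| < 2 * p / J}) := by
          refine (measure_iUnion_le _).trans ?_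
          rw [tsum_fintype]
    _ ≤ ∑ j : Fin d, ∑ i ∈ Finset.range (J + 1), ENNReal.ofReal (4 * p / J) := by
          apply Finset.sum_le_sum
          intro j _
          refine (measure_biUnion_finset_le _ _).trans ?_
          exact Finset.sum_le_sum fun i _ => h2 j i
    _ = ENNReal.ofReal (d * ((J + 1) * (4 * p / J))) := by
          simp only [Finset.sum_const, Finset.card_univ, Fintype.card_fin, Finset.card_range,
            nsmul_eq_mul]
          rw [ENNReal.ofReal_mul (by positivity), ENNReal.ofReal_mul (by positivity)]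
          congr 1
          · simp
          · congr 1
            rw [ENNReal.ofReal_add (by positivity) (by norm_num)]
            simp
    _ ≤ ENNReal.ofReal (8 * d * p) := by
          apply ENNReal.ofReal_le_ofReal
          have h5 : (J + 1) * (4 * p / J) ≤ 8 * p := by
            have : (J + 1) * (4 * p / J) = 4 * p + 4 * p / J := by
              field_simp
            rw [this]
            have : 4 * p / J ≤ 4 * p := div_le_self (by positivity) hJ1
            linarith
          have := mul_le_mul_of_nonneg_left h5 (Nat.cast_nonneg (α := ℝ) d)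
          linarith

theorem measurableSet_Sk {J : ℕ} {p : ℝ} : MeasurableSet (Sk d J p) := by
  have h1 : Sk d J p = ⋃ j : Fin d, ⋃ i : ℕ, ({s : E d | i ≤ J} ∩
      {s : E d | |s j - (i : ℝ) / J| < 2 * p / J}) := by
    ext s
    simp only [Sk, Set.mem_iUnion, Set.mem_inter_iff, Set.mem_ofPred_eq]
  rw [h1]
  apply MeasurableSet.iUnion
  intro j
  apply MeasurableSet.iUnion
  intro i
  apply MeasurableSet.inter
  · exact MeasurableSet.const _
  · apply measurableSet_lt _ measurable_const
    exact (((measurable_pi_apply j).sub_const _)).abs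

end

end Pool.Agent.W564.MY
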