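import Pool.Agent.W564.MY.Cells

/-!
# Choice of the linear maps on the cells: main lemma
-/

set_option autoImplicit false
set_option linter.unusedVariables false
set_option linter.unusedSimpArgs false
set_option linter.unusedSectionVars false

noncomputable section

namespace Pool.Agent.W564.MY

open MeasureTheory Filter Topology
open scoped ENNReal

variable {d : ℕ} {u : E d → ℝ} {h : E d → E d → ℝ} {S : E d → E d}
  {Y : Fin d → E d → E d → ℝ}

/-- minimum over the first matrices -/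
def Qm (Bs : ℕ → Fin d → Fin d → ℝ) (Y : Fin d → E d → E d → ℝ) (m : ℕ) (x : E d) : ℝ≥0∞ :=
  ⨅ n : Fin (m + 1), ENNReal.ofReal (qf (Bs n) (Mx Y x))

theorem measurable_Qm (D : KD d (fun i => Pi.single i (1 : ℝ)) u S Y)
    (Bs : ℕ → Fin d → Fin d → ℝ) (m : ℕ) : Measurable (Qm Bs Y m) :=
  Measurable.iInf fun n => (measurable_qf D _).ennreal_ofReal

theorem Qm_anti (Bs : ℕ → Fin d → Fin d → ℝ) : Antitone (Qm Bs Y) := by
  intro m m' hmm x
  refine le_iInf fun n => ?_
  exact iInf_le (fun n : Fin (m' + 1) => ENNReal.ofReal (qf (Bs n) (Mx Y x)))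
    ⟨n, by omega⟩

/-- the integral of the minimum converges -/
theorem exists_m (hd : 0 < d) (H : HypH u h) (D : KD d (fun i => Pi.single i (1 : ℝ)) u S Y)
    {Bs : ℕ → Fin d → Fin d → ℝ} (hB0 : Bs 0 = (fun i j => if i = j then 1 else 0))
    (hBs : ∀ M : Fin d → Fin d → ℝ, 0 < (Matrix.of M).det → ∀ η : ℝ, 0 < η →
      ∃ n, qf (Bs n) M < d * (Matrix.of M).det ^ (2 / (d : ℝ)) + η) {ε : ℝ≥0∞} (hε : ε ≠ 0) :
    ∃ m, ∫⁻ x, Qm Bs Y m x ≤ (∫⁻ x, ENNReal.ofReal (tgt u x)) + ε := by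
  have hfin : ∫⁻ x, Qm Bs Y 0 x ≠ ∞ := by
    have : ∫⁻ x, Qm Bs Y 0 x ≤ ∫⁻ x, ENNReal.ofReal (fro (Mx Y x)) := by
      apply lintegral_mono
      intro x
      refine (iInf_le _ (0 : Fin 1)).trans ?_
      simp only [Fin.val_zero, hB0, qf_one]
      exact le_refl _
    exact (lt_of_le_of_lt this (lintegral_fro_lt D)).ne
  have h1 := lintegral_iInf (μ := (volume : Measure (E d))) (f := Qm Bs Y)
    (fun m => measurable_Qm D Bs m) (Qm_anti Bs) hfin
  have h2 : ∫⁻ x, ⨅ m, Qm Bs Y m x ≤ ∫⁻ x, ENNReal.ofReal (tgt u x) := by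
    apply lintegral_mono_ae
    filter_upwards [tgt_eq hd H D, fro_zero H D] with x hx hx2
    by_cases hux : u x = 0
    · have h3 : ⨅ m, Qm Bs Y m x ≤ 0 := by
        refine (iInf_le _ 0).trans ((iInf_le _ (0 : Fin 1)).trans ?_)
        simp only [Fin.val_zero, hB0, qf_one, hx2 hux]
        simp
      exact h3.trans zero_le
    · obtain ⟨h4, h5⟩ := hx hux
      refine ENNReal.le_of_forall_pos_le_add fun η hη _ => ?_
      obtain ⟨n, hn⟩ := hBs _ h4 η (by exact_mod_cast hη)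
      rw [h5] at hn
      calc ⨅ m, Qm Bs Y m x ≤ Qm Bs Y n x := iInf_le _ n
        _ ≤ ENNReal.ofReal (qf (Bs n) (Mx Y x)) :=
            iInf_le (fun k : Fin (n + 1) => ENNReal.ofReal (qf (Bs k) (Mx Y x))) ⟨n, by omega⟩
        _ ≤ ENNReal.ofReal (tgt u x + η) := ENNReal.ofReal_le_ofReal hn.le
        _ ≤ ENNReal.ofReal (tgt u x) + ENNReal.ofReal η := ENNReal.ofReal_add_le
        _ = ENNReal.ofReal (tgt u x) + η := by simp
  have h3 : ⨅ m, ∫⁻ x, Qm Bs Y m x < (∫⁻ x, ENNReal.ofReal (tgt u x)) + ε := by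
    rw [← h1]
    exact lt_of_le_of_lt h2 (ENNReal.lt_add_right (lintegral_tgt_lt hd H D).ne hε)
  rw [iInf_lt_iff] at h3
  obtain ⟨m, hm⟩ := h3
  exact ⟨m, hm.le⟩

/-- the finite measure on the cube -/
def kap (S : E d → E d) (Y : Fin d → E d → E d → ℝ) : Measure (E d) :=
  (volume.withDensity fun x => ENNReal.ofReal (fro (Mx Y x))).map S

theorem kap_apply (D : KD d (fun i => Pi.single i (1 : ℝ)) u S Y) {A : Set (E d)}
    (hA : MeasurableSet A) :
    kap S Y A = ∫⁻ x in S ⁻¹' A, ENNReal.ofReal (fro (Mx Y x)) := by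
  unfold kap
  rw [Measure.map_apply D.Smeas hA, withDensity_apply _ (D.Smeas hA)]

theorem kap_finite (D : KD d (fun i => Pi.single i (1 : ℝ)) u S Y) : IsFiniteMeasure (kap S Y) := by
  refine ⟨?_⟩
  rw [kap_apply D MeasurableSet.univ, Set.preimage_univ, Measure.restrict_univ]
  exact lintegral_fro_lt D

theorem kap_ac (H : HypH u h) (D : KD d (fun i => Pi.single i (1 : ℝ)) u S Y) :
    kap S Y ≪ volume.restrict (Set.Icc (0 : E d) 1) := by
  refine Measure.AbsolutelyContinuous.mk fun A hA h0 => ?_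
  rw [kap_apply D hA, ← lintegral_indicator (D.Smeas hA)]
  have h1 := D.push (A.indicator fun _ => 1) (measurable_const.indicator hA)
  rw [lintegral_indicator hA, lintegral_const, Measure.restrict_restrict hA] at h1
  rw [Measure.restrict_apply hA] at h0
  have h2 : (volume.restrict (A ∩ Set.Icc (0 : E d) 1)) Set.univ = 0 := by
    rw [Measure.restrict_apply_univ, h0]
  rw [h2, mul_zero] at h1
  have hm : Measurable fun x => A.indicator (fun _ => (1 : ℝ≥0∞)) (S x) *
      ENNReal.ofReal (u x ^ 2) :=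
    ((measurable_const.indicator hA).comp D.Smeas).mul (H.meas.pow_const 2).ennreal_ofReal
  rw [lintegral_eq_zero_iff hm] at h1
  rw [lintegral_eq_zero_iff ((measurable_fro D).ennreal_ofReal.indicator (D.Smeas hA))]
  filter_upwards [h1, fro_zero H D] with x hx hx2
  by_cases hSx : S x ∈ A
  · simp only [Set.indicator_of_mem hSx, one_mul, Pi.zero_apply, ENNReal.ofReal_eq_zero] at hx
    have hux : u x = 0 := by
      have : u x ^ 2 = 0 := le_antisymm hx (sq_nonneg _)
      exact pow_eq_zero_iff two_ne_zero |>.1 this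
    simp [Set.indicator, hx2 hux]
  · simp [Set.indicator, hSx]

/-- absolute continuity, quantitative -/
theorem exists_delta {κ lam : Measure (E d)} [IsFiniteMeasure κ] [SigmaFinite lam] (h : κ ≪ lam)
    {ε : ℝ≥0∞} (hε : ε ≠ 0) : ∃ δ > 0, ∀ s : Set (E d), MeasurableSet s → lam s < δ → κ s < ε := by
  have h1 := Measure.withDensity_rnDeriv_eq κ lam h
  have h2 : ∫⁻ x, κ.rnDeriv lam x ∂lam ≠ ∞ := by
    have h3 : ∫⁻ x, κ.rnDeriv lam x ∂lam = κ Set.univ := by
      conv_rhs => rw [← h1]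
      rw [withDensity_apply _ MeasurableSet.univ, Measure.restrict_univ]
    rw [h3]
    exact measure_ne_top _ _
  obtain ⟨δ, hδ, hs⟩ := exists_pos_setLIntegral_lt_of_measure_lt h2 hε
  refine ⟨δ, hδ, fun s hsm hlt => ?_⟩
  rw [← h1, withDensity_apply _ hsm]
  exact hs s hlt

/-- separation of finitely many disjoint compact sets -/
theorem exists_sep {m : ℕ} {K : Fin m → Set (E d)} (hK : ∀ n, IsCompact (K n))
    (hdis : ∀ n n', n ≠ n' → Disjoint (K n) (K n')) :
    ∃ δ : ℝ, 0 < δ ∧ ∀ n n', n ≠ n' → ∀ s ∈ K n, ∀ s' ∈ K n', δ ≤ dist s s' := by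
  have h1 : ∀ q : Fin m × Fin m, ∃ δ : ℝ, 0 < δ ∧ (q.1 ≠ q.2 → ∀ s ∈ K q.1, ∀ s' ∈ K q.2,
      δ ≤ dist s s') := by
    rintro ⟨n, n'⟩
    by_cases hn : n = n'
    · exact ⟨1, one_pos, fun hc => absurd hn hc⟩
    · obtain ⟨δ, hδ, hdd⟩ := (hdis n n' hn).exists_thickenings (hK n) (hK n').isClosed
      refine ⟨δ, hδ, fun _ s hs s' hs' => ?_⟩
      by_contra hlt
      push Not at hlt
      have a1 : s' ∈ Metric.thickening δ (K n) :=
        Metric.mem_thickening_iff.2 ⟨s, hs, by rw [dist_comm]; exact hlt⟩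
      have a2 : s' ∈ Metric.thickening δ (K n') := Metric.self_subset_thickening hδ _ hs'
      exact (Set.disjoint_left.1 hdd) a1 a2
  choose f hf1 hf2 using h1
  rcases isEmpty_or_nonempty (Fin m × Fin m) with hem | hne
  · exact ⟨1, one_pos, fun n n' => (hem.false (n, n')).elim⟩
  · obtain ⟨q0, hq0⟩ := Finite.exists_min f
    exact ⟨f q0, hf1 q0, fun n n' hn s hs s' hs' =>
      (hq0 (n, n')).trans (hf2 (n, n') hn s hs s' hs')⟩

/-- the main lemma -/
theorem cells (hd : 0 < d) (H : HypH u h) (D : KD d (fun i => Pi.single i (1 : ℝ)) u S Y)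
    {ε : ℝ≥0∞} (hε : ε ≠ 0) :
    ∃ (ℬ : Set (Fin d → Fin d → ℝ)), ℬ.Finite ∧ (∀ B ∈ ℬ, (Matrix.of B).det = 1) ∧
      ∃ (J : ℕ) (p : ℝ) (R : E d → ℝ≥0∞), 0 < J ∧ 0 < p ∧ p ≤ 1 / 4 ∧ Measurable R ∧
        ∫⁻ x, R x ≤ (∫⁻ x, ENNReal.ofReal (tgt u x)) + ε ∧
        ∀ A : Set (E d), ((∀ s ∈ A, ∀ s' ∈ A, dist s s' ≤ 1 / J) ∨ A ⊆ Sk d J p) →
          ∃ B ∈ ℬ, ∀ᵐ x, S x ∈ A → ENNReal.ofReal (qf B (Mx Y x)) ≤ R x := by
  obtain ⟨Bs, hBdet, hB0, hBs⟩ := exists_Bs hd
  have hε2 : ε / 3 ≠ 0 := by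
    simp only [ne_eq, ENNReal.div_eq_zero_iff, not_or]
    exact ⟨hε, by norm_num⟩
  obtain ⟨m, hm⟩ := exists_m hd H D hB0 hBs hε2
  set ℬ : Set (Fin d → Fin d → ℝ) := Set.range fun n : Fin (m + 1) => Bs n with hℬ
  -- the constant
  set C : ℝ := ∑ n : Fin (m + 1), fro (Bs n) with hC
  have hC0 : 0 ≤ C := Finset.sum_nonneg fun n _ => fro_nonneg _
  have hCB : ∀ n : Fin (m + 1), fro (Bs n) ≤ C := fun n =>
    Finset.single_le_sum (f := fun n : Fin (m + 1) => fro (Bs n)) (fun n _ => fro_nonneg _)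
      (Finset.mem_univ n)
  have hqC : ∀ (n : Fin (m + 1)) x, ENNReal.ofReal (qf (Bs n) (Mx Y x)) ≤
      ENNReal.ofReal C * ENNReal.ofReal (fro (Mx Y x)) := by
    intro n x
    rw [← ENNReal.ofReal_mul hC0]
    apply ENNReal.ofReal_le_ofReal
    exact (qf_le _ _).trans (mul_le_mul_of_nonneg_right (hCB n) (fro_nonneg _))
  -- the sets
  obtain ⟨DD, hDm, hDi, hDae⟩ := D.inj
  set f : Fin (m + 1) → E d → ℝ≥0∞ := fun n x => ENNReal.ofReal (qf (Bs n) (Mx Y x)) with hf
  have hfm : ∀ n, Measurable (f n) := fun n => (measurable_qf D _).ennreal_ofReal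
  have hQm := measurable_Qm D Bs m
  set En : Fin (m + 1) → Set (E d) := fun n =>
    {x | f n x = Qm Bs Y m x} ∩ ⋂ k : Fin (m + 1), ⋂ _ : k < n, {x | f k x = Qm Bs Y m x}ᶜ with hEn
  have hEnm : ∀ n, MeasurableSet (En n) := by
    intro n
    apply (measurableSet_eq_fun (hfm n) hQm).inter
    exact MeasurableSet.iInter fun k => MeasurableSet.iInter fun _ =>
      (measurableSet_eq_fun (hfm k) hQm).compl
  have hEnQ : ∀ n, ∀ x ∈ En n, f n x = Qm Bs Y m x := fun n x hx => hx.1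
  have hEnd : ∀ n n', n ≠ n' → Disjoint (En n) (En n') := by
    intro n n' hn
    rw [Set.disjoint_left]
    intro x hx hx'
    rcases lt_or_gt_of_ne hn with hlt | hlt
    · have := hx'.2
      simp only [Set.mem_iInter] at this
      exact this n hlt hx.1
    · have := hx.2
      simp only [Set.mem_iInter] at this
      exact this n' hlt hx'.1
  have hEnc : ∀ x, ∃ n, x ∈ En n := by
    intro x
    have hex : ∃ n : Fin (m + 1), f n x = Qm Bs Y m x :=
      exists_eq_ciInf_of_finite (f := fun n : Fin (m + 1) => f n x)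
    classical
    obtain ⟨n, hn1, hn2⟩ := WellFounded.has_min (wellFounded_lt (α := Fin (m + 1)))
      {n | f n x = Qm Bs Y m x} hex
    refine ⟨n, hn1, ?_⟩
    simp only [Set.mem_iInter]
    intro k hk hk2
    exact hn2 k hk2 hk
  set An : Fin (m + 1) → Set (E d) := fun n => S '' (En n ∩ DD) with hAn
  have hAnm : ∀ n, MeasurableSet (An n) := fun n =>
    ((hEnm n).inter hDm).image_of_measurable_injOn D.Smeas (hDi.mono Set.inter_subset_right)
  have hSD : MeasurableSet (S '' DD) := hDm.image_of_measurable_injOn D.Smeas hDi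
  -- constants
  have hC1 : ENNReal.ofReal C + 1 ≠ ∞ := by simp
  set ε' : ℝ≥0∞ := ε / 3 / (ENNReal.ofReal C + 1) with hε'
  have hε'0 : ε' ≠ 0 := by
    rw [hε']
    simp only [ne_eq, ENNReal.div_eq_zero_iff, not_or]
    exact ⟨by simpa [ENNReal.div_eq_zero_iff] using hε2, hC1⟩
  have hε'C : ENNReal.ofReal C * ε' ≤ ε / 3 := by
    calc ENNReal.ofReal C * ε' ≤ (ENNReal.ofReal C + 1) * ε' := by
          gcongr
          exact le_self_add
      _ = ε / 3 := by
          rw [hε']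
          exact ENNReal.mul_div_cancel (by simp) hC1
  have hκf : IsFiniteMeasure (kap S Y) := kap_finite D
  -- compact sets
  have hKex : ∀ n, ∃ K ⊆ An n, IsCompact K ∧ kap S Y (An n \ K) < ε' / (m + 1) := by
    intro n
    apply (hAnm n).exists_isCompact_sdiff_lt (measure_ne_top _ _)
    simp only [ne_eq, ENNReal.div_eq_zero_iff, not_or]
    exact ⟨hε'0, by simp⟩
  choose K hKA hKc hKκ using hKex
  have hKd : ∀ n n', n ≠ n' → Disjoint (K n) (K n') := by
    intro n n' hn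
    rw [Set.disjoint_left]
    intro s hs hs'
    obtain ⟨x, hx, hxs⟩ := hKA n hs
    obtain ⟨x', hx', hxs'⟩ := hKA n' hs'
    have : x = x' := hDi hx.2 hx'.2 (hxs.trans hxs'.symm)
    subst this
    exact Set.disjoint_left.1 (hEnd n n' hn) hx.1 hx'.1
  obtain ⟨δ0, hδ0, hsep⟩ := exists_sep hKc hKd
  set G : Set (E d) := ⋃ n, K n with hG
  have hGm : MeasurableSet G := MeasurableSet.iUnion fun n => (hKc n).measurableSet
  -- the complement of G is small
  have hGκ : kap S Y Gᶜ ≤ ε' := by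
    have h1 : Gᶜ ⊆ (S '' DD)ᶜ ∪ ⋃ n, (An n \ K n) := by
      intro s hs
      by_cases hsD : s ∈ S '' DD
      · right
        obtain ⟨x, hx, rfl⟩ := hsD
        obtain ⟨n, hn⟩ := hEnc x
        refine Set.mem_iUnion.2 ⟨n, ⟨x, ⟨hn, hx⟩, rfl⟩, fun hK => ?_⟩
        exact hs (Set.mem_iUnion.2 ⟨n, hK⟩)
      · left
        exact hsD
    have h2 : kap S Y (S '' DD)ᶜ = 0 := by
      rw [kap_apply D hSD.compl, ← lintegral_indicator (D.Smeas hSD.compl),
        lintegral_eq_zero_iff ((measurable_fro D).ennreal_ofReal.indicator (D.Smeas hSD.compl))]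
      filter_upwards [hDae, fro_zero H D] with x hx hx2
      by_cases hSx : S x ∈ (S '' DD)ᶜ
      · have hxD : x ∉ DD := fun hc => hSx ⟨x, hc, rfl⟩
        have hux : u x = 0 := by
          by_contra hc
          exact hxD (hx hc)
        simp [Set.indicator, hx2 hux]
      · rw [Set.indicator_of_notMem (show x ∉ S ⁻¹' (S '' DD)ᶜ from hSx)]
        rfl
    calc kap S Y Gᶜ ≤ kap S Y ((S '' DD)ᶜ ∪ ⋃ n, (An n \ K n)) := measure_mono h1
      _ ≤ kap S Y (S '' DD)ᶜ + kap S Y (⋃ n, (An n \ K n)) := measure_union_le _ _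
      _ ≤ 0 + ∑ n : Fin (m + 1), kap S Y (An n \ K n) := by
          rw [h2]
          gcongr
          refine (measure_iUnion_le _).trans ?_
          rw [tsum_fintype]
      _ ≤ 0 + ∑ n : Fin (m + 1), ε' / (m + 1) := by
          gcongr with n _
          exact (hKκ n).le
      _ = ε' := by
          rw [zero_add, Finset.sum_const, Finset.card_univ, Fintype.card_fin, nsmul_eq_mul]
          push_cast
          exact ENNReal.mul_div_cancel (by simp) (by simp)
  -- choice of J and p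
  obtain ⟨J', hJ'⟩ := exists_nat_one_div_lt hδ0
  set J : ℕ := J' + 1 with hJ
  have hJ0 : 0 < J := Nat.succ_pos _
  have hJδ : 1 / (J : ℝ) < δ0 := by
    rw [hJ]
    push_cast
    exact hJ'
  obtain ⟨δ, hδ, hδs⟩ := exists_delta (kap_ac H D) hε'0
  obtain ⟨p, hp0, hp4, hpδ⟩ : ∃ p : ℝ, 0 < p ∧ p ≤ 1 / 4 ∧ ENNReal.ofReal (8 * d * p) < δ := by
    have h1 : Tendsto (fun p : ℝ => ENNReal.ofReal (8 * d * p)) (𝓝[>] 0) (𝓝 0) := by
      have h2 : Tendsto (fun p : ℝ => ENNReal.ofReal (8 * d * p)) (𝓝 0)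
          (𝓝 (ENNReal.ofReal (8 * d * 0))) :=
        ((ENNReal.continuous_ofReal.comp (continuous_const.mul continuous_id)).tendsto 0)
      rw [mul_zero, ENNReal.ofReal_zero] at h2
      exact h2.mono_left nhdsWithin_le_nhds
    have h3 : ∀ᶠ p : ℝ in 𝓝[>] 0, ENNReal.ofReal (8 * d * p) < δ := h1.eventually (gt_mem_nhds hδ)
    have h4 : ∀ᶠ p : ℝ in 𝓝[>] 0, p ∈ Set.Ioc (0 : ℝ) (1 / 4) := by
      have : Set.Ioc (0 : ℝ) (1 / 4) ∈ 𝓝[>] (0 : ℝ) := Ioc_mem_nhdsGT (by norm_num)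
      exact this
    obtain ⟨p, hp⟩ := (h3.and h4).exists
    exact ⟨p, hp.2.1, hp.2.2, hp.1⟩
  have hSκ : kap S Y (Sk d J p) < ε' :=
    hδs _ measurableSet_Sk (lt_of_le_of_lt (volume_Sk_le hJ0 hp0) hpδ)
  -- the bound
  set Bad : Set (E d) := Sk d J p ∪ Gᶜ with hBad
  have hBadm : MeasurableSet Bad := measurableSet_Sk.union hGm.compl
  refine ⟨ℬ, Set.finite_range _, ?_, J, p, fun x => Qm Bs Y m x + (S ⁻¹' Bad).indicator
    (fun x => ENNReal.ofReal C * ENNReal.ofReal (fro (Mx Y x))) x, hJ0, hp0, hp4, ?_, ?_, ?_⟩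
  · rintro B ⟨n, rfl⟩
    exact hBdet n
  · exact hQm.add (((measurable_fro D).ennreal_ofReal.const_mul _).indicator (D.Smeas hBadm))
  · rw [lintegral_add_left hQm, lintegral_indicator (D.Smeas hBadm),
      lintegral_const_mul _ (measurable_fro D).ennreal_ofReal, ← kap_apply D hBadm]
    calc (∫⁻ x, Qm Bs Y m x) + ENNReal.ofReal C * kap S Y Bad
        ≤ ((∫⁻ x, ENNReal.ofReal (tgt u x)) + ε / 3) + ENNReal.ofReal C * (ε' + ε') := by
          gcongr
          exact (measure_union_le _ _).trans (add_le_add hSκ.le hGκ)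
      _ = ((∫⁻ x, ENNReal.ofReal (tgt u x)) + ε / 3) + (ENNReal.ofReal C * ε' +
          ENNReal.ofReal C * ε') := by rw [mul_add]
      _ ≤ ((∫⁻ x, ENNReal.ofReal (tgt u x)) + ε / 3) + (ε / 3 + ε / 3) := by
          gcongr
      _ = (∫⁻ x, ENNReal.ofReal (tgt u x)) + ε := by
          rw [add_assoc, ← add_assoc (ε / 3), ENNReal.add_thirds]
  · intro A hA
    by_cases hAS : A ⊆ Sk d J p
    · refine ⟨Bs 0, ⟨(0 : Fin (m + 1)), rfl⟩, Eventually.of_forall fun x hx => ?_⟩
      have hxB : x ∈ S ⁻¹' Bad := Or.inl (hAS hx)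
      simp only [Set.indicator_of_mem hxB]
      exact (hqC (0 : Fin (m + 1)) x).trans le_add_self
    · have hA' : ∀ s ∈ A, ∀ s' ∈ A, dist s s' ≤ 1 / J := by
        rcases hA with h1 | h1
        · exact h1
        · exact absurd h1 hAS
      by_cases hmeet : ∃ n, (K n ∩ A).Nonempty
      · obtain ⟨n, s0, hs0K, hs0A⟩ := hmeet
        refine ⟨Bs n, ⟨n, rfl⟩, ?_⟩
        filter_upwards [hDae, fro_zero H D] with x hxD hx0 hSx
        by_cases hux : u x = 0
        · have := hqC n x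
          rw [hx0 hux, ENNReal.ofReal_zero, mul_zero] at this
          exact this.trans zero_le
        · by_cases hSG : S x ∈ G
          · obtain ⟨n', hn'⟩ := Set.mem_iUnion.1 hSG
            have hnn : n = n' := by
              by_contra hne
              have h1 := hsep n n' hne s0 hs0K _ hn'
              have h2 := hA' s0 hs0A _ hSx
              linarith
            subst hnn
            obtain ⟨y, hy, hyx⟩ := hKA n hn'
            have hyx' : y = x := hDi hy.2 (hxD hux) hyx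
            subst hyx'
            have h3 := hEnQ n y hy.1
            change f n y ≤ _
            rw [h3]
            exact le_self_add
          · have hxB : x ∈ S ⁻¹' Bad := Or.inr hSG
            simp only [Set.indicator_of_mem hxB]
            exact (hqC n x).trans le_add_self
      · refine ⟨Bs 0, ⟨(0 : Fin (m + 1)), rfl⟩, Eventually.of_forall fun x hx => ?_⟩
        have hxB : x ∈ S ⁻¹' Bad := by
          refine Or.inr fun hc => ?_
          obtain ⟨n', hn'⟩ := Set.mem_iUnion.1 hc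
          exact hmeet ⟨n', S x, hn', hx⟩
        simp only [Set.indicator_of_mem hxB]
        exact (hqC (0 : Fin (m + 1)) x).trans le_add_self

end Pool.Agent.W564.MY
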