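import Pool.Agent.W564.MY.Knothe

/-!
# The chain rule `√f · F(S)`
-/

set_option autoImplicit false
set_option linter.unusedVariables false
set_option linter.unusedSimpArgs false
set_option linter.unusedSectionVars false

noncomputable section

namespace Pool.Agent.W564.MY

open MeasureTheory Filter Topology
open scoped ENNReal

theorem ofReal_norm_sq {F : Type*} [NormedAddCommGroup F] (z : F) :
    ‖z‖ₑ ^ 2 = ENNReal.ofReal (‖z‖ ^ 2) := by
  rw [← ofReal_norm, ENNReal.ofReal_pow (norm_nonneg _)]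

/-- constants for a `C¹` function on the box -/
theorem box_const {d : ℕ} {F : E d → ℂ} (hF : ContDiff ℝ 1 F) :
    ∃ K : ℝ, 0 ≤ K ∧ (∀ s ∈ Set.Icc (0 : E d) 1, ‖F s‖ ≤ K) ∧
      (∀ s ∈ Set.Icc (0 : E d) 1, ∀ j, ‖fderiv ℝ F s (Pi.single j (1 : ℝ))‖ ≤ K) ∧
      (∀ s ∈ Set.Icc (0 : E d) 1, ∀ s' ∈ Set.Icc (0 : E d) 1,
        ‖F s' - F s‖ ≤ K * ∑ j, |s' j - s j|) := by
  have hc : IsCompact (Set.Icc (0 : E d) 1) := isCompact_Icc
  obtain ⟨K1, hK1⟩ := hc.exists_bound_of_continuousOn hF.continuous.continuousOn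
  obtain ⟨K2, hK2⟩ := hc.exists_bound_of_continuousOn
    (hF.continuous_fderiv one_ne_zero).continuousOn
  have hne : (0 : E d) ∈ Set.Icc (0 : E d) 1 := ⟨le_refl _, zero_le_one⟩
  have hK1' : 0 ≤ K1 := (norm_nonneg _).trans (hK1 0 hne)
  have hK2' : 0 ≤ K2 := (norm_nonneg _).trans (hK2 0 hne)
  refine ⟨K1 + K2, by positivity, fun s hs => (hK1 s hs).trans (by linarith), ?_, ?_⟩
  · intro s hs j
    calc ‖fderiv ℝ F s (Pi.single j (1 : ℝ))‖ ≤ ‖fderiv ℝ F s‖ * ‖(Pi.single j (1 : ℝ) : E d)‖ :=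
          ContinuousLinearMap.le_opNorm _ _
      _ ≤ K2 * 1 := by
          apply mul_le_mul (hK2 s hs) _ (norm_nonneg _) hK2'
          rw [Pi.norm_single]
          simp
      _ ≤ K1 + K2 := by linarith
  · intro s hs s' hs'
    have h1 : ‖F s' - F s‖ ≤ K2 * ‖s' - s‖ :=
      Convex.norm_image_sub_le_of_norm_fderiv_le (𝕜 := ℝ)
        (fun x _ => (hF.differentiable one_ne_zero) x) (fun x hx => hK2 x hx)
        (convex_Icc _ _) hs hs'
    have h2 : ‖s' - s‖ ≤ ∑ j, |s' j - s j| := by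
      rw [pi_norm_le_iff_of_nonneg (Finset.sum_nonneg fun j _ => abs_nonneg _)]
      intro j
      rw [Pi.sub_apply, Real.norm_eq_abs]
      exact Finset.single_le_sum (f := fun j => |s' j - s j|) (fun i _ => abs_nonneg _)
        (Finset.mem_univ j)
    have h3 : 0 ≤ ∑ j, |s' j - s j| := Finset.sum_nonneg fun j _ => abs_nonneg _
    nlinarith

section

variable {V : Type} [NormedAddCommGroup V] [NormedSpace ℝ V] [FiniteDimensional ℝ V]
  [MeasureSpace V] [BorelSpace V] [(volume : Measure V).IsAddHaarMeasure]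

/-- the orbital -/
def orb {d : ℕ} (u : V → ℝ) (S : V → E d) (F : E d → ℂ) (x : V) : ℂ := (u x : ℂ) * F (S x)

/-- its weak derivative -/
def orbD {d : ℕ} (h : V → V → ℝ) (S : V → E d) (Y : Fin d → V → V → ℝ) (F : E d → ℂ) (w : V)
    (x : V) : ℂ :=
  (h w x : ℂ) * F (S x) + ∑ j, (Y j w x : ℂ) * fderiv ℝ F (S x) (Pi.single j (1 : ℝ))

theorem fderiv_pi {d : ℕ} (F : E d → ℂ) (s σ : E d) :
    fderiv ℝ F s σ = ∑ j, (σ j : ℂ) * fderiv ℝ F s (Pi.single j (1 : ℝ)) := by
  have h1 : σ = ∑ j, σ j • (Pi.single j (1 : ℝ) : E d) := by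
    funext i
    simp [Finset.sum_apply, Pi.single_apply]
  conv_lhs => rw [h1, map_sum]
  apply Finset.sum_congr rfl
  intro j _
  rw [map_smul]
  simp

theorem measurable_orb {d : ℕ} {u : V → ℝ} {S : V → E d} {F : E d → ℂ} (hu : Measurable u)
    (hS : Measurable S) (hF : ContDiff ℝ 1 F) : Measurable (orb u S F) :=
  (Complex.measurable_ofReal.comp hu).mul (hF.continuous.measurable.comp hS)

theorem measurable_orbD {d : ℕ} {h : V → V → ℝ} {S : V → E d} {Y : Fin d → V → V → ℝ}
    {F : E d → ℂ} {w : V} (hh : Measurable (h w)) (hS : Measurable S)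
    (hY : ∀ j, Measurable (Y j w)) (hF : ContDiff ℝ 1 F) : Measurable (orbD h S Y F w) := by
  apply Measurable.add
  · exact (Complex.measurable_ofReal.comp hh).mul (hF.continuous.measurable.comp hS)
  · apply Finset.measurable_sum
    intro j _
    apply (Complex.measurable_ofReal.comp (hY j)).mul
    have : Continuous fun s => fderiv ℝ F s (Pi.single j (1 : ℝ)) :=
      (hF.continuous_fderiv one_ne_zero).clm_apply continuous_const
    exact this.measurable.comp hS

theorem mem_box {d : ℕ} {s : E d} (h : ∀ j, s j ∈ Set.Icc (0 : ℝ) 1) : s ∈ Set.Icc (0 : E d) 1 :=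
  ⟨fun j => (h j).1, fun j => (h j).2⟩

/-- the pointwise bound of the difference quotient minus the derivative -/
theorem chain_bound {d : ℕ} {u : V → ℝ} {h : V → V → ℝ} {S : V → E d} {Y : Fin d → V → V → ℝ}
    {F : E d → ℂ} {w : V} {K t : ℝ} (ht : t ≠ 0) (hK : 0 ≤ K)
    (hu : ∀ x, 0 ≤ u x) (hbox : ∀ x j, S x j ∈ Set.Icc (0 : ℝ) 1)
    (h1 : ∀ s ∈ Set.Icc (0 : E d) 1, ‖F s‖ ≤ K)
    (h2 : ∀ s ∈ Set.Icc (0 : E d) 1, ∀ j, ‖fderiv ℝ F s (Pi.single j (1 : ℝ))‖ ≤ K)
    (h3 : ∀ s ∈ Set.Icc (0 : E d) 1, ∀ s' ∈ Set.Icc (0 : E d) 1,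
        ‖F s' - F s‖ ≤ K * ∑ j, |s' j - s j|) (x : V) :
    ‖DQ w t (orb u S F) x - orbD h S Y F w x‖ ≤ K * |dq t w u x - h w x| + 2 * K * |h w x| +
      K * ∑ j, |u x * dq t w (fun x => S x j) x - Y j w x| + 2 * K * ∑ j, |Y j w x| := by
  have e1 : DQ w t (orb u S F) x = (dq t w u x : ℂ) * F (S (x + t • w)) +
      (t : ℂ)⁻¹ * ((u x : ℂ) * (F (S (x + t • w)) - F (S x))) := by
    unfold DQ orb dq
    push_cast
    ring
  have b1 := h1 _ (mem_box (hbox (x + t • w)))
  have b2 := h1 _ (mem_box (hbox x))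
  have b3 := h3 _ (mem_box (hbox x)) _ (mem_box (hbox (x + t • w)))
  -- the three terms
  have c1 : ‖(dq t w u x : ℂ) * F (S (x + t • w)) - (h w x : ℂ) * F (S x)‖ ≤
      K * |dq t w u x - h w x| + 2 * K * |h w x| := by
    have e2 : (dq t w u x : ℂ) * F (S (x + t • w)) - (h w x : ℂ) * F (S x) =
        ((dq t w u x - h w x : ℝ) : ℂ) * F (S (x + t • w)) +
          ((h w x : ℝ) : ℂ) * (F (S (x + t • w)) - F (S x)) := by
      push_cast
      ring
    rw [e2]
    refine (norm_add_le _ _).trans ?_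
    rw [norm_mul, norm_mul, Complex.norm_real, Complex.norm_real, Real.norm_eq_abs,
      Real.norm_eq_abs]
    have e3 : ‖F (S (x + t • w)) - F (S x)‖ ≤ K + K := (norm_sub_le _ _).trans (add_le_add b1 b2)
    have e4 := mul_le_mul_of_nonneg_left b1 (abs_nonneg (dq t w u x - h w x))
    have e5 := mul_le_mul_of_nonneg_left e3 (abs_nonneg (h w x))
    linarith
  have c2 : ‖(t : ℂ)⁻¹ * ((u x : ℂ) * (F (S (x + t • w)) - F (S x)))‖ ≤
      K * ∑ j, |u x * dq t w (fun x => S x j) x| := by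
    rw [norm_mul, norm_mul, norm_inv, Complex.norm_real, Complex.norm_real, Real.norm_eq_abs,
      Real.norm_eq_abs, abs_of_nonneg (hu x)]
    have e3 : ∑ j, |u x * dq t w (fun x => S x j) x| =
        |t|⁻¹ * (u x * ∑ j, |S (x + t • w) j - S x j|) := by
      rw [Finset.mul_sum, Finset.mul_sum]
      apply Finset.sum_congr rfl
      intro j _
      unfold dq
      rw [abs_mul, abs_mul, abs_inv, abs_of_nonneg (hu x)]
      ring
    rw [e3]
    have e4 := mul_le_mul_of_nonneg_left b3 (hu x)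
    have e5 := mul_le_mul_of_nonneg_left e4 (inv_nonneg.2 (abs_nonneg t))
    linarith
  have c3 : ‖∑ j, (Y j w x : ℂ) * fderiv ℝ F (S x) (Pi.single j (1 : ℝ))‖ ≤
      K * ∑ j, |Y j w x| := by
    refine (norm_sum_le _ _).trans ?_
    rw [Finset.mul_sum]
    apply Finset.sum_le_sum
    intro j _
    rw [norm_mul, Complex.norm_real, Real.norm_eq_abs, mul_comm]
    exact mul_le_mul_of_nonneg_right (h2 _ (mem_box (hbox x)) j) (abs_nonneg _)
  have c4 : ∑ j, |u x * dq t w (fun x => S x j) x| ≤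
      ∑ j, |u x * dq t w (fun x => S x j) x - Y j w x| + ∑ j, |Y j w x| := by
    rw [← Finset.sum_add_distrib]
    apply Finset.sum_le_sum
    intro j _
    have := abs_add_le (u x * dq t w (fun x => S x j) x - Y j w x) (Y j w x)
    simpa using this
  have c5 := mul_le_mul_of_nonneg_left c4 hK
  unfold orbD
  rw [e1]
  have e6 : (dq t w u x : ℂ) * F (S (x + t • w)) +
      (t : ℂ)⁻¹ * ((u x : ℂ) * (F (S (x + t • w)) - F (S x))) -
      ((h w x : ℂ) * F (S x) + ∑ j, (Y j w x : ℂ) * fderiv ℝ F (S x) (Pi.single j (1 : ℝ))) =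
      ((dq t w u x : ℂ) * F (S (x + t • w)) - (h w x : ℂ) * F (S x)) +
      (t : ℂ)⁻¹ * ((u x : ℂ) * (F (S (x + t • w)) - F (S x))) -
      ∑ j, (Y j w x : ℂ) * fderiv ℝ F (S x) (Pi.single j (1 : ℝ)) := by ring
  rw [e6]
  refine (norm_sub_le _ _).trans ?_
  refine (add_le_add (norm_add_le _ _) le_rfl).trans ?_
  linarith

/-- the squared bound -/
theorem sq_bound {d : ℕ} {K a b r : ℝ} {c e : Fin d → ℝ} (hr : 0 ≤ r)
    (h : r ≤ K * |a| + 2 * K * |b| + K * ∑ j, |c j| + 2 * K * ∑ j, |e j|) :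
    r ^ 2 ≤ (4 * K ^ 2 * a ^ 2 + 4 * K ^ 2 * d * ∑ j, c j ^ 2) +
      (16 * K ^ 2 * b ^ 2 + 16 * K ^ 2 * d * ∑ j, e j ^ 2) := by
  have h1 : (∑ j, |c j|) ^ 2 ≤ d * ∑ j, c j ^ 2 := by
    have := sq_sum_le_card_mul_sum_sq (s := Finset.univ) (f := fun j : Fin d => |c j|)
    simpa using this
  have h2 : (∑ j, |e j|) ^ 2 ≤ d * ∑ j, e j ^ 2 := by
    have := sq_sum_le_card_mul_sum_sq (s := Finset.univ) (f := fun j : Fin d => |e j|)
    simpa using this
  set A := K * |a| with hA
  set B := 2 * K * |b| with hB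
  set C := K * ∑ j, |c j| with hC
  set D := 2 * K * ∑ j, |e j| with hD
  have h3 : (A + B + C + D) ^ 2 ≤ 4 * (A ^ 2 + B ^ 2 + C ^ 2 + D ^ 2) := by
    nlinarith [sq_nonneg (A - B), sq_nonneg (A - C), sq_nonneg (A - D), sq_nonneg (B - C),
      sq_nonneg (B - D), sq_nonneg (C - D)]
  have h4 : r ^ 2 ≤ (A + B + C + D) ^ 2 := pow_le_pow_left₀ hr h 2
  have h5 : A ^ 2 = K ^ 2 * a ^ 2 := by rw [hA, mul_pow, sq_abs]
  have h6 : B ^ 2 = 4 * K ^ 2 * b ^ 2 := by rw [hB, mul_pow, mul_pow, sq_abs]; ring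
  have h7 : C ^ 2 ≤ K ^ 2 * (d * ∑ j, c j ^ 2) := by
    rw [hC, mul_pow]
    exact mul_le_mul_of_nonneg_left h1 (sq_nonneg _)
  have h8 : D ^ 2 ≤ 4 * K ^ 2 * (d * ∑ j, e j ^ 2) := by
    rw [hD, mul_pow, mul_pow]
    have := mul_le_mul_of_nonneg_left h2 (show (0 : ℝ) ≤ 2 ^ 2 * K ^ 2 by positivity)
    linarith
  nlinarith

theorem tendsto_ereal_of {f : ℕ → ℂ} (h : Tendsto f atTop (𝓝 0)) :
    Tendsto (fun n => ‖f n‖ₑ ^ 2) atTop (𝓝 0) := by
  have := (continuous_enorm.tendsto (0 : ℂ)).comp h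
  rw [enorm_zero] at this
  have := (ENNReal.continuous_pow 2).tendsto 0 |>.comp this
  simpa [Function.comp_def] using this

theorem ofReal_comb {d : ℕ} {A B : ℝ} (hA : 0 ≤ A) (hB : 0 ≤ B) (a : ℝ) (c : Fin d → ℝ) :
    ENNReal.ofReal (A * a ^ 2 + B * ∑ j, c j ^ 2) =
      ENNReal.ofReal A * ENNReal.ofReal (a ^ 2) + ENNReal.ofReal B * ∑ j, ENNReal.ofReal (c j ^ 2) := by
  rw [ENNReal.ofReal_add (mul_nonneg hA (sq_nonneg _))
    (mul_nonneg hB (Finset.sum_nonneg fun j _ => sq_nonneg _)),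
    ENNReal.ofReal_mul hA, ENNReal.ofReal_mul hB,
    ENNReal.ofReal_sum_of_nonneg (fun j _ => sq_nonneg _)]

/-- chain rule in `L²` -/
theorem chain {d : ℕ} {e : Fin d → V} {u : V → ℝ} {h : V → V → ℝ} {S : V → E d}
    {Y : Fin d → V → V → ℝ} (H : HypH u h) (D : KD d e u S Y) {F : E d → ℂ}
    (hF : ContDiff ℝ 1 F) (w : V) :
    Tendsto (fun t => I2 volume (fun x => DQ w t (orb u S F) x - orbD h S Y F w x))
      (𝓝[≠] 0) (𝓝 0) := by
  obtain ⟨K, hK, h1, h2, h3⟩ := box_const hF
  apply tendsto_zero_of_seq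
  intro t0 ht0 ht
  -- choose a subsequence with almost everywhere convergence
  obtain ⟨ms, hms, hus⟩ := H.ae_subseq w t0 ht0 ht
  have hsub : ∀ J : Finset (Fin d), ∃ ns : ℕ → ℕ, StrictMono ns ∧ ∀ j ∈ J, ∀ᵐ x, Tendsto
      (fun n => u x * dq (t0 (ms (ns n))) w (fun x => S x j) x) atTop (𝓝 (Y j w x)) := by
    intro J
    induction J using Finset.induction_on with
    | empty => exact ⟨id, strictMono_id, by simp⟩
    | insert j J hj ihJ =>
      obtain ⟨ns, hns, hnsJ⟩ := ihJ
      have hmS : Measurable (fun x => S x j) := (measurable_pi_apply j).comp D.Smeas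
      obtain ⟨ks, hks, hk2⟩ := exists_subseq_ae (μ := (volume : Measure V))
        (φ := fun n x => u x * dq (t0 (ms (ns n))) w (fun x => S x j) x - Y j w x)
        (fun n => ((H.meas.mul (measurable_dq hmS _ _)).sub (D.Ymeas j w)).aestronglyMeasurable)
        (tendsto_seq_of (D.lim j w) (fun n => ht0 _)
          (ht.comp ((hms.comp hns).tendsto_atTop)))
      refine ⟨ns ∘ ks, hns.comp hks, ?_⟩
      intro i hi
      rcases Finset.mem_insert.1 hi with rfl | hi
      · filter_upwards [hk2] with x hx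
        have := hx.add_const (Y i w x)
        simpa using this
      · filter_upwards [hnsJ i hi] with x hx
        exact hx.comp hks.tendsto_atTop
  obtain ⟨ns, hns, hYs⟩ := hsub Finset.univ
  refine ⟨ms ∘ ns, ?_⟩
  set t : ℕ → ℝ := fun n => t0 (ms (ns n)) with htd
  have htn : ∀ n, t n ≠ 0 := fun n => ht0 _
  have htl : Tendsto t atTop (𝓝 0) := ht.comp ((hms.comp hns).tendsto_atTop)
  have hus' : ∀ᵐ x, Tendsto (fun n => dq (t n) w u x) atTop (𝓝 (h w x)) := by
    filter_upwards [hus] with x hx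
    exact hx.comp hns.tendsto_atTop
  have hYs' : ∀ᵐ x, ∀ j, Tendsto (fun n => u x * dq (t n) w (fun x => S x j) x) atTop
      (𝓝 (Y j w x)) := by
    rw [ae_all_iff]
    exact fun j => hYs j (Finset.mem_univ j)
  -- notation for the majorants
  have mP : ∀ n, Measurable fun x => (4 * K ^ 2 * (dq (t n) w u x - h w x) ^ 2 +
      4 * K ^ 2 * d * ∑ j, (u x * dq (t n) w (fun x => S x j) x - Y j w x) ^ 2 : ℝ) := by
    intro n
    apply Measurable.add
    · exact (((measurable_dq H.meas _ _).sub (H.hmeas w)).pow_const 2).const_mul _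
    · apply Measurable.const_mul
      apply Finset.measurable_sum
      intro j _
      exact ((H.meas.mul (measurable_dq ((measurable_pi_apply j).comp D.Smeas) _ _)).sub
        (D.Ymeas j w)).pow_const 2
  have mQ : Measurable fun x => (16 * K ^ 2 * h w x ^ 2 +
      16 * K ^ 2 * d * ∑ j, Y j w x ^ 2 : ℝ) := by
    apply Measurable.add
    · exact ((H.hmeas w).pow_const 2).const_mul _
    · apply Measurable.const_mul
      apply Finset.measurable_sum
      intro j _
      exact (D.Ymeas j w).pow_const 2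
  have iP : ∀ n, ∫⁻ x, ENNReal.ofReal (4 * K ^ 2 * (dq (t n) w u x - h w x) ^ 2 +
      4 * K ^ 2 * d * ∑ j, (u x * dq (t n) w (fun x => S x j) x - Y j w x) ^ 2) =
      ENNReal.ofReal (4 * K ^ 2) * I2 volume (fun x => dq (t n) w u x - h w x) +
        ENNReal.ofReal (4 * K ^ 2 * d) * ∑ j, I2 volume
          (fun x => u x * dq (t n) w (fun x => S x j) x - Y j w x) := by
    intro n
    have e1 : ∀ x, ENNReal.ofReal (4 * K ^ 2 * (dq (t n) w u x - h w x) ^ 2 +
      4 * K ^ 2 * d * ∑ j, (u x * dq (t n) w (fun x => S x j) x - Y j w x) ^ 2) =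
      ENNReal.ofReal (4 * K ^ 2) * ENNReal.ofReal ((dq (t n) w u x - h w x) ^ 2) +
      ENNReal.ofReal (4 * K ^ 2 * d) * ∑ j, ENNReal.ofReal
        ((u x * dq (t n) w (fun x => S x j) x - Y j w x) ^ 2) := by
      intro x
      exact ofReal_comb (by positivity) (by positivity) _ _
    simp_rw [e1]
    have m1 : Measurable fun x => ENNReal.ofReal ((dq (t n) w u x - h w x) ^ 2) :=
      (((measurable_dq H.meas _ _).sub (H.hmeas w)).pow_const 2).ennreal_ofReal
    have m2 : ∀ j, Measurable fun x => ENNReal.ofReal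
        ((u x * dq (t n) w (fun x => S x j) x - Y j w x) ^ 2) := fun j =>
      (((H.meas.mul (measurable_dq ((measurable_pi_apply j).comp D.Smeas) _ _)).sub
        (D.Ymeas j w)).pow_const 2).ennreal_ofReal
    rw [lintegral_add_left (m1.const_mul _), lintegral_const_mul _ m1,
      lintegral_const_mul _ (Finset.measurable_sum _ fun j _ => m2 j),
      lintegral_finsetSum _ (fun j _ => m2 j), I2_real]
    simp_rw [I2_real]
  have iPlim : Tendsto (fun n => ENNReal.ofReal (4 * K ^ 2) *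
      I2 volume (fun x => dq (t n) w u x - h w x) +
        ENNReal.ofReal (4 * K ^ 2 * d) * ∑ j, I2 volume
          (fun x => u x * dq (t n) w (fun x => S x j) x - Y j w x)) atTop (𝓝 0) := by
    have a1 := ENNReal.Tendsto.const_mul (a := ENNReal.ofReal (4 * K ^ 2))
      (tendsto_seq_of (H.hlim w) htn htl) (Or.inr ENNReal.ofReal_ne_top)
    have a2 : Tendsto (fun n => ∑ j, I2 volume
          (fun x => u x * dq (t n) w (fun x => S x j) x - Y j w x)) atTop (𝓝 0) := by
      have := tendsto_finsetSum Finset.univ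
        (fun j _ => tendsto_seq_of (D.lim j w) htn htl)
      simpa using this
    have a3 := ENNReal.Tendsto.const_mul (a := ENNReal.ofReal (4 * K ^ 2 * d))
      a2 (Or.inr ENNReal.ofReal_ne_top)
    have := a1.add a3
    simpa using this
  apply lintegral_tendsto_zero_of_le
    (g := fun n x => ENNReal.ofReal (4 * K ^ 2 * (dq (t n) w u x - h w x) ^ 2 +
      4 * K ^ 2 * d * ∑ j, (u x * dq (t n) w (fun x => S x j) x - Y j w x) ^ 2) +
      ENNReal.ofReal (16 * K ^ 2 * h w x ^ 2 + 16 * K ^ 2 * d * ∑ j, Y j w x ^ 2))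
    (G := fun x => ENNReal.ofReal (16 * K ^ 2 * h w x ^ 2 +
      16 * K ^ 2 * d * ∑ j, Y j w x ^ 2))
  · intro n
    have mo := measurable_orb (u := u) (S := S) H.meas D.Smeas hF
    have m1 : Measurable fun x => DQ w (t n) (orb u S F) x - orbD h S Y F w x := by
      apply Measurable.sub
      · exact ((mo.comp (measurable_add_const _)).sub mo).const_mul _
      · exact measurable_orbD (H.hmeas w) D.Smeas (fun j => D.Ymeas j w) hF
    exact (m1.enorm.pow_const 2).aemeasurable
  · exact mQ.ennreal_ofReal.aemeasurable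
  · intro n
    refine Eventually.of_forall fun x => ?_
    have b1 := chain_bound (Y := Y) (h := h) (w := w) (htn n) hK H.nonneg D.box h1 h2 h3 x
    have b2 := sq_bound (norm_nonneg _) b1
    change ‖DQ w (t n) (orb u S F) x - orbD h S Y F w x‖ₑ ^ 2 ≤ _
    rw [ofReal_norm_sq]
    refine (ENNReal.ofReal_le_ofReal b2).trans ?_
    exact ENNReal.ofReal_add_le
  · -- a.e. convergence
    filter_upwards [hus', hYs', H.zero w] with x hx hy hz
    apply tendsto_ereal_of
    have e1 : ∀ n, DQ w (t n) (orb u S F) x - orbD h S Y F w x =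
        (dq (t n) w u x : ℂ) * F (S (x + t n • w)) - (h w x : ℂ) * F (S x) +
        ((u x : ℂ) * ((t n : ℂ)⁻¹ * (F (S (x + t n • w)) - F (S x))) -
          ∑ j, (Y j w x : ℂ) * fderiv ℝ F (S x) (Pi.single j (1 : ℝ))) := by
      intro n
      unfold DQ orb dq orbD
      push_cast
      ring
    change Tendsto (fun n => DQ w (t n) (orb u S F) x - orbD h S Y F w x) atTop (𝓝 0)
    simp_rw [e1]
    by_cases hux : u x = 0
    · -- everything vanishes
      have hY0 : ∀ j, Y j w x = 0 := by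
        intro j
        have := hy j
        simp only [hux, zero_mul] at this
        exact tendsto_nhds_unique this tendsto_const_nhds
      have hh0 := hz hux
      simp only [hux, hY0, hh0, Complex.ofReal_zero, zero_mul, Finset.sum_const_zero, sub_zero,
        add_zero]
      have b4 : Tendsto (fun n => K * |dq (t n) w u x|) atTop (𝓝 0) := by
        have := (hx.abs).const_mul K
        rw [hh0] at this
        simpa using this
      refine squeeze_zero_norm (fun n => ?_) b4
      rw [norm_mul, Complex.norm_real, Real.norm_eq_abs, mul_comm]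
      exact mul_le_mul_of_nonneg_right (h1 _ (mem_box (D.box _))) (abs_nonneg _)
    · -- the differentiable case
      have hdS : ∀ j, Tendsto (fun n => (t n)⁻¹ * (S (x + t n • w) j - S x j)) atTop
          (𝓝 ((u x)⁻¹ * Y j w x)) := by
        intro j
        have := (hy j).const_mul (u x)⁻¹
        refine this.congr fun n => ?_
        rw [← mul_assoc, inv_mul_cancel₀ hux, one_mul]
        rfl
      have hdS' : Tendsto (fun n => (t n)⁻¹ • (S (x + t n • w) - S x)) atTop
          (𝓝 (fun j => (u x)⁻¹ * Y j w x)) := by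
        rw [tendsto_pi_nhds]
        intro j
        exact hdS j
      have hdlim : Tendsto (fun n => S (x + t n • w) - S x) atTop (𝓝 0) := by
        have := htl.smul hdS'
        rw [zero_smul] at this
        refine this.congr fun n => ?_
        rw [smul_smul, mul_inv_cancel₀ (htn n), one_smul]
      have hfd : HasFDerivWithinAt F (fderiv ℝ F (S x)) Set.univ (S x) :=
        ((hF.differentiable one_ne_zero) (S x)).hasFDerivAt.hasFDerivWithinAt
      have hlim1 := hfd.lim hdlim (Eventually.of_forall fun _ => Set.mem_univ _) hdS'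
      have hSx : Tendsto (fun n => S (x + t n • w)) atTop (𝓝 (S x)) := by
        have := hdlim.add_const (S x)
        simpa using this
      have hFx : Tendsto (fun n => F (S (x + t n • w))) atTop (𝓝 (F (S x))) :=
        (hF.continuous.tendsto (S x)).comp hSx
      have g1 : Tendsto (fun n => (dq (t n) w u x : ℂ) * F (S (x + t n • w)) -
          (h w x : ℂ) * F (S x)) atTop (𝓝 0) := by
        have := (((Complex.continuous_ofReal.tendsto _).comp hx).mul hFx).sub_const
          ((h w x : ℂ) * F (S x))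
        simpa using this
      have g2 : Tendsto (fun n => (u x : ℂ) * ((t n : ℂ)⁻¹ * (F (S (x + t n • w)) - F (S x))) -
          ∑ j, (Y j w x : ℂ) * fderiv ℝ F (S x) (Pi.single j (1 : ℝ))) atTop (𝓝 0) := by
        have e2 : ∑ j, (Y j w x : ℂ) * fderiv ℝ F (S x) (Pi.single j (1 : ℝ)) =
            (u x : ℂ) * fderiv ℝ F (S x) (fun j => (u x)⁻¹ * Y j w x) := by
          rw [fderiv_pi F, Finset.mul_sum]
          apply Finset.sum_congr rfl
          intro j _
          push_cast
          have : (u x : ℂ) ≠ 0 := by exact_mod_cast hux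
          field_simp
        rw [e2]
        have := (hlim1.const_mul (u x : ℂ)).sub_const
          ((u x : ℂ) * fderiv ℝ F (S x) (fun j => (u x)⁻¹ * Y j w x))
        rw [sub_self] at this
        refine this.congr fun n => ?_
        simp
      have := g1.add g2
      simpa using this
  · refine tendsto_of_tendsto_of_tendsto_of_le_of_le tendsto_const_nhds iPlim (fun n => zero_le)
      (fun n => ?_)
    simp only
    rw [← iP n]
    apply lintegral_mono
    intro x
    simp only
    rw [tsub_le_iff_right]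
  · have m1 : Measurable fun x => ENNReal.ofReal (h w x ^ 2) :=
      ((H.hmeas w).pow_const 2).ennreal_ofReal
    have m2 : ∀ j, Measurable fun x => ENNReal.ofReal (Y j w x ^ 2) := fun j =>
      ((D.Ymeas j w).pow_const 2).ennreal_ofReal
    have e1 : ∀ x, ENNReal.ofReal (16 * K ^ 2 * h w x ^ 2 + 16 * K ^ 2 * d * ∑ j, Y j w x ^ 2) =
        ENNReal.ofReal (16 * K ^ 2) * ENNReal.ofReal (h w x ^ 2) +
        ENNReal.ofReal (16 * K ^ 2 * d) * ∑ j, ENNReal.ofReal (Y j w x ^ 2) := by
      intro x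
      exact ofReal_comb (by positivity) (by positivity) _ _
    simp_rw [e1]
    rw [lintegral_add_left (m1.const_mul _), lintegral_const_mul _ m1,
      lintegral_const_mul _ (Finset.measurable_sum _ fun j _ => m2 j),
      lintegral_finsetSum _ (fun j _ => m2 j)]
    have a1 : ∫⁻ x, ENNReal.ofReal (h w x ^ 2) < ∞ := by
      rw [← I2_real]
      exact H.hL2 w
    have a2 : ∀ j, ∫⁻ x, ENNReal.ofReal (Y j w x ^ 2) < ∞ := fun j => by
      rw [← I2_real]
      exact D.YL2 j w
    exact (ENNReal.add_lt_top.2 ⟨ENNReal.mul_lt_top ENNReal.ofReal_lt_top a1,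
      ENNReal.mul_lt_top ENNReal.ofReal_lt_top (ENNReal.sum_lt_top.2 fun j _ => a2 j)⟩).ne

end

end Pool.Agent.W564.MY
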