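import Mathlib

/-!
# March-Young / Levy-Lieb project (MP_2a55aa_mp, MP_ae5e3b_mp), definitions and sub-statements

`E d = Fin d → ℝ`, `WeakDir v u g`: `g` is the weak derivative of `u` in the direction `v`.
The propositions `S_*` are the statements of independent sub-tasks.
-/

set_option autoImplicit false

noncomputable section

namespace Pool.Agent.W564.MY

open MeasureTheory Filter Topology
open scoped ENNReal ComplexConjugate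

/-- `ℝᵈ` -/
abbrev E (d : ℕ) : Type := Fin d → ℝ

/-- `g` is the weak derivative of `u` in the direction `v` -/
def WeakDir {V : Type} [NormedAddCommGroup V] [NormedSpace ℝ V] [MeasureSpace V] (v : V)
    (u g : V → ℂ) : Prop :=
  ∀ φ : V → ℂ, ContDiff ℝ ((⊤ : ℕ∞) : WithTop ℕ∞) φ → HasCompactSupport φ →
    ∫ x, u x * fderiv ℝ φ x v = -∫ x, g x * φ x

/-- difference quotient -/
def DQ {V : Type} [AddCommGroup V] [Module ℝ V] (v : V) (t : ℝ) (u : V → ℂ) (x : V) : ℂ :=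
  (t : ℂ)⁻¹ * (u (x + t • v) - u x)

/-- `u ∈ H¹(ℝᵈ)` with weak partial derivatives `g i` -/
def IsH1 {d : ℕ} (u : E d → ℂ) (g : Fin d → E d → ℂ) : Prop :=
  MemLp u 2 ∧ (∀ i, MemLp (g i) 2) ∧ ∀ i, WeakDir (Pi.single i (1 : ℝ)) u (g i)

/-- `Ψ ∈ H¹(ℝ^{dN})` with weak partial derivatives `G i c` (coordinate `c` of particle `i`) -/
def IsH1N {N d : ℕ} (Ψ : (Fin N → E d) → ℂ) (G : Fin N → Fin d → (Fin N → E d) → ℂ) : Prop :=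
  MemLp Ψ 2 ∧ (∀ i c, MemLp (G i c) 2) ∧
    ∀ i c, WeakDir (Pi.single i (Pi.single c (1 : ℝ))) Ψ (G i c)

/-- antisymmetric wave functions -/
def Antisym {N d : ℕ} (Ψ : (Fin N → E d) → ℂ) : Prop :=
  ∀ i j : Fin N, i ≠ j → ∀ᵐ x : Fin N → E d, Ψ (x ∘ Equiv.swap i j) = -Ψ x

/-- `ρ` is the one-body density of `Ψ`:
`∑ᵢ ∫ 1_A(xᵢ) |Ψ|² = ∫_A ρ` for all measurable `A` -/
def HasDensity {N d : ℕ} (Ψ : (Fin N → E d) → ℂ) (ρ : E d → ℝ≥0∞) : Prop :=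
  ∀ A : Set (E d), MeasurableSet A →
    ∑ i : Fin N, ∫⁻ x in {x : Fin N → E d | x i ∈ A}, ENNReal.ofReal (‖Ψ x‖ ^ 2) =
      ∫⁻ x in A, ρ x

/-- volume of the unit ball -/
def ballVol (d : ℕ) : ℝ := (volume {x : E d | ∑ i, x i ^ 2 < 1}).toReal

/-- the semiclassical constant -/
def Kcl (d : ℕ) : ℝ := 4 * Real.pi ^ 2 * d / (d + 2) * ballVol d ^ (-(2 : ℝ) / d)

/-! ### windows -/

/-- angle profile, from `0` to `π/2` -/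
def ang (x : ℝ) : ℝ := Real.pi / 2 * Real.smoothTransition x

/-- the window of a cell `[0, l' + u]` -/
def Wf (u l' t : ℝ) : ℝ := Real.sin (ang (t / u)) * Real.cos (ang ((t - l') / u))

/-- the bump `[-u, u]` -/
def bf (u x : ℝ) : ℝ := Real.sin (ang (x / u + 1)) * Real.cos (ang (x / u))

/-- the amplitude of the skeleton functions -/
def Bf (J : ℕ) (u s : ℝ) : ℝ := ∑ i ∈ Finset.range (J + 1), (-1 : ℝ) ^ i * bf u (s - i / J)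

/-- bulk functions -/
def bulk (J : ℕ) (u : ℝ) (i : ℕ) (k : ℤ) (s : ℝ) : ℂ :=
  (Wf u (1 / J - u) (s - i / J) : ℂ) *
    Complex.exp ((2 * Real.pi * k / (1 / J - u) * (s - i / J) : ℝ) * Complex.I) /
      ((Real.sqrt (1 / J - u) : ℝ) : ℂ)

/-- skeleton functions -/
def skel (J : ℕ) (u : ℝ) (m : ℤ) (s : ℝ) : ℂ :=
  (∑ i ∈ Finset.range (J + 1), (((-1 : ℝ) ^ i * bf u (s - i / J) : ℝ) : ℂ) *
    Complex.exp ((2 * Real.pi * m / (J * u) * (i * u + (s - i / J)) : ℝ) * Complex.I)) /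
      ((Real.sqrt (J * u) : ℝ) : ℂ)

/-- SUB 1: difference quotients of a function with weak derivative converge in `L²`. -/
def S_dq : Prop :=
  ∀ (V : Type) [NormedAddCommGroup V] [NormedSpace ℝ V] [FiniteDimensional ℝ V] [MeasureSpace V]
    [BorelSpace V] [(volume : Measure V).IsAddHaarMeasure] (v : V) (u g : V → ℂ),
    MemLp u 2 → MemLp g 2 → WeakDir v u g →
      Tendsto (fun t : ℝ => eLpNorm (fun x => DQ v t u x - g x) 2 volume) (𝓝[≠] 0) (𝓝 0)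

/-- SUB 2: the windows (orthonormality, partition of unity, derivatives, bounds). -/
def S_win : Prop :=
  (∀ (J : ℕ) (u : ℝ), 0 < J → 0 < u → 2 * u ≤ 1 / J →
    (∀ i < J, ∀ i' < J, ∀ k k' : ℤ,
      ∫ s in (0 : ℝ)..1, bulk J u i k s * conj (bulk J u i' k' s) =
        if i = i' ∧ k = k' then 1 else 0) ∧
    (∀ i < J, ∀ k m : ℤ, ∫ s in (0 : ℝ)..1, bulk J u i k s * conj (skel J u m s) = 0) ∧
    (∀ m m' : ℤ, ∫ s in (0 : ℝ)..1, skel J u m s * conj (skel J u m' s) =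
        if m = m' then 1 else 0) ∧
    (∀ s ∈ Set.Icc (0 : ℝ) 1,
      ∑ i ∈ Finset.range J, Wf u (1 / J - u) (s - i / J) ^ 2 + Bf J u s ^ 2 = 1) ∧
    (∀ (i : ℕ) (k : ℤ) (s : ℝ), ∃ z : ℂ, ‖z‖ = 1 ∧
      bulk J u i k s = (Wf u (1 / J - u) (s - i / J) : ℂ) * z / ((Real.sqrt (1 / J - u) : ℝ) : ℂ) ∧
      HasDerivAt (bulk J u i k)
        ((((deriv (Wf u (1 / J - u)) (s - i / J) : ℝ) : ℂ) + (2 * Real.pi * k / (1 / J - u) *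
          Wf u (1 / J - u) (s - i / J) : ℝ) * Complex.I) * z /
            ((Real.sqrt (1 / J - u) : ℝ) : ℂ)) s) ∧
    (∀ (m : ℤ) (s : ℝ), ∃ z : ℂ, ‖z‖ = 1 ∧
      skel J u m s = (Bf J u s : ℂ) * z / ((Real.sqrt (J * u) : ℝ) : ℂ) ∧
      HasDerivAt (skel J u m)
        ((((deriv (Bf J u) s : ℝ) : ℂ) + (2 * Real.pi * m / (J * u) * Bf J u s : ℝ) * Complex.I) * z /
          ((Real.sqrt (J * u) : ℝ) : ℂ)) s)) ∧
  (∀ (J : ℕ) (u l' : ℝ) (i : ℕ) (k : ℤ),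
    ContDiff ℝ ((⊤ : ℕ∞) : WithTop ℕ∞) (Wf u l') ∧ ContDiff ℝ ((⊤ : ℕ∞) : WithTop ℕ∞) (Bf J u) ∧
    ContDiff ℝ ((⊤ : ℕ∞) : WithTop ℕ∞) (bulk J u i k) ∧
    ContDiff ℝ ((⊤ : ℕ∞) : WithTop ℕ∞) (skel J u k)) ∧
  (∃ C : ℝ, 0 < C ∧ ∀ (J : ℕ) (u l' t : ℝ), 0 < J → 0 < u → 2 * u ≤ 1 / J →
    |Wf u l' t| ≤ 1 ∧ |Bf J u t| ≤ 1 ∧ |deriv (Wf u l') t| ≤ C / u ∧ |deriv (Bf J u) t| ≤ C / u) ∧
  (∀ u l' t : ℝ, 0 < u → u ≤ l' → Wf u l' t ≠ 0 → 0 < t ∧ t < l' + u) ∧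
  (∀ (J : ℕ) (u s : ℝ), 0 < u → Bf J u s ≠ 0 → ∃ i : ℕ, i ≤ J ∧ |s - i / J| < u)

/-- SUB 3: lattice points in ellipsoids. -/
def S_lattice : Prop :=
  ∀ (d : ℕ), 1 ≤ d → ∀ (B : Matrix (Fin d) (Fin d) ℝ), B.det = 1 → ∀ lam : ℝ, 0 < lam →
    ∀ ε : ℝ, 0 < ε → ∃ N₀ : ℕ, ∀ N : ℕ, N₀ ≤ N → ∀ len : Fin d → ℝ,
      (∀ j, lam ≤ len j ∧ len j ≤ 1) → ∀ n : ℕ, (n : ℝ) ≤ N * ∏ j, len j →
        ∃ K : Finset (Fin d → ℤ), K.card = n ∧ ∀ v : Fin d → ℝ,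
          ∑ k ∈ K, (∑ j, v j * (2 * Real.pi * k j / len j)) ^ 2 ≤
            (N : ℝ) ^ (2 / (d : ℝ)) * (N * ∏ j, len j) * (Kcl d / d + ε) *
              ∑ m, (∑ j, B j m * v j) ^ 2

/-- SUB 4: Slater determinants. -/
def S_slater : Prop :=
  ∀ (N d : ℕ), 1 ≤ N → ∀ (φ : Fin N → E d → ℂ) (g : Fin N → Fin d → E d → ℂ),
    (∀ a, IsH1 (φ a) (g a)) →
    (∀ a b, ∫ x, φ a x * conj (φ b x) = if a = b then 1 else 0) →
    ∃ (Ψ : (Fin N → E d) → ℂ) (G : Fin N → Fin d → (Fin N → E d) → ℂ),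
      IsH1N Ψ G ∧ Antisym Ψ ∧ ∫ x, ‖Ψ x‖ ^ 2 = 1 ∧
      HasDensity Ψ (fun x => ∑ a, ENNReal.ofReal (‖φ a x‖ ^ 2)) ∧
      ∑ i, ∑ c, ∫ x, ‖G i c x‖ ^ 2 = ∑ a, ∑ c, ∫ x, ‖g a c x‖ ^ 2 ∧
      ∀ w : E d → ℝ≥0∞, Measurable w → (∀ x, w (-x) = w x) →
        ∑ i : Fin N, ∑ j : Fin N, (if i < j then
          ∫⁻ x : Fin N → E d, w (x i - x j) * ENNReal.ofReal (‖Ψ x‖ ^ 2) else 0) ≤
          2⁻¹ * ∫⁻ x, ∫⁻ y, w (x - y) * (∑ a, ENNReal.ofReal (‖φ a x‖ ^ 2)) *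
            (∑ a, ENNReal.ofReal (‖φ a y‖ ^ 2))

/-- SUB 5: semiclassical lower bound for the kinetic energy of fermions (coherent states). -/
def S_kin : Prop :=
  ∀ (N d : ℕ), 1 ≤ d → ∀ (Ψ : (Fin N → E d) → ℂ) (G : Fin N → Fin d → (Fin N → E d) → ℂ),
    IsH1N Ψ G → Antisym Ψ → ∫ x, ‖Ψ x‖ ^ 2 = 1 → ∀ ρ : E d → ℝ, Measurable ρ → (∀ x, 0 ≤ ρ x) →
      HasDensity Ψ (fun x => ENNReal.ofReal (ρ x)) →
      ∀ γ : E d → ℝ, ContDiff ℝ ((⊤ : ℕ∞) : WithTop ℕ∞) γ → HasCompactSupport γ →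
        ∫ x, γ x ^ 2 = 1 →
        Kcl d * ∫ x, (∫ y, ρ y * γ (x - y) ^ 2) ^ (1 + 2 / (d : ℝ)) -
            N * ∑ c, ∫ x, (fderiv ℝ γ x (Pi.single c (1 : ℝ))) ^ 2 ≤
          ∑ i, ∑ c, ∫ x, ‖G i c x‖ ^ 2

/-- SUB 6: lower bound for positive-definite interactions. -/
def S_int : Prop :=
  ∀ (N d : ℕ) (Ψ : (Fin N → E d) → ℂ), MemLp Ψ 2 → ∫ x, ‖Ψ x‖ ^ 2 = 1 →
    ∀ ρ : E d → ℝ, Measurable ρ → (∀ x, 0 ≤ ρ x) →
      HasDensity Ψ (fun x => ENNReal.ofReal (ρ x)) →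
      ∀ χ : ℝ → E d → ℝ, Measurable (fun p : ℝ × E d => χ p.1 p.2) → (∀ r x, 0 ≤ χ r x) →
        (∀ r x, χ r (-x) = χ r x) → ∀ w : E d → ℝ, Measurable w →
        (∀ᵐ x, ENNReal.ofReal (w x) =
          ∫⁻ r in Set.Ioi (0 : ℝ), ∫⁻ y, ENNReal.ofReal (χ r y * χ r (x - y))) →
        ∀ m : ℕ,
          -- the truncated interaction
          ∀ wm : E d → ℝ≥0∞, (∀ x, wm x = ∫⁻ r in Set.Ioc (0 : ℝ) m,
            ∫⁻ y in {y | ‖y‖ ≤ m ∧ ‖x - y‖ ≤ m},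
              ENNReal.ofReal (min (χ r y) m * min (χ r (x - y)) m)) →
          2⁻¹ * ∫⁻ x, ∫⁻ y, wm (x - y) * ENNReal.ofReal (ρ x) * ENNReal.ofReal (ρ y) ≤
            ∑ i : Fin N, ∑ j : Fin N, (if i < j then
              ∫⁻ x : Fin N → E d, ENNReal.ofReal (w (x i - x j)) *
                ENNReal.ofReal (‖Ψ x‖ ^ 2) else 0) + 2⁻¹ * N * wm 0

end Pool.Agent.W564.MY
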