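import Pool.Agent.W564.MY.Defs

/-!
# Corrected statement of the kinetic lower bound (parentheses around the integral)
-/

set_option autoImplicit false

noncomputable section

namespace Pool.Agent.W564.MY

open MeasureTheory Filter Topology
open scoped ENNReal ComplexConjugate

/-- SUB 5, corrected: semiclassical lower bound for the kinetic energy of fermions. -/
def S_kin2 : Prop :=
  ∀ (N d : ℕ), 1 ≤ d → ∀ (Ψ : (Fin N → E d) → ℂ) (G : Fin N → Fin d → (Fin N → E d) → ℂ),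
    IsH1N Ψ G → Antisym Ψ → ∫ x, ‖Ψ x‖ ^ 2 = 1 → ∀ ρ : E d → ℝ, Measurable ρ → (∀ x, 0 ≤ ρ x) →
      HasDensity Ψ (fun x => ENNReal.ofReal (ρ x)) →
      ∀ γ : E d → ℝ, ContDiff ℝ ((⊤ : ℕ∞) : WithTop ℕ∞) γ → HasCompactSupport γ →
        ∫ x, γ x ^ 2 = 1 →
        (Kcl d * (∫ x, (∫ y, ρ y * γ (x - y) ^ 2) ^ (1 + 2 / (d : ℝ)))) -
            (N * ∑ c, ∫ x, (fderiv ℝ γ x (Pi.single c (1 : ℝ))) ^ 2) ≤
          ∑ i, ∑ c, ∫ x, ‖G i c x‖ ^ 2

end Pool.Agent.W564.MY
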