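import Pool.Agent.W564.MY.ThmU2

/-!
# From `H¹` to the hypotheses of the transport construction
-/

set_option autoImplicit false
set_option linter.unusedVariables false
set_option linter.unusedSimpArgs false
set_option linter.unusedSectionVars false

noncomputable section

namespace Pool.Agent.W564.MY

open MeasureTheory Filter Topology
open scoped ENNReal ComplexConjugate

variable {d : ℕ}

theorem weakDir_lin {u : E d → ℂ} {g : Fin d → E d → ℂ} (hu : MemLp u 2)
    (hg : ∀ i, MemLp (g i) 2) (h : ∀ i, WeakDir (Pi.single i (1 : ℝ)) u (g i)) (w : E d) :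
    WeakDir w u (fun x => ∑ i, (w i : ℂ) * g i x) := by
  intro φ hφ hφc
  have hφ2 : MemLp φ 2 volume := hφ.continuous.memLp_of_hasCompactSupport hφc
  have hd2 : ∀ i, MemLp (fun x => fderiv ℝ φ x (Pi.single i (1 : ℝ))) 2 volume := by
    intro i
    have hc : Continuous fun x => fderiv ℝ φ x (Pi.single i (1 : ℝ)) :=
      (hφ.continuous_fderiv (by simp)).clm_apply continuous_const
    exact hc.memLp_of_hasCompactSupport (hφc.fderiv_apply (𝕜 := ℝ) _)
  have e1 : ∀ x, u x * fderiv ℝ φ x w =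
      ∑ i, (w i : ℂ) * (u x * fderiv ℝ φ x (Pi.single i (1 : ℝ))) := by
    intro x
    rw [fderiv_pi φ x w, Finset.mul_sum]
    apply Finset.sum_congr rfl
    intro i _
    ring
  have e2 : ∀ x, (∑ i, (w i : ℂ) * g i x) * φ x = ∑ i, (w i : ℂ) * (g i x * φ x) := by
    intro x
    rw [Finset.sum_mul]
    apply Finset.sum_congr rfl
    intro i _
    ring
  simp_rw [e1, e2]
  rw [integral_finsetSum _ (fun i _ => (int_mul_c hu (hd2 i)).const_mul _),
    integral_finsetSum _ (fun i _ => (int_mul_c (hg i) hφ2).const_mul _), ← Finset.sum_neg_distrib]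
  apply Finset.sum_congr rfl
  intro i _
  rw [integral_const_mul, integral_const_mul, h i φ hφ hφc]
  ring

/-- from `H¹` to `HypH` -/
theorem hypH_of_isH1 (hdq : S_dq) {u : E d → ℝ} (hu : Measurable u) (hu0 : ∀ x, 0 ≤ u x)
    (hu1 : ∫⁻ x, ENNReal.ofReal (u x ^ 2) = 1) {g : Fin d → E d → ℂ}
    (hH : IsH1 (fun x => (u x : ℂ)) g) : ∃ h : E d → E d → ℝ, HypH u h := by
  obtain ⟨h1, h2, h3⟩ := hH
  have hmem : ∀ w : E d, MemLp (fun x => ∑ i, (w i : ℂ) * g i x) 2 volume := by
    intro w
    apply memLp_finsetSum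
    intro i _
    exact (h2 i).const_mul _
  set G : E d → E d → ℂ := fun w => (hmem w).1.mk _ with hG
  have hGm : ∀ w, Measurable (G w) := fun w => (hmem w).1.stronglyMeasurable_mk.measurable
  have hGe : ∀ w, ∀ᵐ x, ∑ i, (w i : ℂ) * g i x = G w x := fun w => (hmem w).1.ae_eq_mk
  have hGL : ∀ w, MemLp (G w) 2 volume := fun w => (memLp_congr_ae (hGe w)).1 (hmem w)
  refine ⟨fun w x => (G w x).re, hu, hu0, hu1, fun w => Complex.measurable_re.comp (hGm w), ?_, ?_⟩
  · intro w
    refine lt_of_le_of_lt (I2_mono (ψ := G w) (Eventually.of_forall fun x => ?_))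
      (I2_lt_top (hGL w))
    rw [Real.norm_eq_abs]
    exact Complex.abs_re_le_norm _
  · intro w
    have h4 := hdq (E d) w (fun x => (u x : ℂ)) (fun x => ∑ i, (w i : ℂ) * g i x) h1 (hmem w)
      (weakDir_lin h1 h2 h3 w)
    rw [tendsto_I2_iff] at h4
    refine tendsto_of_tendsto_of_tendsto_of_le_of_le tendsto_const_nhds h4 (fun t => zero_le)
      (fun t => ?_)
    apply I2_mono
    filter_upwards [hGe w] with x hx
    have e1 : dq t w u x - (G w x).re =
        (DQ w t (fun x => (u x : ℂ)) x - ∑ i, (w i : ℂ) * g i x).re := by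
      rw [hx, Complex.sub_re]
      congr 1
      unfold dq DQ
      have : ((t : ℂ)⁻¹ * ((u (x + t • w) : ℂ) - (u x : ℂ))) =
          ((t⁻¹ * (u (x + t • w) - u x) : ℝ) : ℂ) := by push_cast; ring
      rw [this, Complex.ofReal_re]
    rw [e1, Real.norm_eq_abs]
    exact Complex.abs_re_le_norm _

end Pool.Agent.W564.MY
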