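import Pool.Agent.W564.MY.Fin1

/-!
# Mollification of the density
-/

set_option autoImplicit false
set_option linter.unusedVariables false
set_option linter.unusedSimpArgs false
set_option linter.unusedSectionVars false

noncomputable section

namespace Pool.Agent.W564.MY

open MeasureTheory Filter Topology
open scoped ENNReal ComplexConjugate

variable {d : ℕ}

/-- continuity of translations in `L¹` -/
theorem transl1 {f : E d → ℝ} (hf : MemLp f 1 volume) {η : ℝ≥0∞} (hη : 0 < η) :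
    ∃ ε : ℝ, 0 < ε ∧ ∀ t : E d, ‖t‖ < ε → ∫⁻ z, ‖f (z - t) - f z‖ₑ ≤ η := by
  let G : E d → C(E d, E d) := fun t => ⟨fun z => z - t, by fun_prop⟩
  have hG : Continuous G := ContinuousMap.continuous_of_continuous_uncurry _ (by
    show Continuous fun p : E d × E d => p.2 - p.1
    fun_prop)
  have hmp : ∀ t, MeasurePreserving (G t) volume volume := fun t =>
    measurePreserving_sub_right volume t
  have hc : Continuous fun t => Lp.compMeasurePreserving (G t) (hmp t) (hf.toLp f) :=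
    Continuous.compMeasurePreservingLp continuous_const hG hmp (by norm_num)
  have h0 := hc.tendsto 0
  rw [EMetric.tendsto_nhds] at h0
  have h1 := h0 η hη
  rw [Metric.eventually_nhds_iff] at h1
  obtain ⟨ε, hε, h2⟩ := h1
  refine ⟨ε, hε, fun t ht => ?_⟩
  have h3 := h2 (y := t) (by rw [dist_eq_norm, sub_zero]; exact ht)
  rw [Lp.edist_def] at h3
  have hcoe : ∀ s : E d,
      (Lp.compMeasurePreserving (G s) (hmp s) (hf.toLp f) : E d → ℝ) =ᵐ[volume]
      fun z => f (z - s) := by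
    intro s
    have e1 := Lp.coeFn_compMeasurePreserving (hf.toLp f) (hmp s)
    have e2 : (fun z => (hf.toLp f : E d → ℝ) (G s z)) =ᵐ[volume] fun z => f (G s z) :=
      (hmp s).quasiMeasurePreserving.ae_eq_comp hf.coeFn_toLp
    exact e1.trans e2
  have h4 : eLpNorm (fun z => f (z - t) - f z) 1 volume =
      eLpNorm ((Lp.compMeasurePreserving (G t) (hmp t) (hf.toLp f) : E d → ℝ) -
        (Lp.compMeasurePreserving (G 0) (hmp 0) (hf.toLp f) : E d → ℝ)) 1 volume := by
    apply eLpNorm_congr_ae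
    filter_upwards [hcoe t, hcoe 0] with z h5 h6
    rw [Pi.sub_apply, h5, h6, sub_zero]
  rw [← eLpNorm_one_eq_lintegral_enorm, h4]
  exact h3.le

/-- smooth windows -/
structure Win (γ : E d → ℝ) : Prop where
  smooth : ContDiff ℝ ((⊤ : ℕ∞) : WithTop ℕ∞) γ
  cs : HasCompactSupport γ
  norm : ∫ x, γ x ^ 2 = 1

theorem exists_win {r : ℝ} (hr : 0 < r) : ∃ γ : E d → ℝ, Win γ ∧ ∀ z, γ z ≠ 0 → ‖z‖ < r := by
  let φ : ContDiffBump (0 : E d) := ⟨r / 2, r, by positivity, by linarith⟩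
  have hφc : HasCompactSupport φ := φ.hasCompactSupport
  have hφs : ContDiff ℝ ((⊤ : ℕ∞) : WithTop ℕ∞) φ := φ.contDiff
  have hsqc : HasCompactSupport fun x => φ x ^ 2 :=
    hφc.comp_left (g := fun t : ℝ => t ^ 2) (by simp)
  have hsq : Continuous fun x => φ x ^ 2 := φ.continuous.pow 2
  have hc : 0 < ∫ x, φ x ^ 2 := by
    refine hsq.integral_pos_of_hasCompactSupport_nonneg_nonzero hsqc (fun x => sq_nonneg _)
      (x := (0 : E d)) ?_
    have h0 : φ (0 : E d) = 1 := φ.one_of_mem_closedBall (Metric.mem_closedBall_self φ.rIn_pos.le)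
    rw [h0]
    exact pow_ne_zero 2 one_ne_zero
  refine ⟨fun x => (Real.sqrt (∫ x, φ x ^ 2))⁻¹ * φ x, ⟨contDiff_const.mul hφs, ?_, ?_⟩, ?_⟩
  · exact hφc.comp_left (g := fun t : ℝ => (Real.sqrt (∫ x, φ x ^ 2))⁻¹ * t) (by simp)
  · simp_rw [mul_pow]
    rw [integral_const_mul, inv_pow, Real.sq_sqrt hc.le, inv_mul_cancel₀ hc.ne']
  · intro z hz
    have h1 : φ z ≠ 0 := fun h => hz (by simp only [h, mul_zero])
    have h2 : z ∈ Function.support φ := h1
    rw [φ.support_eq, mem_ball_zero_iff] at h2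
    exact h2

theorem Win.integrable {γ : E d → ℝ} (W : Win γ) : Integrable (fun x => γ x ^ 2) := by
  have h1 : Continuous fun x => γ x ^ 2 := W.smooth.continuous.pow 2
  have h2 : HasCompactSupport fun x => γ x ^ 2 :=
    W.cs.comp_left (g := fun t : ℝ => t ^ 2) (by simp)
  exact h1.integrable_of_hasCompactSupport h2

theorem Win.lintegral {γ : E d → ℝ} (W : Win γ) : ∫⁻ x, ENNReal.ofReal (γ x ^ 2) = 1 := by
  rw [← ofReal_integral_eq_lintegral_ofReal W.integrable (Eventually.of_forall fun x => sq_nonneg _),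
    W.norm, ENNReal.ofReal_one]

theorem Win.bdd {γ : E d → ℝ} (W : Win γ) : ∃ M : ℝ, 0 ≤ M ∧ ∀ x, γ x ^ 2 ≤ M := by
  obtain ⟨C, hC⟩ := W.cs.exists_bound_of_continuous W.smooth.continuous
  refine ⟨C ^ 2, sq_nonneg _, fun x => ?_⟩
  have := hC x
  rw [Real.norm_eq_abs] at this
  rw [← sq_abs]
  exact pow_le_pow_left₀ (abs_nonneg _) this 2

/-- the mollified density -/
def mol (f γ : E d → ℝ) (x : E d) : ℝ := ∫ y, f y * γ (x - y) ^ 2

theorem mol_eq (f γ : E d → ℝ) (x : E d) : mol f γ x = ∫ z, f (x - z) * γ z ^ 2 := by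
  unfold mol
  rw [← integral_sub_left_eq_self (fun z => f (x - z) * γ z ^ 2) volume x]
  congr 1
  funext y
  rw [sub_sub_cancel]

theorem mol_nonneg {f γ : E d → ℝ} (hf : ∀ x, 0 ≤ f x) (x : E d) : 0 ≤ mol f γ x :=
  integral_nonneg fun y => mul_nonneg (hf y) (sq_nonneg _)

theorem measurable_mol {f γ : E d → ℝ} (hf : Measurable f) (W : Win γ) : Measurable (mol f γ) := by
  have h1 : Measurable fun p : E d × E d => f p.2 * γ (p.1 - p.2) ^ 2 :=
    (hf.comp measurable_snd).mul ((W.smooth.continuous.measurable.comp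
      (measurable_fst.sub measurable_snd)).pow_const 2)
  exact h1.stronglyMeasurable.integral_prod_right'.measurable

theorem integrable_mol_int {f γ : E d → ℝ} (hfi : Integrable f) (W : Win γ)
    (x : E d) : Integrable fun z => f (x - z) * γ z ^ 2 := by
  obtain ⟨M, hM, hMb⟩ := W.bdd
  have h1 : Integrable fun z => f (x - z) := hfi.comp_sub_left x
  have h2 : AEStronglyMeasurable (fun z => γ z ^ 2) volume :=
    (W.smooth.continuous.pow 2).aestronglyMeasurable
  have h3 : ∀ z, ‖γ z ^ 2‖ ≤ M := by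
    intro z
    rw [Real.norm_of_nonneg (sq_nonneg _)]
    exact hMb z
  exact h1.mul_bdd h2 (Eventually.of_forall h3)

/-- `L¹` approximation -/
theorem mol_close {f γ : E d → ℝ} (hf : Measurable f) (hfi : Integrable f) (W : Win γ)
    {ε : ℝ} {η : ℝ≥0∞} (hsupp : ∀ z, γ z ≠ 0 → ‖z‖ < ε)
    (htr : ∀ t : E d, ‖t‖ < ε → ∫⁻ z, ‖f (z - t) - f z‖ₑ ≤ η) :
    ∫⁻ x, ‖mol f γ x - f x‖ₑ ≤ η := by
  have hm : Measurable fun p : E d × E d => ‖f (p.1 - p.2) - f p.1‖ₑ *
      ENNReal.ofReal (γ p.2 ^ 2) :=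
    (((hf.comp (measurable_fst.sub measurable_snd)).sub (hf.comp measurable_fst)).enorm).mul
      (((W.smooth.continuous.measurable.comp measurable_snd).pow_const 2).ennreal_ofReal)
  have h1 : ∀ x, ‖mol f γ x - f x‖ₑ ≤
      ∫⁻ z, ‖f (x - z) - f x‖ₑ * ENNReal.ofReal (γ z ^ 2) := by
    intro x
    have e1 : mol f γ x - f x = ∫ z, (f (x - z) - f x) * γ z ^ 2 := by
      rw [mol_eq]
      have e2 : f x = ∫ z, f x * γ z ^ 2 := by
        rw [integral_const_mul, W.norm, mul_one]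
      conv_lhs => rw [e2]
      rw [← integral_sub (integrable_mol_int hfi W x) (W.integrable.const_mul _)]
      congr 1
      funext z
      ring
    rw [e1]
    refine (enorm_integral_le_lintegral_enorm _).trans (le_of_eq ?_)
    apply lintegral_congr
    intro z
    rw [enorm_mul, Real.enorm_of_nonneg (sq_nonneg _)]
  calc ∫⁻ x, ‖mol f γ x - f x‖ₑ
      ≤ ∫⁻ x, ∫⁻ z, ‖f (x - z) - f x‖ₑ * ENNReal.ofReal (γ z ^ 2) := lintegral_mono h1
    _ = ∫⁻ z, ∫⁻ x, ‖f (x - z) - f x‖ₑ * ENNReal.ofReal (γ z ^ 2) :=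
        lintegral_lintegral_swap hm.aemeasurable
    _ ≤ ∫⁻ z, η * ENNReal.ofReal (γ z ^ 2) := by
        apply lintegral_mono
        intro z
        simp only
        rw [lintegral_mul_const' _ _ ENNReal.ofReal_ne_top]
        by_cases hz : γ z = 0
        · simp [hz]
        · gcongr
          exact htr z (hsupp z hz)
    _ = η := by
        rw [lintegral_const_mul _ ((W.smooth.continuous.measurable.pow_const 2).ennreal_ofReal),
          W.lintegral, mul_one]

/-- lower semicontinuity -/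
theorem mol_lower {f : E d → ℝ} (hf : Measurable f) (hf0 : ∀ x, 0 ≤ f x) (hfi : Integrable f)
    {p : ℝ} (hp : 0 < p) {c : ℝ≥0∞} (hc : c < ∫⁻ x, ENNReal.ofReal (f x ^ p)) :
    ∃ γ : E d → ℝ, Win γ ∧ c < ∫⁻ x, ENNReal.ofReal (mol f γ x ^ p) := by
  by_contra hcon
  push Not at hcon
  have hf1 : MemLp f 1 volume := memLp_one_iff_integrable.2 hfi
  have hex : ∀ n : ℕ, ∃ γ : E d → ℝ, Win γ ∧ ∫⁻ x, ‖mol f γ x - f x‖ₑ ≤ (n : ℝ≥0∞)⁻¹ := by
    intro n
    obtain ⟨ε, hε, htr⟩ := transl1 hf1 (η := (n : ℝ≥0∞)⁻¹) (by simp)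
    obtain ⟨γ, hγ, hsupp⟩ := exists_win hε
    exact ⟨γ, hγ, mol_close hf hfi hγ hsupp htr⟩
  choose γ hγ hγc using hex
  have hlim : Tendsto (fun n => ∫⁻ x, ‖mol f (γ n) x - f x‖ₑ) atTop (𝓝 0) :=
    tendsto_of_tendsto_of_tendsto_of_le_of_le tendsto_const_nhds
      ENNReal.tendsto_inv_nat_nhds_zero (fun n => zero_le) hγc
  obtain ⟨ns, hns, hae⟩ := exists_subseq_ae_one (μ := (volume : Measure (E d)))
    (φ := fun n x => ‖mol f (γ n) x - f x‖ₑ)
    (fun n => ((measurable_mol hf (hγ n)).sub hf).enorm.aemeasurable) hlim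
  have h1 : ∫⁻ x, ENNReal.ofReal (f x ^ p) ≤
      liminf (fun k => ∫⁻ x, ENNReal.ofReal (mol f (γ (ns k)) x ^ p)) atTop := by
    have h2 : ∫⁻ x, liminf (fun k => ENNReal.ofReal (mol f (γ (ns k)) x ^ p)) atTop ≤
        liminf (fun k => ∫⁻ x, ENNReal.ofReal (mol f (γ (ns k)) x ^ p)) atTop :=
      lintegral_liminf_le fun k => ((measurable_mol hf (hγ _)).pow_const _).ennreal_ofReal
    refine le_trans (le_of_eq ?_) h2
    apply lintegral_congr_ae
    filter_upwards [hae] with x hx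
    have h3 : Tendsto (fun k => mol f (γ (ns k)) x) atTop (𝓝 (f x)) := by
      rw [tendsto_iff_edist_tendsto_0]
      refine hx.congr fun k => ?_
      rw [edist_eq_enorm_sub]
    have h4 : Tendsto (fun k => ENNReal.ofReal (mol f (γ (ns k)) x ^ p)) atTop
        (𝓝 (ENNReal.ofReal (f x ^ p))) := by
      apply (ENNReal.continuous_ofReal.tendsto _).comp
      exact ((Real.continuous_rpow_const hp.le).tendsto _).comp h3
    exact h4.liminf_eq.symm
  have h5 : liminf (fun k => ∫⁻ x, ENNReal.ofReal (mol f (γ (ns k)) x ^ p)) atTop ≤ c := by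
    have : liminf (fun k => ∫⁻ x, ENNReal.ofReal (mol f (γ (ns k)) x ^ p)) atTop ≤
        liminf (fun _ : ℕ => c) atTop :=
      liminf_le_liminf (Eventually.of_forall fun k => hcon _ (hγ _))
    simpa using this
  exact absurd (h1.trans h5) (not_le.2 hc)

theorem integrable_mol {f γ : E d → ℝ} (hf : Measurable f) (hf0 : ∀ x, 0 ≤ f x)
    (hfi : Integrable f) (W : Win γ) : Integrable (mol f γ) := by
  refine ⟨(measurable_mol hf W).aestronglyMeasurable, ?_⟩
  rw [hasFiniteIntegral_iff_ofReal (Eventually.of_forall fun x => mol_nonneg hf0 x)]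
  have hm : Measurable fun p : E d × E d => ENNReal.ofReal (f (p.1 - p.2) * γ p.2 ^ 2) :=
    ((hf.comp (measurable_fst.sub measurable_snd)).mul
      ((W.smooth.continuous.measurable.comp measurable_snd).pow_const 2)).ennreal_ofReal
  have h1 : ∀ x, ENNReal.ofReal (mol f γ x) = ∫⁻ z, ENNReal.ofReal (f (x - z) * γ z ^ 2) := by
    intro x
    rw [mol_eq, ofReal_integral_eq_lintegral_ofReal (integrable_mol_int hfi W x)
      (Eventually.of_forall fun z => mul_nonneg (hf0 _) (sq_nonneg _))]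
  simp_rw [h1]
  rw [lintegral_lintegral_swap hm.aemeasurable]
  have h2 : ∀ z, ∫⁻ x, ENNReal.ofReal (f (x - z) * γ z ^ 2) =
      (∫⁻ x, ENNReal.ofReal (f x)) * ENNReal.ofReal (γ z ^ 2) := by
    intro z
    simp_rw [fun x => ENNReal.ofReal_mul (q := γ z ^ 2) (hf0 (x - z))]
    rw [lintegral_mul_const' _ _ ENNReal.ofReal_ne_top,
      lintegral_sub_right_eq_self (fun x => ENNReal.ofReal (f x)) z]
  simp_rw [h2]
  rw [lintegral_const_mul _ ((W.smooth.continuous.measurable.pow_const 2).ennreal_ofReal),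
    W.lintegral, mul_one]
  rw [← ofReal_integral_eq_lintegral_ofReal hfi (Eventually.of_forall hf0)]
  exact ENNReal.ofReal_lt_top

theorem mol_bdd {f γ : E d → ℝ} (hf0 : ∀ x, 0 ≤ f x)
    (hfi : Integrable f) (W : Win γ) : ∃ M : ℝ, 0 ≤ M ∧ ∀ x, mol f γ x ≤ M := by
  obtain ⟨M, hM, hMb⟩ := W.bdd
  refine ⟨(∫ x, f x) * M, mul_nonneg (integral_nonneg hf0) hM, fun x => ?_⟩
  rw [mol_eq, ← integral_sub_left_eq_self f volume x, ← integral_mul_const]
  apply integral_mono (integrable_mol_int hfi W x) ((hfi.comp_sub_left x).mul_const M)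
  intro z
  exact mul_le_mul_of_nonneg_left (hMb z) (hf0 _)

theorem integrable_mol_pow {f γ : E d → ℝ} (hf : Measurable f) (hf0 : ∀ x, 0 ≤ f x)
    (hfi : Integrable f) (W : Win γ) {p : ℝ} (hp : 1 ≤ p) :
    Integrable (fun x => mol f γ x ^ p) := by
  obtain ⟨M, hM, hMb⟩ := mol_bdd hf0 hfi W
  refine ((integrable_mol hf hf0 hfi W).const_mul (M ^ (p - 1))).mono'
    ((measurable_mol hf W).pow_const _).aestronglyMeasurable (Eventually.of_forall fun x => ?_)
  have h0 := mol_nonneg (γ := γ) hf0 x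
  rw [Real.norm_of_nonneg (Real.rpow_nonneg h0 _)]
  rcases eq_or_lt_of_le h0 with h1 | h1
  · rw [← h1, Real.zero_rpow (by linarith), mul_zero]
  · have h2 : mol f γ x ^ p = mol f γ x ^ (p - 1) * mol f γ x := by
      rw [← Real.rpow_add_one h1.ne']
      congr 1
      ring
    rw [h2]
    exact mul_le_mul_of_nonneg_right (Real.rpow_le_rpow h0 (hMb x) (by linarith)) h0

/-- real version -/
theorem mol_lower_real {f : E d → ℝ} (hf : Measurable f) (hf0 : ∀ x, 0 ≤ f x)
    (hfi : Integrable f) {p : ℝ} (hp : 1 ≤ p) (hfp : Integrable fun x => f x ^ p) {ε : ℝ}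
    (hε : 0 < ε) :
    ∃ γ : E d → ℝ, Win γ ∧ (∫ x, f x ^ p) - ε ≤ ∫ x, mol f γ x ^ p := by
  rcases eq_or_lt_of_le (integral_nonneg fun x => Real.rpow_nonneg (hf0 x) p :
    0 ≤ ∫ x, f x ^ p) with h0 | h0
  · obtain ⟨γ, hγ, -⟩ := exists_win (d := d) one_pos
    refine ⟨γ, hγ, ?_⟩
    have : 0 ≤ ∫ x, mol f γ x ^ p :=
      integral_nonneg fun x => Real.rpow_nonneg (mol_nonneg hf0 x) p
    linarith
  have h1 : ∫⁻ x, ENNReal.ofReal (f x ^ p) = ENNReal.ofReal (∫ x, f x ^ p) :=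
    (ofReal_integral_eq_lintegral_ofReal hfp
      (Eventually.of_forall fun x => Real.rpow_nonneg (hf0 x) p)).symm
  obtain ⟨γ, hγ, hlt⟩ := mol_lower hf hf0 hfi (p := p) (by linarith)
    (c := ENNReal.ofReal ((∫ x, f x ^ p) - ε)) (by
      rw [h1]
      exact (ENNReal.ofReal_lt_ofReal_iff h0).2 (by linarith))
  refine ⟨γ, hγ, ?_⟩
  rw [← ofReal_integral_eq_lintegral_ofReal (integrable_mol_pow hf hf0 hfi hγ hp)
    (Eventually.of_forall fun x => Real.rpow_nonneg (mol_nonneg hf0 x) p)] at hlt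
  by_contra hcon
  push Not at hcon
  exact absurd (ENNReal.ofReal_le_ofReal hcon.le) (not_le.2 hlt)

end Pool.Agent.W564.MY
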