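import Pool.Agent.W564.MY.Fin2
import Pool.Agent.W819.Kin.Final
import Pool.Agent.W596.MY.Int
import Pool.Agent.W596.MY.Slater4
import Pool.Agent.W596.MY.LatticeMain
import Pool.Agent.W741.MYdq
import Pool.Agent.W741.MYwin2

/-!
# Definitions for the final statement; density, potential energy, interaction
-/

set_option autoImplicit false
set_option linter.unusedVariables false
set_option linter.unusedSimpArgs false
set_option linter.unusedSectionVars false

noncomputable section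

namespace Pool.Agent.W564.MY

open MeasureTheory Filter Topology
open scoped ENNReal ComplexConjugate

variable {d : ℕ}

/-- `ρ` is the density of `Ψ`, i.e.
`ρ(x) = N ∫ |Ψ(x, x₂, …, x_N)|² dx₂ … dx_N` for almost every `x` (with `N = n + 1`) -/
def IsDensity {d : ℕ} : (N : ℕ) → ((Fin N → E d) → ℂ) → (E d → ℝ) → Prop
  | 0, _, ρ => ∀ᵐ x, ρ x = 0
  | (n + 1), Ψ, ρ => ∀ᵐ x : E d, ENNReal.ofReal (ρ x) =
      ((n + 1 : ℕ) : ℝ≥0∞) * ∫⁻ y : Fin n → E d, ENNReal.ofReal (‖Ψ (Fin.cons x y)‖ ^ 2)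

/-- `V ∈ Lᵖ + L^q` for some `p, q ∈ [a, ∞)` -/
def InSum {d : ℕ} (a : ℝ) (V : E d → ℝ) : Prop :=
  ∃ p q : ℝ, a ≤ p ∧ a ≤ q ∧ ∃ V₁ V₂ : E d → ℝ, MemLp V₁ (ENNReal.ofReal p) volume ∧
    MemLp V₂ (ENNReal.ofReal q) volume ∧ ∀ᵐ x, V x = V₁ x + V₂ x

theorem lint_swap {n : ℕ} {F : (Fin (n + 1) → E d) → ℝ≥0∞} {A : Set (E d)} (i : Fin (n + 1))
    (hs : ∀ i j : Fin (n + 1), i ≠ j → ∀ᵐ x, F (x ∘ Equiv.swap i j) = F x) :
    ∫⁻ x in {x : Fin (n + 1) → E d | x i ∈ A}, F x = ∫⁻ x in {x : Fin (n + 1) → E d | x 0 ∈ A}, F x := by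
  by_cases hi : i = 0
  · rw [hi]
  have hmp := volume_measurePreserving_piCongrLeft (fun _ : Fin (n + 1) => E d) (Equiv.swap i 0)
  have h1 := hmp.setLIntegral_comp_preimage_emb (MeasurableEquiv.measurableEmbedding _) F
    {x : Fin (n + 1) → E d | x i ∈ A}
  have h2 : ∀ x : Fin (n + 1) → E d, (MeasurableEquiv.piCongrLeft (fun _ : Fin (n + 1) => E d)
      (Equiv.swap i 0)) x = x ∘ Equiv.swap i 0 := by
    intro x
    funext j
    have := Equiv.piCongrLeft_apply (fun _ : Fin (n + 1) => E d) (Equiv.swap i 0) x j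
    rw [MeasurableEquiv.coe_piCongrLeft, this]
    simp [Equiv.symm_swap]
  have h3 : (MeasurableEquiv.piCongrLeft (fun _ : Fin (n + 1) => E d)
      (Equiv.swap i 0)) ⁻¹' {x : Fin (n + 1) → E d | x i ∈ A} = {x | x 0 ∈ A} := by
    ext x
    simp only [Set.mem_preimage, h2, Set.mem_ofPred_eq, Function.comp_apply, Equiv.swap_apply_left]
  rw [h3] at h1
  rw [← h1]
  apply lintegral_congr_ae
  have h4 := hs i 0 hi
  filter_upwards [ae_restrict_of_ae h4] with x hx
  rw [h2, hx]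

theorem lint_first {n : ℕ} {F : (Fin (n + 1) → E d) → ℝ≥0∞} (hF : AEMeasurable F)
    {A : Set (E d)} (hA : MeasurableSet A) :
    ∫⁻ x in {x : Fin (n + 1) → E d | x 0 ∈ A}, F x =
      ∫⁻ x in A, ∫⁻ y : Fin n → E d, F (Fin.cons x y) := by
  have hvp := volume_preserving_piFinSuccAbove (fun _ : Fin (n + 1) => E d) 0
  have h1 := (hvp.symm).setLIntegral_comp_preimage_emb
    (MeasurableEquiv.measurableEmbedding _) F {x : Fin (n + 1) → E d | x 0 ∈ A}
  have h2 : ∀ q : E d × (Fin n → E d), (MeasurableEquiv.piFinSuccAbove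
      (fun _ : Fin (n + 1) => E d) 0).symm q = (Fin.cons q.1 q.2 : Fin (n + 1) → E d) := by
    intro q
    simp
    rfl
  have h3 : ((MeasurableEquiv.piFinSuccAbove (fun _ : Fin (n + 1) => E d) 0).symm ⁻¹'
      {x : Fin (n + 1) → E d | x 0 ∈ A}) = A ×ˢ Set.univ := by
    ext q
    simp only [Set.mem_preimage, h2, Set.mem_ofPred_eq, Fin.cons_zero, Set.mem_prod, Set.mem_univ,
      and_true]
  rw [h3] at h1
  rw [← h1]
  simp_rw [h2]
  have h4 : AEMeasurable (fun q : E d × (Fin n → E d) => F (Fin.cons q.1 q.2))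
      (volume : Measure (E d × (Fin n → E d))) := by
    have := hF.comp_quasiMeasurePreserving hvp.symm.quasiMeasurePreserving
    refine this.congr (Eventually.of_forall fun q => ?_)
    simp only [Function.comp_apply, h2]
  rw [Measure.volume_eq_prod, ← Measure.prod_restrict, Measure.restrict_univ, lintegral_prod]
  rw [Measure.volume_eq_prod] at h4
  refine h4.mono_measure ?_
  have : ((volume : Measure (E d)).restrict A).prod (volume : Measure (Fin n → E d)) =
      ((volume : Measure (E d)).prod (volume : Measure (Fin n → E d))).restrict (A ×ˢ Set.univ) := by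
    rw [← Measure.prod_restrict, Measure.restrict_univ]
  rw [this]
  exact Measure.restrict_le_self

theorem antisym_norm {N : ℕ} {Ψ : (Fin N → E d) → ℂ} (h : Antisym Ψ) (i j : Fin N) (hij : i ≠ j) :
    ∀ᵐ x : Fin N → E d, ENNReal.ofReal (‖Ψ (x ∘ Equiv.swap i j)‖ ^ 2) =
      ENNReal.ofReal (‖Ψ x‖ ^ 2) := by
  filter_upwards [h i j hij] with x hx
  rw [hx, norm_neg]

/-- the two definitions of the density agree -/
theorem hasDensity_iff {N : ℕ} (hN : 0 < N) {Ψ : (Fin N → E d) → ℂ} (hΨ : MemLp Ψ 2)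
    (ha : Antisym Ψ) {ρ : E d → ℝ} (hρ : Measurable ρ) :
    HasDensity Ψ (fun x => ENNReal.ofReal (ρ x)) ↔ IsDensity N Ψ ρ := by
  obtain ⟨n, rfl⟩ : ∃ n, N = n + 1 := ⟨N - 1, by omega⟩
  set F : (Fin (n + 1) → E d) → ℝ≥0∞ := fun x => ENNReal.ofReal (‖Ψ x‖ ^ 2) with hF
  have hFm : AEMeasurable F := (hΨ.1.norm.aemeasurable.pow_const 2).ennreal_ofReal
  have hsum : ∀ A : Set (E d), MeasurableSet A →
      ∑ i : Fin (n + 1), ∫⁻ x in {x : Fin (n + 1) → E d | x i ∈ A}, F x =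
        ∫⁻ x in A, ((n + 1 : ℕ) : ℝ≥0∞) * ∫⁻ y : Fin n → E d, F (Fin.cons x y) := by
    intro A hA
    rw [lintegral_const_mul' _ _ (by simp), ← lint_first hFm hA]
    rw [Finset.sum_congr rfl (fun i _ => lint_swap (A := A) i (fun i j hij => antisym_norm ha i j hij))]
    simp
  have hm2 : AEMeasurable (fun x : E d => ((n + 1 : ℕ) : ℝ≥0∞) *
      ∫⁻ y : Fin n → E d, F (Fin.cons x y)) := by
    apply AEMeasurable.const_mul
    have hvp := volume_preserving_piFinSuccAbove (fun _ : Fin (n + 1) => E d) 0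
    have h4 : AEMeasurable (fun q : E d × (Fin n → E d) => F (Fin.cons q.1 q.2))
        ((volume : Measure (E d)).prod (volume : Measure (Fin n → E d))) := by
      have := hFm.comp_quasiMeasurePreserving hvp.symm.quasiMeasurePreserving
      refine this.congr (Eventually.of_forall fun q => ?_)
      simp only [Function.comp_apply]
      congr 1
      simp
      rfl
    exact h4.lintegral_prod_right'
  constructor
  · intro h
    change ∀ᵐ x : E d, _
    apply ae_eq_of_forall_setLIntegral_eq_of_sigmaFinite₀ hρ.ennreal_ofReal.aemeasurable hm2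
    intro A hA _
    rw [← hsum A hA, h A hA]
  · intro h A hA
    change ∀ᵐ x : E d, _ at h
    rw [hsum A hA]
    apply lintegral_congr_ae
    filter_upwards [ae_restrict_of_ae h] with x hx
    rw [hx]

/-- the potential energy depends on the density only -/
theorem pot_energy {N : ℕ} {Ψ : (Fin N → E d) → ℂ} (hΨ : MemLp Ψ 2) {ρ : E d → ℝ}
    (hρ : Measurable ρ) (hρ0 : ∀ x, 0 ≤ ρ x) (hD : HasDensity Ψ (fun x => ENNReal.ofReal (ρ x)))
    {V : E d → ℝ} (hV : Measurable V) (hVρ : Integrable fun x => V x * ρ x) :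
    (∀ i : Fin N, Integrable fun x : Fin N → E d => V (x i) * ‖Ψ x‖ ^ 2) ∧
    ∑ i : Fin N, ∫ x : Fin N → E d, V (x i) * ‖Ψ x‖ ^ 2 = ∫ x, V x * ρ x := by
  have hdens := fun (g : E d → ℝ≥0∞) (hg : Measurable g) =>
    Pool.Agent.W819.Kin.dens hΨ hρ hD g hg
  have hsm : ∀ i : Fin N, AEStronglyMeasurable (fun x : Fin N → E d => V (x i) * ‖Ψ x‖ ^ 2)
      volume := fun i =>
    ((hV.comp (measurable_pi_apply i)).aestronglyMeasurable.mul (hΨ.1.norm.pow 2))
  have hpos : ∀ (W : E d → ℝ) (i : Fin N) (x : Fin N → E d),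
      ENNReal.ofReal (W (x i) * ‖Ψ x‖ ^ 2) = ENNReal.ofReal (W (x i)) * ‖Ψ x‖ₑ ^ 2 := by
    intro W i x
    rw [ENNReal.ofReal_mul' (by positivity), ofReal_norm_sq]
  have hfin : ∀ i : Fin N, Integrable fun x : Fin N → E d => V (x i) * ‖Ψ x‖ ^ 2 := by
    intro i
    refine ⟨hsm i, ?_⟩
    have h1 := hdens (fun x => ‖V x‖ₑ) hV.enorm
    have h2 : ∫⁻ z, ‖V z‖ₑ * ENNReal.ofReal (ρ z) < ∞ := by
      have h3 := hVρ.2
      unfold HasFiniteIntegral at h3
      refine lt_of_le_of_lt (le_of_eq ?_) h3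
      apply lintegral_congr
      intro x
      rw [enorm_mul, Real.enorm_of_nonneg (hρ0 x)]
    rw [← h1] at h2
    have h4 := (ENNReal.sum_lt_top.1 h2) i (Finset.mem_univ i)
    unfold HasFiniteIntegral
    refine lt_of_le_of_lt (le_of_eq ?_) h4
    apply lintegral_congr
    intro x
    rw [enorm_mul, Real.enorm_of_nonneg (by positivity : 0 ≤ ‖Ψ x‖ ^ 2), ofReal_norm_sq]
  refine ⟨hfin, ?_⟩
  have hne : ∀ W : E d → ℝ, Measurable W → (∀ x, ‖W x‖ₑ = ‖V x‖ₑ) → ∀ i : Fin N,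
      ∫⁻ x : Fin N → E d, ENNReal.ofReal (W (x i)) * ‖Ψ x‖ₑ ^ 2 ≠ ∞ := by
    intro W hW hWV i
    refine (lt_of_le_of_lt (lintegral_mono fun x => ?_) (hfin i).2).ne
    rw [enorm_mul, Real.enorm_of_nonneg (by positivity : 0 ≤ ‖Ψ x‖ ^ 2), ofReal_norm_sq,
      ← hWV]
    gcongr
    rw [Real.enorm_eq_ofReal_abs]
    exact ENNReal.ofReal_le_ofReal (le_abs_self _)
  have e1 : ∀ i : Fin N, ∫ x : Fin N → E d, V (x i) * ‖Ψ x‖ ^ 2 =
      (∫⁻ x : Fin N → E d, ENNReal.ofReal (V (x i)) * ‖Ψ x‖ₑ ^ 2).toReal -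
      (∫⁻ x : Fin N → E d, ENNReal.ofReal (-V (x i)) * ‖Ψ x‖ₑ ^ 2).toReal := by
    intro i
    rw [integral_eq_lintegral_pos_part_sub_lintegral_neg_part (hfin i)]
    congr 2
    · apply lintegral_congr
      intro x
      exact hpos V i x
    · apply lintegral_congr
      intro x
      rw [← neg_mul]
      exact hpos (fun x => -V x) i x
  have e2 : ∫ x, V x * ρ x = (∫⁻ x, ENNReal.ofReal (V x) * ENNReal.ofReal (ρ x)).toReal -
      (∫⁻ x, ENNReal.ofReal (-V x) * ENNReal.ofReal (ρ x)).toReal := by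
    rw [integral_eq_lintegral_pos_part_sub_lintegral_neg_part hVρ]
    congr 2
    · apply lintegral_congr
      intro x
      rw [ENNReal.ofReal_mul' (hρ0 x)]
    · apply lintegral_congr
      intro x
      rw [← neg_mul, ENNReal.ofReal_mul' (hρ0 x)]
  rw [e2, ← hdens _ hV.ennreal_ofReal, ← hdens (fun x => ENNReal.ofReal (-V x)) hV.neg.ennreal_ofReal,
    ENNReal.toReal_sum (fun i _ => hne V hV (fun x => rfl) i),
    ENNReal.toReal_sum (fun i _ => hne (fun x => -V x) hV.neg (fun x => enorm_neg _) i),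
    ← Finset.sum_sub_distrib]
  exact Finset.sum_congr rfl fun i _ => e1 i

end Pool.Agent.W564.MY
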