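import Pool.Agent.W564.MY.Fin3

/-!
# Integrability of the potential terms; the interaction
-/

set_option autoImplicit false
set_option linter.unusedVariables false
set_option linter.unusedSimpArgs false
set_option linter.unusedSectionVars false

noncomputable section

namespace Pool.Agent.W564.MY

open MeasureTheory Filter Topology
open scoped ENNReal ComplexConjugate

variable {d : ℕ}

theorem pow_interp {b q r : ℝ} (hb : 0 ≤ b) (hq : 1 ≤ q) (hqr : q ≤ r) : b ^ q ≤ b + b ^ r := by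
  rcases le_total b 1 with h | h
  · have h1 : b ^ q ≤ b ^ (1 : ℝ) := Real.rpow_le_rpow_of_exponent_ge_of_imp hb h hq (by
      intro h2 h3
      exact absurd h3 (by linarith))
    rw [Real.rpow_one] at h1
    have := Real.rpow_nonneg hb r
    linarith
  · have h1 : b ^ q ≤ b ^ r := Real.rpow_le_rpow_of_exponent_le h hqr
    linarith

theorem young_bound (hd : 0 < d) {p a b : ℝ} (hp : 1 + (d : ℝ) / 2 ≤ p) (ha : 0 ≤ a)
    (hb : 0 ≤ b) : a * b ≤ a ^ p + (b + b ^ (1 + 2 / (d : ℝ))) := by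
  have hdr : (0 : ℝ) < d := by exact_mod_cast hd
  have hp1 : 1 < p := by
    have : (0 : ℝ) < (d : ℝ) / 2 := by positivity
    linarith
  set q : ℝ := p / (p - 1) with hq
  have hpq : p.HolderConjugate q := Real.HolderConjugate.conjExponent hp1
  have h1 := Real.young_inequality_of_nonneg ha hb hpq
  have hp0 : 0 < p - 1 := by linarith
  have hq1 : 1 ≤ q := by
    rw [hq, le_div_iff₀ hp0]
    linarith
  have hq2 : q ≤ 1 + 2 / (d : ℝ) := by
    rw [hq, div_le_iff₀ hp0]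
    have h3 : (1 + 2 / (d : ℝ)) * (p - 1) = p - 1 + 2 / d * (p - 1) := by ring
    rw [h3]
    have h4 : 1 ≤ 2 / (d : ℝ) * (p - 1) := by
      rw [div_mul_eq_mul_div, le_div_iff₀ hdr]
      linarith
    linarith
  have h2 := pow_interp hb hq1 hq2
  have h5 : a ^ p / p ≤ a ^ p := div_le_self (Real.rpow_nonneg ha _) hp1.le
  have h6 : b ^ q / q ≤ b ^ q := div_le_self (Real.rpow_nonneg hb _) hq1
  linarith

/-- bound of one `Lᵖ` part -/
theorem lp_bound (hd : 0 < d) {p : ℝ} (hp : 1 + (d : ℝ) / 2 ≤ p) {V : E d → ℝ}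
    (hV : MemLp V (ENNReal.ofReal p) volume) {f : E d → ℝ} (hf : Measurable f)
    (hf0 : ∀ x, 0 ≤ f x) (hfi : Integrable f)
    (hfp : Integrable fun x => f x ^ (1 + 2 / (d : ℝ))) :
    ∃ C : ℝ≥0∞, C ≠ ∞ ∧ ∀ y, ∫⁻ x, ‖V (x - y)‖ₑ * ENNReal.ofReal (f x) ≤ C := by
  have hdr : (0 : ℝ) < d := by exact_mod_cast hd
  have hp0 : 0 < p := by
    have : (0 : ℝ) < (d : ℝ) / 2 := by positivity
    linarith
  have h1 : Integrable (fun x => ‖V x‖ ^ p) := by
    have := hV.integrable_norm_rpow (by simpa using hp0) ENNReal.ofReal_ne_top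
    rwa [ENNReal.toReal_ofReal hp0.le] at this
  have h2 : Integrable fun x => f x + f x ^ (1 + 2 / (d : ℝ)) := hfi.add hfp
  refine ⟨ENNReal.ofReal (∫ x, ‖V x‖ ^ p) +
    ENNReal.ofReal (∫ x, (f x + f x ^ (1 + 2 / (d : ℝ)))), by finiteness, fun y => ?_⟩
  calc ∫⁻ x, ‖V (x - y)‖ₑ * ENNReal.ofReal (f x)
      ≤ ∫⁻ x, (ENNReal.ofReal (‖V (x - y)‖ ^ p) +
          ENNReal.ofReal (f x + f x ^ (1 + 2 / (d : ℝ)))) := by
        apply lintegral_mono
        intro x
        simp only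
        rw [← ENNReal.ofReal_add (by positivity)
          (add_nonneg (hf0 x) (Real.rpow_nonneg (hf0 x) _)), ← ofReal_norm,
          ← ENNReal.ofReal_mul (norm_nonneg _)]
        exact ENNReal.ofReal_le_ofReal (young_bound hd hp (norm_nonneg _) (hf0 x))
    _ = (∫⁻ x, ENNReal.ofReal (‖V (x - y)‖ ^ p)) +
          ∫⁻ x, ENNReal.ofReal (f x + f x ^ (1 + 2 / (d : ℝ))) := by
        rw [lintegral_add_right]
        exact (hf.add (hf.pow_const _)).ennreal_ofReal
    _ = _ := by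
        rw [lintegral_sub_right_eq_self (fun x => ENNReal.ofReal (‖V x‖ ^ p)) y,
          ofReal_integral_eq_lintegral_ofReal h1 (Eventually.of_forall fun x => by positivity),
          ofReal_integral_eq_lintegral_ofReal h2
            (Eventually.of_forall fun x => add_nonneg (hf0 x) (Real.rpow_nonneg (hf0 x) _))]

theorem insum_bound (hd : 0 < d) {V : E d → ℝ} (hV : InSum (1 + (d : ℝ) / 2) V) {f : E d → ℝ}
    (hf : Measurable f) (hf0 : ∀ x, 0 ≤ f x) (hfi : Integrable f)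
    (hfp : Integrable fun x => f x ^ (1 + 2 / (d : ℝ))) :
    ∃ C : ℝ≥0∞, C ≠ ∞ ∧ ∀ y, ∫⁻ x, ‖V (x - y)‖ₑ * ENNReal.ofReal (f x) ≤ C := by
  obtain ⟨p, q, hp, hq, V₁, V₂, h1, h2, h3⟩ := hV
  obtain ⟨C1, hC1, hb1⟩ := lp_bound hd hp h1 hf hf0 hfi hfp
  obtain ⟨C2, hC2, hb2⟩ := lp_bound hd hq h2 hf hf0 hfi hfp
  refine ⟨C1 + C2, by finiteness, fun y => ?_⟩
  have h4 : ∀ᵐ x, V (x - y) = V₁ (x - y) + V₂ (x - y) :=
    (measurePreserving_sub_right volume y).quasiMeasurePreserving.ae h3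
  have hm : AEMeasurable (fun x => ‖V₁ (x - y)‖ₑ * ENNReal.ofReal (f x)) :=
    ((h1.1.comp_measurePreserving (measurePreserving_sub_right volume y)).enorm).mul
      hf.ennreal_ofReal.aemeasurable
  calc ∫⁻ x, ‖V (x - y)‖ₑ * ENNReal.ofReal (f x)
      ≤ ∫⁻ x, (‖V₁ (x - y)‖ₑ * ENNReal.ofReal (f x) + ‖V₂ (x - y)‖ₑ * ENNReal.ofReal (f x)) := by
        apply lintegral_mono_ae
        filter_upwards [h4] with x hx
        rw [hx, ← add_mul]
        gcongr
        exact enorm_add_le _ _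
    _ = (∫⁻ x, ‖V₁ (x - y)‖ₑ * ENNReal.ofReal (f x)) +
          ∫⁻ x, ‖V₂ (x - y)‖ₑ * ENNReal.ofReal (f x) := lintegral_add_left' hm _
    _ ≤ C1 + C2 := add_le_add (hb1 y) (hb2 y)

/-- `V f` is integrable -/
theorem integrable_Vf (hd : 0 < d) {V : E d → ℝ} (hVm : Measurable V)
    (hV : InSum (1 + (d : ℝ) / 2) V) {f : E d → ℝ}
    (hf : Measurable f) (hf0 : ∀ x, 0 ≤ f x) (hfi : Integrable f)
    (hfp : Integrable fun x => f x ^ (1 + 2 / (d : ℝ))) : Integrable fun x => V x * f x := by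
  obtain ⟨C, hC, hb⟩ := insum_bound hd hV hf hf0 hfi hfp
  refine ⟨(hVm.mul hf).aestronglyMeasurable, ?_⟩
  unfold HasFiniteIntegral
  refine lt_of_le_of_lt (le_trans (le_of_eq ?_) (hb 0)) hC.lt_top
  apply lintegral_congr
  intro x
  rw [sub_zero, enorm_mul, Real.enorm_of_nonneg (hf0 x)]

/-! ### the interaction -/

/-- the interaction potential generated by `χ` -/
def wt (χ : ℝ → E d → ℝ) (x : E d) : ℝ≥0∞ :=
  ∫⁻ r in Set.Ioi (0 : ℝ), ∫⁻ y, ENNReal.ofReal (χ r y * χ r (x - y))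

/-- truncations -/
def wmm (χ : ℝ → E d → ℝ) (m : ℕ) (x : E d) : ℝ≥0∞ :=
  ∫⁻ r : ℝ, ∫⁻ t : E d, Pool.Agent.W596.MY.ch χ m r t * Pool.Agent.W596.MY.ch χ m r (x - t)

theorem wt_even {χ : ℝ → E d → ℝ} (hev : ∀ r x, χ r (-x) = χ r x) (x : E d) :
    wt χ (-x) = wt χ x := by
  unfold wt
  apply lintegral_congr
  intro r
  rw [← lintegral_neg_eq_self]
  apply lintegral_congr
  intro y
  rw [hev, show -x - -y = -(x - y) by abel, hev]

theorem measurable_wmm {χ : ℝ → E d → ℝ} (hχ : Measurable fun p : ℝ × E d => χ p.1 p.2) (m : ℕ) :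
    Measurable (wmm χ m) := by
  have hm := Pool.Agent.W596.MY.measurable_ch hχ m
  have h1 : Measurable fun q : (E d × ℝ) × E d => Pool.Agent.W596.MY.ch χ m q.1.2 q.2 *
      Pool.Agent.W596.MY.ch χ m q.1.2 (q.1.1 - q.2) :=
    (hm.comp ((measurable_snd.comp measurable_fst).prodMk measurable_snd)).mul
      (hm.comp ((measurable_snd.comp measurable_fst).prodMk
        ((measurable_fst.comp measurable_fst).sub measurable_snd)))
  exact (h1.lintegral_prod_right').lintegral_prod_right'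

theorem ch_mono (χ : ℝ → E d → ℝ) (r : ℝ) (t : E d) :
    Monotone fun m : ℕ => Pool.Agent.W596.MY.ch χ m r t := by
  intro m m' hmm
  have hr : (m : ℝ) ≤ m' := by exact_mod_cast hmm
  simp only [Pool.Agent.W596.MY.ch]
  by_cases h : r ∈ Set.Ioc (0 : ℝ) m ∧ ‖t‖ ≤ m
  · have h' : r ∈ Set.Ioc (0 : ℝ) m' ∧ ‖t‖ ≤ m' := ⟨⟨h.1.1, h.1.2.trans hr⟩, h.2.trans hr⟩
    rw [if_pos h, if_pos h']
    exact ENNReal.ofReal_le_ofReal (min_le_min le_rfl hr)
  · rw [if_neg h]
    exact zero_le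

theorem ch_sup {χ : ℝ → E d → ℝ} (hχ0 : ∀ r x, 0 ≤ χ r x) (r : ℝ) (s t : E d) :
    ⨆ m : ℕ, Pool.Agent.W596.MY.ch χ m r s * Pool.Agent.W596.MY.ch χ m r t =
      (Set.Ioi (0 : ℝ)).indicator (fun r => ENNReal.ofReal (χ r s * χ r t)) r := by
  by_cases hr : 0 < r
  · rw [Set.indicator_of_mem (show r ∈ Set.Ioi (0 : ℝ) from hr)]
    obtain ⟨M, hM⟩ := exists_nat_ge (max (max r ‖s‖) (max ‖t‖ (max (χ r s) (χ r t))))
    have hM1 : r ≤ M := (le_max_left _ _).trans ((le_max_left _ _).trans hM)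
    have hM2 : ‖s‖ ≤ M := (le_max_right _ _).trans ((le_max_left _ _).trans hM)
    have hM3 : ‖t‖ ≤ M := (le_max_left _ _).trans ((le_max_right _ _).trans hM)
    have hM4 : χ r s ≤ M :=
      (le_max_left _ _).trans ((le_max_right _ _).trans ((le_max_right _ _).trans hM))
    have hM5 : χ r t ≤ M :=
      (le_max_right _ _).trans ((le_max_right _ _).trans ((le_max_right _ _).trans hM))
    apply le_antisymm
    · apply iSup_le
      intro m
      rw [ENNReal.ofReal_mul (hχ0 _ _)]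
      have hle : ∀ t, Pool.Agent.W596.MY.ch χ m r t ≤ ENNReal.ofReal (χ r t) := by
        intro t
        simp only [Pool.Agent.W596.MY.ch]
        split_ifs
        · exact ENNReal.ofReal_le_ofReal (min_le_left _ _)
        · exact zero_le
      exact mul_le_mul' (hle s) (hle t)
    · refine le_iSup_of_le M ?_
      simp only [Pool.Agent.W596.MY.ch]
      rw [if_pos ⟨⟨hr, hM1⟩, hM2⟩, if_pos ⟨⟨hr, hM1⟩, hM3⟩, min_eq_left hM4, min_eq_left hM5,
        ENNReal.ofReal_mul (hχ0 _ _)]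
  · rw [Set.indicator_of_notMem (show r ∉ Set.Ioi (0 : ℝ) from hr)]
    have : ∀ m : ℕ, ∀ t, Pool.Agent.W596.MY.ch χ m r t = 0 := by
      intro m t
      simp only [Pool.Agent.W596.MY.ch]
      rw [if_neg]
      rintro ⟨h1, _⟩
      exact hr h1.1
    simp [this]

theorem wmm_mono (χ : ℝ → E d → ℝ) (x : E d) : Monotone fun m : ℕ => wmm χ m x := by
  intro m m' hmm
  apply lintegral_mono
  intro r
  apply lintegral_mono
  intro t
  exact mul_le_mul' (ch_mono χ r t hmm) (ch_mono χ r (x - t) hmm)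

theorem wmm_sup {χ : ℝ → E d → ℝ} (hχ : Measurable fun p : ℝ × E d => χ p.1 p.2)
    (hχ0 : ∀ r x, 0 ≤ χ r x) (x : E d) : ⨆ m : ℕ, wmm χ m x = wt χ x := by
  have hm := fun m => Pool.Agent.W596.MY.measurable_ch hχ m
  have h1 : ∀ m r, Measurable fun t : E d => Pool.Agent.W596.MY.ch χ m r t *
      Pool.Agent.W596.MY.ch χ m r (x - t) := fun m r =>
    ((hm m).comp (measurable_const.prodMk measurable_id)).mul
      ((hm m).comp (measurable_const.prodMk (measurable_const.sub measurable_id)))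
  have h2 : ∀ m, Measurable fun r : ℝ => ∫⁻ t : E d, Pool.Agent.W596.MY.ch χ m r t *
      Pool.Agent.W596.MY.ch χ m r (x - t) := by
    intro m
    have h3 : Measurable fun q : ℝ × E d => Pool.Agent.W596.MY.ch χ m q.1 q.2 *
        Pool.Agent.W596.MY.ch χ m q.1 (x - q.2) :=
      (hm m).mul ((hm m).comp (measurable_fst.prodMk (measurable_const.sub measurable_snd)))
    exact h3.lintegral_prod_right'
  unfold wmm wt
  rw [← lintegral_iSup h2 (fun m m' hmm r => lintegral_mono fun t =>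
    mul_le_mul' (ch_mono χ r t hmm) (ch_mono χ r (x - t) hmm)),
    ← lintegral_indicator measurableSet_Ioi]
  apply lintegral_congr
  intro r
  rw [← lintegral_iSup (h1 · r) (fun m m' hmm t =>
    mul_le_mul' (ch_mono χ r t hmm) (ch_mono χ r (x - t) hmm))]
  simp_rw [ch_sup hχ0]
  by_cases hr : r ∈ Set.Ioi (0 : ℝ)
  · simp only [Set.indicator_of_mem hr]
  · simp only [Set.indicator_of_notMem hr, lintegral_zero]

theorem measurable_wt {χ : ℝ → E d → ℝ} (hχ : Measurable fun p : ℝ × E d => χ p.1 p.2)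
    (hχ0 : ∀ r x, 0 ≤ χ r x) : Measurable (wt χ) := by
  have : wt χ = fun x => ⨆ m : ℕ, wmm χ m x := by
    funext x
    rw [wmm_sup hχ hχ0]
  rw [this]
  exact Measurable.iSup fun m => measurable_wmm hχ m

/-- double integral of an interaction -/
def dbl (W : E d → ℝ≥0∞) (f : E d → ℝ) : ℝ≥0∞ :=
  2⁻¹ * ∫⁻ x, ∫⁻ y, W (x - y) * ENNReal.ofReal (f x) * ENNReal.ofReal (f y)

theorem dbl_sup_inner {χ : ℝ → E d → ℝ} (hχ : Measurable fun p : ℝ × E d => χ p.1 p.2)
    (hχ0 : ∀ r x, 0 ≤ χ r x) {f : E d → ℝ} (hf : Measurable f) (x : E d) :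
    ⨆ m : ℕ, ∫⁻ y, wmm χ m (x - y) * ENNReal.ofReal (f x) * ENNReal.ofReal (f y) =
      ∫⁻ y, wt χ (x - y) * ENNReal.ofReal (f x) * ENNReal.ofReal (f y) := by
  have hm' : ∀ m, Measurable fun y : E d => wmm χ m (x - y) * ENNReal.ofReal (f x) *
      ENNReal.ofReal (f y) := fun m =>
    (((measurable_wmm hχ m).comp (measurable_const.sub measurable_id)).mul_const _).mul
      hf.ennreal_ofReal
  have hmono : Monotone fun (m : ℕ) (y : E d) => wmm χ m (x - y) * ENNReal.ofReal (f x) *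
      ENNReal.ofReal (f y) := by
    intro m m' hmm y
    exact mul_le_mul' (mul_le_mul' (wmm_mono χ (x - y) hmm) le_rfl) le_rfl
  rw [← lintegral_iSup hm' hmono]
  apply lintegral_congr
  intro y
  rw [← wmm_sup hχ hχ0, ENNReal.iSup_mul, ENNReal.iSup_mul]

theorem dbl_sup {χ : ℝ → E d → ℝ} (hχ : Measurable fun p : ℝ × E d => χ p.1 p.2)
    (hχ0 : ∀ r x, 0 ≤ χ r x) {f : E d → ℝ} (hf : Measurable f) :
    ⨆ m : ℕ, dbl (wmm χ m) f = dbl (wt χ) f := by
  have hm : ∀ m, Measurable fun x : E d => ∫⁻ y, wmm χ m (x - y) * ENNReal.ofReal (f x) *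
      ENNReal.ofReal (f y) := by
    intro m
    have h1 : Measurable fun q : E d × E d => wmm χ m (q.1 - q.2) * ENNReal.ofReal (f q.1) *
        ENNReal.ofReal (f q.2) :=
      (((measurable_wmm hχ m).comp (measurable_fst.sub measurable_snd)).mul
        (hf.comp measurable_fst).ennreal_ofReal).mul (hf.comp measurable_snd).ennreal_ofReal
    exact h1.lintegral_prod_right'
  have hmono : Monotone fun (m : ℕ) (x : E d) => ∫⁻ y, wmm χ m (x - y) *
      ENNReal.ofReal (f x) * ENNReal.ofReal (f y) := by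
    intro m m' hmm x
    apply lintegral_mono
    intro y
    exact mul_le_mul' (mul_le_mul' (wmm_mono χ (x - y) hmm) le_rfl) le_rfl
  have h2 := lintegral_iSup (μ := (volume : Measure (E d))) hm hmono
  have h3 : ⨆ m : ℕ, dbl (wmm χ m) f = 2⁻¹ * ⨆ m : ℕ, ∫⁻ x, ∫⁻ y, wmm χ m (x - y) *
      ENNReal.ofReal (f x) * ENNReal.ofReal (f y) := by
    rw [ENNReal.mul_iSup]
    rfl
  rw [h3, ← h2]
  unfold dbl
  congr 1
  apply lintegral_congr
  intro x
  exact dbl_sup_inner hχ hχ0 hf x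

end Pool.Agent.W564.MY
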