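import Pool.Agent.W564.MY.Fin4

/-!
# The Levy-Lieb functional and the Thomas-Fermi functional: two-sided bounds
-/

set_option autoImplicit false
set_option linter.unusedVariables false
set_option linter.unusedSimpArgs false
set_option linter.unusedSectionVars false

noncomputable section

namespace Pool.Agent.W564.MY

open MeasureTheory Filter Topology
open scoped ENNReal ComplexConjugate

variable {d : ℕ}

/-- `S_N`: antisymmetric `L²`-normalised functions of finite kinetic energy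
(`G i c` is the weak derivative in the coordinate `c` of the particle `i`) -/
structure InS {N d : ℕ} (Ψ : (Fin N → E d) → ℂ) (G : Fin N → Fin d → (Fin N → E d) → ℂ) :
    Prop where
  h1 : IsH1N Ψ G
  anti : Antisym Ψ
  norm : ∫ x, ‖Ψ x‖ ^ 2 = 1

/-- the interaction energy `⟨Ψ, ∑_{i<j} w(xᵢ - xⱼ) Ψ⟩ ∈ [0, ∞]` -/
def wE {N d : ℕ} (w : E d → ℝ) (Ψ : (Fin N → E d) → ℂ) : ℝ≥0∞ :=
  ∑ i : Fin N, ∑ j : Fin N, if i < j then
    ∫⁻ x : Fin N → E d, ENNReal.ofReal (w (x i - x j)) * ENNReal.ofReal (‖Ψ x‖ ^ 2) else 0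

/-- the energy per particle `N⁻¹ ⟨Ψ, H_N Ψ⟩` -/
def epp {N d : ℕ} (h lam : ℝ) (V w : E d → ℝ) (Ψ : (Fin N → E d) → ℂ)
    (G : Fin N → Fin d → (Fin N → E d) → ℂ) : EReal :=
  (((N : ℝ)⁻¹ * (h ^ 2 * (∑ i, ∑ c, ∫ x, ‖G i c x‖ ^ 2) +
    ∑ i, ∫ x : Fin N → E d, V (x i) * ‖Ψ x‖ ^ 2) : ℝ) : EReal) +
  (((N : ℝ)⁻¹ * lam : ℝ) : EReal) * (wE w Ψ : EReal)

/-- the Levy-Lieb functional -/
def LL (d N : ℕ) (h lam : ℝ) (V w f : E d → ℝ) : EReal :=
  ⨅ (Ψ : (Fin N → E d) → ℂ) (G : Fin N → Fin d → (Fin N → E d) → ℂ) (_ : InS Ψ G)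
    (_ : IsDensity N Ψ (fun x => N * f x)), epp h lam V w Ψ G

/-- the Thomas-Fermi functional -/
def TF (d : ℕ) (V w f : E d → ℝ) : ℝ :=
  Kcl d * (∫ x, f x ^ (1 + 2 / (d : ℝ))) + (∫ x, V x * f x) +
    1 / 2 * ∫ x, ∫ y, f x * f y * w (x - y)

/-- real and extended double integrals -/
theorem dbl_real {g : E d → E d → ℝ} (hg : Measurable fun q : E d × E d => g q.1 q.2)
    (h0 : ∀ x, ∀ᵐ y, 0 ≤ g x y) (hfin : ∫⁻ x, ∫⁻ y, ENNReal.ofReal (g x y) ≠ ∞) :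
    ∫ x, ∫ y, g x y = (∫⁻ x, ∫⁻ y, ENNReal.ofReal (g x y)).toReal := by
  have hm : Measurable fun x : E d => ∫⁻ y, ENNReal.ofReal (g x y) :=
    (hg.ennreal_ofReal).lintegral_prod_right'
  have h1 : ∀ x, ∫ y, g x y = (∫⁻ y, ENNReal.ofReal (g x y)).toReal := by
    intro x
    rw [integral_eq_lintegral_of_nonneg_ae (h0 x)
      (hg.comp measurable_prodMk_left).aestronglyMeasurable]
  simp_rw [h1]
  rw [integral_toReal hm.aemeasurable (ae_lt_top hm hfin)]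

/-- the data of the limit theorem -/
structure Dat (d : ℕ) (V w f : E d → ℝ) (χ : ℝ → E d → ℝ) : Prop where
  hd : 0 < d
  Vm : Measurable V
  Vs : InSum (1 + (d : ℝ) / 2) V
  wm : Measurable w
  ws : InSum (1 + (d : ℝ) / 2) w
  χm : Measurable fun p : ℝ × E d => χ p.1 p.2
  χ0 : ∀ r x, 0 ≤ χ r x
  χe : ∀ r x, χ r (-x) = χ r x
  wχ : ∀ᵐ x, 0 ≤ w x ∧ ENNReal.ofReal (w x) = wt χ x
  fm : Measurable f
  f0 : ∀ x, 0 ≤ f x
  f1 : ∫ x, f x = 1
  fH : ∃ g, IsH1 (fun x => ((Real.sqrt (f x) : ℝ) : ℂ)) g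

namespace Dat

variable {V w f : E d → ℝ} {χ : ℝ → E d → ℝ}

theorem fi (D : Dat d V w f χ) : Integrable f := by
  by_contra h
  have := D.f1
  rw [integral_undef h] at this
  norm_num at this

theorem hyp (D : Dat d V w f χ) : ∃ h : E d → E d → ℝ, HypH (fun x => Real.sqrt (f x)) h := by
  obtain ⟨g, hg⟩ := D.fH
  apply hypH_of_isH1 Pool.Agent.W741.MY.dq D.fm.sqrt (fun x => Real.sqrt_nonneg _) _ hg
  have h1 : ∀ x, Real.sqrt (f x) ^ 2 = f x := fun x => Real.sq_sqrt (D.f0 x)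
  simp_rw [h1]
  rw [← ofReal_integral_eq_lintegral_ofReal D.fi (Eventually.of_forall D.f0), D.f1,
    ENNReal.ofReal_one]

theorem fp (D : Dat d V w f χ) : Integrable fun x => f x ^ (1 + 2 / (d : ℝ)) := by
  obtain ⟨h, H⟩ := D.hyp
  have h1 : ∀ x, Real.sqrt (f x) ^ 2 = f x := fun x => Real.sq_sqrt (D.f0 x)
  have := integrable_tgt D.hd H
  simp_rw [h1] at this
  exact this

theorem iVf (D : Dat d V w f χ) : Integrable fun x => V x * f x :=
  integrable_Vf D.hd D.Vm D.Vs D.fm D.f0 D.fi D.fp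

theorem dbl_lt (D : Dat d V w f χ) : dbl (wt χ) f < ∞ := by
  obtain ⟨C, hC, hb⟩ := insum_bound D.hd D.ws D.fm D.f0 D.fi D.fp
  have hwt := measurable_wt D.χm D.χ0
  unfold dbl
  apply ENNReal.mul_lt_top (by simp)
  have hm : Measurable fun q : E d × E d => wt χ (q.1 - q.2) * ENNReal.ofReal (f q.1) *
      ENNReal.ofReal (f q.2) :=
    ((hwt.comp (measurable_fst.sub measurable_snd)).mul
      (D.fm.comp measurable_fst).ennreal_ofReal).mul (D.fm.comp measurable_snd).ennreal_ofReal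
  rw [lintegral_lintegral_swap hm.aemeasurable]
  have h1 : ∀ y, ∫⁻ x, wt χ (x - y) * ENNReal.ofReal (f x) * ENNReal.ofReal (f y) ≤
      C * ENNReal.ofReal (f y) := by
    intro y
    rw [lintegral_mul_const' _ _ ENNReal.ofReal_ne_top]
    gcongr
    refine le_trans (lintegral_mono_ae ?_) (hb y)
    have h2 : ∀ᵐ x, 0 ≤ w (x - y) ∧ ENNReal.ofReal (w (x - y)) = wt χ (x - y) :=
      (measurePreserving_sub_right volume y).quasiMeasurePreserving.ae D.wχ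
    filter_upwards [h2] with x hx
    rw [← hx.2, Real.enorm_of_nonneg hx.1]
  refine lt_of_le_of_lt (lintegral_mono h1) ?_
  rw [lintegral_const_mul' _ _ hC]
  apply ENNReal.mul_lt_top hC.lt_top
  rw [← ofReal_integral_eq_lintegral_ofReal D.fi (Eventually.of_forall D.f0)]
  exact ENNReal.ofReal_lt_top

theorem dbl_eq (D : Dat d V w f χ) :
    (dbl (wt χ) f).toReal = 1 / 2 * ∫ x, ∫ y, f x * f y * w (x - y) := by
  have hae : ∀ x, ∀ᵐ y, 0 ≤ w (x - y) ∧ ENNReal.ofReal (w (x - y)) = wt χ (x - y) := fun x =>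
    (Measure.measurePreserving_sub_left volume x).quasiMeasurePreserving.ae D.wχ
  have h1 : ∫⁻ x, ∫⁻ y, wt χ (x - y) * ENNReal.ofReal (f x) * ENNReal.ofReal (f y) =
      ∫⁻ x, ∫⁻ y, ENNReal.ofReal (f x * f y * w (x - y)) := by
    apply lintegral_congr
    intro x
    apply lintegral_congr_ae
    filter_upwards [hae x] with y hy
    rw [← hy.2, ENNReal.ofReal_mul (mul_nonneg (D.f0 x) (D.f0 y)), ENNReal.ofReal_mul (D.f0 x)]
    ring
  have h2 := D.dbl_lt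
  unfold dbl at h2
  rw [h1] at h2
  have h3 : ∫⁻ x, ∫⁻ y, ENNReal.ofReal (f x * f y * w (x - y)) ≠ ∞ := by
    intro h4
    rw [h4] at h2
    simp at h2
  rw [dbl_real (g := fun x y => f x * f y * w (x - y)) _ _ h3]
  · unfold dbl
    rw [h1, ENNReal.toReal_mul]
    simp
  · exact ((D.fm.comp measurable_fst).mul (D.fm.comp measurable_snd)).mul
      (D.wm.comp (measurable_fst.sub measurable_snd))
  · intro x
    filter_upwards [hae x] with y hy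
    exact mul_nonneg (mul_nonneg (D.f0 x) (D.f0 y)) hy.1

theorem wE_eq {N : ℕ} (D : Dat d V w f χ) (Ψ : (Fin N → E d) → ℂ) :
    wE w Ψ = ∑ i : Fin N, ∑ j : Fin N, if i < j then
      ∫⁻ x : Fin N → E d, wt χ (x i - x j) * ENNReal.ofReal (‖Ψ x‖ ^ 2) else 0 := by
  unfold wE
  apply Finset.sum_congr rfl
  intro i _
  apply Finset.sum_congr rfl
  intro j _
  split_ifs with hij
  · apply lintegral_congr_ae
    have := Pool.Agent.W596.MY.ae_diff (N := N) D.wχ hij.ne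
    filter_upwards [this] with x hx
    rw [hx.2]
  · rfl

theorem dbl_scale (W : E d → ℝ≥0∞) (f : E d → ℝ) {N : ℕ} :
    2⁻¹ * ∫⁻ x, ∫⁻ y, W (x - y) * ENNReal.ofReal (N * f x) * ENNReal.ofReal (N * f y) =
      (N : ℝ≥0∞) ^ 2 * dbl W f := by
  unfold dbl
  have h1 : ∀ x, ENNReal.ofReal (N * f x) = N * ENNReal.ofReal (f x) := by
    intro x
    rw [ENNReal.ofReal_mul (Nat.cast_nonneg N), ENNReal.ofReal_natCast]
  simp_rw [h1]
  have h2 : ∀ x y, W (x - y) * (N * ENNReal.ofReal (f x)) * (N * ENNReal.ofReal (f y)) =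
      (N : ℝ≥0∞) ^ 2 * (W (x - y) * ENNReal.ofReal (f x) * ENNReal.ofReal (f y)) := by
    intro x y
    ring
  simp_rw [h2]
  have hN : (N : ℝ≥0∞) ^ 2 ≠ ∞ := by finiteness
  simp_rw [lintegral_const_mul' _ _ hN]
  ring

/-- lower bound for every admissible state -/
theorem lower {N : ℕ} (hN : 0 < N) (D : Dat d V w f χ) {h lam : ℝ} (hlam : 0 < lam)
    {Ψ : (Fin N → E d) → ℂ} {G : Fin N → Fin d → (Fin N → E d) → ℂ} (hS : InS Ψ G)
    (hden : IsDensity N Ψ (fun x => N * f x)) {γ : E d → ℝ} (W : Win γ) (m : ℕ) :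
    (((h ^ 2 * (N : ℝ) ^ (2 / (d : ℝ))) * (Kcl d * ∫ x, mol f γ x ^ (1 + 2 / (d : ℝ))) -
      h ^ 2 * (∑ c, ∫ x, (fderiv ℝ γ x (Pi.single c (1 : ℝ))) ^ 2) + (∫ x, V x * f x) +
      (lam * N) * (dbl (wmm χ m) f).toReal - lam * (2⁻¹ * wmm χ m 0).toReal : ℝ) : EReal) ≤
      epp h lam V w Ψ G := by
  have hNr : (0 : ℝ) < N := by exact_mod_cast hN
  have hρm : Measurable fun x => (N : ℝ) * f x := D.fm.const_mul _
  have hρ0 : ∀ x, 0 ≤ (N : ℝ) * f x := fun x => mul_nonneg hNr.le (D.f0 x)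
  have hD := (hasDensity_iff hN hS.h1.1 hS.anti hρm).2 hden
  -- kinetic energy
  have hk := Pool.Agent.W819.Kin.kin_lower N d D.hd Ψ G hS.h1 hS.anti hS.norm _ hρm hρ0 hD γ
    W.smooth W.cs W.norm
  have hmol : ∀ x, (∫ y, (N : ℝ) * f y * γ (x - y) ^ 2) ^ (1 + 2 / (d : ℝ)) =
      (N : ℝ) ^ (1 + 2 / (d : ℝ)) * mol f γ x ^ (1 + 2 / (d : ℝ)) := by
    intro x
    have : ∫ y, (N : ℝ) * f y * γ (x - y) ^ 2 = N * mol f γ x := by
      unfold mol
      rw [← integral_const_mul]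
      congr 1
      funext y
      ring
    rw [this, Real.mul_rpow hNr.le (mol_nonneg D.f0 x)]
  simp_rw [hmol] at hk
  rw [integral_const_mul] at hk
  -- potential energy
  have hVi : Integrable fun x => V x * ((N : ℝ) * f x) := by
    refine (D.iVf.const_mul (N : ℝ)).congr (Eventually.of_forall fun x => ?_)
    simp only
    ring
  obtain ⟨-, hV⟩ := pot_energy hS.h1.1 hρm hρ0 hD D.Vm hVi
  have hV2 : ∫ x, V x * ((N : ℝ) * f x) = N * ∫ x, V x * f x := by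
    rw [← integral_const_mul]
    congr 1
    funext x
    ring
  rw [hV2] at hV
  -- interaction
  have hint := Pool.Agent.W596.MY.s_int N d Ψ hS.h1.1 hS.norm _ hρm hρ0 hD χ D.χm D.χ0 D.χe w D.wm
    (by filter_upwards [D.wχ] with x hx; exact hx.2) m (wmm χ m) (fun x => by
      rw [Pool.Agent.W596.MY.wm_eq D.χ0]
      rfl)
  rw [dbl_scale] at hint
  change _ ≤ wE w Ψ + _ at hint
  -- combine
  unfold epp
  rw [hV]
  rcases eq_or_ne (wE w Ψ) ∞ with htop | hfin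
  · rw [htop]
    have : (((N : ℝ)⁻¹ * lam : ℝ) : EReal) * ((∞ : ℝ≥0∞) : EReal) = ⊤ := by
      rw [EReal.coe_ennreal_top]
      exact EReal.coe_mul_top_of_pos (by positivity)
    rw [this, EReal.coe_add_top]
    exact le_top
  · have hb : (2⁻¹ * wmm χ m 0) ≠ ∞ := by
      obtain ⟨C, hC, hCb⟩ := Pool.Agent.W596.MY.wm_bdd χ m
      exact (ENNReal.mul_lt_top (by simp) (lt_of_le_of_lt (hCb 0) hC.lt_top)).ne
    have hreal : (N : ℝ) ^ 2 * (dbl (wmm χ m) f).toReal ≤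
        (wE w Ψ).toReal + N * (2⁻¹ * wmm χ m 0).toReal := by
      have h1 : (2⁻¹ : ℝ≥0∞) * N * wmm χ m 0 = N * (2⁻¹ * wmm χ m 0) := by ring
      rw [h1] at hint
      have h2 : wE w Ψ + N * (2⁻¹ * wmm χ m 0) ≠ ∞ := by finiteness
      have h3 := ENNReal.toReal_mono h2 hint
      rw [ENNReal.toReal_mul, ENNReal.toReal_add hfin (by finiteness), ENNReal.toReal_mul] at h3
      simpa using h3
    have hcoe : ((wE w Ψ : ℝ≥0∞) : EReal) = (((wE w Ψ).toReal : ℝ) : EReal) :=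
      (EReal.coe_ennreal_toReal hfin).symm
    rw [hcoe, ← EReal.coe_mul, ← EReal.coe_add, EReal.coe_le_coe_iff]
    have e1 : (N : ℝ) ^ (1 + 2 / (d : ℝ)) = N * (N : ℝ) ^ (2 / (d : ℝ)) := by
      rw [Real.rpow_add hNr, Real.rpow_one]
    rw [e1] at hk
    set T := ∑ i, ∑ c, ∫ x, ‖G i c x‖ ^ 2 with hT
    set I := ∫ x, mol f γ x ^ (1 + 2 / (d : ℝ)) with hI
    set Γ := ∑ c, ∫ x, (fderiv ℝ γ x (Pi.single c (1 : ℝ))) ^ 2 with hΓ
    have h4 : (h ^ 2 * (N : ℝ) ^ (2 / (d : ℝ))) * (Kcl d * I) - h ^ 2 * Γ ≤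
        (N : ℝ)⁻¹ * (h ^ 2 * T) := by
      have h5 := mul_le_mul_of_nonneg_left hk (show 0 ≤ (N : ℝ)⁻¹ * h ^ 2 by positivity)
      have h6 : (N : ℝ)⁻¹ * h ^ 2 * (Kcl d * (N * (N : ℝ) ^ (2 / (d : ℝ)) * I) - N * Γ) =
          (h ^ 2 * (N : ℝ) ^ (2 / (d : ℝ))) * (Kcl d * I) - h ^ 2 * Γ := by
        field_simp
      rw [h6] at h5
      linarith
    have h7 : (lam * N) * (dbl (wmm χ m) f).toReal - lam * (2⁻¹ * wmm χ m 0).toReal ≤
        (N : ℝ)⁻¹ * lam * (wE w Ψ).toReal := by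
      have h5 := mul_le_mul_of_nonneg_left hreal (show 0 ≤ (N : ℝ)⁻¹ * lam by positivity)
      have h6 : (N : ℝ)⁻¹ * lam * ((N : ℝ) ^ 2 * (dbl (wmm χ m) f).toReal) =
          (lam * N) * (dbl (wmm χ m) f).toReal := by
        field_simp
      have h8 : (N : ℝ)⁻¹ * lam * ((wE w Ψ).toReal + N * (2⁻¹ * wmm χ m 0).toReal) =
          (N : ℝ)⁻¹ * lam * (wE w Ψ).toReal + lam * (2⁻¹ * wmm χ m 0).toReal := by
        field_simp
      rw [h6, h8] at h5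
      linarith
    have h9 : (N : ℝ)⁻¹ * (h ^ 2 * T + N * ∫ x, V x * f x) =
        (N : ℝ)⁻¹ * (h ^ 2 * T) + ∫ x, V x * f x := by
      field_simp
    rw [h9]
    linarith

/-- upper bound: a good state -/
theorem upper (D : Dat d V w f χ) {ε : ℝ} (hε : 0 < ε) :
    ∃ N₀ : ℕ, ∀ N : ℕ, N₀ ≤ N → ∀ h lam : ℝ, 0 ≤ lam → LL d N h lam V w f ≤
      (((h ^ 2 * (N : ℝ) ^ (2 / (d : ℝ))) * (Kcl d * (∫ x, f x ^ (1 + 2 / (d : ℝ))) + ε) +
        (∫ x, V x * f x) + (lam * N) * (dbl (wt χ) f).toReal : ℝ) : EReal) := by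
  obtain ⟨h', H⟩ := D.hyp
  have hsq : ∀ x, Real.sqrt (f x) ^ 2 = f x := fun x => Real.sq_sqrt (D.f0 x)
  obtain ⟨N₀, hN₀⟩ := thmU Pool.Agent.W741.MY.win Pool.Agent.W596.MY.s_lattice D.hd H hε
  refine ⟨N₀ + 1, fun N hN h lam hlam => ?_⟩
  have hNpos : 0 < N := by omega
  have hNr : (0 : ℝ) < N := by exact_mod_cast hNpos
  obtain ⟨φ, g, hφ, hon, hdens, hen⟩ := hN₀ N (by omega)
  simp_rw [hsq] at hdens hen
  obtain ⟨Ψ, G, hH, ha, hn, hD, hT, hW⟩ := Pool.Agent.W596.MY.s_slater N d hNpos φ g hφ hon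
  have hρeq : (fun x => ∑ a, ENNReal.ofReal (‖φ a x‖ ^ 2)) =
      fun x => ENNReal.ofReal ((N : ℝ) * f x) := by
    funext x
    rw [← hdens x, ENNReal.ofReal_sum_of_nonneg (fun a _ => by positivity)]
  have hρm : Measurable fun x => (N : ℝ) * f x := D.fm.const_mul _
  have hρ0 : ∀ x, 0 ≤ (N : ℝ) * f x := fun x => mul_nonneg hNr.le (D.f0 x)
  rw [hρeq] at hD
  have hden := (hasDensity_iff hNpos hH.1 ha hρm).1 hD
  -- interaction
  have hW1 := hW (wt χ) (measurable_wt D.χm D.χ0) (wt_even D.χe)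
  have hρeq' : ∀ x, ∑ a, ENNReal.ofReal (‖φ a x‖ ^ 2) = ENNReal.ofReal ((N : ℝ) * f x) :=
    fun x => congrFun hρeq x
  simp_rw [hρeq'] at hW1
  rw [dbl_scale, ← D.wE_eq Ψ] at hW1
  -- potential
  have hVi : Integrable fun x => V x * ((N : ℝ) * f x) := by
    refine (D.iVf.const_mul (N : ℝ)).congr (Eventually.of_forall fun x => ?_)
    simp only
    ring
  obtain ⟨-, hV⟩ := pot_energy hH.1 hρm hρ0 hD D.Vm hVi
  have hV2 : ∫ x, V x * ((N : ℝ) * f x) = N * ∫ x, V x * f x := by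
    rw [← integral_const_mul]
    congr 1
    funext x
    ring
  rw [hV2] at hV
  have hLL : LL d N h lam V w f ≤ epp h lam V w Ψ G :=
    iInf₂_le_of_le Ψ G (iInf₂_le_of_le ⟨hH, ha, hn⟩ hden le_rfl)
  refine hLL.trans ?_
  unfold epp
  rw [hV, hT]
  have hfin : (N : ℝ≥0∞) ^ 2 * dbl (wt χ) f ≠ ∞ :=
    (ENNReal.mul_lt_top (by finiteness) D.dbl_lt).ne
  have hWfin : wE w Ψ ≠ ∞ := (lt_of_le_of_lt hW1 hfin.lt_top).ne
  have hWr : (wE w Ψ).toReal ≤ (N : ℝ) ^ 2 * (dbl (wt χ) f).toReal := by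
    have := ENNReal.toReal_mono hfin hW1
    rw [ENNReal.toReal_mul] at this
    simpa using this
  have hcoe : ((wE w Ψ : ℝ≥0∞) : EReal) = (((wE w Ψ).toReal : ℝ) : EReal) :=
    (EReal.coe_ennreal_toReal hWfin).symm
  rw [hcoe, ← EReal.coe_mul, ← EReal.coe_add, EReal.coe_le_coe_iff]
  have e1 : (N : ℝ) ^ (1 + 2 / (d : ℝ)) = N * (N : ℝ) ^ (2 / (d : ℝ)) := by
    rw [Real.rpow_add hNr, Real.rpow_one]
  rw [e1] at hen
  set T := ∑ a, ∑ c, ∫ x, ‖g a c x‖ ^ 2 with hTd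
  set I := ∫ x, f x ^ (1 + 2 / (d : ℝ)) with hI
  have h4 : (N : ℝ)⁻¹ * (h ^ 2 * T) ≤ (h ^ 2 * (N : ℝ) ^ (2 / (d : ℝ))) * (Kcl d * I + ε) := by
    have h5 := mul_le_mul_of_nonneg_left hen (show 0 ≤ (N : ℝ)⁻¹ * h ^ 2 by positivity)
    have h6 : (N : ℝ)⁻¹ * h ^ 2 * (N * (N : ℝ) ^ (2 / (d : ℝ)) * (Kcl d * I + ε)) =
        (h ^ 2 * (N : ℝ) ^ (2 / (d : ℝ))) * (Kcl d * I + ε) := by
      field_simp
    rw [h6] at h5
    linarith
  have h7 : (N : ℝ)⁻¹ * lam * (wE w Ψ).toReal ≤ (lam * N) * (dbl (wt χ) f).toReal := by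
    have h5 := mul_le_mul_of_nonneg_left hWr (show 0 ≤ (N : ℝ)⁻¹ * lam by positivity)
    have h6 : (N : ℝ)⁻¹ * lam * ((N : ℝ) ^ 2 * (dbl (wt χ) f).toReal) =
        (lam * N) * (dbl (wt χ) f).toReal := by
      field_simp
    rw [h6] at h5
    exact h5
  have h9 : (N : ℝ)⁻¹ * (h ^ 2 * T + N * ∫ x, V x * f x) =
      (N : ℝ)⁻¹ * (h ^ 2 * T) + ∫ x, V x * f x := by
    field_simp
  rw [h9]
  linarith

end Dat

end Pool.Agent.W564.MY
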