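import Pool.Agent.W564.MY.Fin5

/-!
# The limit theorem: Levy-Lieb to Thomas-Fermi
-/

set_option autoImplicit false
set_option linter.unusedVariables false
set_option linter.unusedSimpArgs false
set_option linter.unusedSectionVars false

noncomputable section

namespace Pool.Agent.W564.MY

open MeasureTheory Filter Topology
open scoped ENNReal ComplexConjugate

variable {d : ℕ}

theorem lim_H {d : ℕ} (hd : 0 < d) {h : ℕ → ℝ}
    (hh : Tendsto (fun N : ℕ => h N * (N : ℝ) ^ (1 / (d : ℝ))) atTop (𝓝 1)) :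
    Tendsto (fun N : ℕ => h N ^ 2 * (N : ℝ) ^ (2 / (d : ℝ))) atTop (𝓝 1) ∧
    Tendsto (fun N : ℕ => h N ^ 2) atTop (𝓝 0) := by
  have hd' : (0 : ℝ) < d := by exact_mod_cast hd
  have e1 : ∀ N : ℕ, (h N * (N : ℝ) ^ (1 / (d : ℝ))) ^ 2 = h N ^ 2 * (N : ℝ) ^ (2 / (d : ℝ)) := by
    intro N
    rw [mul_pow, ← Real.rpow_natCast ((N : ℝ) ^ (1 / (d : ℝ))) 2, ← Real.rpow_mul (Nat.cast_nonneg N)]
    congr 2
    push_cast
    ring
  have h1 : Tendsto (fun N : ℕ => h N ^ 2 * (N : ℝ) ^ (2 / (d : ℝ))) atTop (𝓝 1) := by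
    have := hh.pow 2
    simp_rw [e1] at this
    simpa using this
  refine ⟨h1, ?_⟩
  have h2 : Tendsto (fun N : ℕ => (N : ℝ) ^ (2 / (d : ℝ))) atTop atTop :=
    (tendsto_rpow_atTop (by positivity)).comp tendsto_natCast_atTop_atTop
  have h3 := h1.mul h2.inv_tendsto_atTop
  rw [mul_zero] at h3
  refine h3.congr' ?_
  filter_upwards [eventually_gt_atTop 0] with N hN
  have hNr : (0 : ℝ) < (N : ℝ) ^ (2 / (d : ℝ)) :=
    Real.rpow_pos_of_pos (by exact_mod_cast hN) _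
  simp only [Pi.inv_apply]
  field_simp

theorem lim_lam {lam : ℕ → ℝ} (hl : Tendsto (fun N : ℕ => lam N * N) atTop (𝓝 1)) :
    Tendsto lam atTop (𝓝 0) ∧ ∀ᶠ N in atTop, 0 < lam N := by
  constructor
  · have h3 := hl.mul (tendsto_natCast_atTop_atTop (R := ℝ)).inv_tendsto_atTop
    rw [mul_zero] at h3
    refine h3.congr' ?_
    filter_upwards [eventually_gt_atTop 0] with N hN
    have hNr : (0 : ℝ) < (N : ℝ) := by exact_mod_cast hN
    simp only [Pi.inv_apply]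
    field_simp
  · filter_upwards [eventually_gt_atTop 0, hl.eventually (lt_mem_nhds (zero_lt_one' ℝ))] with N hN h1
    have hNr : (0 : ℝ) < (N : ℝ) := by exact_mod_cast hN
    exact pos_of_mul_pos_left h1 hNr.le

namespace Dat

variable {V w f : E d → ℝ} {χ : ℝ → E d → ℝ}

theorem TF_eq (D : Dat d V w f χ) : TF d V w f = Kcl d * (∫ x, f x ^ (1 + 2 / (d : ℝ))) +
    (∫ x, V x * f x) + (dbl (wt χ) f).toReal := by
  rw [D.dbl_eq]
  rfl

theorem exists_m (D : Dat d V w f χ) {ε : ℝ} (hε : 0 < ε) :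
    ∃ m : ℕ, (dbl (wt χ) f).toReal - ε ≤ (dbl (wmm χ m) f).toReal := by
  rcases eq_or_lt_of_le (ENNReal.toReal_nonneg : 0 ≤ (dbl (wt χ) f).toReal) with h0 | h0
  · refine ⟨0, ?_⟩
    have : 0 ≤ (dbl (wmm χ 0) f).toReal := ENNReal.toReal_nonneg
    linarith
  have hlt : ENNReal.ofReal ((dbl (wt χ) f).toReal - ε) < ⨆ m : ℕ, dbl (wmm χ m) f := by
    rw [dbl_sup D.χm D.χ0 D.fm, ← ENNReal.ofReal_toReal D.dbl_lt.ne]
    rw [ENNReal.toReal_ofReal ENNReal.toReal_nonneg]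
    exact (ENNReal.ofReal_lt_ofReal_iff h0).2 (by linarith)
  obtain ⟨m, hm⟩ := lt_iSup_iff.1 hlt
  refine ⟨m, ?_⟩
  have hfin : dbl (wmm χ m) f ≠ ∞ := by
    refine (lt_of_le_of_lt ?_ D.dbl_lt).ne
    rw [← dbl_sup D.χm D.χ0 D.fm]
    exact le_iSup (fun m => dbl (wmm χ m) f) m
  exact (ENNReal.ofReal_le_iff_le_toReal hfin).1 hm.le

/-- **the limit** -/
theorem limit (D : Dat d V w f χ) {h lam : ℕ → ℝ}
    (hh : Tendsto (fun N : ℕ => h N * (N : ℝ) ^ (1 / (d : ℝ))) atTop (𝓝 1))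
    (hl : Tendsto (fun N : ℕ => lam N * N) atTop (𝓝 1)) :
    Tendsto (fun N : ℕ => LL d N (h N) (lam N) V w f) atTop (𝓝 ((TF d V w f : ℝ) : EReal)) := by
  obtain ⟨hH, hh0⟩ := lim_H D.hd hh
  obtain ⟨hl0, hlpos⟩ := lim_lam hl
  refine tendsto_order.2 ⟨fun a ha => ?_, fun b hb => ?_⟩
  · obtain ⟨a', haa, ha'⟩ := EReal.lt_iff_exists_real_btwn.1 ha
    rw [EReal.coe_lt_coe_iff] at ha'
    set ε := (TF d V w f - a') / 4 with hεd
    have hε : 0 < ε := by
      rw [hεd]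
      linarith
    have hp : (1 : ℝ) ≤ 1 + 2 / (d : ℝ) := by
      have : (0 : ℝ) ≤ 2 / (d : ℝ) := by positivity
      linarith
    have hK := Kcl_nonneg d
    obtain ⟨γ, W, hγ⟩ := mol_lower_real D.fm D.f0 D.fi hp D.fp
      (ε := ε / (Kcl d + 1)) (by positivity)
    obtain ⟨m, hm⟩ := D.exists_m hε
    have hL : Tendsto (fun N : ℕ => (h N ^ 2 * (N : ℝ) ^ (2 / (d : ℝ))) *
        (Kcl d * ∫ x, mol f γ x ^ (1 + 2 / (d : ℝ))) -
        h N ^ 2 * (∑ c, ∫ x, (fderiv ℝ γ x (Pi.single c (1 : ℝ))) ^ 2) + (∫ x, V x * f x) +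
        (lam N * N) * (dbl (wmm χ m) f).toReal - lam N * (2⁻¹ * wmm χ m 0).toReal) atTop
        (𝓝 (1 * (Kcl d * ∫ x, mol f γ x ^ (1 + 2 / (d : ℝ))) -
        0 * (∑ c, ∫ x, (fderiv ℝ γ x (Pi.single c (1 : ℝ))) ^ 2) + (∫ x, V x * f x) +
        1 * (dbl (wmm χ m) f).toReal - 0 * (2⁻¹ * wmm χ m 0).toReal)) :=
      ((((hH.mul_const _).sub (hh0.mul_const _)).add_const _).add (hl.mul_const _)).sub
        (hl0.mul_const _)
    have hlim : a' < 1 * (Kcl d * ∫ x, mol f γ x ^ (1 + 2 / (d : ℝ))) -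
        0 * (∑ c, ∫ x, (fderiv ℝ γ x (Pi.single c (1 : ℝ))) ^ 2) + (∫ x, V x * f x) +
        1 * (dbl (wmm χ m) f).toReal - 0 * (2⁻¹ * wmm χ m 0).toReal := by
      have h1 := mul_le_mul_of_nonneg_left hγ hK
      have h2 : Kcl d * ((∫ x, f x ^ (1 + 2 / (d : ℝ))) - ε / (Kcl d + 1)) ≥
          Kcl d * (∫ x, f x ^ (1 + 2 / (d : ℝ))) - ε := by
        have h3 : Kcl d * (ε / (Kcl d + 1)) ≤ ε := by
          rw [mul_div_assoc', div_le_iff₀ (by positivity)]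
          nlinarith
        rw [mul_sub]
        linarith
      have h4 := D.TF_eq
      have h5 : 4 * ε = TF d V w f - a' := by
        rw [hεd]
        ring
      linarith
    filter_upwards [hL.eventually (lt_mem_nhds hlim), hlpos, eventually_gt_atTop 0]
      with N h1 h2 h3
    refine lt_of_lt_of_le (haa.trans (EReal.coe_lt_coe_iff.2 h1)) ?_
    exact le_iInf fun Ψ => le_iInf fun G => le_iInf fun hS => le_iInf fun hden =>
      D.lower h3 h2 hS hden W m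
  · obtain ⟨b', hb', hbb⟩ := EReal.lt_iff_exists_real_btwn.1 hb
    rw [EReal.coe_lt_coe_iff] at hb'
    set ε := (b' - TF d V w f) / 2 with hεd
    have hε : 0 < ε := by
      rw [hεd]
      linarith
    obtain ⟨N₀, hN₀⟩ := D.upper hε
    have hU : Tendsto (fun N : ℕ => (h N ^ 2 * (N : ℝ) ^ (2 / (d : ℝ))) *
        (Kcl d * (∫ x, f x ^ (1 + 2 / (d : ℝ))) + ε) +
        (∫ x, V x * f x) + (lam N * N) * (dbl (wt χ) f).toReal) atTop
        (𝓝 (1 * (Kcl d * (∫ x, f x ^ (1 + 2 / (d : ℝ))) + ε) +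
        (∫ x, V x * f x) + 1 * (dbl (wt χ) f).toReal)) :=
      ((hH.mul_const _).add_const _).add (hl.mul_const _)
    have hlim : 1 * (Kcl d * (∫ x, f x ^ (1 + 2 / (d : ℝ))) + ε) +
        (∫ x, V x * f x) + 1 * (dbl (wt χ) f).toReal < b' := by
      have h4 := D.TF_eq
      have h5 : 2 * ε = b' - TF d V w f := by
        rw [hεd]
        ring
      linarith
    filter_upwards [hU.eventually (gt_mem_nhds hlim), hlpos, eventually_ge_atTop N₀]
      with N h1 h2 h3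
    exact lt_of_le_of_lt (hN₀ N h3 (h N) (lam N) h2.le) ((EReal.coe_lt_coe_iff.2 h1).trans hbb)

end Dat

end Pool.Agent.W564.MY
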