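import Pool.Agent.W564.MY.Fin6

/-!
# Removing measurability hypotheses (choice of representatives)
-/

set_option autoImplicit false
set_option linter.unusedVariables false
set_option linter.unusedSimpArgs false
set_option linter.unusedSectionVars false

noncomputable section

namespace Pool.Agent.W564.MY

open MeasureTheory Filter Topology
open scoped ENNReal ComplexConjugate

variable {d : ℕ}

theorem InSum.congr {a : ℝ} {V V' : E d → ℝ} (h : InSum a V) (he : ∀ᵐ x, V x = V' x) :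
    InSum a V' := by
  obtain ⟨p, q, hp, hq, V₁, V₂, h1, h2, h3⟩ := h
  refine ⟨p, q, hp, hq, V₁, V₂, h1, h2, ?_⟩
  filter_upwards [h3, he] with x h4 h5
  rw [← h5, h4]

theorem InSum.aesm {a : ℝ} {V : E d → ℝ} (h : InSum a V) : AEStronglyMeasurable V volume := by
  obtain ⟨p, q, hp, hq, V₁, V₂, h1, h2, h3⟩ := h
  exact (h1.1.add h2.1).congr (by filter_upwards [h3] with x h4; rw [h4]; rfl)

theorem LL_congr {N : ℕ} {h lam : ℝ} {V V' w w' f f' : E d → ℝ} (hV : ∀ᵐ x, V x = V' x)
    (hw : ∀ᵐ x, w x = w' x) (hf : ∀ᵐ x, f x = f' x) :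
    LL d N h lam V w f = LL d N h lam V' w' f' := by
  unfold LL
  refine iInf_congr fun Ψ => iInf_congr fun G => iInf_congr fun hS => iInf_congr_Prop ?_ fun _ => ?_
  · cases N with
    | zero =>
      change (∀ᵐ x, _) ↔ (∀ᵐ x, _)
      simp
    | succ n =>
      change (∀ᵐ x, _) ↔ (∀ᵐ x, _)
      constructor
      · intro h1
        filter_upwards [h1, hf] with x h2 h3
        rw [← h3]
        exact h2
      · intro h1
        filter_upwards [h1, hf] with x h2 h3
        rw [h3]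
        exact h2
  · unfold epp
    have e1 : ∀ i : Fin N, ∫ x : Fin N → E d, V (x i) * ‖Ψ x‖ ^ 2 =
        ∫ x : Fin N → E d, V' (x i) * ‖Ψ x‖ ^ 2 := by
      intro i
      apply integral_congr_ae
      have := (Measure.quasiMeasurePreserving_eval
        (fun _ : Fin N => (volume : Measure (E d))) i).ae hV
      filter_upwards [this] with x hx
      simp only [Function.eval] at hx
      rw [hx]
    have e2 : wE w Ψ = wE w' Ψ := by
      unfold wE
      refine Finset.sum_congr rfl fun i _ => Finset.sum_congr rfl fun j _ => ?_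
      split_ifs with hij
      · apply lintegral_congr_ae
        have := Pool.Agent.W596.MY.ae_diff (N := N) hw hij.ne
        filter_upwards [this] with x hx
        rw [hx]
      · rfl
    rw [e2, Finset.sum_congr rfl fun i _ => e1 i]

theorem TF_congr {V V' w w' f f' : E d → ℝ} (hV : ∀ᵐ x, V x = V' x)
    (hw : ∀ᵐ x, w x = w' x) (hf : ∀ᵐ x, f x = f' x) : TF d V w f = TF d V' w' f' := by
  unfold TF
  have e1 : ∫ x, f x ^ (1 + 2 / (d : ℝ)) = ∫ x, f' x ^ (1 + 2 / (d : ℝ)) := by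
    apply integral_congr_ae
    filter_upwards [hf] with x hx
    rw [hx]
  have e2 : ∫ x, V x * f x = ∫ x, V' x * f' x := by
    apply integral_congr_ae
    filter_upwards [hf, hV] with x hx h2
    rw [hx, h2]
  have e3 : ∫ x, ∫ y, f x * f y * w (x - y) = ∫ x, ∫ y, f' x * f' y * w' (x - y) := by
    apply integral_congr_ae
    filter_upwards [hf] with x hx
    apply integral_congr_ae
    have h3 : ∀ᵐ y, w (x - y) = w' (x - y) :=
      (Measure.measurePreserving_sub_left volume x).quasiMeasurePreserving.ae hw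
    filter_upwards [hf, h3] with y hy h4
    rw [hx, hy, h4]
  rw [e1, e2, e3]

/-- data of the limit theorem, without measurability hypotheses on `V, w, f` -/
structure Dat' (d : ℕ) (V w f : E d → ℝ) (χ : ℝ → E d → ℝ) : Prop where
  hd : 0 < d
  Vs : InSum (1 + (d : ℝ) / 2) V
  ws : InSum (1 + (d : ℝ) / 2) w
  χm : Measurable fun p : ℝ × E d => χ p.1 p.2
  χ0 : ∀ r x, 0 ≤ χ r x
  χe : ∀ r x, χ r (-x) = χ r x
  wχ : ∀ᵐ x, 0 ≤ w x ∧ ENNReal.ofReal (w x) = wt χ x
  f0 : ∀ᵐ x, 0 ≤ f x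
  f1 : ∫ x, f x = 1
  fH : ∃ g, IsH1 (fun x => ((Real.sqrt (f x) : ℝ) : ℂ)) g

theorem Dat'.exists_dat {V w f : E d → ℝ} {χ : ℝ → E d → ℝ} (D : Dat' d V w f χ) :
    ∃ V' w' f' : E d → ℝ, Dat d V' w' f' χ ∧ (∀ᵐ x, V x = V' x) ∧ (∀ᵐ x, w x = w' x) ∧
      ∀ᵐ x, f x = f' x := by
  have hV := D.Vs.aesm
  have hw := D.ws.aesm
  have hfi : Integrable f := by
    by_contra h
    have := D.f1
    rw [integral_undef h] at this
    norm_num at this
  have hf := hfi.1
  have hV1 : ∀ᵐ x, V x = hV.mk V x := hV.ae_eq_mk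
  have hw1 : ∀ᵐ x, w x = hw.mk w x := hw.ae_eq_mk
  have hf1 : ∀ᵐ x, f x = max (hf.mk f x) 0 := by
    filter_upwards [hf.ae_eq_mk, D.f0] with x h1 h2
    rw [← h1, max_eq_left h2]
  refine ⟨hV.mk V, hw.mk w, fun x => max (hf.mk f x) 0, ?_, hV1, hw1, hf1⟩
  refine ⟨D.hd, hV.stronglyMeasurable_mk.measurable, D.Vs.congr hV1,
    hw.stronglyMeasurable_mk.measurable, D.ws.congr hw1, D.χm, D.χ0, D.χe, ?_,
    hf.stronglyMeasurable_mk.measurable.max measurable_const, fun x => le_max_right _ _, ?_, ?_⟩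
  · filter_upwards [D.wχ, hw1] with x h1 h2
    rw [← h2]
    exact h1
  · rw [← D.f1]
    exact (integral_congr_ae hf1).symm
  · obtain ⟨g, hg1, hg2, hg3⟩ := D.fH
    have h1 : (fun x => ((Real.sqrt (f x) : ℝ) : ℂ)) =ᵐ[volume]
        (fun x => ((Real.sqrt (max (hf.mk f x) 0) : ℝ) : ℂ)) := by
      filter_upwards [hf1] with x hx
      rw [← hx]
    refine ⟨g, (memLp_congr_ae h1).1 hg1, hg2, fun i φ hφ hc => ?_⟩
    rw [← hg3 i φ hφ hc]
    apply integral_congr_ae
    filter_upwards [h1] with x hx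
    rw [← hx]

theorem Dat'.limit {V w f : E d → ℝ} {χ : ℝ → E d → ℝ} (D : Dat' d V w f χ) {h lam : ℕ → ℝ}
    (hh : Tendsto (fun N : ℕ => h N * (N : ℝ) ^ (1 / (d : ℝ))) atTop (𝓝 1))
    (hl : Tendsto (fun N : ℕ => lam N * N) atTop (𝓝 1)) :
    Tendsto (fun N : ℕ => LL d N (h N) (lam N) V w f) atTop (𝓝 ((TF d V w f : ℝ) : EReal)) := by
  obtain ⟨V', w', f', D', hV, hw, hf⟩ := D.exists_dat
  have := D'.limit hh hl
  rw [← TF_congr hV hw hf] at this
  refine this.congr fun N => ?_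
  exact (LL_congr hV hw hf).symm

/-- all integrals in the functionals converge absolutely -/
theorem Dat'.conv {V w f : E d → ℝ} {χ : ℝ → E d → ℝ} (D : Dat' d V w f χ) :
    (Integrable fun x => f x ^ (1 + 2 / (d : ℝ))) ∧ (Integrable fun x => V x * f x) ∧
    (∫⁻ x, ∫⁻ y, ENNReal.ofReal (f x * f y * w (x - y)) < ∞) ∧
    ∀ (N : ℕ) (Ψ : (Fin N → E d) → ℂ) (G : Fin N → Fin d → (Fin N → E d) → ℂ), InS Ψ G →
      IsDensity N Ψ (fun x => N * f x) → ∀ i : Fin N,
        Integrable fun x : Fin N → E d => V (x i) * ‖Ψ x‖ ^ 2 := by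
  obtain ⟨V', w', f', D', hV, hw, hf⟩ := D.exists_dat
  refine ⟨D'.fp.congr ?_, D'.iVf.congr ?_, ?_, ?_⟩
  · filter_upwards [hf] with x hx
    rw [hx]
  · filter_upwards [hf, hV] with x hx h2
    rw [hx, h2]
  · have e3 : ∫⁻ x, ∫⁻ y, ENNReal.ofReal (f x * f y * w (x - y)) =
        ∫⁻ x, ∫⁻ y, wt χ (x - y) * ENNReal.ofReal (f' x) * ENNReal.ofReal (f' y) := by
      apply lintegral_congr_ae
      filter_upwards [hf] with x hx
      apply lintegral_congr_ae
      have h3 : ∀ᵐ y, w (x - y) = w' (x - y) :=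
        (Measure.measurePreserving_sub_left volume x).quasiMeasurePreserving.ae hw
      have h4 : ∀ᵐ y, 0 ≤ w' (x - y) ∧ ENNReal.ofReal (w' (x - y)) = wt χ (x - y) :=
        (Measure.measurePreserving_sub_left volume x).quasiMeasurePreserving.ae D'.wχ
      filter_upwards [hf, h3, h4] with y hy h5 h6
      rw [hx, hy, h5, ENNReal.ofReal_mul (mul_nonneg (D'.f0 x) (D'.f0 y)),
        ENNReal.ofReal_mul (D'.f0 x), h6.2]
      ring
    rw [e3]
    have h7 := D'.dbl_lt
    unfold dbl at h7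
    by_contra h8
    rw [not_lt, top_le_iff] at h8
    rw [h8] at h7
    simp at h7
  · intro N Ψ G hS hden i
    have hN : 0 < N := i.pos
    have hρm : Measurable fun x => (N : ℝ) * f' x := D'.fm.const_mul _
    have hρ0 : ∀ x, 0 ≤ (N : ℝ) * f' x := fun x => mul_nonneg (Nat.cast_nonneg N) (D'.f0 x)
    have hden' : IsDensity N Ψ (fun x => N * f' x) := by
      obtain ⟨n, rfl⟩ : ∃ n, N = n + 1 := ⟨N - 1, by omega⟩
      change ∀ᵐ x, _
      change ∀ᵐ x, _ at hden
      filter_upwards [hden, hf] with x h2 h3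
      rw [← h3]
      exact h2
    have hD := (hasDensity_iff hN hS.h1.1 hS.anti hρm).2 hden'
    have hVi : Integrable fun x => V' x * ((N : ℝ) * f' x) := by
      refine (D'.iVf.const_mul (N : ℝ)).congr (Eventually.of_forall fun x => ?_)
      simp only
      ring
    have h9 := (pot_energy hS.h1.1 hρm hρ0 hD D'.Vm hVi).1 i
    refine h9.congr ?_
    have := (Measure.quasiMeasurePreserving_eval
      (fun _ : Fin N => (volume : Measure (E d))) i).ae hV
    filter_upwards [this] with x hx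
    simp only [Function.eval] at hx
    rw [hx]

end Pool.Agent.W564.MY
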