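import Pool.Agent.W564.MY.L2

/-!
# Hellinger-type estimate for normalized distribution functions
-/

set_option autoImplicit false
set_option linter.unusedVariables false
set_option linter.unusedSimpArgs false

noncomputable section

namespace Pool.Agent.W564.MY

open MeasureTheory Filter Topology
open scoped ENNReal

variable {α : Type*} [MeasurableSpace α] {μ : Measure α}

theorem int_mul_of {a b : α → ℝ} (ha : MemLp a 2 μ) (hb : MemLp b 2 μ) :
    Integrable (fun x => a x * b x) μ := MemLp.integrable_mul ha hb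

theorem int_sub_sq {a b : α → ℝ} (ha : MemLp a 2 μ) (hb : MemLp b 2 μ) :
    Integrable (fun x => (b x - a x) ^ 2) μ := (hb.sub ha).integrable_sq

theorem cs_integral {a b : α → ℝ} (ha : MemLp a 2 μ) (hb : MemLp b 2 μ) :
    (∫ x, a x * b x ∂μ) ^ 2 ≤ (∫ x, a x ^ 2 ∂μ) * ∫ x, b x ^ 2 ∂μ := by
  have h1 : ∀ t : ℝ, 0 ≤ (∫ x, b x ^ 2 ∂μ) * (t * t) + (2 * ∫ x, a x * b x ∂μ) * t +
      ∫ x, a x ^ 2 ∂μ := by
    intro t
    have h2 : ∫ x, (a x + t * b x) ^ 2 ∂μ = (∫ x, b x ^ 2 ∂μ) * (t * t) +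
        (2 * ∫ x, a x * b x ∂μ) * t + ∫ x, a x ^ 2 ∂μ := by
      have h3 : ∀ x, (a x + t * b x) ^ 2 = (t * t) * b x ^ 2 + (2 * t) * (a x * b x) + a x ^ 2 := by
        intro x
        ring
      simp_rw [h3]
      rw [integral_add, integral_add, integral_const_mul, integral_const_mul]
      · ring
      · exact (hb.integrable_sq).const_mul _
      · exact (int_mul_of ha hb).const_mul _
      · exact ((hb.integrable_sq).const_mul _).add ((int_mul_of ha hb).const_mul _)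
      · exact ha.integrable_sq
    rw [← h2]
    exact integral_nonneg fun x => sq_nonneg _
  have h4 := discrim_le_zero h1
  unfold discrim at h4
  nlinarith

theorem abs_cs_integral {a b : α → ℝ} (ha : MemLp a 2 μ) (hb : MemLp b 2 μ) :
    |∫ x, a x * b x ∂μ| ≤ Real.sqrt (∫ x, a x ^ 2 ∂μ) * Real.sqrt (∫ x, b x ^ 2 ∂μ) := by
  rw [← Real.sqrt_mul (integral_nonneg fun x => sq_nonneg _)]
  exact Real.abs_le_sqrt (cs_integral ha hb)

theorem int_sub_sq_le {a b : α → ℝ} (ha : MemLp a 2 μ) (hb : MemLp b 2 μ) :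
    (∫ x, b x ^ 2 ∂μ - ∫ x, a x ^ 2 ∂μ) ^ 2 ≤
      (∫ x, (b x - a x) ^ 2 ∂μ) * (2 * ∫ x, a x ^ 2 ∂μ + 2 * ∫ x, b x ^ 2 ∂μ) := by
  have h1 : ∫ x, b x ^ 2 ∂μ - ∫ x, a x ^ 2 ∂μ = ∫ x, (b x - a x) * (b x + a x) ∂μ := by
    rw [← integral_sub hb.integrable_sq ha.integrable_sq]
    congr 1
    funext x
    ring
  rw [h1]
  refine (cs_integral (hb.sub ha) (hb.add ha)).trans ?_
  have h2 : ∫ x, (b + a) x ^ 2 ∂μ ≤ 2 * ∫ x, a x ^ 2 ∂μ + 2 * ∫ x, b x ^ 2 ∂μ := by
    rw [← integral_const_mul, ← integral_const_mul, ← integral_add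
      (ha.integrable_sq.const_mul _) (hb.integrable_sq.const_mul _)]
    apply integral_mono (hb.add ha).integrable_sq
    · exact (ha.integrable_sq.const_mul _).add (hb.integrable_sq.const_mul _)
    · intro x
      simp only [Pi.add_apply]
      nlinarith [sq_nonneg (b x - a x)]
  exact mul_le_mul_of_nonneg_left h2 (integral_nonneg fun x => sq_nonneg _)

/-- normalized distribution functions are close if the square roots of the densities are close -/
theorem hellinger {a b : α → ℝ} (ha : MemLp a 2 μ) (hb : MemLp b 2 μ) {s : Set α}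
    (hs : MeasurableSet s) :
    (∫ x, a x ^ 2 ∂μ) * ((∫ x in s, b x ^ 2 ∂μ) / (∫ x, b x ^ 2 ∂μ) -
      (∫ x in s, a x ^ 2 ∂μ) / (∫ x, a x ^ 2 ∂μ)) ^ 2 ≤ 40 * ∫ x, (b x - a x) ^ 2 ∂μ := by
  set A := ∫ x, a x ^ 2 ∂μ with hA
  set B := ∫ x, b x ^ 2 ∂μ with hB
  set As := ∫ x in s, a x ^ 2 ∂μ with hAs
  set Bs := ∫ x in s, b x ^ 2 ∂μ with hBs
  set D := ∫ x, (b x - a x) ^ 2 ∂μ with hD
  have hA0 : 0 ≤ A := integral_nonneg fun x => sq_nonneg _
  have hB0 : 0 ≤ B := integral_nonneg fun x => sq_nonneg _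
  have hAs0 : 0 ≤ As := integral_nonneg fun x => sq_nonneg _
  have hBs0 : 0 ≤ Bs := integral_nonneg fun x => sq_nonneg _
  have hD0 : 0 ≤ D := integral_nonneg fun x => sq_nonneg _
  have hAsA : As ≤ A := setIntegral_le_integral ha.integrable_sq (Eventually.of_forall fun x => sq_nonneg _)
  have hBsB : Bs ≤ B := setIntegral_le_integral hb.integrable_sq (Eventually.of_forall fun x => sq_nonneg _)
  have hDs : (∫ x in s, (b x - a x) ^ 2 ∂μ) ≤ D :=
    setIntegral_le_integral (hb.sub ha).integrable_sq (Eventually.of_forall fun x => sq_nonneg _)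
  have hDs0 : 0 ≤ (∫ x in s, (b x - a x) ^ 2 ∂μ) := integral_nonneg fun x => sq_nonneg _
  have h1 : (B - A) ^ 2 ≤ D * (2 * A + 2 * B) := int_sub_sq_le ha hb
  have h2 : (Bs - As) ^ 2 ≤ D * (2 * A + 2 * B) := by
    refine (int_sub_sq_le (ha.restrict s) (hb.restrict s)).trans ?_
    apply mul_le_mul hDs _ _ hD0
    · linarith
    · linarith
  rcases eq_or_lt_of_le hA0 with hA1 | hA1
  · rw [← hA1]
    simp
    exact hD0
  -- the ratios are in `[0,1]`
  have r1 : 0 ≤ Bs / B ∧ Bs / B ≤ 1 := ⟨div_nonneg hBs0 hB0, div_le_one_of_le₀ hBsB hB0⟩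
  have r2 : 0 ≤ As / A ∧ As / A ≤ 1 := ⟨div_nonneg hAs0 hA0, div_le_one_of_le₀ hAsA hA0⟩
  rcases le_total B (4 * A) with h3 | h3
  · have h4 : A * (Bs / B - As / A) = (Bs - As) + (Bs / B) * (A - B) := by
      rcases eq_or_ne B 0 with hB1 | hB1
      · have : Bs = 0 := le_antisymm (by linarith) hBs0
        rw [hB1, this]
        field_simp
        ring
      · field_simp
        ring
    have h5 : (A * (Bs / B - As / A)) ^ 2 ≤ 40 * D * A := by
      rw [h4]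
      have h6 : ((Bs / B) * (A - B)) ^ 2 ≤ (B - A) ^ 2 := by
        rw [mul_pow]
        have : (Bs / B) ^ 2 ≤ 1 := by nlinarith [r1.1, r1.2]
        nlinarith [sq_nonneg (A - B), sq_nonneg (B - A)]
      have h7 : ((Bs - As) + (Bs / B) * (A - B)) ^ 2 ≤
          2 * (Bs - As) ^ 2 + 2 * ((Bs / B) * (A - B)) ^ 2 := by
        nlinarith [sq_nonneg ((Bs - As) - (Bs / B) * (A - B))]
      have h8 : D * (2 * A + 2 * B) ≤ D * (10 * A) := mul_le_mul_of_nonneg_left (by linarith) hD0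
      nlinarith
    have h9 : A * (A * (Bs / B - As / A) ^ 2) ≤ A * (40 * D) := by nlinarith
    exact le_of_mul_le_mul_left h9 hA1
  · have h4 : B ≤ 2 * A + 2 * D := by
      rw [hB, hA, hD, ← integral_const_mul, ← integral_const_mul, ← integral_add
        (ha.integrable_sq.const_mul _) ((int_sub_sq ha hb).const_mul _)]
      apply integral_mono hb.integrable_sq
      · exact (ha.integrable_sq.const_mul _).add ((int_sub_sq ha hb).const_mul _)
      · intro x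
        simp only [Pi.sub_apply]
        nlinarith [sq_nonneg (b x - a x - a x)]
    have h5 : (Bs / B - As / A) ^ 2 ≤ 1 := by
      rw [sq_le_one_iff_abs_le_one, abs_le]
      constructor <;> linarith [r1.1, r1.2, r2.1, r2.2]
    nlinarith

/-- convergence of integrals of products -/
theorem tendsto_integral_mul {a h : α → ℝ} {k : ℕ → α → ℝ} (ha : MemLp a 2 μ) (hh : MemLp h 2 μ)
    (hk : ∀ n, MemLp (k n) 2 μ) (hkh : Tendsto (fun n => ∫ x, (k n x - h x) ^ 2 ∂μ) atTop (𝓝 0)) :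
    Tendsto (fun n => ∫ x, a x * k n x ∂μ) atTop (𝓝 (∫ x, a x * h x ∂μ)) := by
  rw [tendsto_iff_norm_sub_tendsto_zero]
  have h1 : Tendsto (fun n => Real.sqrt (∫ x, a x ^ 2 ∂μ) *
      Real.sqrt (∫ x, (k n x - h x) ^ 2 ∂μ)) atTop (𝓝 0) := by
    have := ((Real.continuous_sqrt.tendsto 0).comp hkh).const_mul (Real.sqrt (∫ x, a x ^ 2 ∂μ))
    simpa [Function.comp_def] using this
  refine squeeze_zero (fun n => norm_nonneg _) (fun n => ?_) h1
  have h2 : ∫ x, a x * k n x ∂μ - ∫ x, a x * h x ∂μ = ∫ x, a x * (k n x - h x) ∂μ := by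
    rw [← integral_sub (int_mul_of ha (hk n)) (int_mul_of ha hh)]
    congr 1
    funext x
    ring
  rw [h2, Real.norm_eq_abs]
  exact abs_cs_integral ha ((hk n).sub hh)

theorem bdd_integral_sq {h : α → ℝ} {k : ℕ → α → ℝ} (hh : MemLp h 2 μ)
    (hk : ∀ n, MemLp (k n) 2 μ) (hkh : Tendsto (fun n => ∫ x, (k n x - h x) ^ 2 ∂μ) atTop (𝓝 0))
    {t : ℕ → ℝ} (ht : Tendsto t atTop (𝓝 0)) :
    Tendsto (fun n => t n * ∫ x, k n x ^ 2 ∂μ) atTop (𝓝 0) := by
  have h1 : Tendsto (fun n => |t n| * (2 * ∫ x, h x ^ 2 ∂μ + 2 * ∫ x, (k n x - h x) ^ 2 ∂μ)) atTop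
      (𝓝 0) := by
    have := ht.abs.mul ((hkh.const_mul 2).const_add (2 * ∫ x, h x ^ 2 ∂μ))
    simpa using this
  refine squeeze_zero_norm (fun n => ?_) h1
  rw [norm_mul, Real.norm_eq_abs, Real.norm_of_nonneg (integral_nonneg fun x => sq_nonneg _)]
  apply mul_le_mul_of_nonneg_left _ (abs_nonneg _)
  rw [← integral_const_mul, ← integral_const_mul, ← integral_add
    (hh.integrable_sq.const_mul _) ((int_sub_sq hh (hk n)).const_mul _)]
  apply integral_mono (hk n).integrable_sq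
  · exact (hh.integrable_sq.const_mul _).add ((int_sub_sq hh (hk n)).const_mul _)
  · intro x
    simp only [Pi.sub_apply]
    nlinarith [sq_nonneg (k n x - h x - h x)]

theorem integral_sq_perturb {a k : α → ℝ} (ha : MemLp a 2 μ) (hk : MemLp k 2 μ) (t : ℝ) :
    ∫ x, (a x + t * k x) ^ 2 ∂μ = ∫ x, a x ^ 2 ∂μ +
      t * (2 * ∫ x, a x * k x ∂μ + t * ∫ x, k x ^ 2 ∂μ) := by
  have h3 : ∀ x, (a x + t * k x) ^ 2 = a x ^ 2 + ((2 * t) * (a x * k x) + (t * t) * k x ^ 2) := by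
    intro x
    ring
  simp_rw [h3]
  rw [integral_add, integral_add, integral_const_mul, integral_const_mul]
  · ring
  · exact (int_mul_of ha hk).const_mul _
  · exact (hk.integrable_sq).const_mul _
  · exact ha.integrable_sq
  · exact ((int_mul_of ha hk).const_mul _).add ((hk.integrable_sq).const_mul _)

/-- difference quotients of `∫ a²` -/
theorem tendsto_dq_integral_sq {a h : α → ℝ} {k : ℕ → α → ℝ} (ha : MemLp a 2 μ)
    (hh : MemLp h 2 μ) (hk : ∀ n, MemLp (k n) 2 μ)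
    (hkh : Tendsto (fun n => ∫ x, (k n x - h x) ^ 2 ∂μ) atTop (𝓝 0))
    {t : ℕ → ℝ} (ht : Tendsto t atTop (𝓝 0)) :
    Tendsto (fun n => 2 * ∫ x, a x * k n x ∂μ + t n * ∫ x, k n x ^ 2 ∂μ) atTop
      (𝓝 (2 * ∫ x, a x * h x ∂μ)) := by
  have := ((tendsto_integral_mul ha hh hk hkh).const_mul 2).add (bdd_integral_sq hh hk hkh ht)
  simpa using this

theorem memLp_restrict_conv {h : α → ℝ} {k : ℕ → α → ℝ} (hh : MemLp h 2 μ)
    (hk : ∀ n, MemLp (k n) 2 μ)
    (hkh : Tendsto (fun n => ∫ x, (k n x - h x) ^ 2 ∂μ) atTop (𝓝 0)) (s : Set α) :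
    Tendsto (fun n => ∫ x in s, (k n x - h x) ^ 2 ∂μ) atTop (𝓝 0) :=
  squeeze_zero (fun n => integral_nonneg fun x => sq_nonneg _)
    (fun n => setIntegral_le_integral ((hk n).sub hh).integrable_sq
      (Eventually.of_forall fun x => sq_nonneg _)) hkh

/-- difference quotients of the normalized distribution function -/
theorem tendsto_dq_ratio {a h : α → ℝ} {k : ℕ → α → ℝ} (ha : MemLp a 2 μ)
    (hh : MemLp h 2 μ) (hk : ∀ n, MemLp (k n) 2 μ)
    (hkh : Tendsto (fun n => ∫ x, (k n x - h x) ^ 2 ∂μ) atTop (𝓝 0))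
    {t : ℕ → ℝ} (ht : Tendsto t atTop (𝓝 0)) (ht0 : ∀ n, t n ≠ 0) (s : Set α)
    (hA : ∫ x, a x ^ 2 ∂μ ≠ 0) :
    Tendsto (fun n => (t n)⁻¹ * ((∫ x in s, (a x + t n * k n x) ^ 2 ∂μ) /
      (∫ x, (a x + t n * k n x) ^ 2 ∂μ) - (∫ x in s, a x ^ 2 ∂μ) / (∫ x, a x ^ 2 ∂μ))) atTop
      (𝓝 ((2 * ∫ x in s, a x * h x ∂μ - (∫ x in s, a x ^ 2 ∂μ) / (∫ x, a x ^ 2 ∂μ) *
        (2 * ∫ x, a x * h x ∂μ)) / (∫ x, a x ^ 2 ∂μ))) := by
  set A := ∫ x, a x ^ 2 ∂μ with hAdef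
  set As := ∫ x in s, a x ^ 2 ∂μ with hAs
  have hP := tendsto_dq_integral_sq (ha.restrict s) (hh.restrict s) (fun n => (hk n).restrict s)
    (memLp_restrict_conv hh hk hkh s) ht
  have hQ := tendsto_dq_integral_sq ha hh hk hkh ht
  set P : ℕ → ℝ := fun n => 2 * ∫ x in s, a x * k n x ∂μ + t n * ∫ x in s, k n x ^ 2 ∂μ with hPd
  set Q : ℕ → ℝ := fun n => 2 * ∫ x, a x * k n x ∂μ + t n * ∫ x, k n x ^ 2 ∂μ with hQd
  have hden : Tendsto (fun n => A + t n * Q n) atTop (𝓝 A) := by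
    have := (ht.mul hQ).const_add A
    simpa using this
  have hev : ∀ᶠ n in atTop, A + t n * Q n ≠ 0 := hden.eventually_ne hA
  have hlim : Tendsto (fun n => (P n * A - As * Q n) / (A * (A + t n * Q n))) atTop
      (𝓝 (((2 * ∫ x in s, a x * h x ∂μ) * A - As * (2 * ∫ x, a x * h x ∂μ)) / (A * A))) := by
    apply Tendsto.div
    · exact (hP.mul_const A).sub (hQ.const_mul As)
    · exact hden.const_mul A
    · exact mul_ne_zero hA hA
  have heq : ((2 * ∫ x in s, a x * h x ∂μ - As / A * (2 * ∫ x, a x * h x ∂μ)) / A) =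
      (((2 * ∫ x in s, a x * h x ∂μ) * A - As * (2 * ∫ x, a x * h x ∂μ)) / (A * A)) := by
    field_simp
  rw [heq]
  refine hlim.congr' ?_
  filter_upwards [hev] with n hn
  rw [integral_sq_perturb ha (hk n), integral_sq_perturb (ha.restrict s) ((hk n).restrict s)]
  have ht1 := ht0 n
  change (P n * A - As * Q n) / (A * (A + t n * Q n)) =
    (t n)⁻¹ * ((As + t n * P n) / (A + t n * Q n) - As / A)
  have key : ∀ p q τ D : ℝ, τ ≠ 0 → D ≠ 0 → D = A + τ * q →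
      (p * A - As * q) / (A * D) = τ⁻¹ * ((As + τ * p) / D - As / A) := by
    intro p q τ D h1 h2 h3
    field_simp
    rw [h3]
    ring
  exact key _ _ _ _ ht1 hn rfl

/-- difference quotients of the norm -/
theorem tendsto_dq_norm {a h : α → ℝ} {k : ℕ → α → ℝ} (ha : MemLp a 2 μ)
    (hh : MemLp h 2 μ) (hk : ∀ n, MemLp (k n) 2 μ)
    (hkh : Tendsto (fun n => ∫ x, (k n x - h x) ^ 2 ∂μ) atTop (𝓝 0))
    {t : ℕ → ℝ} (ht : Tendsto t atTop (𝓝 0)) (ht0 : ∀ n, t n ≠ 0)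
    (hA : ∫ x, a x ^ 2 ∂μ ≠ 0) :
    Tendsto (fun n => (t n)⁻¹ * (Real.sqrt (∫ x, (a x + t n * k n x) ^ 2 ∂μ) -
      Real.sqrt (∫ x, a x ^ 2 ∂μ))) atTop
      (𝓝 ((∫ x, a x * h x ∂μ) / Real.sqrt (∫ x, a x ^ 2 ∂μ))) := by
  set A := ∫ x, a x ^ 2 ∂μ with hAdef
  have hA0 : 0 ≤ A := integral_nonneg fun x => sq_nonneg _
  have hA1 : 0 < A := lt_of_le_of_ne hA0 (Ne.symm hA)
  have hQ := tendsto_dq_integral_sq ha hh hk hkh ht
  set Q : ℕ → ℝ := fun n => 2 * ∫ x, a x * k n x ∂μ + t n * ∫ x, k n x ^ 2 ∂μ with hQd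
  have hden : Tendsto (fun n => A + t n * Q n) atTop (𝓝 A) := by
    have := (ht.mul hQ).const_add A
    simpa using this
  have hsq : Tendsto (fun n => Real.sqrt (A + t n * Q n) + Real.sqrt A) atTop
      (𝓝 (Real.sqrt A + Real.sqrt A)) :=
    ((Real.continuous_sqrt.tendsto A).comp hden).add_const _
  have hsA : 0 < Real.sqrt A := Real.sqrt_pos.2 hA1
  have hlim : Tendsto (fun n => Q n / (Real.sqrt (A + t n * Q n) + Real.sqrt A)) atTop
      (𝓝 ((2 * ∫ x, a x * h x ∂μ) / (Real.sqrt A + Real.sqrt A))) :=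
    hQ.div hsq (by positivity)
  have heq : (∫ x, a x * h x ∂μ) / Real.sqrt A =
      (2 * ∫ x, a x * h x ∂μ) / (Real.sqrt A + Real.sqrt A) := by
    field_simp
    ring
  rw [heq]
  refine hlim.congr' ?_
  have hev : ∀ᶠ n in atTop, 0 < A + t n * Q n := hden.eventually (lt_mem_nhds hA1)
  filter_upwards [hev] with n hn
  rw [integral_sq_perturb ha (hk n)]
  have ht1 := ht0 n
  change Q n / (Real.sqrt (A + t n * Q n) + Real.sqrt A) =
    (t n)⁻¹ * (Real.sqrt (A + t n * Q n) - Real.sqrt A)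
  have h1 : (Real.sqrt (A + t n * Q n) - Real.sqrt A) * (Real.sqrt (A + t n * Q n) + Real.sqrt A) =
      t n * Q n := by
    have e1 := Real.mul_self_sqrt hn.le
    have e2 := Real.mul_self_sqrt hA0
    nlinarith
  have h2 : 0 < Real.sqrt (A + t n * Q n) + Real.sqrt A := by positivity
  rw [div_eq_iff h2.ne', mul_assoc, h1]
  field_simp

/-- `(‖b‖ - ‖a‖)² ≤ ‖b - a‖²` -/
theorem sq_norm_sub_le {a b : α → ℝ} (ha : MemLp a 2 μ) (hb : MemLp b 2 μ) :
    (Real.sqrt (∫ x, b x ^ 2 ∂μ) - Real.sqrt (∫ x, a x ^ 2 ∂μ)) ^ 2 ≤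
      ∫ x, (b x - a x) ^ 2 ∂μ := by
  have h1 := abs_cs_integral ha hb
  have hA0 : 0 ≤ ∫ x, a x ^ 2 ∂μ := integral_nonneg fun x => sq_nonneg _
  have hB0 : 0 ≤ ∫ x, b x ^ 2 ∂μ := integral_nonneg fun x => sq_nonneg _
  have h2 : ∫ x, (b x - a x) ^ 2 ∂μ = ∫ x, b x ^ 2 ∂μ - 2 * ∫ x, a x * b x ∂μ +
      ∫ x, a x ^ 2 ∂μ := by
    have h3 : ∀ x, (b x - a x) ^ 2 = b x ^ 2 - 2 * (a x * b x) + a x ^ 2 := by
      intro x
      ring
    simp_rw [h3]
    rw [integral_add, integral_sub, integral_const_mul]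
    · exact hb.integrable_sq
    · exact (int_mul_of ha hb).const_mul _
    · exact hb.integrable_sq.sub ((int_mul_of ha hb).const_mul _)
    · exact ha.integrable_sq
  rw [h2]
  have e1 := Real.mul_self_sqrt hA0
  have e2 := Real.mul_self_sqrt hB0
  have h4 := (abs_le.1 h1).2
  nlinarith

end Pool.Agent.W564.MY
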