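import Pool.Agent.W564.MY.Marg

/-!
# The conditional distribution function of the first coordinate
-/

set_option autoImplicit false
set_option linter.unusedVariables false
set_option linter.unusedSimpArgs false
set_option linter.unusedSectionVars false

noncomputable section

namespace Pool.Agent.W564.MY

open MeasureTheory Filter Topology
open scoped ENNReal

variable {V : Type} [NormedAddCommGroup V] [NormedSpace ℝ V] [FiniteDimensional ℝ V]
  [MeasureSpace V] [BorelSpace V] [(volume : Measure V).IsAddHaarMeasure]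

/-- conditional distribution function -/
def S0 (u : ℝ × V → ℝ) (p : ℝ × V) : ℝ :=
  (∫ z in Set.Iic p.1, u (z, p.2) ^ 2) / (∫ z : ℝ, u (z, p.2) ^ 2)

/-- `u` times its derivative -/
def Y0 (u : ℝ × V → ℝ) (h : ℝ × V → ℝ × V → ℝ) (w : ℝ × V) (p : ℝ × V) : ℝ :=
  u p * ((2 * (∫ z in Set.Iic p.1, u (z, p.2) * h w (z, p.2)) - S0 u p *
    (2 * ∫ z : ℝ, u (z, p.2) * h w (z, p.2))) / (∫ z : ℝ, u (z, p.2) ^ 2))

/-- the conditional density -/
def om (u : ℝ × V → ℝ) (p : ℝ × V) : ℝ := u p ^ 2 / (∫ z : ℝ, u (z, p.2) ^ 2)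

theorem measurable_cdf {F : ℝ × V → ℝ} (hF : Measurable F) :
    Measurable (fun p : ℝ × V => ∫ z in Set.Iic p.1, F (z, p.2)) := by
  have h1 : Measurable (fun q : ℝ × (ℝ × V) => if q.1 ≤ q.2.1 then F (q.1, q.2.2) else 0) := by
    apply Measurable.ite
    · exact measurableSet_le measurable_fst (measurable_fst.comp measurable_snd)
    · exact hF.comp (measurable_fst.prodMk (measurable_snd.comp measurable_snd))
    · exact measurable_const
  have h2 := h1.stronglyMeasurable.integral_prod_left' (μ := (volume : Measure ℝ))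
  convert h2.measurable using 1
  funext p
  rw [← integral_indicator measurableSet_Iic]
  rfl

theorem measurable_marg_sq {u : ℝ × V → ℝ} (hu : Measurable u) :
    Measurable (fun p : ℝ × V => ∫ z : ℝ, u (z, p.2) ^ 2) :=
  (measurable_int_sq hu).comp measurable_snd

theorem measurable_S0 {u : ℝ × V → ℝ} (hu : Measurable u) : Measurable (S0 u) :=
  (measurable_cdf (hu.pow_const 2)).div (measurable_marg_sq hu)

theorem measurable_om {u : ℝ × V → ℝ} (hu : Measurable u) : Measurable (om u) :=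
  (hu.pow_const 2).div (measurable_marg_sq hu)

theorem measurable_Y0 {u : ℝ × V → ℝ} (hu : Measurable u) {h : ℝ × V → ℝ × V → ℝ} {w : ℝ × V}
    (hh : Measurable (h w)) : Measurable (Y0 u h w) := by
  apply hu.mul
  apply Measurable.div
  · apply Measurable.sub
    · exact (measurable_cdf (F := fun p => u p * h w p) (hu.mul hh)).const_mul 2
    · apply (measurable_S0 hu).mul
      exact ((measurable_int_mul hu hh).comp measurable_snd).const_mul 2
  · exact measurable_marg_sq hu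

theorem S0_mem (u : ℝ × V → ℝ) (p : ℝ × V) : S0 u p ∈ Set.Icc (0 : ℝ) 1 := by
  unfold S0
  have h0 : (0 : ℝ) ≤ ∫ z in Set.Iic p.1, u (z, p.2) ^ 2 := integral_nonneg fun x => sq_nonneg _
  have h1 : (0 : ℝ) ≤ ∫ z : ℝ, u (z, p.2) ^ 2 := integral_nonneg fun x => sq_nonneg _
  refine ⟨div_nonneg h0 h1, ?_⟩
  by_cases hi : Integrable (fun z : ℝ => u (z, p.2) ^ 2)
  · exact div_le_one_of_le₀ (setIntegral_le_integral hi (Eventually.of_forall fun x => sq_nonneg _)) h1
  · rw [integral_undef hi, div_zero]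
    exact zero_le_one

theorem om_nonneg (u : ℝ × V → ℝ) (p : ℝ × V) : 0 ≤ om u p :=
  div_nonneg (sq_nonneg _) (integral_nonneg fun x => sq_nonneg _)

/-- weights integrate to at most one -/
theorem lintegral_om_le {u : ℝ × V → ℝ} (hu : Measurable u) (hu2 : I2 volume u < ∞)
    {Φ : V → ℝ≥0∞} (hΦ : Measurable Φ) :
    ∫⁻ p : ℝ × V, ENNReal.ofReal (om u p) * Φ p.2 ≤ ∫⁻ x, Φ x := by
  have hsym := lintegral_prod_symm' (μ := (volume : Measure ℝ)) (ν := (volume : Measure V))
    (fun p : ℝ × V => ENNReal.ofReal (om u p) * Φ p.2)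
    ((measurable_om hu).ennreal_ofReal.mul (hΦ.comp measurable_snd))
  rw [Measure.volume_eq_prod, hsym]
  apply lintegral_mono_ae
  filter_upwards [memLp_section hu hu2] with x hx
  have hme : Measurable fun z : ℝ => ENNReal.ofReal (om u (z, x)) :=
    (measurable_om hu).ennreal_ofReal.comp measurable_prodMk_right
  rw [lintegral_mul_const _ hme]
  calc (∫⁻ z : ℝ, ENNReal.ofReal (om u (z, x))) * Φ x ≤ 1 * Φ x := by
        gcongr
        unfold om
        simp only
        rw [← ofReal_integral_eq_lintegral_ofReal (hx.integrable_sq.div_const _)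
          (Eventually.of_forall fun z => div_nonneg (sq_nonneg _)
            (integral_nonneg fun x => sq_nonneg _)), integral_div]
        rw [← ENNReal.ofReal_one]
        apply ENNReal.ofReal_le_ofReal
        exact div_self_le_one _
    _ = Φ x := one_mul _

theorem ae_snd {p : V → Prop} (h : ∀ᵐ x : V, p x) : ∀ᵐ q : ℝ × V, p q.2 := by
  rw [Measure.volume_eq_prod]
  exact Measure.quasiMeasurePreserving_snd.ae h

/-- on the set where the marginal vanishes, `u = 0` a.e. -/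
theorem ae_zero_of_marg {u : ℝ × V → ℝ} (hu : Measurable u) (hu2 : I2 volume u < ∞) :
    ∀ᵐ p : ℝ × V, (∫ z : ℝ, u (z, p.2) ^ 2) = 0 → u p = 0 := by
  have h0 : MeasurableSet {p : ℝ × V | (∫ z : ℝ, u (z, p.2) ^ 2) = 0 → u p = 0} := by
    have : {p : ℝ × V | (∫ z : ℝ, u (z, p.2) ^ 2) = 0 → u p = 0} =
      {p : ℝ × V | (∫ z : ℝ, u (z, p.2) ^ 2) = 0}ᶜ ∪ {p | u p = 0} := by
      ext p
      simp [imp_iff_not_or]
    rw [this]
    exact ((measurable_marg_sq hu) (measurableSet_singleton 0)).compl.union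
      (hu (measurableSet_singleton 0))
  have h1 : ∀ᵐ x : V, ∀ᵐ y : ℝ, (∫ z : ℝ, u (z, x) ^ 2) = 0 → u (y, x) = 0 := by
    filter_upwards [memLp_section hu hu2] with x hx
    by_cases hA : (∫ z : ℝ, u (z, x) ^ 2) = 0
    · have h2 : margN u x = 0 := by
        unfold margN
        rw [hA, Real.sqrt_zero]
      filter_upwards [margN_eq_zero hx h2] with z hz _
      exact hz
    · exact Eventually.of_forall fun y h => absurd h hA
  rw [Measure.volume_eq_prod, ← Measure.prod_swap,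
    ae_map_iff measurable_swap.aemeasurable h0, Measure.ae_prod_iff_ae_ae]
  · exact h1
  · exact measurable_swap h0

theorem setIntegral_Iic_translate (F : ℝ → ℝ) (y c : ℝ) :
    ∫ z in Set.Iic (y + c), F z = ∫ z in Set.Iic y, F (z + c) := by
  rw [← integral_indicator measurableSet_Iic, ← integral_indicator measurableSet_Iic,
    ← integral_add_right_eq_self _ c]
  congr 1
  funext z
  simp only [Set.indicator, Set.mem_Iic, add_le_add_iff_right]

/-- the shifted distribution function -/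
theorem S0_shift {u : ℝ × V → ℝ} {t : ℝ} (ht : t ≠ 0) (w : ℝ × V) (y : ℝ) (x : V) :
    S0 u ((y, x) + t • w) = (∫ z in Set.Iic y, (u (z, x) + t * dq t w u (z, x)) ^ 2) /
      (∫ z : ℝ, (u (z, x) + t * dq t w u (z, x)) ^ 2) := by
  have key : ∀ z : ℝ, u (z, x) + t * dq t w u (z, x) = u (z + t * w.1, x + t • w.2) := by
    intro z
    rw [← dq_eq ht]
    rfl
  simp_rw [key]
  unfold S0
  simp only [Prod.fst_add, Prod.snd_add, Prod.smul_fst, Prod.smul_snd, smul_eq_mul]
  rw [setIntegral_Iic_translate (fun z => u (z, x + t • w.2) ^ 2),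
    ← integral_add_right_eq_self (fun z => u (z, x + t • w.2) ^ 2) (t * w.1)]

/-- bound of the difference quotients of `S0` -/
theorem dq_S0_bound {u : ℝ × V → ℝ} {t : ℝ} (ht : t ≠ 0) (w : ℝ × V) (y : ℝ) (x : V)
    (hx : MemLp (fun z : ℝ => u (z, x)) 2 volume)
    (hk : MemLp (fun z : ℝ => dq t w u (z, x)) 2 volume) :
    (∫ z : ℝ, u (z, x) ^ 2) * dq t w (S0 u) (y, x) ^ 2 ≤
      40 * ∫ z : ℝ, dq t w u (z, x) ^ 2 := by
  have h1 := hellinger hx (hx.add (hk.const_mul t)) (measurableSet_Iic (a := y))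
  simp only [Pi.add_apply] at h1
  have e3 : ∀ z : ℝ, (u (z, x) + t * dq t w u (z, x) - u (z, x)) ^ 2 =
      t ^ 2 * dq t w u (z, x) ^ 2 := by
    intro z
    ring
  simp_rw [e3] at h1
  rw [integral_const_mul] at h1
  have h2 : dq t w (S0 u) (y, x) = t⁻¹ * ((∫ z in Set.Iic y, (u (z, x) + t * dq t w u (z, x)) ^ 2) /
      (∫ z : ℝ, (u (z, x) + t * dq t w u (z, x)) ^ 2) - (∫ z in Set.Iic y, u (z, x) ^ 2) /
      (∫ z : ℝ, u (z, x) ^ 2)) := by
    rw [dq, S0_shift ht]
    rfl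
  rw [h2, mul_pow]
  have ht2 : 0 < t ^ 2 := by positivity
  calc (∫ z : ℝ, u (z, x) ^ 2) * ((t⁻¹) ^ 2 *
        ((∫ z in Set.Iic y, (u (z, x) + t * dq t w u (z, x)) ^ 2) /
        (∫ z : ℝ, (u (z, x) + t * dq t w u (z, x)) ^ 2) - (∫ z in Set.Iic y, u (z, x) ^ 2) /
        (∫ z : ℝ, u (z, x) ^ 2)) ^ 2)
      = (t⁻¹) ^ 2 * ((∫ z : ℝ, u (z, x) ^ 2) *
        ((∫ z in Set.Iic y, (u (z, x) + t * dq t w u (z, x)) ^ 2) /
        (∫ z : ℝ, (u (z, x) + t * dq t w u (z, x)) ^ 2) - (∫ z in Set.Iic y, u (z, x) ^ 2) /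
        (∫ z : ℝ, u (z, x) ^ 2)) ^ 2) := by ring
    _ ≤ (t⁻¹) ^ 2 * (40 * (t ^ 2 * ∫ z : ℝ, dq t w u (z, x) ^ 2)) :=
      mul_le_mul_of_nonneg_left h1 (by positivity)
    _ = 40 * ∫ z : ℝ, dq t w u (z, x) ^ 2 := by
      field_simp

/-- pointwise limit of the difference quotients of `S0` -/
theorem dq_S0_tendsto {u : ℝ × V → ℝ} {h : ℝ × V → ℝ × V → ℝ} {w : ℝ × V} {t : ℕ → ℝ}
    (ht0 : ∀ n, t n ≠ 0) (ht : Tendsto t atTop (𝓝 0)) {x : V}
    (hx : MemLp (fun z : ℝ => u (z, x)) 2 volume)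
    (hh : MemLp (fun z : ℝ => h w (z, x)) 2 volume)
    (hk : ∀ n, MemLp (fun z : ℝ => dq (t n) w u (z, x)) 2 volume)
    (hlim : Tendsto (fun n => ∫ z : ℝ, (dq (t n) w u (z, x) - h w (z, x)) ^ 2) atTop (𝓝 0))
    (hA : (∫ z : ℝ, u (z, x) ^ 2) ≠ 0) (y : ℝ) :
    Tendsto (fun n => u (y, x) * dq (t n) w (S0 u) (y, x)) atTop (𝓝 (Y0 u h w (y, x))) := by
  have h1 := tendsto_dq_ratio hx hh hk hlim ht ht0 (Set.Iic y) hA
  have h2 : ∀ n, dq (t n) w (S0 u) (y, x) = (t n)⁻¹ *
      ((∫ z in Set.Iic y, (u (z, x) + t n * dq (t n) w u (z, x)) ^ 2) /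
      (∫ z : ℝ, (u (z, x) + t n * dq (t n) w u (z, x)) ^ 2) - (∫ z in Set.Iic y, u (z, x) ^ 2) /
      (∫ z : ℝ, u (z, x) ^ 2)) := by
    intro n
    rw [dq, S0_shift (ht0 n)]
    rfl
  simp_rw [h2]
  exact h1.const_mul _

/-- the bound of `Y0` -/
theorem Y0_bound {u : ℝ × V → ℝ} {h : ℝ × V → ℝ × V → ℝ} (H : HypH u h) (w : ℝ × V) :
    ∀ᵐ p : ℝ × V, Y0 u h w p ^ 2 ≤ om u p * (80 * ∫ z : ℝ, h w (z, p.2) ^ 2) := by
  obtain ⟨ms, hms, hs⟩ := H.sections w (fun n : ℕ => 1 / ((n : ℝ) + 1)) (fun n => by positivity)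
    tendsto_one_div_add_atTop_nhds_zero_nat
  set t : ℕ → ℝ := fun n => 1 / ((ms n : ℝ) + 1) with ht
  have ht0 : ∀ n, t n ≠ 0 := fun n => by positivity
  have htl : Tendsto t atTop (𝓝 0) :=
    tendsto_one_div_add_atTop_nhds_zero_nat.comp hms.tendsto_atTop
  filter_upwards [ae_snd hs] with p hp
  obtain ⟨y, x⟩ := p
  obtain ⟨hx1, hx2, hx3, hx4⟩ := hp
  simp only at hx1 hx2 hx3 hx4 ⊢
  by_cases hA : (∫ z : ℝ, u (z, x) ^ 2) = 0
  · have : Y0 u h w (y, x) = 0 := by
      simp [Y0, hA]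
    rw [this, zero_pow two_ne_zero]
    have h3 : (0 : ℝ) ≤ ∫ z : ℝ, h w (z, x) ^ 2 := integral_nonneg fun x => sq_nonneg _
    exact mul_nonneg (om_nonneg u (y, x)) (by positivity)
  · have h1 := dq_S0_tendsto ht0 htl hx1 hx2 hx3 hx4 hA y
    have hA' : 0 < (∫ z : ℝ, u (z, x) ^ 2) :=
      lt_of_le_of_ne (integral_nonneg fun x => sq_nonneg _) (Ne.symm hA)
    have h2 : Tendsto (fun n => om u (y, x) * (80 * (∫ z : ℝ, h w (z, x) ^ 2) +
        80 * ∫ z : ℝ, (dq (t n) w u (z, x) - h w (z, x)) ^ 2)) atTop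
        (𝓝 (om u (y, x) * (80 * ∫ z : ℝ, h w (z, x) ^ 2))) := by
      have := ((hx4.const_mul 80).const_add (80 * ∫ z : ℝ, h w (z, x) ^ 2)).const_mul (om u (y, x))
      simp only [mul_zero, add_zero] at this
      exact this
    refine le_of_tendsto_of_tendsto (h1.pow 2) h2 (Eventually.of_forall fun n => ?_)
    have h3 := dq_S0_bound (ht0 n) w y x hx1 (hx3 n)
    have h4 := int_sq_le_two (hx3 n) hx2
    have h5 : (u (y, x) * dq (t n) w (S0 u) (y, x)) ^ 2 =
        om u (y, x) * ((∫ z : ℝ, u (z, x) ^ 2) * dq (t n) w (S0 u) (y, x) ^ 2) := by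
      unfold om
      field_simp
    simp only
    rw [h5]
    apply mul_le_mul_of_nonneg_left _ (om_nonneg _ _)
    linarith

theorem measurable_I2_section {F : ℝ × V → ℝ} (hF : Measurable F) :
    Measurable fun x : V => I2 volume (fun z : ℝ => F (z, x)) := by
  unfold I2
  exact (hF.enorm.pow_const 2).lintegral_prod_left'

theorem Y0_L2 {u : ℝ × V → ℝ} {h : ℝ × V → ℝ × V → ℝ} (H : HypH u h) (w : ℝ × V) :
    I2 volume (Y0 u h w) < ∞ := by
  have h1 : I2 volume (Y0 u h w) ≤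
      ∫⁻ p : ℝ × V, ENNReal.ofReal (om u p) * (80 * I2 volume (fun z : ℝ => h w (z, p.2))) := by
    apply lintegral_mono_ae
    filter_upwards [Y0_bound H w, ae_snd (memLp_section (H.hmeas w) (H.hL2 w))] with p hp hp2
    rw [enorm_sq_real, I2_eq_ofReal hp2]
    refine (ENNReal.ofReal_le_ofReal hp).trans ?_
    rw [ENNReal.ofReal_mul (om_nonneg _ _), ENNReal.ofReal_mul (by norm_num)]
    simp
  have h2 := lintegral_om_le (u := u) H.meas H.uL2
    (Φ := fun x => 80 * I2 volume (fun z : ℝ => h w (z, x)))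
    ((measurable_I2_section (H.hmeas w)).const_mul 80)
  refine lt_of_le_of_lt (h1.trans h2) ?_
  rw [lintegral_const_mul _ (measurable_I2_section (H.hmeas w)), ← I2_prod (H.hmeas w)]
  exact ENNReal.mul_lt_top (by simp) (H.hL2 w)

/-- `u · D_t S0 → Y0` in `L²` -/
theorem S0_lim {u : ℝ × V → ℝ} {h : ℝ × V → ℝ × V → ℝ} (H : HypH u h) (w : ℝ × V) :
    Tendsto (fun t => I2 volume (fun p => u p * dq t w (S0 u) p - Y0 u h w p)) (𝓝[≠] 0) (𝓝 0) := by
  apply tendsto_zero_of_seq
  intro t ht0 ht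
  obtain ⟨ms, hms, hs⟩ := H.sections w t ht0 ht
  refine ⟨ms, ?_⟩
  have htm : Tendsto (fun n => t (ms n)) atTop (𝓝 0) := ht.comp hms.tendsto_atTop
  have hmd : ∀ n, Measurable (fun x : ℝ × V => dq (t (ms n)) w u x - h w x) :=
    fun n => (measurable_dq H.meas _ _).sub (H.hmeas _)
  have hmG : Measurable fun p : ℝ × V => ENNReal.ofReal (om u p) *
      (320 * I2 volume (fun z : ℝ => h w (z, p.2))) :=
    (measurable_om H.meas).ennreal_ofReal.mul
      (((measurable_I2_section (H.hmeas w)).const_mul 320).comp measurable_snd)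
  apply lintegral_tendsto_zero_of_le
    (g := fun n p => ENNReal.ofReal (om u p) * (320 * I2 volume (fun z : ℝ => h w (z, p.2))) +
      ENNReal.ofReal (om u p) * (160 * I2 volume (fun z : ℝ => dq (t (ms n)) w u (z, p.2) -
        h w (z, p.2))))
    (G := fun p => ENNReal.ofReal (om u p) * (320 * I2 volume (fun z : ℝ => h w (z, p.2))))
  · intro n
    exact (((H.meas.mul (measurable_dq (measurable_S0 H.meas) _ _)).sub
      (measurable_Y0 H.meas (H.hmeas w))).enorm.pow_const 2).aemeasurable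
  · exact hmG.aemeasurable
  · intro n
    filter_upwards [ae_snd hs, Y0_bound H w, ae_zero_of_marg H.meas H.uL2] with p hp hY hz
    obtain ⟨y, x⟩ := p
    obtain ⟨hx1, hx2, hx3, hx4⟩ := hp
    simp only at hx1 hx2 hx3 hx4 hz hY ⊢
    rw [enorm_sq_real, I2_eq_ofReal hx2, I2_sub_eq (hx3 n) hx2]
    have p1 : (0 : ℝ) ≤ ∫ z : ℝ, h w (z, x) ^ 2 := integral_nonneg fun x => sq_nonneg _
    have p2 : (0 : ℝ) ≤ ∫ z : ℝ, (dq (t (ms n)) w u (z, x) - h w (z, x)) ^ 2 :=
      integral_nonneg fun x => sq_nonneg _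
    have h3 := dq_S0_bound (ht0 (ms n)) w y x hx1 (hx3 n)
    have h4 := int_sq_le_two (hx3 n) hx2
    have h5 : (u (y, x) * dq (t (ms n)) w (S0 u) (y, x)) ^ 2 =
        om u (y, x) * ((∫ z : ℝ, u (z, x) ^ 2) * dq (t (ms n)) w (S0 u) (y, x) ^ 2) := by
      by_cases hA : (∫ z : ℝ, u (z, x) ^ 2) = 0
      · rw [hz hA, hA]
        simp
      · unfold om
        field_simp
    have h6 : (u (y, x) * dq (t (ms n)) w (S0 u) (y, x)) ^ 2 ≤ om u (y, x) *
        (80 * (∫ z : ℝ, h w (z, x) ^ 2) +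
          80 * ∫ z : ℝ, (dq (t (ms n)) w u (z, x) - h w (z, x)) ^ 2) := by
      rw [h5]
      apply mul_le_mul_of_nonneg_left _ (om_nonneg _ _)
      linarith
    have h7 := sq_sub_le_two (u (y, x) * dq (t (ms n)) w (S0 u) (y, x)) (Y0 u h w (y, x))
    have p3 := om_nonneg u (y, x)
    have h8 : (u (y, x) * dq (t (ms n)) w (S0 u) (y, x) - Y0 u h w (y, x)) ^ 2 ≤
        om u (y, x) * (320 * ∫ z : ℝ, h w (z, x) ^ 2) +
        om u (y, x) * (160 * ∫ z : ℝ, (dq (t (ms n)) w u (z, x) - h w (z, x)) ^ 2) := by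
      nlinarith
    refine (ENNReal.ofReal_le_ofReal h8).trans ?_
    rw [ENNReal.ofReal_add (by positivity) (by positivity), ENNReal.ofReal_mul p3,
      ENNReal.ofReal_mul p3, ENNReal.ofReal_mul (by norm_num), ENNReal.ofReal_mul (by norm_num)]
    simp
  · filter_upwards [ae_snd hs, ae_zero_of_marg H.meas H.uL2] with p hp hz
    obtain ⟨y, x⟩ := p
    obtain ⟨hx1, hx2, hx3, hx4⟩ := hp
    simp only at hx1 hx2 hx3 hx4 hz ⊢
    have goal' : Tendsto (fun n => u (y, x) * dq (t (ms n)) w (S0 u) (y, x) - Y0 u h w (y, x))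
        atTop (𝓝 0) := by
      by_cases hA : (∫ z : ℝ, u (z, x) ^ 2) = 0
      · have e1 : ∀ n, u (y, x) * dq (t (ms n)) w (S0 u) (y, x) - Y0 u h w (y, x) = 0 := by
          intro n
          simp [Y0, hz hA]
        simp_rw [e1]
        exact tendsto_const_nhds
      · have := (dq_S0_tendsto (fun n => ht0 (ms n)) htm hx1 hx2 hx3 hx4 hA y).sub_const
          (Y0 u h w (y, x))
        simpa using this
    have := (continuous_enorm.tendsto (0 : ℝ)).comp goal'
    rw [enorm_zero] at this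
    have := (ENNReal.continuous_pow 2).tendsto 0 |>.comp this
    simpa [Function.comp_def] using this
  · have h1 : Tendsto (fun n => 160 * ∫⁻ x : V, I2 volume (fun z : ℝ =>
        dq (t (ms n)) w u (z, x) - h w (z, x))) atTop (𝓝 0) := by
      have e1 := (tendsto_seq_of (H.hlim w) (fun n => ht0 (ms n)) htm)
      have e2 := ENNReal.Tendsto.const_mul (a := 160) e1 (Or.inr (by simp))
      rw [mul_zero] at e2
      refine e2.congr fun n => ?_
      rw [I2_prod (hmd n)]
    refine tendsto_of_tendsto_of_tendsto_of_le_of_le tendsto_const_nhds h1 (fun n => zero_le)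
      (fun n => ?_)
    simp only
    rw [← lintegral_const_mul _ (measurable_I2_section (hmd n))]
    refine le_trans (lintegral_mono fun p => ?_) (lintegral_om_le (u := u) H.meas H.uL2
      (Φ := fun x => 160 * I2 volume (fun z : ℝ => dq (t (ms n)) w u (z, x) - h w (z, x)))
      ((measurable_I2_section (hmd n)).const_mul 160))
    simp only
    rw [tsub_le_iff_left]
  · have h2 := lintegral_om_le (u := u) H.meas H.uL2
      (Φ := fun x => 320 * I2 volume (fun z : ℝ => h w (z, x)))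
      ((measurable_I2_section (H.hmeas w)).const_mul 320)
    refine (lt_of_le_of_lt h2 ?_).ne
    rw [lintegral_const_mul _ (measurable_I2_section (H.hmeas w)), ← I2_prod (H.hmeas w)]
    exact ENNReal.mul_lt_top (by simp) (H.hL2 w)

end Pool.Agent.W564.MY
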