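import Pool.Agent.W564.MY.KS0

/-!
# One step of the Knothe recursion
-/

set_option autoImplicit false
set_option linter.unusedVariables false
set_option linter.unusedSimpArgs false
set_option linter.unusedSectionVars false

noncomputable section

namespace Pool.Agent.W564.MY

open MeasureTheory Filter Topology
open scoped ENNReal

variable {V : Type} [NormedAddCommGroup V] [NormedSpace ℝ V] [FiniteDimensional ℝ V]
  [MeasureSpace V] [BorelSpace V] [(volume : Measure V).IsAddHaarMeasure]

theorem om_eq {u : ℝ × V → ℝ} (p : ℝ × V) : om u p = (u p / margN u p.2) ^ 2 := by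
  unfold om
  rw [div_pow, margN_sq]

/-- lifting of `L²` functions of the marginal -/
theorem I2_lift_le {u : ℝ × V → ℝ} (hu : Measurable u) (hu2 : I2 volume u < ∞) {φ ψ : V → ℝ}
    (hφ : Measurable φ) (hψ : Measurable ψ) :
    I2 volume (fun p : ℝ × V => u p * φ p.2 - u p / margN u p.2 * ψ p.2) ≤
      I2 volume (fun x => margN u x * φ x - ψ x) := by
  have hm1 : Measurable (margN u) := (measurable_int_sq hu).sqrt
  have h1 : I2 volume (fun p : ℝ × V => u p * φ p.2 - u p / margN u p.2 * ψ p.2) ≤
      ∫⁻ p : ℝ × V, ENNReal.ofReal (om u p) *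
        ENNReal.ofReal ((margN u p.2 * φ p.2 - ψ p.2) ^ 2) := by
    apply lintegral_mono_ae
    filter_upwards [ae_zero_of_marg hu hu2] with p hp
    rw [enorm_sq_real, ← ENNReal.ofReal_mul (om_nonneg _ _)]
    apply ENNReal.ofReal_le_ofReal
    apply le_of_eq
    rw [om_eq, ← mul_pow]
    congr 1
    by_cases h0 : margN u p.2 = 0
    · have : (∫ z : ℝ, u (z, p.2) ^ 2) = 0 := by
        rw [← margN_sq, h0]
        simp
      rw [hp this]
      simp
    · field_simp
  refine h1.trans ?_
  refine (lintegral_om_le hu hu2 (Φ := fun x => ENNReal.ofReal ((margN u x * φ x - ψ x) ^ 2))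
    (((hm1.mul hφ).sub hψ).pow_const 2).ennreal_ofReal).trans ?_
  rw [I2_real]

theorem I2_lift_le' {u : ℝ × V → ℝ} (hu : Measurable u) (hu2 : I2 volume u < ∞) {ψ : V → ℝ}
    (hψ : Measurable ψ) :
    I2 volume (fun p : ℝ × V => u p / margN u p.2 * ψ p.2) ≤ I2 volume ψ := by
  have := I2_lift_le hu hu2 (φ := fun _ => (0 : ℝ)) measurable_const hψ
  simpa [I2] using this

theorem margN_pow {u : ℝ × V → ℝ} (x : V) : ENNReal.ofReal (margN u x ^ 2) =
    ENNReal.ofReal (∫ z : ℝ, u (z, x) ^ 2) := by rw [margN_sq]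

/-- the set where the conditional distribution function increases -/
def Dset (u : ℝ × V → ℝ) (D : Set V) : Set (ℝ × V) :=
  {p | p.2 ∈ D ∧ ∀ t : ℚ, (t : ℝ) < p.1 → S0 u ((t : ℝ), p.2) < S0 u p}

theorem S0_mono {u : ℝ × V → ℝ} {x : V} {y z : ℝ} (h : y ≤ z)
    (hx : MemLp (fun z : ℝ => u (z, x)) 2 volume) : S0 u (y, x) ≤ S0 u (z, x) := by
  unfold S0
  apply div_le_div_of_nonneg_right _ (integral_nonneg fun x => sq_nonneg _)
  exact cdf_mono (f := fun z => u (z, x) ^ 2) hx.integrable_sq (fun z => sq_nonneg _) h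

theorem measurableSet_Dset {u : ℝ × V → ℝ} (hu : Measurable u) {D : Set V}
    (hD : MeasurableSet D) : MeasurableSet (Dset u D) := by
  have h1 : Dset u D = (Prod.snd ⁻¹' D) ∩ ⋂ t : ℚ, ({p : ℝ × V | (t : ℝ) < p.1}ᶜ ∪
      {p : ℝ × V | S0 u ((t : ℝ), p.2) < S0 u p}) := by
    ext p
    simp [Dset, imp_iff_not_or]
  rw [h1]
  apply (measurable_snd hD).inter
  apply MeasurableSet.iInter
  intro t
  apply MeasurableSet.union
  · exact (measurableSet_lt measurable_const measurable_fst).compl
  · exact measurableSet_lt ((measurable_S0 hu).comp (measurable_const.prodMk measurable_snd))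
      (measurable_S0 hu)

theorem ae_of_swap {p : ℝ × V → Prop} (hm : MeasurableSet {q | p q})
    (h : ∀ᵐ x : V, ∀ᵐ y : ℝ, p (y, x)) : ∀ᵐ q : ℝ × V, p q := by
  rw [Measure.volume_eq_prod, ← Measure.prod_swap,
    ae_map_iff measurable_swap.aemeasurable hm, Measure.ae_prod_iff_ae_ae]
  · exact h
  · exact measurable_swap hm

/-- the derivative of `S0` in the first direction -/
theorem Y0_first {u : ℝ × V → ℝ} {h : ℝ × V → ℝ × V → ℝ} (H : HypH u h) :
    ∀ᵐ p : ℝ × V, ((∫ z : ℝ, u (z, p.2) ^ 2) ≠ 0 →
        Y0 u h ((1 : ℝ), (0 : V)) p = u p ^ 3 / (∫ z : ℝ, u (z, p.2) ^ 2)) := by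
  apply ae_of_swap
  · have : {p : ℝ × V | (∫ z : ℝ, u (z, p.2) ^ 2) ≠ 0 →
        Y0 u h ((1 : ℝ), (0 : V)) p = u p ^ 3 / (∫ z : ℝ, u (z, p.2) ^ 2)} =
        {p : ℝ × V | (∫ z : ℝ, u (z, p.2) ^ 2) = 0} ∪ {p : ℝ × V |
          Y0 u h ((1 : ℝ), (0 : V)) p = u p ^ 3 / (∫ z : ℝ, u (z, p.2) ^ 2)} := by
      ext p
      simp [imp_iff_not_or]
    rw [this]
    exact ((measurable_marg_sq H.meas) (measurableSet_singleton 0)).union
      (measurableSet_eq_fun (measurable_Y0 H.meas (H.hmeas _))
        ((H.meas.pow_const 3).div (measurable_marg_sq H.meas)))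
  · obtain ⟨ms, hms, hs⟩ := H.sections ((1 : ℝ), (0 : V)) (fun n : ℕ => 1 / ((n : ℝ) + 1))
      (fun n => by positivity) tendsto_one_div_add_atTop_nhds_zero_nat
    set t : ℕ → ℝ := fun n => 1 / ((ms n : ℝ) + 1) with ht
    have ht0 : ∀ n, t n ≠ 0 := fun n => by positivity
    have htl : Tendsto t atTop (𝓝 0) :=
      tendsto_one_div_add_atTop_nhds_zero_nat.comp hms.tendsto_atTop
    filter_upwards [hs] with x hx
    obtain ⟨hx1, hx2, hx3, hx4⟩ := hx
    filter_upwards [cdf_deriv (f := fun z => u (z, x) ^ 2) hx1.integrable_sq] with y hy hA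
    have h1 := dq_S0_tendsto ht0 htl hx1 hx2 hx3 hx4 hA y
    have h2 : Tendsto (fun n => u (y, x) * dq (t n) ((1 : ℝ), (0 : V)) (S0 u) (y, x)) atTop
        (𝓝 (u (y, x) * (u (y, x) ^ 2 / (∫ z : ℝ, u (z, x) ^ 2)))) := by
      apply Tendsto.const_mul
      have h3 := hy.div_const (∫ z : ℝ, u (z, x) ^ 2)
      rw [hasDerivAt_iff_tendsto_slope_zero] at h3
      have h4 := h3.comp (tendsto_nhdsWithin_iff.2 ⟨htl, Eventually.of_forall ht0⟩)
      refine h4.congr fun n => ?_
      simp [dq, S0]
    have h5 := tendsto_nhds_unique h1 h2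
    rw [h5]
    ring

/-- one step of the recursion, on `ℝ × V` -/
theorem kstep {d : ℕ} {e : Fin d → V}
    (ih : ∀ (v : V → ℝ) (h : V → V → ℝ), HypH v h → ∃ S Y, KD d e v S Y)
    {u : ℝ × V → ℝ} {h : ℝ × V → ℝ × V → ℝ} (H : HypH u h) :
    ∃ S Y, KD (d + 1) (Fin.cons ((1 : ℝ), (0 : V)) (fun i => ((0 : ℝ), e i))) u S Y := by
  obtain ⟨S', Y', K⟩ := ih _ _ H.marg
  have hm1 : Measurable (margN u) := (measurable_int_sq H.meas).sqrt
  obtain ⟨D, hDm, hDi, hDae⟩ := K.inj
  -- restrict `D` to good sections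
  set G : Set V := {x | I2 volume (fun z : ℝ => u (z, x)) < ∞} with hG
  have hGm : MeasurableSet G := measurableSet_lt (measurable_I2_section H.meas) measurable_const
  have hGae : ∀ᵐ x, x ∈ G := by
    have h1 := H.uL2
    rw [I2_prod H.meas] at h1
    exact ae_lt_top (measurable_I2_section H.meas) h1.ne
  have hGL : ∀ x ∈ G, MemLp (fun z : ℝ => u (z, x)) 2 volume := fun x hx =>
    memLp_of_I2 (H.meas.comp measurable_prodMk_right).aestronglyMeasurable hx
  refine ⟨fun p => Fin.cons (S0 u p) (S' p.2),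
    Fin.cons (fun w p => Y0 u h w p) (fun j w p => u p / margN u p.2 * Y' j w.2 p.2),
    ?_, ?_, ?_, ?_, ?_, ?_, ?_, ?_⟩
  · -- measurability
    rw [measurable_pi_iff]
    intro j
    refine Fin.cases ?_ (fun i => ?_) j
    · simpa using measurable_S0 H.meas
    · simp only [Fin.cons_succ]
      exact ((measurable_pi_apply i).comp K.Smeas).comp measurable_snd
  · intro p j
    refine Fin.cases ?_ (fun i => ?_) j
    · simpa using S0_mem u p
    · simpa using K.box p.2 i
  · -- push forward
    intro φ hφ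
    have hmS : Measurable fun p : ℝ × V => (Fin.cons (S0 u p) (S' p.2) : E (d + 1)) := by
      rw [measurable_pi_iff]
      intro j
      refine Fin.cases ?_ (fun i => ?_) j
      · simpa using measurable_S0 H.meas
      · simp only [Fin.cons_succ]
        exact ((measurable_pi_apply i).comp K.Smeas).comp measurable_snd
    have hcons : Measurable fun q : ℝ × E d => (Fin.cons q.1 q.2 : E (d + 1)) := by
      rw [measurable_pi_iff]
      intro j
      refine Fin.cases ?_ (fun i => ?_) j
      · simpa using measurable_fst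
      · simp only [Fin.cons_succ]
        exact (measurable_pi_apply i).comp measurable_snd
    have hsym := lintegral_prod_symm' (μ := (volume : Measure ℝ)) (ν := (volume : Measure V))
      (fun p : ℝ × V => φ (Fin.cons (S0 u p) (S' p.2)) * ENNReal.ofReal (u p ^ 2))
      ((hφ.comp hmS).mul (H.meas.pow_const 2).ennreal_ofReal)
    rw [Measure.volume_eq_prod, hsym]
    set Ψ : E d → ℝ≥0∞ := fun s' => ∫⁻ s in Set.Icc (0 : ℝ) 1, φ (Fin.cons s s') with hΨ
    have hΨm : Measurable Ψ := (hφ.comp hcons).lintegral_prod_left'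
    have h1 : ∫⁻ x : V, ∫⁻ y : ℝ, φ (Fin.cons (S0 u (y, x)) (S' (y, x).2)) *
        ENNReal.ofReal (u (y, x) ^ 2) = ∫⁻ x : V, Ψ (S' x) * ENNReal.ofReal (margN u x ^ 2) := by
      apply lintegral_congr_ae
      filter_upwards [hGae] with x hx
      have hL := hGL x hx
      rw [margN_pow]
      by_cases hA : (∫ z : ℝ, u (z, x) ^ 2) = 0
      · have h2 : margN u x = 0 := by
          unfold margN
          rw [hA, Real.sqrt_zero]
        rw [hA, ENNReal.ofReal_zero, mul_zero]
        rw [lintegral_eq_zero_iff' ]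
        · filter_upwards [margN_eq_zero hL h2] with z hz
          simp [hz]
        · exact (((hφ.comp hmS).mul (H.meas.pow_const 2).ennreal_ofReal).comp
            measurable_prodMk_right).aemeasurable
      · have hA' : 0 < (∫ z : ℝ, u (z, x) ^ 2) :=
          lt_of_le_of_ne (integral_nonneg fun x => sq_nonneg _) (Ne.symm hA)
        have := pit (f := fun z => u (z, x) ^ 2) hL.integrable_sq (fun z => sq_nonneg _)
          ((H.meas.comp measurable_prodMk_right).pow_const 2) hA'
          (fun s => φ (Fin.cons s (S' x))) (hφ.comp (hcons.comp measurable_prodMk_right))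
        rw [mul_comm (Ψ (S' x))]
        exact this
    rw [h1, K.push Ψ hΨm]
    -- the box
    have hvp := volume_preserving_piFinSuccAbove (fun _ : Fin (d + 1) => ℝ) 0
    have h2 : ∫⁻ s in Set.Icc (0 : E (d + 1)) 1, φ s =
        ∫⁻ q in Set.Icc (0 : ℝ) 1 ×ˢ Set.Icc (0 : E d) 1, φ (Fin.cons q.1 q.2) := by
      have h3 := (hvp.symm).setLIntegral_comp_preimage_emb
        (MeasurableEquiv.measurableEmbedding _) φ (Set.Icc (0 : E (d + 1)) 1)
      rw [← h3]
      have h4 : ((MeasurableEquiv.piFinSuccAbove (fun _ : Fin (d + 1) => ℝ) 0).symm ⁻¹'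
          Set.Icc (0 : E (d + 1)) 1) = Set.Icc (0 : ℝ) 1 ×ˢ Set.Icc (0 : E d) 1 := by
        ext q
        simp only [Set.mem_preimage, Set.mem_Icc, Set.mem_prod, Pi.le_def]
        constructor
        · rintro ⟨h5, h6⟩
          refine ⟨⟨?_, ?_⟩, fun i => ?_, fun i => ?_⟩
          · simpa using h5 0
          · simpa using h6 0
          · simpa using h5 i.succ
          · simpa using h6 i.succ
        · rintro ⟨⟨h5, h6⟩, h7, h8⟩
          refine ⟨fun j => ?_, fun j => ?_⟩
          · refine Fin.cases ?_ (fun i => ?_) j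
            · simpa using h5
            · simpa using h7 i
          · refine Fin.cases ?_ (fun i => ?_) j
            · simpa using h6
            · simpa using h8 i
      rw [h4]
      apply setLIntegral_congr_fun (measurableSet_Icc.prod measurableSet_Icc)
      intro q hq
      simp
      rfl
    rw [h2, Measure.volume_eq_prod, ← Measure.prod_restrict]
    have hsym2 := lintegral_prod_symm' (μ := (volume : Measure ℝ).restrict (Set.Icc (0 : ℝ) 1))
      (ν := (volume : Measure (E d)).restrict (Set.Icc (0 : E d) 1))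
      (fun q : ℝ × E d => φ (Fin.cons q.1 q.2)) (hφ.comp hcons)
    rw [hsym2]
  · -- injectivity
    refine ⟨Dset u (D ∩ G), measurableSet_Dset H.meas (hDm.inter hGm), ?_, ?_⟩
    · rintro ⟨y1, x1⟩ h1 ⟨y2, x2⟩ h2 heq
      have e0 : S0 u (y1, x1) = S0 u (y2, x2) := by
        have := congrFun heq 0
        simpa using this
      have e1 : S' x1 = S' x2 := by
        funext i
        have := congrFun heq i.succ
        simpa using this
      have hx : x1 = x2 := hDi h1.1.1 h2.1.1 e1
      subst hx
      have hL := hGL x1 h1.1.2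
      rcases lt_trichotomy y1 y2 with hlt | heq' | hlt
      · exfalso
        obtain ⟨t, ht1, ht2⟩ := exists_rat_btwn hlt
        have e3 := h2.2 t ht2
        have e4 := S0_mono (u := u) ht1.le hL
        simp only at e3 e4
        linarith
      · rw [heq']
      · exfalso
        obtain ⟨t, ht1, ht2⟩ := exists_rat_btwn hlt
        have e3 := h1.2 t ht2
        have e4 := S0_mono (u := u) ht1.le hL
        simp only at e3 e4
        linarith
    · -- almost everywhere
      have hms : MeasurableSet {p : ℝ × V | u p ≠ 0 → p ∈ Dset u (D ∩ G)} := by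
        have : {p : ℝ × V | u p ≠ 0 → p ∈ Dset u (D ∩ G)} = {p | u p = 0} ∪ Dset u (D ∩ G) := by
          ext p
          simp [imp_iff_not_or]
        rw [this]
        exact (H.meas (measurableSet_singleton 0)).union (measurableSet_Dset H.meas (hDm.inter hGm))
      have h1 : ∀ᵐ x : V, ∀ᵐ y : ℝ, u (y, x) ≠ 0 → (y, x) ∈ Dset u (D ∩ G) := by
        filter_upwards [hDae, hGae] with x hxD hxG
        have hL := hGL x hxG
        have hs := cdf_strict (f := fun z => u (z, x) ^ 2) hL.integrable_sq (fun z => sq_nonneg _)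
        by_cases hA : (∫ z : ℝ, u (z, x) ^ 2) = 0
        · have h2 : margN u x = 0 := by
            unfold margN
            rw [hA, Real.sqrt_zero]
          filter_upwards [margN_eq_zero hL h2] with z hz hz2
          exact absurd hz hz2
        · have hA' : 0 < (∫ z : ℝ, u (z, x) ^ 2) :=
            lt_of_le_of_ne (integral_nonneg fun x => sq_nonneg _) (Ne.symm hA)
          have hm0 : margN u x ≠ 0 := by
            unfold margN
            exact (Real.sqrt_pos.2 hA').ne'
          filter_upwards [hs] with y hy hy2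
          refine ⟨⟨hxD hm0, hxG⟩, fun t ht => ?_⟩
          unfold S0
          exact div_lt_div_of_pos_right (hy (pow_ne_zero 2 hy2) t ht) hA'
      exact ae_of_swap hms h1
  · -- measurability of Y
    intro j w
    refine Fin.cases ?_ (fun i => ?_) j
    · simpa using measurable_Y0 H.meas (H.hmeas w)
    · simp only [Fin.cons_succ]
      exact (H.meas.div (hm1.comp measurable_snd)).mul ((K.Ymeas i w.2).comp measurable_snd)
  · -- square integrability
    intro j w
    refine Fin.cases ?_ (fun i => ?_) j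
    · simpa using Y0_L2 H w
    · simp only [Fin.cons_succ]
      exact lt_of_le_of_lt (I2_lift_le' H.meas H.uL2 (K.Ymeas i w.2)) (K.YL2 i w.2)
  · -- limits
    intro j w
    refine Fin.cases ?_ (fun i => ?_) j
    · simpa using S0_lim H w
    · simp only [Fin.cons_succ]
      refine tendsto_of_tendsto_of_tendsto_of_le_of_le tendsto_const_nhds (K.lim i w.2)
        (fun t => zero_le) (fun t => ?_)
      exact I2_lift_le H.meas H.uL2 (φ := dq t w.2 (fun x => S' x i))
        (measurable_dq ((measurable_pi_apply i).comp K.Smeas) _ _) (K.Ymeas i w.2)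
  · -- determinant
    -- derivative in the first direction
    have hd1 := Y0_first H
    have hd2 : ∀ i, ∀ᵐ x : V, Y' i 0 x = 0 := by
      intro i
      have h1 := K.lim i 0
      have h2 : (fun t => I2 volume (fun x => margN u x * dq t (0 : V) (fun x => S' x i) x -
          Y' i 0 x)) = fun t => I2 volume (Y' i 0) := by
        funext t
        simp [I2, dq]
      rw [h2] at h1
      have h3 : I2 volume (Y' i 0) = 0 :=
        tendsto_nhds_unique tendsto_const_nhds h1
      unfold I2 at h3
      rw [lintegral_eq_zero_iff ((K.Ymeas i 0).enorm.pow_const 2)] at h3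
      filter_upwards [h3] with x hx
      simpa using hx
    have hd2' : ∀ᵐ x : V, ∀ i, Y' i 0 x = 0 := ae_all_iff.2 hd2
    filter_upwards [hd1, ae_snd hd2', ae_snd K.det, ae_zero_of_marg H.meas H.uL2] with p h1 h2 h3 h4
    rw [Matrix.det_succ_column_zero, Fin.sum_univ_succ]
    have e1 : ∑ i : Fin d, (-1 : ℝ) ^ ((Fin.succ i : Fin (d + 1)) : ℕ) *
        (Matrix.of fun j i => (Fin.cons (fun w p => Y0 u h w p)
          (fun j w p => u p / margN u p.2 * Y' j w.2 p.2) : Fin (d + 1) → ℝ × V → ℝ × V → ℝ) j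
          ((Fin.cons ((1 : ℝ), (0 : V)) (fun i => ((0 : ℝ), e i)) : Fin (d + 1) → ℝ × V) i) p)
          i.succ 0 * ((Matrix.of fun j i => (Fin.cons (fun w p => Y0 u h w p)
          (fun j w p => u p / margN u p.2 * Y' j w.2 p.2) : Fin (d + 1) → ℝ × V → ℝ × V → ℝ) j
          ((Fin.cons ((1 : ℝ), (0 : V)) (fun i => ((0 : ℝ), e i)) : Fin (d + 1) → ℝ × V) i) p).submatrix
            i.succ.succAbove Fin.succ).det = 0 := by
      apply Finset.sum_eq_zero
      intro i _
      simp [h2 i]
    rw [e1, add_zero]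
    have e2 : ((Matrix.of fun j i => (Fin.cons (fun w p => Y0 u h w p)
          (fun j w p => u p / margN u p.2 * Y' j w.2 p.2) : Fin (d + 1) → ℝ × V → ℝ × V → ℝ) j
          ((Fin.cons ((1 : ℝ), (0 : V)) (fun i => ((0 : ℝ), e i)) : Fin (d + 1) → ℝ × V) i) p).submatrix
            (Fin.succAbove 0) Fin.succ) = (u p / margN u p.2) •
              (Matrix.of fun j i => Y' j (e i) p.2) := by
      ext j i
      simp
    rw [e2, Matrix.det_smul, h3]
    simp only [Fin.val_zero, pow_zero, one_mul, Matrix.of_apply, Fin.cons_zero, Fintype.card_fin]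
    by_cases hA : (∫ z : ℝ, u (z, p.2) ^ 2) = 0
    · rw [h4 hA]
      have : Y0 u h ((1 : ℝ), (0 : V)) p = 0 := by
        simp [Y0, h4 hA]
      rw [this]
      simp
    · rw [h1 hA, ← margN_sq]
      have hm0 : margN u p.2 ≠ 0 := by
        intro h5
        apply hA
        rw [← margN_sq, h5]
        simp
      rw [div_pow]
      field_simp
      ring

end Pool.Agent.W564.MY
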