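import Pool.Agent.W564.MY.OneD

/-!
# Knothe data: definitions, sections, the marginal
-/

set_option autoImplicit false
set_option linter.unusedVariables false
set_option linter.unusedSimpArgs false
set_option linter.unusedSectionVars false

noncomputable section

namespace Pool.Agent.W564.MY

open MeasureTheory Filter Topology
open scoped ENNReal

/-- real difference quotient -/
def dq {V : Type} [AddCommGroup V] [Module ℝ V] (t : ℝ) (w : V) (u : V → ℝ) (x : V) : ℝ :=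
  t⁻¹ * (u (x + t • w) - u x)

/-- square root of a probability density with `L²` directional derivatives -/
structure HypH {V : Type} [NormedAddCommGroup V] [NormedSpace ℝ V] [MeasureSpace V]
    (u : V → ℝ) (h : V → V → ℝ) : Prop where
  meas : Measurable u
  nonneg : ∀ x, 0 ≤ u x
  norm : ∫⁻ x, ENNReal.ofReal (u x ^ 2) = 1
  hmeas : ∀ w, Measurable (h w)
  hL2 : ∀ w, I2 volume (h w) < ∞
  hlim : ∀ w, Tendsto (fun t => I2 volume (fun x => dq t w u x - h w x)) (𝓝[≠] 0) (𝓝 0)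

/-- Knothe data -/
structure KD {V : Type} [NormedAddCommGroup V] [NormedSpace ℝ V] [MeasureSpace V] (d : ℕ)
    (e : Fin d → V) (u : V → ℝ) (S : V → E d) (Y : Fin d → V → V → ℝ) : Prop where
  Smeas : Measurable S
  box : ∀ x j, S x j ∈ Set.Icc (0 : ℝ) 1
  push : ∀ φ : E d → ℝ≥0∞, Measurable φ →
    ∫⁻ x, φ (S x) * ENNReal.ofReal (u x ^ 2) = ∫⁻ s in Set.Icc (0 : E d) 1, φ s
  inj : ∃ D : Set V, MeasurableSet D ∧ Set.InjOn S D ∧ ∀ᵐ x, u x ≠ 0 → x ∈ D
  Ymeas : ∀ j w, Measurable (Y j w)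
  YL2 : ∀ j w, I2 volume (Y j w) < ∞
  lim : ∀ j w, Tendsto (fun t => I2 volume
    (fun x => u x * dq t w (fun x => S x j) x - Y j w x)) (𝓝[≠] 0) (𝓝 0)
  det : ∀ᵐ x, (Matrix.of fun j i => Y j (e i) x).det = u x ^ (d + 2)

theorem tendsto_zero_of_seq {Φ : ℝ → ℝ≥0∞} (h : ∀ t : ℕ → ℝ, (∀ n, t n ≠ 0) →
    Tendsto t atTop (𝓝 0) → ∃ ms : ℕ → ℕ, Tendsto (fun n => Φ (t (ms n))) atTop (𝓝 0)) :
    Tendsto Φ (𝓝[≠] 0) (𝓝 0) := by
  apply tendsto_of_subseq_tendsto
  intro ns hns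
  have h1 : ∀ᶠ n in atTop, ns n ≠ 0 := hns.eventually self_mem_nhdsWithin
  obtain ⟨N, hN⟩ := h1.exists_forall_of_atTop
  obtain ⟨ms, hms⟩ := h (fun n => ns (n + N)) (fun n => hN _ (Nat.le_add_left _ _))
    ((hns.mono_right nhdsWithin_le_nhds).comp (tendsto_add_atTop_nat N))
  exact ⟨fun n => ms n + N, hms⟩

theorem tendsto_seq_of {Φ : ℝ → ℝ≥0∞} (h : Tendsto Φ (𝓝[≠] 0) (𝓝 0)) {t : ℕ → ℝ}
    (ht0 : ∀ n, t n ≠ 0) (ht : Tendsto t atTop (𝓝 0)) :
    Tendsto (fun n => Φ (t n)) atTop (𝓝 0) :=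
  h.comp (tendsto_nhdsWithin_iff.2 ⟨ht, Eventually.of_forall ht0⟩)

section general

variable {α : Type*} [MeasurableSpace α] {μ : Measure α}

theorem I2_eq_ofReal {φ : α → ℝ} (hφ : MemLp φ 2 μ) :
    I2 μ φ = ENNReal.ofReal (∫ x, φ x ^ 2 ∂μ) := by
  rw [ofReal_integral_eq_lintegral_ofReal hφ.integrable_sq (Eventually.of_forall fun x => sq_nonneg _)]
  apply lintegral_congr
  intro x
  rw [Real.enorm_eq_ofReal_abs, ← ENNReal.ofReal_pow (abs_nonneg _), sq_abs]

theorem enorm_sq_real (x : ℝ) : ‖x‖ₑ ^ 2 = ENNReal.ofReal (x ^ 2) := by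
  rw [Real.enorm_eq_ofReal_abs, ← ENNReal.ofReal_pow (abs_nonneg _), sq_abs]

theorem I2_real (φ : α → ℝ) : I2 μ φ = ∫⁻ x, ENNReal.ofReal (φ x ^ 2) ∂μ :=
  lintegral_congr fun x => enorm_sq_real _

theorem integral_sq_toReal {φ : α → ℝ} (hφ : MemLp φ 2 μ) :
    ∫ x, φ x ^ 2 ∂μ = (I2 μ φ).toReal := by
  rw [I2_eq_ofReal hφ, ENNReal.toReal_ofReal (integral_nonneg fun x => sq_nonneg _)]

end general

section dqfacts

variable {V : Type} [NormedAddCommGroup V] [NormedSpace ℝ V] [MeasureSpace V] [BorelSpace V]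

theorem dq_eq {t : ℝ} (ht : t ≠ 0) (w : V) (u : V → ℝ) (x : V) :
    u (x + t • w) = u x + t * dq t w u x := by
  unfold dq
  field_simp
  ring

theorem measurable_dq {u : V → ℝ} (hu : Measurable u) (t : ℝ) (w : V) :
    Measurable (dq t w u) :=
  ((hu.comp (measurable_add_const _)).sub hu).const_mul _

variable [SecondCountableTopology V] [(volume : Measure V).IsAddRightInvariant]

theorem I2_translate (u : V → ℝ) (w : V) : I2 volume (fun x => u (x + w)) = I2 volume u :=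
  lintegral_add_right_eq_self (fun x => ‖u x‖ₑ ^ 2) w

theorem dq_I2_lt_top {u : V → ℝ} (hu : Measurable u) (hu2 : I2 volume u < ∞) (t : ℝ) (w : V) :
    I2 volume (dq t w u) < ∞ := by
  have h1 : I2 volume (dq t w u) = ENNReal.ofReal ((t⁻¹) ^ 2) *
      I2 volume (fun x => u (x + t • w) - u x) := I2_const_mul _ _
  rw [h1]
  apply ENNReal.mul_lt_top ENNReal.ofReal_lt_top
  refine lt_of_le_of_lt (I2_sub_le _ _ (hu.comp (measurable_add_const _)).aestronglyMeasurable) ?_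
  rw [I2_translate]
  exact ENNReal.add_lt_top.2 ⟨ENNReal.mul_lt_top (by simp) hu2, ENNReal.mul_lt_top (by simp) hu2⟩

end dqfacts

section lemmaZ

variable {V : Type} [NormedAddCommGroup V] [NormedSpace ℝ V] [MeasureSpace V] [BorelSpace V]
  [SecondCountableTopology V] [(volume : Measure V).IsAddRightInvariant]

/-- one-sided version: along any sequence of nonzero `t n → 0`, a subsequence converges a.e. -/
theorem HypH.ae_subseq {u : V → ℝ} {h : V → V → ℝ} (H : HypH u h) (w : V) (t : ℕ → ℝ)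
    (ht0 : ∀ n, t n ≠ 0) (ht : Tendsto t atTop (𝓝 0)) :
    ∃ ms : ℕ → ℕ, StrictMono ms ∧
      ∀ᵐ x, Tendsto (fun n => dq (t (ms n)) w u x) atTop (𝓝 (h w x)) := by
  obtain ⟨ms, h1, h2⟩ := exists_subseq_ae (μ := volume)
    (φ := fun n x => dq (t n) w u x - h w x)
    (fun n => ((measurable_dq H.meas _ _).sub (H.hmeas w)).aestronglyMeasurable)
    (tendsto_seq_of (H.hlim w) ht0 ht)
  refine ⟨ms, h1, ?_⟩
  filter_upwards [h2] with x hx
  have := hx.add_const (h w x)
  simpa using this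

/-- the derivative vanishes a.e. on the zero set -/
theorem HypH.zero {u : V → ℝ} {h : V → V → ℝ} (H : HypH u h) (w : V) :
    ∀ᵐ x, u x = 0 → h w x = 0 := by
  have ht : Tendsto (fun n : ℕ => 1 / ((n : ℝ) + 1)) atTop (𝓝 0) :=
    tendsto_one_div_add_atTop_nhds_zero_nat
  obtain ⟨ms, -, h1⟩ := H.ae_subseq w (fun n : ℕ => 1 / ((n : ℝ) + 1)) (fun n => by positivity) ht
  obtain ⟨ks, -, h2⟩ := H.ae_subseq w (fun n : ℕ => -(1 / ((n : ℝ) + 1)))
    (fun n => neg_ne_zero.2 (by positivity)) (by simpa using ht.neg)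
  filter_upwards [h1, h2] with x hx1 hx2 hu
  apply le_antisymm
  · refine le_of_tendsto hx2 (Eventually.of_forall fun n => ?_)
    simp only [dq, hu, sub_zero]
    apply mul_nonpos_of_nonpos_of_nonneg
    · rw [inv_nonpos, neg_nonpos]
      positivity
    · exact H.nonneg _
  · refine ge_of_tendsto hx1 (Eventually.of_forall fun n => ?_)
    simp only [dq, hu, sub_zero]
    apply mul_nonneg
    · positivity
    · exact H.nonneg _

end lemmaZ

section sections

variable {V : Type} [NormedAddCommGroup V] [NormedSpace ℝ V] [FiniteDimensional ℝ V]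
  [MeasureSpace V] [BorelSpace V] [(volume : Measure V).IsAddHaarMeasure]

instance instHaarProd : (volume : Measure (ℝ × V)).IsAddHaarMeasure := by
  rw [Measure.volume_eq_prod]
  infer_instance

theorem I2_prod {F : ℝ × V → ℝ} (hF : Measurable F) :
    I2 volume F = ∫⁻ x : V, I2 volume (fun z : ℝ => F (z, x)) := by
  unfold I2
  rw [Measure.volume_eq_prod, lintegral_prod_symm' _ (hF.enorm.pow_const 2)]

theorem memLp_section {F : ℝ × V → ℝ} (hF : Measurable F) (h : I2 volume F < ∞) :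
    ∀ᵐ x : V, MemLp (fun z : ℝ => F (z, x)) 2 volume := by
  rw [I2_prod hF] at h
  have h1 : Measurable fun x : V => I2 volume (fun z : ℝ => F (z, x)) := by
    unfold I2
    exact (hF.enorm.pow_const 2).lintegral_prod_left'
  filter_upwards [ae_lt_top h1 h.ne] with x hx
  exact memLp_of_I2 (hF.comp measurable_prodMk_right).aestronglyMeasurable hx

theorem HypH.uL2 {W : Type} [NormedAddCommGroup W] [NormedSpace ℝ W] [MeasureSpace W]
    {u : W → ℝ} {h : W → W → ℝ} (H : HypH u h) : I2 volume u < ∞ := by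
  rw [I2_real, H.norm]
  exact ENNReal.one_lt_top

theorem HypH.sections {u : ℝ × V → ℝ} {h : ℝ × V → ℝ × V → ℝ} (H : HypH u h) (w : ℝ × V)
    (t : ℕ → ℝ) (ht0 : ∀ n, t n ≠ 0) (ht : Tendsto t atTop (𝓝 0)) :
    ∃ ms : ℕ → ℕ, StrictMono ms ∧ ∀ᵐ x : V, MemLp (fun z : ℝ => u (z, x)) 2 volume ∧
      MemLp (fun z : ℝ => h w (z, x)) 2 volume ∧
      (∀ n, MemLp (fun z : ℝ => dq (t (ms n)) w u (z, x)) 2 volume) ∧
      Tendsto (fun n => ∫ z : ℝ, (dq (t (ms n)) w u (z, x) - h w (z, x)) ^ 2) atTop (𝓝 0) := by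
  have hm : ∀ n, Measurable (fun x : ℝ × V => dq (t n) w u x - h w x) := fun n =>
    (measurable_dq H.meas _ _).sub (H.hmeas w)
  have h1 : Tendsto (fun n => ∫⁻ x : V, I2 volume
      (fun z : ℝ => dq (t n) w u (z, x) - h w (z, x))) atTop (𝓝 0) := by
    have := tendsto_seq_of (H.hlim w) ht0 ht
    refine this.congr fun n => ?_
    exact I2_prod (hm n)
  obtain ⟨ms, hms, h2⟩ := exists_subseq_ae_one (μ := (volume : Measure V))
    (φ := fun n x => I2 volume (fun z : ℝ => dq (t n) w u (z, x) - h w (z, x)))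
    (fun n => by
      unfold I2
      exact ((hm n).enorm.pow_const 2).lintegral_prod_left'.aemeasurable) h1
  refine ⟨ms, hms, ?_⟩
  have h3 : ∀ᵐ x : V, ∀ n, MemLp (fun z : ℝ => dq (t (ms n)) w u (z, x)) 2 volume := by
    rw [ae_all_iff]
    intro n
    exact memLp_section (measurable_dq H.meas _ _) (dq_I2_lt_top H.meas H.uL2 _ _)
  filter_upwards [h2, h3, memLp_section H.meas H.uL2, memLp_section (H.hmeas w) (H.hL2 w)]
    with x hx2 hx3 hx4 hx5
  refine ⟨hx4, hx5, hx3, ?_⟩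
  have h4 : ∀ n, ∫ z : ℝ, (dq (t (ms n)) w u (z, x) - h w (z, x)) ^ 2 =
      (I2 volume (fun z : ℝ => dq (t (ms n)) w u (z, x) - h w (z, x))).toReal :=
    fun n => integral_sq_toReal ((hx3 n).sub hx5)
  simp_rw [h4]
  have := (ENNReal.tendsto_toReal ENNReal.zero_ne_top).comp hx2
  simpa [Function.comp_def] using this

end sections

end Pool.Agent.W564.MY
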