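import Pool.Agent.W564.MY.KStep

/-!
# The Knothe map on `ℝᵈ`
-/

set_option autoImplicit false
set_option linter.unusedVariables false
set_option linter.unusedSimpArgs false
set_option linter.unusedSectionVars false

noncomputable section

namespace Pool.Agent.W564.MY

open MeasureTheory Filter Topology
open scoped ENNReal

section transfer

variable {V W : Type} [NormedAddCommGroup V] [NormedSpace ℝ V] [MeasureSpace V]
  [NormedAddCommGroup W] [NormedSpace ℝ W] [MeasureSpace W]
  (Φ : V ≃ᵐ W) (hΦ : MeasurePreserving Φ volume volume)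
  (hlin : ∀ (t : ℝ) (x w : V), Φ (x + t • w) = Φ x + t • Φ w)

theorem I2_comp_equiv (Φ : V ≃ᵐ W) (hΦ : MeasurePreserving Φ volume volume) (f : W → ℝ) :
    I2 volume (fun x => f (Φ x)) = I2 volume f := by
  unfold I2
  exact hΦ.lintegral_comp_emb Φ.measurableEmbedding (fun y => ‖f y‖ₑ ^ 2)

include hlin in
theorem dq_comp (t : ℝ) (w : V) (f : W → ℝ) (x : V) :
    dq t w (fun x => f (Φ x)) x = dq t (Φ w) f (Φ x) := by
  unfold dq
  simp only [hlin]

include hΦ hlin in
theorem HypH.transfer {u : V → ℝ} {h : V → V → ℝ} (H : HypH u h) :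
    HypH (fun y => u (Φ.symm y)) (fun w y => h (Φ.symm w) (Φ.symm y)) := by
  have hlin' : ∀ (t : ℝ) (x w : W), Φ.symm (x + t • w) = Φ.symm x + t • Φ.symm w := by
    intro t x w
    apply Φ.injective
    rw [hlin]
    simp
  refine ⟨H.meas.comp Φ.symm.measurable, fun x => H.nonneg _, ?_,
    fun w => (H.hmeas _).comp Φ.symm.measurable, ?_, ?_⟩
  · have := (hΦ.symm).lintegral_comp_emb Φ.symm.measurableEmbedding
      (fun x => ENNReal.ofReal (u x ^ 2))
    rw [this, H.norm]
  · intro w
    rw [I2_comp_equiv Φ.symm hΦ.symm]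
    exact H.hL2 _
  · intro w
    have := H.hlim (Φ.symm w)
    refine this.congr fun t => ?_
    have e : (fun x => dq t w (fun y => u (Φ.symm y)) x - h (Φ.symm w) (Φ.symm x)) =
        fun x => (fun y => dq t (Φ.symm w) u y - h (Φ.symm w) y) (Φ.symm x) := by
      funext x
      rw [dq_comp Φ.symm hlin']
    rw [e]
    exact (I2_comp_equiv Φ.symm hΦ.symm (fun y => dq t (Φ.symm w) u y - h (Φ.symm w) y)).symm

include hΦ hlin in
theorem KD.transfer {d : ℕ} {e : Fin d → W} {u : V → ℝ} {S : W → E d} {Y : Fin d → W → W → ℝ}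
    (K : KD d e (fun y => u (Φ.symm y)) S Y) :
    KD d (fun i => Φ.symm (e i)) u (fun x => S (Φ x)) (fun j w x => Y j (Φ w) (Φ x)) := by
  refine ⟨K.Smeas.comp Φ.measurable, fun x j => K.box _ j, ?_, ?_, fun j w =>
    (K.Ymeas _ _).comp Φ.measurable, ?_, ?_, ?_⟩
  · intro φ hφ
    rw [← K.push φ hφ]
    have := hΦ.lintegral_comp_emb Φ.measurableEmbedding
      (fun y => φ (S y) * ENNReal.ofReal (u (Φ.symm y) ^ 2))
    simpa using this
  · obtain ⟨D, h1, h2, h3⟩ := K.inj
    refine ⟨Φ ⁻¹' D, Φ.measurable h1, ?_, ?_⟩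
    · intro x hx y hy hxy
      exact Φ.injective (h2 hx hy hxy)
    · have := hΦ.quasiMeasurePreserving.ae h3
      filter_upwards [this] with x hx hux
      exact hx (by simpa using hux)
  · intro j w
    rw [I2_comp_equiv Φ hΦ (Y j (Φ w))]
    exact K.YL2 _ _
  · intro j w
    have := K.lim j (Φ w)
    refine this.congr fun t => ?_
    have e : (fun x => u x * dq t w (fun x => S (Φ x) j) x - Y j (Φ w) (Φ x)) =
        fun x => (fun y => u (Φ.symm y) * dq t (Φ w) (fun y => S y j) y - Y j (Φ w) y) (Φ x) := by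
      funext x
      rw [dq_comp Φ hlin t w (fun y => S y j)]
      simp
    rw [e]
    exact (I2_comp_equiv Φ hΦ
      (fun y => u (Φ.symm y) * dq t (Φ w) (fun y => S y j) y - Y j (Φ w) y)).symm
  · have := hΦ.quasiMeasurePreserving.ae K.det
    filter_upwards [this] with x hx
    simpa using hx

end transfer

/-- existence of the Knothe data -/
theorem exists_KD (d : ℕ) : ∀ (u : E d → ℝ) (h : E d → E d → ℝ), HypH u h →
    ∃ S Y, KD d (fun i => Pi.single i (1 : ℝ)) u S Y := by
  induction d with
  | zero =>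
    intro u h H
    have hu1 : ∀ x, u x ^ 2 = 1 := by
      intro x
      have h1 := H.norm
      have h2 : (volume : Measure (E 0)) = Measure.dirac x := by
        rw [Measure.volume_pi_eq_dirac x]
      rw [h2, lintegral_dirac] at h1
      rw [← ENNReal.toReal_ofReal (sq_nonneg (u x)), h1]
      simp
    refine ⟨id, fun j => Fin.elim0 j, measurable_id, fun x j => Fin.elim0 j, ?_, ?_,
      fun j => Fin.elim0 j, fun j => Fin.elim0 j, fun j => Fin.elim0 j, ?_⟩
    · intro φ hφ
      have : Set.Icc (0 : E 0) 1 = Set.univ := by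
        ext x
        simp only [Set.mem_Icc, Set.mem_univ, iff_true]
        exact ⟨fun i => Fin.elim0 i, fun i => Fin.elim0 i⟩
      rw [this, Measure.restrict_univ]
      apply lintegral_congr
      intro x
      rw [hu1]
      simp
    · exact ⟨Set.univ, MeasurableSet.univ, fun x _ y _ _ => Subsingleton.elim _ _,
        Eventually.of_forall fun x _ => Set.mem_univ _⟩
    · exact Eventually.of_forall fun x => by simp [hu1]
  | succ d ih =>
    intro u h H
    set Φ := MeasurableEquiv.piFinSuccAbove (fun _ : Fin (d + 1) => ℝ) 0 with hΦd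
    have hΦ : MeasurePreserving Φ volume volume :=
      volume_preserving_piFinSuccAbove (fun _ : Fin (d + 1) => ℝ) 0
    have hlin : ∀ (t : ℝ) (x w : E (d + 1)), Φ (x + t • w) = Φ x + t • Φ w := by
      intro t x w
      rfl
    obtain ⟨S, Y, K⟩ := kstep ih (HypH.transfer Φ hΦ hlin H)
    have K' := KD.transfer (u := u) Φ hΦ hlin K
    have he : (fun i => Φ.symm ((Fin.cons ((1 : ℝ), (0 : E d))
        (fun i => ((0 : ℝ), (Pi.single i (1 : ℝ) : E d))) : Fin (d + 1) → ℝ × E d) i)) =
        fun i => (Pi.single i (1 : ℝ) : E (d + 1)) := by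
      funext i
      apply Φ.injective
      rw [MeasurableEquiv.apply_symm_apply]
      refine Fin.cases ?_ (fun i => ?_) i
      · rw [Fin.cons_zero]
        apply Prod.ext
        · simp [hΦd, MeasurableEquiv.piFinSuccAbove]
        · funext j
          simp [hΦd, MeasurableEquiv.piFinSuccAbove, Fin.tail]
      · rw [Fin.cons_succ]
        apply Prod.ext
        · simp [hΦd, MeasurableEquiv.piFinSuccAbove]
        · funext j
          simp [hΦd, MeasurableEquiv.piFinSuccAbove, Fin.tail, Pi.single_apply]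
    rw [he] at K'
    exact ⟨_, _, K'⟩

end Pool.Agent.W564.MY
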