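import Pool.Agent.W564.MY.Defs

/-!
# Elementary `L²` tools: sequences, dominated convergence with varying majorants
-/

set_option autoImplicit false

noncomputable section

namespace Pool.Agent.W564.MY

open MeasureTheory Filter Topology
open scoped ENNReal

variable {α : Type*} [MeasurableSpace α] {μ : Measure α}
variable {F : Type*} [NormedAddCommGroup F]

/-- `∫ |φ|²` -/
def I2 (μ : Measure α) (φ : α → F) : ℝ≥0∞ := ∫⁻ x, ‖φ x‖ₑ ^ 2 ∂μ

theorem eLpNorm_eq_I2 (φ : α → F) : eLpNorm φ 2 μ = I2 μ φ ^ (1 / 2 : ℝ) := by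
  rw [eLpNorm_eq_lintegral_rpow_enorm_toReal two_ne_zero ENNReal.ofNat_ne_top, I2]
  simp

theorem I2_eq_eLpNorm (φ : α → F) : I2 μ φ = eLpNorm φ 2 μ ^ 2 := by
  rw [eLpNorm_eq_I2, ← ENNReal.rpow_natCast, ← ENNReal.rpow_mul]
  norm_num

theorem I2_lt_top {φ : α → F} (h : MemLp φ 2 μ) : I2 μ φ < ∞ := by
  rw [I2_eq_eLpNorm]
  exact ENNReal.pow_lt_top h.2

theorem memLp_of_I2 {φ : α → F} (hm : AEStronglyMeasurable φ μ) (h : I2 μ φ < ∞) :
    MemLp φ 2 μ := by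
  refine ⟨hm, ?_⟩
  rw [eLpNorm_eq_I2]
  exact ENNReal.rpow_lt_top_of_nonneg (by norm_num) h.ne

theorem tendsto_I2_iff {ι : Type*} {l : Filter ι} {φ : ι → α → F} :
    Tendsto (fun i => eLpNorm (φ i) 2 μ) l (𝓝 0) ↔ Tendsto (fun i => I2 μ (φ i)) l (𝓝 0) := by
  constructor
  · intro h
    have := (ENNReal.continuous_pow 2).tendsto 0 |>.comp h
    simpa [Function.comp_def, ← I2_eq_eLpNorm] using this
  · intro h
    have := (ENNReal.continuous_rpow_const (y := (1 / 2 : ℝ))).tendsto 0 |>.comp h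
    rw [ENNReal.zero_rpow_of_pos (by norm_num)] at this
    refine this.congr fun i => ?_
    simp only [Function.comp_def]
    rw [← eLpNorm_eq_I2]

theorem sq_add_le (a b : ℝ≥0∞) : (a + b) ^ 2 ≤ 2 * a ^ 2 + 2 * b ^ 2 := by
  rcases eq_or_ne a ∞ with rfl | ha
  · simp
  rcases eq_or_ne b ∞ with rfl | hb
  · simp
  lift a to NNReal using ha
  lift b to NNReal using hb
  norm_cast
  have : ((a : ℝ) + b) ^ 2 ≤ 2 * (a : ℝ) ^ 2 + 2 * (b : ℝ) ^ 2 := by nlinarith [sq_nonneg ((a : ℝ) - b)]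
  exact_mod_cast this

theorem I2_add_le (φ ψ : α → F) (hφ : AEStronglyMeasurable φ μ) :
    I2 μ (fun x => φ x + ψ x) ≤ 2 * I2 μ φ + 2 * I2 μ ψ := by
  unfold I2
  calc ∫⁻ x, ‖φ x + ψ x‖ₑ ^ 2 ∂μ ≤ ∫⁻ x, (2 * ‖φ x‖ₑ ^ 2 + 2 * ‖ψ x‖ₑ ^ 2) ∂μ := by
        apply lintegral_mono
        intro x
        exact (pow_le_pow_left₀ (zero_le) (enorm_add_le _ _) 2).trans (sq_add_le _ _)
    _ = _ := by
        rw [lintegral_add_left' ((hφ.enorm.pow_const 2).const_mul 2),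
          lintegral_const_mul' _ _ ENNReal.ofNat_ne_top, lintegral_const_mul' _ _ ENNReal.ofNat_ne_top]

theorem I2_sub_le (φ ψ : α → F) (hφ : AEStronglyMeasurable φ μ) :
    I2 μ (fun x => φ x - ψ x) ≤ 2 * I2 μ φ + 2 * I2 μ ψ := by
  have := I2_add_le φ (fun x => -ψ x) hφ
  simpa [I2, sub_eq_add_neg] using this

theorem I2_mono {G : Type*} [NormedAddCommGroup G] {φ : α → F} {ψ : α → G}
    (h : ∀ᵐ x ∂μ, ‖φ x‖ ≤ ‖ψ x‖) : I2 μ φ ≤ I2 μ ψ := by
  apply lintegral_mono_ae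
  filter_upwards [h] with x hx
  have : ‖φ x‖ₑ ≤ ‖ψ x‖ₑ := by
    rw [← ofReal_norm, ← ofReal_norm]
    exact ENNReal.ofReal_le_ofReal hx
  exact pow_le_pow_left₀ (zero_le) this 2

theorem I2_congr {φ ψ : α → F} (h : ∀ᵐ x ∂μ, φ x = ψ x) : I2 μ φ = I2 μ ψ := by
  apply lintegral_congr_ae
  filter_upwards [h] with x hx
  rw [hx]

theorem I2_const_mul (c : ℝ) (φ : α → ℝ) : I2 μ (fun x => c * φ x) = ENNReal.ofReal (c ^ 2) * I2 μ φ := by
  unfold I2
  rw [← lintegral_const_mul' _ _ ENNReal.ofReal_ne_top]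
  apply lintegral_congr
  intro x
  rw [enorm_mul, mul_pow]
  congr 1
  rw [Real.enorm_eq_ofReal_abs, ← ENNReal.ofReal_pow (abs_nonneg c), sq_abs]

/-- from `L²` convergence to zero: an a.e. convergent subsequence -/
theorem exists_subseq_ae {φ : ℕ → α → F} (hm : ∀ n, AEStronglyMeasurable (φ n) μ)
    (h : Tendsto (fun n => I2 μ (φ n)) atTop (𝓝 0)) :
    ∃ ns : ℕ → ℕ, StrictMono ns ∧ ∀ᵐ x ∂μ, Tendsto (fun k => φ (ns k) x) atTop (𝓝 0) := by
  have h1 : Tendsto (fun n => eLpNorm (φ n - fun _ => 0) 2 μ) atTop (𝓝 0) := by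
    have : (fun n => eLpNorm (φ n - fun _ => 0) 2 μ) = fun n => eLpNorm (φ n) 2 μ := by
      funext n
      congr 1
      funext x
      simp
    rw [this]
    exact tendsto_I2_iff.2 h
  have h2 : TendstoInMeasure μ φ atTop (fun _ => 0) :=
    tendstoInMeasure_of_tendsto_eLpNorm two_ne_zero hm aestronglyMeasurable_const h1
  obtain ⟨ns, h3, h4⟩ := h2.exists_seq_tendsto_ae
  exact ⟨ns, h3, h4⟩

/-- from `L¹` convergence to zero: an a.e. convergent subsequence (`[0,∞]`-valued) -/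
theorem exists_subseq_ae_one {φ : ℕ → α → ℝ≥0∞} (hm : ∀ n, AEMeasurable (φ n) μ)
    (h : Tendsto (fun n => ∫⁻ x, φ n x ∂μ) atTop (𝓝 0)) :
    ∃ ns : ℕ → ℕ, StrictMono ns ∧ ∀ᵐ x ∂μ, Tendsto (fun k => φ (ns k) x) atTop (𝓝 0) := by
  -- choose a subsequence with summable integrals
  have h1 : ∀ k : ℕ, ∀ᶠ n in atTop, ∫⁻ x, φ n x ∂μ ≤ (2⁻¹ : ℝ≥0∞) ^ k := by
    intro k
    have : (0 : ℝ≥0∞) < (2⁻¹ : ℝ≥0∞) ^ k := by
      apply ENNReal.pow_pos
      simp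
    exact (h.eventually (gt_mem_nhds this)).mono fun n hn => le_of_lt hn
  obtain ⟨ns, h2, h3⟩ := Filter.extraction_forall_of_eventually h1
  refine ⟨ns, h2, ?_⟩
  have h4 : ∫⁻ x, ∑' k, φ (ns k) x ∂μ ≠ ∞ := by
    rw [lintegral_tsum fun k => hm (ns k)]
    refine ne_top_of_le_ne_top ?_ (ENNReal.tsum_le_tsum h3)
    rw [ENNReal.tsum_geometric]
    norm_num
  have h5 : ∀ᵐ x ∂μ, ∑' k, φ (ns k) x < ∞ :=
    ae_lt_top' (AEMeasurable.ennreal_tsum fun k => hm (ns k)) h4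
  filter_upwards [h5] with x hx
  exact ENNReal.tendsto_atTop_zero_of_tsum_ne_top hx.ne

/-- dominated convergence with varying majorants -/
theorem lintegral_tendsto_zero_of_le {f g : ℕ → α → ℝ≥0∞} {G : α → ℝ≥0∞}
    (hf : ∀ n, AEMeasurable (f n) μ) (hG : AEMeasurable G μ)
    (hfg : ∀ n, ∀ᵐ x ∂μ, f n x ≤ g n x)
    (h0 : ∀ᵐ x ∂μ, Tendsto (fun n => f n x) atTop (𝓝 0))
    (hg : Tendsto (fun n => ∫⁻ x, (g n x - G x) ∂μ) atTop (𝓝 0)) (hGi : ∫⁻ x, G x ∂μ ≠ ∞) :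
    Tendsto (fun n => ∫⁻ x, f n x ∂μ) atTop (𝓝 0) := by
  have h1 : Tendsto (fun n => ∫⁻ x, min (f n x) (G x) ∂μ) atTop (𝓝 (∫⁻ x, (0 : ℝ≥0∞) ∂μ)) := by
    apply tendsto_lintegral_of_dominated_convergence' G (fun n => (hf n).min hG)
      (fun n => Eventually.of_forall fun x => min_le_right _ _) hGi
    filter_upwards [h0] with x hx
    refine tendsto_of_tendsto_of_tendsto_of_le_of_le tendsto_const_nhds hx (fun n => zero_le)
      (fun n => min_le_left _ _)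
  rw [lintegral_zero] at h1
  have h2 := h1.add hg
  rw [add_zero] at h2
  refine tendsto_of_tendsto_of_tendsto_of_le_of_le tendsto_const_nhds h2 (fun n => zero_le)
    (fun n => ?_)
  simp only
  rw [← lintegral_add_left' ((hf n).min hG)]
  apply lintegral_mono_ae
  filter_upwards [hfg n] with x hx
  rcases le_total (f n x) (G x) with h | h
  · rw [min_eq_left h]
    exact le_self_add
  · rw [min_eq_right h]
    exact hx.trans le_add_tsub

end Pool.Agent.W564.MY
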