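import Pool.Agent.W564.MY.Kn

/-!
# The marginal of a square root of a density
-/

set_option autoImplicit false
set_option linter.unusedVariables false
set_option linter.unusedSimpArgs false
set_option linter.unusedSectionVars false

noncomputable section

namespace Pool.Agent.W564.MY

open MeasureTheory Filter Topology
open scoped ENNReal

variable {V : Type} [NormedAddCommGroup V] [NormedSpace ℝ V] [FiniteDimensional ℝ V]
  [MeasureSpace V] [BorelSpace V] [(volume : Measure V).IsAddHaarMeasure]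

/-- square root of the marginal density -/
def margN (u : ℝ × V → ℝ) (x : V) : ℝ := Real.sqrt (∫ z : ℝ, u (z, x) ^ 2)

/-- its derivative -/
def margH (u : ℝ × V → ℝ) (h : ℝ × V → ℝ × V → ℝ) (w : V) (x : V) : ℝ :=
  (∫ z : ℝ, u (z, x) * h ((0 : ℝ), w) (z, x)) / margN u x

theorem measurable_int_sq {u : ℝ × V → ℝ} (hu : Measurable u) :
    Measurable (fun x : V => ∫ z : ℝ, u (z, x) ^ 2) :=
  (hu.pow_const 2).stronglyMeasurable.integral_prod_left'.measurable

theorem measurable_int_mul {u v : ℝ × V → ℝ} (hu : Measurable u) (hv : Measurable v) :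
    Measurable (fun x : V => ∫ z : ℝ, u (z, x) * v (z, x)) :=
  (hu.mul hv).stronglyMeasurable.integral_prod_left'.measurable

theorem margN_sq (u : ℝ × V → ℝ) (x : V) : margN u x ^ 2 = ∫ z : ℝ, u (z, x) ^ 2 :=
  Real.sq_sqrt (integral_nonneg fun x => sq_nonneg _)

theorem margN_nonneg (u : ℝ × V → ℝ) (x : V) : 0 ≤ margN u x := Real.sqrt_nonneg _

theorem margN_eq_zero {u : ℝ × V → ℝ} {x : V} (hu : MemLp (fun z : ℝ => u (z, x)) 2 volume)
    (h : margN u x = 0) : ∀ᵐ z : ℝ, u (z, x) = 0 := by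
  have h1 : ∫ z : ℝ, u (z, x) ^ 2 = 0 := by
    rw [← margN_sq, h]
    simp
  rw [integral_eq_zero_iff_of_nonneg (fun x => sq_nonneg _) hu.integrable_sq] at h1
  filter_upwards [h1] with z hz
  simpa using hz

theorem ae_swap {p : ℝ × V → Prop} (h : ∀ᵐ x : ℝ × V, p x) : ∀ᵐ x : V, ∀ᵐ z : ℝ, p (z, x) := by
  rw [Measure.volume_eq_prod] at h
  have h1 : MeasurePreserving (Prod.swap : V × ℝ → ℝ × V)
      ((volume : Measure V).prod (volume : Measure ℝ))
      ((volume : Measure ℝ).prod (volume : Measure V)) := Measure.measurePreserving_swap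
  exact Measure.ae_ae_of_ae_prod (h1.quasiMeasurePreserving.ae h)

theorem I2_sub_eq {α : Type*} [MeasurableSpace α] {μ : Measure α} {k h : α → ℝ}
    (hk : MemLp k 2 μ) (hh : MemLp h 2 μ) :
    I2 μ (fun x => k x - h x) = ENNReal.ofReal (∫ x, (k x - h x) ^ 2 ∂μ) :=
  I2_eq_ofReal (hk.sub hh)

theorem HypH.zero_section {u : ℝ × V → ℝ} {h : ℝ × V → ℝ × V → ℝ} (H : HypH u h)
    (w : ℝ × V) : ∀ᵐ x : V, ∀ᵐ z : ℝ, u (z, x) = 0 → h w (z, x) = 0 := ae_swap (H.zero w)

theorem I2_section_eq {φ : ℝ → ℝ} (hφ : MemLp φ 2 volume) :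
    I2 volume φ = ENNReal.ofReal (∫ x, φ x ^ 2) := I2_eq_ofReal hφ

/-- basic bound -/
theorem margH_sq_le {u : ℝ × V → ℝ} {h : ℝ × V → ℝ × V → ℝ} {w : V} {x : V}
    (hu : MemLp (fun z : ℝ => u (z, x)) 2 volume)
    (hh : MemLp (fun z : ℝ => h ((0 : ℝ), w) (z, x)) 2 volume) :
    margH u h w x ^ 2 ≤ ∫ z : ℝ, h ((0 : ℝ), w) (z, x) ^ 2 := by
  unfold margH
  rw [div_pow, margN_sq]
  apply div_le_of_le_mul₀ (integral_nonneg fun x => sq_nonneg _)
    (integral_nonneg fun x => sq_nonneg _)
  rw [mul_comm]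
  exact cs_integral hu hh

theorem sq_sub_le_two (a b : ℝ) : (a - b) ^ 2 ≤ 2 * a ^ 2 + 2 * b ^ 2 := by
  nlinarith [sq_nonneg (a + b)]

theorem int_sq_le_two {α : Type*} [MeasurableSpace α] {μ : Measure α} {k h : α → ℝ}
    (hk : MemLp k 2 μ) (hh : MemLp h 2 μ) :
    ∫ x, k x ^ 2 ∂μ ≤ 2 * ∫ x, h x ^ 2 ∂μ + 2 * ∫ x, (k x - h x) ^ 2 ∂μ := by
  rw [← integral_const_mul, ← integral_const_mul, ← integral_add
    (hh.integrable_sq.const_mul _) ((int_sub_sq hh hk).const_mul _)]
  apply integral_mono hk.integrable_sq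
  · exact (hh.integrable_sq.const_mul _).add ((int_sub_sq hh hk).const_mul _)
  · intro x
    simp only
    nlinarith [sq_nonneg (k x - h x - h x)]

theorem HypH.marg {u : ℝ × V → ℝ} {h : ℝ × V → ℝ × V → ℝ} (H : HypH u h) :
    HypH (margN u) (margH u h) := by
  have hm1 : Measurable (margN u) := (measurable_int_sq H.meas).sqrt
  have hm2 : ∀ w, Measurable (margH u h w) := fun w =>
    (measurable_int_mul H.meas (H.hmeas _)).div hm1
  have hsec := memLp_section H.meas H.uL2
  refine ⟨hm1, fun x => margN_nonneg u x, ?_, hm2, ?_, ?_⟩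
  · -- normalization
    have h1 : ∫⁻ x, ENNReal.ofReal (margN u x ^ 2) = ∫⁻ x : V, I2 volume (fun z : ℝ => u (z, x)) := by
      apply lintegral_congr_ae
      filter_upwards [hsec] with x hx
      rw [margN_sq, I2_eq_ofReal hx]
    rw [h1, ← I2_prod H.meas, I2_real, H.norm]
  · intro w
    have hsec2 := memLp_section (H.hmeas ((0 : ℝ), w)) (H.hL2 _)
    refine lt_of_le_of_lt ?_ (H.hL2 ((0 : ℝ), w))
    rw [I2_prod (H.hmeas ((0 : ℝ), w))]
    apply lintegral_mono_ae
    filter_upwards [hsec, hsec2] with x hx hx2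
    rw [I2_eq_ofReal hx2, enorm_sq_real]
    exact ENNReal.ofReal_le_ofReal (margH_sq_le hx hx2)
  · intro w
    apply tendsto_zero_of_seq
    intro t ht0 ht
    obtain ⟨ms, hms, hs⟩ := H.sections ((0 : ℝ), w) t ht0 ht
    refine ⟨ms, ?_⟩
    have htm : Tendsto (fun n => t (ms n)) atTop (𝓝 0) := ht.comp hms.tendsto_atTop
    have hmd : ∀ n, Measurable (fun x : ℝ × V => dq (t (ms n)) ((0 : ℝ), w) u x -
      h ((0 : ℝ), w) x) := fun n => (measurable_dq H.meas _ _).sub (H.hmeas _)
    -- the section identity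
    have key : ∀ n x, (∀ z : ℝ, u (z, x + t (ms n) • w) =
        u (z, x) + t (ms n) * dq (t (ms n)) ((0 : ℝ), w) u (z, x)) := by
      intro n x z
      rw [← dq_eq (ht0 _)]
      congr 1
      simp
    -- bound for the difference quotients
    have hb : ∀ x, MemLp (fun z : ℝ => u (z, x)) 2 volume →
        (∀ n, MemLp (fun z : ℝ => dq (t (ms n)) ((0 : ℝ), w) u (z, x)) 2 volume) →
        ∀ n, dq (t (ms n)) w (margN u) x ^ 2 ≤
          ∫ z : ℝ, dq (t (ms n)) ((0 : ℝ), w) u (z, x) ^ 2 := by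
      intro x hx hx3 n
      have e1 : ∫ z : ℝ, u (z, x + t (ms n) • w) ^ 2 =
          ∫ z : ℝ, (u (z, x) + t (ms n) * dq (t (ms n)) ((0 : ℝ), w) u (z, x)) ^ 2 := by
        congr 1
        funext z
        rw [key n x z]
      have e2 := sq_norm_sub_le hx (hx.add ((hx3 n).const_mul (t (ms n))))
      unfold dq margN
      rw [mul_pow, e1]
      simp only [Pi.add_apply] at e2
      have e3 : ∀ z : ℝ, (u (z, x) + t (ms n) * dq (t (ms n)) ((0 : ℝ), w) u (z, x) - u (z, x)) ^ 2 =
          t (ms n) ^ 2 * dq (t (ms n)) ((0 : ℝ), w) u (z, x) ^ 2 := by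
        intro z
        ring
      simp_rw [e3] at e2
      rw [integral_const_mul] at e2
      have ht2 : 0 < t (ms n) ^ 2 := by
        have := ht0 (ms n)
        positivity
      calc ((t (ms n))⁻¹) ^ 2 * (Real.sqrt (∫ z : ℝ, (u (z, x) + t (ms n) *
            dq (t (ms n)) ((0 : ℝ), w) u (z, x)) ^ 2) - Real.sqrt (∫ z : ℝ, u (z, x) ^ 2)) ^ 2
          ≤ ((t (ms n))⁻¹) ^ 2 * (t (ms n) ^ 2 *
            ∫ z : ℝ, dq (t (ms n)) ((0 : ℝ), w) u (z, x) ^ 2) :=
          mul_le_mul_of_nonneg_left e2 (by positivity)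
        _ = ∫ z : ℝ, dq (t (ms n)) ((0 : ℝ), w) u (z, x) ^ 2 := by
          rw [← mul_assoc, ← mul_pow, inv_mul_cancel₀ (ht0 _), one_pow, one_mul]
    -- dominated convergence
    have hmeasI : Measurable fun x : V => I2 volume (fun z : ℝ => h ((0 : ℝ), w) (z, x)) := by
      unfold I2
      exact ((H.hmeas _).enorm.pow_const 2).lintegral_prod_left'
    have hmeasK : ∀ n, Measurable fun x : V => I2 volume (fun z : ℝ =>
        dq (t (ms n)) ((0 : ℝ), w) u (z, x) - h ((0 : ℝ), w) (z, x)) := by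
      intro n
      unfold I2
      exact ((hmd n).enorm.pow_const 2).lintegral_prod_left'
    apply lintegral_tendsto_zero_of_le
      (g := fun n x => 6 * I2 volume (fun z : ℝ => h ((0 : ℝ), w) (z, x)) +
        4 * I2 volume (fun z : ℝ => dq (t (ms n)) ((0 : ℝ), w) u (z, x) -
          h ((0 : ℝ), w) (z, x)))
      (G := fun x => 6 * I2 volume (fun z : ℝ => h ((0 : ℝ), w) (z, x)))
    · intro n
      exact (((measurable_dq hm1 _ _).sub (hm2 w)).enorm.pow_const 2).aemeasurable
    · exact (hmeasI.const_mul 6).aemeasurable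
    · intro n
      filter_upwards [hs] with x hx
      obtain ⟨hx1, hx2, hx3, hx4⟩ := hx
      rw [enorm_sq_real, I2_eq_ofReal hx2, I2_sub_eq (hx3 n) hx2]
      have e1 := hb x hx1 hx3 n
      have e2 := margH_sq_le hx1 hx2
      have e3 := int_sq_le_two (hx3 n) hx2
      have e4 := sq_sub_le_two (dq (t (ms n)) w (margN u) x) (margH u h w x)
      have p1 : (0 : ℝ) ≤ ∫ z : ℝ, h ((0 : ℝ), w) (z, x) ^ 2 := integral_nonneg fun x => sq_nonneg _
      have p2 : (0 : ℝ) ≤ ∫ z : ℝ, (dq (t (ms n)) ((0 : ℝ), w) u (z, x) -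
          h ((0 : ℝ), w) (z, x)) ^ 2 := integral_nonneg fun x => sq_nonneg _
      have e5 : (dq (t (ms n)) w (margN u) x - margH u h w x) ^ 2 ≤
          6 * (∫ z : ℝ, h ((0 : ℝ), w) (z, x) ^ 2) +
          4 * ∫ z : ℝ, (dq (t (ms n)) ((0 : ℝ), w) u (z, x) - h ((0 : ℝ), w) (z, x)) ^ 2 := by
        linarith
      refine (ENNReal.ofReal_le_ofReal e5).trans ?_
      rw [ENNReal.ofReal_add (by positivity) (by positivity), ENNReal.ofReal_mul (by norm_num),
        ENNReal.ofReal_mul (by norm_num)]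
      simp
    · filter_upwards [hs, H.zero_section ((0 : ℝ), w)] with x hx hz
      obtain ⟨hx1, hx2, hx3, hx4⟩ := hx
      -- reduce to real convergence
      have goal' : Tendsto (fun n => dq (t (ms n)) w (margN u) x - margH u h w x) atTop (𝓝 0) := by
        rcases eq_or_ne (margN u x) 0 with h0 | h0
        · have e1 : margH u h w x = 0 := by
            unfold margH
            rw [h0, div_zero]
          have e2 : ∫ z : ℝ, h ((0 : ℝ), w) (z, x) ^ 2 = 0 := by
            apply integral_eq_zero_of_ae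
            filter_upwards [margN_eq_zero hx1 h0, hz] with z hz1 hz2
            simp [hz2 hz1]
          have e3 : Tendsto (fun n => Real.sqrt (2 * ∫ z : ℝ, (dq (t (ms n)) ((0 : ℝ), w) u (z, x) -
              h ((0 : ℝ), w) (z, x)) ^ 2)) atTop (𝓝 0) := by
            have := (Real.continuous_sqrt.tendsto _).comp (hx4.const_mul 2)
            simpa [Function.comp_def] using this
          refine squeeze_zero_norm (fun n => ?_) e3
          rw [e1, sub_zero, Real.norm_eq_abs]
          apply Real.abs_le_sqrt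
          have e4 := hb x hx1 hx3 n
          have e5 := int_sq_le_two (hx3 n) hx2
          rw [e2] at e5
          linarith
        · have hA : ∫ z : ℝ, u (z, x) ^ 2 ≠ 0 := by
            rw [← margN_sq]
            positivity
          have e1 := tendsto_dq_norm hx1 hx2 hx3 hx4 htm (fun n => ht0 _) hA
          have e2 : ∀ n, dq (t (ms n)) w (margN u) x = (t (ms n))⁻¹ *
              (Real.sqrt (∫ z : ℝ, (u (z, x) + t (ms n) *
                dq (t (ms n)) ((0 : ℝ), w) u (z, x)) ^ 2) - Real.sqrt (∫ z : ℝ, u (z, x) ^ 2)) := by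
            intro n
            unfold margN
            rw [dq]
            congr 3
            congr 1
            funext z
            rw [key n x z]
          simp_rw [e2]
          have := e1.sub_const (margH u h w x)
          unfold margH margN at this ⊢
          simpa using this
      have := (continuous_enorm.tendsto (0 : ℝ)).comp goal'
      rw [enorm_zero] at this
      have := (ENNReal.continuous_pow 2).tendsto 0 |>.comp this
      simpa [Function.comp_def] using this
    · -- the error of the majorants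
      have h1 : Tendsto (fun n => 4 * ∫⁻ x : V, I2 volume (fun z : ℝ =>
          dq (t (ms n)) ((0 : ℝ), w) u (z, x) - h ((0 : ℝ), w) (z, x))) atTop (𝓝 0) := by
        have e1 := (tendsto_seq_of (H.hlim ((0 : ℝ), w)) (fun n => ht0 (ms n)) htm)
        have e2 := ENNReal.Tendsto.const_mul (a := 4) e1 (Or.inr (by simp))
        rw [mul_zero] at e2
        refine e2.congr fun n => ?_
        rw [I2_prod (hmd n)]
      refine tendsto_of_tendsto_of_tendsto_of_le_of_le tendsto_const_nhds h1 (fun n => zero_le)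
        (fun n => ?_)
      simp only
      rw [← lintegral_const_mul _ (hmeasK n)]
      apply lintegral_mono
      intro x
      simp only
      rw [tsub_le_iff_left]
    · rw [lintegral_const_mul _ hmeasI, ← I2_prod (H.hmeas _)]
      exact (ENNReal.mul_lt_top (by simp) (H.hL2 _)).ne

end Pool.Agent.W564.MY
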