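import Pool.Agent.W564.MY.Hel

/-!
# One-dimensional distribution functions
-/

set_option autoImplicit false
set_option linter.unusedVariables false
set_option linter.unusedSimpArgs false
set_option linter.unusedSectionVars false

noncomputable section

namespace Pool.Agent.W564.MY

open MeasureTheory Filter Topology
open scoped ENNReal

section

variable {f : ℝ → ℝ} (hf : Integrable f) (hf0 : ∀ y, 0 ≤ f y)

include hf in
theorem cdf_sub (y z : ℝ) : (∫ x in Set.Iic z, f x) - (∫ x in Set.Iic y, f x) = ∫ x in y..z, f x :=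
  intervalIntegral.integral_Iic_sub_Iic hf.integrableOn hf.integrableOn

include hf in
theorem cdf_eq (y : ℝ) :
    ∫ x in Set.Iic y, f x = (∫ x in Set.Iic (0 : ℝ), f x) + ∫ x in (0 : ℝ)..y, f x := by
  rw [← cdf_sub hf 0 y]
  ring

include hf in
theorem cdf_continuous : Continuous (fun y => ∫ x in Set.Iic y, f x) := by
  rw [show (fun y => ∫ x in Set.Iic y, f x) =
    fun y => (∫ x in Set.Iic (0 : ℝ), f x) + ∫ x in (0 : ℝ)..y, f x from funext (cdf_eq hf)]
  exact continuous_const.add (intervalIntegral.continuous_primitive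
    (fun a b => hf.intervalIntegrable) 0)

include hf hf0 in
theorem cdf_mono : Monotone (fun y => ∫ x in Set.Iic y, f x) := by
  intro y z hyz
  exact setIntegral_mono_set hf.integrableOn (Eventually.of_forall fun x => hf0 x)
    (Eventually.of_forall fun x hx => le_trans hx hyz)

include hf0 in
theorem cdf_nonneg (y : ℝ) : 0 ≤ ∫ x in Set.Iic y, f x := integral_nonneg fun x => hf0 x

include hf hf0 in
theorem cdf_le (y : ℝ) : ∫ x in Set.Iic y, f x ≤ ∫ x, f x :=
  setIntegral_le_integral hf (Eventually.of_forall fun x => hf0 x)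

theorem cdf_atBot : Tendsto (fun y => ∫ x in Set.Iic y, f x) atBot (𝓝 0) :=
  tendsto_integral_Iic_zero tendsto_id

include hf in
theorem cdf_atTop : Tendsto (fun y => ∫ x in Set.Iic y, f x) atTop (𝓝 (∫ x, f x)) :=
  (aecover_Iic tendsto_id).integral_tendsto_of_countably_generated hf

include hf hf0 in
/-- the probability integral transform -/
theorem pit_aux (hA : 0 < ∫ x, f x) :
    (volume.withDensity fun y => ENNReal.ofReal (f y)).map
      (fun y => (∫ x in Set.Iic y, f x) / ∫ x, f x) =
      ENNReal.ofReal (∫ x, f x) • volume.restrict (Set.Icc (0 : ℝ) 1) := by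
  set A := ∫ x, f x with hAd
  set F : ℝ → ℝ := fun y => ∫ x in Set.Iic y, f x with hF
  have hFc : Continuous F := cdf_continuous hf
  have hFm : Monotone F := cdf_mono hf hf0
  have hF0 : ∀ y, 0 ≤ F y := cdf_nonneg hf0
  have hFA : ∀ y, F y ≤ A := cdf_le hf hf0
  have hmeas : Measurable fun y => F y / A := (hFc.div_const A).measurable
  have : IsFiniteMeasure (volume.withDensity fun y => ENNReal.ofReal (f y)) :=
    isFiniteMeasure_withDensity_ofReal hf.2
  have : IsFiniteMeasure ((volume.withDensity fun y => ENNReal.ofReal (f y)).map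
      (fun y => F y / A)) := Measure.isFiniteMeasure_map _ _
  apply Measure.ext_of_Iic
  intro s
  rw [Measure.map_apply hmeas measurableSet_Iic, Measure.smul_apply, Measure.restrict_apply
    measurableSet_Iic, smul_eq_mul]
  have hpre : ((fun y => F y / A) ⁻¹' Set.Iic s) = {y | F y ≤ s * A} := by
    ext y
    simp only [Set.mem_preimage, Set.mem_Iic, Set.mem_ofPred_eq]
    rw [div_le_iff₀ hA]
  rw [hpre]
  have hmS : MeasurableSet {y | F y ≤ s * A} := measurableSet_le hFc.measurable measurable_const
  rw [withDensity_apply _ hmS]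
  rcases lt_or_ge s 0 with hs | hs
  · have h1 : {y | F y ≤ s * A} = ∅ := by
      ext y
      simp only [Set.mem_ofPred_eq, Set.mem_empty_iff_false, iff_false, not_le]
      exact lt_of_lt_of_le (mul_neg_of_neg_of_pos hs hA) (hF0 y)
    have h2 : Set.Iic s ∩ Set.Icc (0 : ℝ) 1 = ∅ := by
      ext y
      simp only [Set.mem_inter_iff, Set.mem_Iic, Set.mem_Icc, Set.mem_empty_iff_false, iff_false]
      rintro ⟨h3, h4, h5⟩
      linarith
    rw [h1, h2]
    simp
  rcases le_or_gt 1 s with hs1 | hs1
  · have h1 : {y | F y ≤ s * A} = Set.univ := by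
      ext y
      simp only [Set.mem_ofPred_eq, Set.mem_univ, iff_true]
      nlinarith [hFA y]
    have h2 : Set.Iic s ∩ Set.Icc (0 : ℝ) 1 = Set.Icc 0 1 := by
      ext y
      simp only [Set.mem_inter_iff, Set.mem_Iic, Set.mem_Icc]
      constructor
      · rintro ⟨h3, h4⟩
        exact h4
      · rintro ⟨h4, h5⟩
        exact ⟨by linarith, h4, h5⟩
    rw [h1, h2, Measure.restrict_univ, ← ofReal_integral_eq_lintegral_ofReal hf
      (Eventually.of_forall hf0)]
    simp
    rfl
  -- main case `0 ≤ s < 1`
  have h2 : Set.Iic s ∩ Set.Icc (0 : ℝ) 1 = Set.Icc 0 s := by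
    ext y
    simp only [Set.mem_inter_iff, Set.mem_Iic, Set.mem_Icc]
    constructor
    · rintro ⟨h3, h4, h5⟩
      exact ⟨h4, h3⟩
    · rintro ⟨h4, h5⟩
      exact ⟨h5, h4, by linarith⟩
  rw [h2, Real.volume_Icc, sub_zero]
  have hsA : s * A < A := by nlinarith
  rcases Set.eq_empty_or_nonempty {y | F y ≤ s * A} with hemp | hne
  · have h3 : s * A ≤ 0 := by
      refine ge_of_tendsto (cdf_atBot (f := f)) (Eventually.of_forall fun y => ?_)
      have : y ∉ {y | F y ≤ s * A} := by rw [hemp]; exact Set.notMem_empty _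
      simp only [Set.mem_ofPred_eq, not_le] at this
      exact this.le
    have h4 : s = 0 := by
      by_contra h5
      have : 0 < s := lt_of_le_of_ne hs (Ne.symm h5)
      nlinarith [mul_pos this hA]
    rw [hemp, h4]
    simp
  · -- bounded above
    have hba : BddAbove {y | F y ≤ s * A} := by
      have := (cdf_atTop hf).eventually (lt_mem_nhds hsA)
      obtain ⟨b, hb⟩ := this.exists_forall_of_atTop
      refine ⟨b, fun y hy => ?_⟩
      by_contra h5
      push Not at h5
      exact absurd (hb y h5.le) (not_lt.2 hy)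
    set m := sSup {y | F y ≤ s * A} with hm
    have hcl : IsClosed {y | F y ≤ s * A} := isClosed_le hFc continuous_const
    have hmS' : F m ≤ s * A := hcl.csSup_mem hne hba
    have hgt : ∀ y, m < y → s * A < F y := by
      intro y hy
      by_contra h5
      push Not at h5
      exact absurd (le_csSup hba h5) (not_le.2 hy)
    have hFm' : F m = s * A := by
      apply le_antisymm hmS'
      have h6 : Tendsto F (𝓝[>] m) (𝓝 (F m)) := (hFc.tendsto m).mono_left nhdsWithin_le_nhds
      refine ge_of_tendsto h6 ?_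
      filter_upwards [self_mem_nhdsWithin] with y hy
      exact (hgt y hy).le
    have hset : {y | F y ≤ s * A} = Set.Iic m := by
      ext y
      simp only [Set.mem_ofPred_eq, Set.mem_Iic]
      constructor
      · intro hy
        by_contra h5
        push Not at h5
        exact absurd hy (not_le.2 (hgt y h5))
      · intro hy
        exact (hFm hy).trans hmS'
    rw [hset, ← ofReal_integral_eq_lintegral_ofReal hf.integrableOn (Eventually.of_forall hf0)]
    change ENNReal.ofReal (F m) = _
    rw [hFm', ENNReal.ofReal_mul hs, mul_comm]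

include hf hf0 in
/-- the probability integral transform -/
theorem pit (hfm : Measurable f) (hA : 0 < ∫ x, f x) (ψ : ℝ → ℝ≥0∞) (hψ : Measurable ψ) :
    ∫⁻ y, ψ ((∫ x in Set.Iic y, f x) / ∫ x, f x) * ENNReal.ofReal (f y) =
      ENNReal.ofReal (∫ x, f x) * ∫⁻ s in Set.Icc (0 : ℝ) 1, ψ s := by
  have h1 := pit_aux hf hf0 hA
  have h2 : ∫⁻ s, ψ s ∂((volume.withDensity fun y => ENNReal.ofReal (f y)).map
      (fun y => (∫ x in Set.Iic y, f x) / ∫ x, f x)) =
      ∫⁻ s, ψ s ∂(ENNReal.ofReal (∫ x, f x) • volume.restrict (Set.Icc (0 : ℝ) 1)) := by rw [h1]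
  have hmeas : Measurable fun y => (∫ x in Set.Iic y, f x) / ∫ x, f x :=
    ((cdf_continuous hf).div_const _).measurable
  have h3 := lintegral_withDensity_eq_lintegral_mul volume hfm.ennreal_ofReal (hψ.comp hmeas)
  simp only [Function.comp_apply] at h3
  rw [lintegral_map hψ hmeas, lintegral_smul_measure, h3] at h2
  rw [← smul_eq_mul, ← h2]
  apply lintegral_congr
  intro y
  simp only [Pi.mul_apply, Function.comp_apply]
  rw [mul_comm]

include hf hf0 in
/-- strict monotonicity at a.e. point with `f ≠ 0` -/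
theorem cdf_strict : ∀ᵐ y, f y ≠ 0 → ∀ t : ℚ, (t : ℝ) < y →
    ∫ x in Set.Iic (t : ℝ), f x < ∫ x in Set.Iic y, f x := by
  have h1 : ∀ t : ℚ, ∀ᵐ y, y ∈ {y | (t : ℝ) < y ∧
      ∫ x in Set.Iic y, f x ≤ ∫ x in Set.Iic (t : ℝ), f x} → f y = 0 := by
    intro t
    apply ae_of_mem_of_ae_of_mem_inter_Ioo
    intro a b ha hb hab
    have h2 : ∫ x in Set.Ioo a b, f x = 0 := by
      apply le_antisymm _ (integral_nonneg fun x => hf0 x)
      have h3 : ∫ x in a..b, f x ≤ 0 := by
        rw [← cdf_sub hf]
        have := cdf_mono hf hf0 ha.1.le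
        simp only at this
        linarith [hb.2]
      rw [intervalIntegral.integral_of_le hab.le, integral_Ioc_eq_integral_Ioo] at h3
      exact h3
    rw [setIntegral_eq_zero_iff_of_nonneg_ae (Eventually.of_forall fun x => hf0 x)
      hf.integrableOn] at h2
    rw [Filter.EventuallyEq, ae_restrict_iff' measurableSet_Ioo] at h2
    filter_upwards [h2] with y hy hy2
    exact hy hy2.2
  rw [← ae_all_iff] at h1
  filter_upwards [h1] with y hy hfy t ht
  by_contra h3
  push Not at h3
  exact hfy (hy t ⟨ht, h3⟩)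

include hf in
/-- Lebesgue differentiation -/
theorem cdf_deriv : ∀ᵐ y, HasDerivAt (fun y => ∫ x in Set.Iic y, f x) (f y) y := by
  filter_upwards [_root_.LocallyIntegrable.ae_hasDerivAt_integral hf.locallyIntegrable] with y hy
  rw [show (fun y => ∫ x in Set.Iic y, f x) =
    fun y => (∫ x in Set.Iic (0 : ℝ), f x) + ∫ x in (0 : ℝ)..y, f x from funext (cdf_eq hf)]
  exact (hy 0).const_add _

end

end Pool.Agent.W564.MY
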