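import Pool.Agent.W564.MY.Chain

/-!
# Weak derivatives from difference quotients; orbitals in `H¹`
-/

set_option autoImplicit false
set_option linter.unusedVariables false
set_option linter.unusedSimpArgs false
set_option linter.unusedSectionVars false

noncomputable section

namespace Pool.Agent.W564.MY

open MeasureTheory Filter Topology
open scoped ENNReal ComplexConjugate

section

variable {α : Type*} [MeasurableSpace α] {μ : Measure α}

theorem int_mul_c {f g : α → ℂ} (hf : MemLp f 2 μ) (hg : MemLp g 2 μ) :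
    Integrable (fun x => f x * g x) μ := MemLp.integrable_mul hf hg

theorem norm_integral_mul_le {f g : α → ℂ} (hf : MemLp f 2 μ) (hg : MemLp g 2 μ) :
    ‖∫ x, f x * g x ∂μ‖ ≤ Real.sqrt (∫ x, ‖f x‖ ^ 2 ∂μ) * Real.sqrt (∫ x, ‖g x‖ ^ 2 ∂μ) := by
  refine (norm_integral_le_integral_norm _).trans ?_
  have h1 := abs_cs_integral hf.norm hg.norm
  have h2 : ∫ x, ‖f x * g x‖ ∂μ = ∫ x, ‖f x‖ * ‖g x‖ ∂μ := by
    congr 1
    funext x
    exact norm_mul _ _
  rw [h2]
  exact (le_abs_self _).trans h1

theorem integral_norm_sq_toReal {φ : α → ℂ} (hφ : AEStronglyMeasurable φ μ) :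
    ∫ x, ‖φ x‖ ^ 2 ∂μ = (I2 μ φ).toReal := by
  rw [integral_eq_lintegral_of_nonneg_ae (Eventually.of_forall fun x => by positivity)
    (hφ.norm.aemeasurable.pow_const 2).aestronglyMeasurable]
  congr 1
  apply lintegral_congr
  intro x
  rw [ofReal_norm_sq]

end

section

variable {V : Type} [NormedAddCommGroup V] [NormedSpace ℝ V] [FiniteDimensional ℝ V]
  [MeasureSpace V] [BorelSpace V] [(volume : Measure V).IsAddHaarMeasure]

/-- `L²` limits of difference quotients are weak derivatives -/
theorem weakDir_of_dq (w : V) {φ g : V → ℂ} (hφ : MemLp φ 2) (hg : MemLp g 2)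
    (hlim : Tendsto (fun t => I2 volume (fun x => DQ w t φ x - g x)) (𝓝[≠] 0) (𝓝 0)) :
    WeakDir w φ g := by
  intro ψ hψ hψc
  have hψcont : Continuous ψ := hψ.continuous
  have hψ2 : MemLp ψ 2 volume := hψcont.memLp_of_hasCompactSupport hψc
  set t : ℕ → ℝ := fun n => 1 / ((n : ℝ) + 1) with htd
  have ht0 : ∀ n, t n ≠ 0 := fun n => by positivity
  have htl : Tendsto t atTop (𝓝 0) := tendsto_one_div_add_atTop_nhds_zero_nat
  have htr : ∀ n, MemLp (fun x => φ (x + t n • w)) 2 volume := fun n =>
    hφ.comp_measurePreserving (measurePreserving_add_right volume (t n • w))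
  have hdq : ∀ n, MemLp (DQ w (t n) φ) 2 volume := fun n =>
    ((htr n).sub hφ).const_mul ((t n : ℂ)⁻¹)
  -- first limit
  have h1 : Tendsto (fun n => ∫ x, DQ w (t n) φ x * ψ x) atTop (𝓝 (∫ x, g x * ψ x)) := by
    rw [tendsto_iff_norm_sub_tendsto_zero]
    have h2 : Tendsto (fun n => Real.sqrt (∫ x, ‖DQ w (t n) φ x - g x‖ ^ 2) *
        Real.sqrt (∫ x, ‖ψ x‖ ^ 2)) atTop (𝓝 0) := by
      have h3 : Tendsto (fun n => ∫ x, ‖DQ w (t n) φ x - g x‖ ^ 2) atTop (𝓝 0) := by
        have h4 : ∀ n, ∫ x, ‖DQ w (t n) φ x - g x‖ ^ 2 =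
            (I2 volume (fun x => DQ w (t n) φ x - g x)).toReal := fun n =>
          integral_norm_sq_toReal ((hdq n).1.sub hg.1)
        simp_rw [h4]
        have := (ENNReal.tendsto_toReal ENNReal.zero_ne_top).comp (hlim.comp
          (tendsto_nhdsWithin_iff.2 ⟨htl, Eventually.of_forall ht0⟩))
        simpa [Function.comp_def] using this
      have := ((Real.continuous_sqrt.tendsto 0).comp h3).mul_const (Real.sqrt (∫ x, ‖ψ x‖ ^ 2))
      simpa [Function.comp_def] using this
    refine squeeze_zero (fun n => norm_nonneg _) (fun n => ?_) h2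
    have h5 : (∫ x, DQ w (t n) φ x * ψ x) - ∫ x, g x * ψ x =
        ∫ x, (DQ w (t n) φ x - g x) * ψ x := by
      rw [← integral_sub (int_mul_c (hdq n) hψ2) (int_mul_c hg hψ2)]
      congr 1
      funext x
      ring
    rw [h5]
    exact norm_integral_mul_le ((hdq n).sub hg) hψ2
  -- summation by parts
  have h6 : ∀ n, ∫ x, DQ w (t n) φ x * ψ x = -∫ x, φ x * DQ w (-t n) ψ x := by
    intro n
    have e1 : ∫ x, φ (x + t n • w) * ψ x = ∫ x, φ x * ψ (x + (-t n) • w) := by
      rw [← integral_add_right_eq_self (fun x => φ x * ψ (x + (-t n) • w)) (t n • w)]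
      congr 1
      funext x
      congr 2
      rw [add_assoc, neg_smul, add_neg_cancel, add_zero]
    have htr2 : MemLp (fun x => ψ (x + (-t n) • w)) 2 volume :=
      hψ2.comp_measurePreserving (measurePreserving_add_right volume ((-t n) • w))
    have e2 : ∀ x, DQ w (t n) φ x * ψ x = (t n : ℂ)⁻¹ * (φ (x + t n • w) * ψ x - φ x * ψ x) := by
      intro x
      unfold DQ
      ring
    have e3 : ∀ x, φ x * DQ w (-t n) ψ x =
        -((t n : ℂ)⁻¹ * (φ x * ψ (x + (-t n) • w) - φ x * ψ x)) := by
      intro x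
      unfold DQ
      push_cast
      rw [inv_neg]
      ring
    simp_rw [e2, e3]
    rw [integral_neg, neg_neg, integral_const_mul, integral_const_mul,
      integral_sub (int_mul_c (htr n) hψ2) (int_mul_c hφ hψ2),
      integral_sub (int_mul_c hφ htr2) (int_mul_c hφ hψ2), e1]
  -- second limit
  have h7 : Tendsto (fun n => ∫ x, φ x * DQ w (-t n) ψ x) atTop
      (𝓝 (∫ x, φ x * fderiv ℝ ψ x w)) := by
    -- a Lipschitz constant
    have hd : Continuous fun x => fderiv ℝ ψ x := hψ.continuous_fderiv (by simp)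
    obtain ⟨C, hC⟩ := (hψc.fderiv (𝕜 := ℝ)).exists_bound_of_continuous hd
    have hC0 : 0 ≤ C := (norm_nonneg _).trans (hC 0)
    -- compact set containing all supports
    set K : Set V := (fun p : V × ℝ => p.1 + p.2 • w) '' (tsupport ψ ×ˢ Set.Icc (0 : ℝ) 1) with hK
    have hKc : IsCompact K := (hψc.isCompact.prod isCompact_Icc).image
      (continuous_fst.add (continuous_snd.smul continuous_const))
    have hbd : ∀ n x, ‖DQ w (-t n) ψ x‖ ≤ C * ‖w‖ := by
      intro n x
      have h8 : ‖ψ (x + (-t n) • w) - ψ x‖ ≤ C * ‖(x + (-t n) • w) - x‖ :=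
        Convex.norm_image_sub_le_of_norm_fderiv_le (𝕜 := ℝ) (s := Set.univ)
          (fun y _ => (hψ.differentiable (by simp)) y) (fun y _ => hC y) convex_univ
          (Set.mem_univ _) (Set.mem_univ _)
      unfold DQ
      rw [norm_mul, norm_inv]
      rw [add_sub_cancel_left, norm_smul, norm_neg, Real.norm_eq_abs] at h8
      push_cast
      rw [norm_neg, Complex.norm_real, Real.norm_eq_abs]
      have htp : 0 < |t n| := abs_pos.2 (ht0 n)
      rw [inv_mul_le_iff₀ htp]
      linarith
    have hsupp : ∀ n x, x ∉ K → DQ w (-t n) ψ x = 0 := by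
      intro n x hx
      have h9 : ψ x = 0 := by
        by_contra h10
        apply hx
        exact ⟨(x, 0), ⟨subset_tsupport ψ h10, by simp⟩, by simp⟩
      have h11 : ψ (x + (-t n) • w) = 0 := by
        by_contra h10
        apply hx
        refine ⟨(x + (-t n) • w, t n), ⟨subset_tsupport ψ h10, ?_, ?_⟩, ?_⟩
        · simp only [htd]
          positivity
        · simp only [htd]
          rw [div_le_one (by positivity)]
          linarith [Nat.cast_nonneg (α := ℝ) n]
        · simp only
          rw [add_assoc, neg_smul, neg_add_cancel, add_zero]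
      unfold DQ
      rw [h9, h11]
      simp
    apply tendsto_integral_of_dominated_convergence
      (fun x => ‖φ x‖ * K.indicator (fun _ => C * ‖w‖) x)
    · intro n
      have : Continuous (DQ w (-t n) ψ) := by
        unfold DQ
        exact continuous_const.mul ((hψcont.comp (continuous_add_const _)).sub hψcont)
      exact hφ.1.mul this.aestronglyMeasurable
    · have h12 : MemLp (K.indicator (fun _ => C * ‖w‖)) 2 volume :=
        memLp_indicator_const 2 hKc.measurableSet _ (Or.inr hKc.measure_lt_top.ne)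
      exact hφ.norm.integrable_mul h12
    · intro n
      refine Eventually.of_forall fun x => ?_
      rw [norm_mul]
      apply mul_le_mul_of_nonneg_left _ (norm_nonneg _)
      by_cases hx : x ∈ K
      · rw [Set.indicator_of_mem hx]
        exact hbd n x
      · rw [Set.indicator_of_notMem hx, hsupp n x hx, norm_zero]
    · refine Eventually.of_forall fun x => ?_
      apply Tendsto.const_mul
      have h13 : HasFDerivAt ψ (fderiv ℝ ψ x) x := ((hψ.differentiable (by simp)) x).hasFDerivAt
      have h14 : HasDerivAt (fun s : ℝ => ψ (x + s • w)) (fderiv ℝ ψ x w) 0 := by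
        have h15 : HasFDerivAt ψ (fderiv ℝ ψ x) (x + (0 : ℝ) • w) := by simpa using h13
        have h16 : HasDerivAt (fun s : ℝ => x + s • w) w 0 := by
          simpa using ((hasDerivAt_id (0 : ℝ)).smul_const w).const_add x
        exact h15.comp_hasDerivAt (0 : ℝ) h16
      rw [hasDerivAt_iff_tendsto_slope_zero] at h14
      have hneg : Tendsto (fun n => -t n) atTop (𝓝[≠] 0) := by
        rw [tendsto_nhdsWithin_iff]
        refine ⟨by simpa using htl.neg, Eventually.of_forall fun n => ?_⟩
        simpa using ht0 n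
      refine (h14.comp hneg).congr fun n => ?_
      simp [DQ]
  have h8 : Tendsto (fun n => ∫ x, DQ w (t n) φ x * ψ x) atTop
      (𝓝 (-∫ x, φ x * fderiv ℝ ψ x w)) := by
    simp_rw [h6]
    exact h7.neg
  have h9 := tendsto_nhds_unique h1 h8
  rw [h9, neg_neg]

/-- orbitals are square integrable -/
theorem memLp_orb {d : ℕ} {e : Fin d → V} {u : V → ℝ} {h : V → V → ℝ} {S : V → E d}
    {Y : Fin d → V → V → ℝ} (H : HypH u h) (D : KD d e u S Y) {F : E d → ℂ}
    (hF : ContDiff ℝ 1 F) : MemLp (orb u S F) 2 volume := by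
  obtain ⟨K, hK, h1, h2, h3⟩ := box_const hF
  have hu : MemLp u 2 volume := memLp_of_I2 H.meas.aestronglyMeasurable H.uL2
  refine (hu.const_mul K).of_le (measurable_orb H.meas D.Smeas hF).aestronglyMeasurable
    (Eventually.of_forall fun x => ?_)
  unfold orb
  rw [norm_mul, Complex.norm_real, norm_mul, Real.norm_of_nonneg hK, mul_comm]
  exact mul_le_mul_of_nonneg_right (h1 _ (mem_box (D.box x))) (norm_nonneg _)

theorem memLp_orbD {d : ℕ} {e : Fin d → V} {u : V → ℝ} {h : V → V → ℝ} {S : V → E d}
    {Y : Fin d → V → V → ℝ} (H : HypH u h) (D : KD d e u S Y) {F : E d → ℂ}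
    (hF : ContDiff ℝ 1 F) (w : V) : MemLp (orbD h S Y F w) 2 volume := by
  obtain ⟨K, hK, h1, h2, h3⟩ := box_const hF
  have hh : MemLp (h w) 2 volume := memLp_of_I2 (H.hmeas w).aestronglyMeasurable (H.hL2 w)
  have hY : ∀ j, MemLp (Y j w) 2 volume := fun j =>
    memLp_of_I2 (D.Ymeas j w).aestronglyMeasurable (D.YL2 j w)
  have e1 : orbD h S Y F w = (fun x => (h w x : ℂ) * F (S x)) +
      fun x => ∑ j, (Y j w x : ℂ) * fderiv ℝ F (S x) (Pi.single j (1 : ℝ)) := by
    funext x
    simp [orbD]
  rw [e1]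
  apply MemLp.add
  · refine (hh.const_mul K).of_le ((Complex.measurable_ofReal.comp (H.hmeas w)).mul
      (hF.continuous.measurable.comp D.Smeas)).aestronglyMeasurable
      (Eventually.of_forall fun x => ?_)
    rw [norm_mul, Complex.norm_real, norm_mul, Real.norm_of_nonneg hK, mul_comm]
    exact mul_le_mul_of_nonneg_right (h1 _ (mem_box (D.box x))) (norm_nonneg _)
  · apply memLp_finsetSum
    intro j _
    have hc : Continuous fun s => fderiv ℝ F s (Pi.single j (1 : ℝ)) :=
      (hF.continuous_fderiv one_ne_zero).clm_apply continuous_const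
    refine ((hY j).const_mul K).of_le ((Complex.measurable_ofReal.comp (D.Ymeas j w)).mul
      (hc.measurable.comp D.Smeas)).aestronglyMeasurable
      (Eventually.of_forall fun x => ?_)
    rw [norm_mul, Complex.norm_real, norm_mul, Real.norm_of_nonneg hK, mul_comm]
    exact mul_le_mul_of_nonneg_right (h2 _ (mem_box (D.box x)) j) (norm_nonneg _)

/-- orbitals have weak derivatives -/
theorem weakDir_orb {d : ℕ} {e : Fin d → V} {u : V → ℝ} {h : V → V → ℝ} {S : V → E d}
    {Y : Fin d → V → V → ℝ} (H : HypH u h) (D : KD d e u S Y) {F : E d → ℂ}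
    (hF : ContDiff ℝ 1 F) (w : V) : WeakDir w (orb u S F) (orbD h S Y F w) :=
  weakDir_of_dq w (memLp_orb H D hF) (memLp_orbD H D hF w) (chain H D hF w)

/-- change of variables for Bochner integrals -/
theorem integral_push {d : ℕ} {e : Fin d → V} {u : V → ℝ} {h : V → V → ℝ} {S : V → E d}
    {Y : Fin d → V → V → ℝ} (H : HypH u h) (D : KD d e u S Y) {G : E d → ℂ}
    (hG : Continuous G) :
    ∫ x, ((u x ^ 2 : ℝ) : ℂ) * G (S x) = ∫ s in Set.Icc (0 : E d) 1, G s := by
  set ν : Measure V := volume.withDensity (fun x => ENNReal.ofReal (u x ^ 2)) with hν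
  have h1 : ν.map S = volume.restrict (Set.Icc (0 : E d) 1) := by
    ext A hA
    rw [Measure.map_apply D.Smeas hA, hν, withDensity_apply _ (D.Smeas hA),
      Measure.restrict_apply hA]
    have := D.push (A.indicator fun _ => 1) (measurable_const.indicator hA)
    rw [← lintegral_indicator (D.Smeas hA)]
    have e1 : ∀ x, (S ⁻¹' A).indicator (fun x => ENNReal.ofReal (u x ^ 2)) x =
        (A.indicator (fun _ => (1 : ℝ≥0∞)) (S x)) * ENNReal.ofReal (u x ^ 2) := by
      intro x
      by_cases hx : S x ∈ A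
      · rw [Set.indicator_of_mem (show x ∈ S ⁻¹' A from hx), Set.indicator_of_mem hx, one_mul]
      · rw [Set.indicator_of_notMem (show x ∉ S ⁻¹' A from hx), Set.indicator_of_notMem hx,
          zero_mul]
    simp_rw [e1]
    rw [this, lintegral_indicator hA, Measure.restrict_restrict hA]
    simp
  rw [← h1, integral_map D.Smeas.aemeasurable hG.aestronglyMeasurable, hν]
  have h2 := integral_withDensity_eq_integral_smul (μ := (volume : Measure V))
    (f := fun x => Real.toNNReal (u x ^ 2)) (H.meas.pow_const 2).real_toNNReal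
    (fun x => G (S x))
  have h3 : (fun x => ENNReal.ofReal (u x ^ 2)) = fun x => ((Real.toNNReal (u x ^ 2) : NNReal) : ℝ≥0∞) :=
    rfl
  rw [h3, h2]
  congr 1
  funext x
  rw [NNReal.smul_def, Real.coe_toNNReal _ (sq_nonneg _), Complex.real_smul]

/-- orthogonality relations -/
theorem orb_inner {d : ℕ} {e : Fin d → V} {u : V → ℝ} {h : V → V → ℝ} {S : V → E d}
    {Y : Fin d → V → V → ℝ} (H : HypH u h) (D : KD d e u S Y) {F G : E d → ℂ}
    (hF : Continuous F) (hG : Continuous G) :
    ∫ x, orb u S F x * conj (orb u S G x) = ∫ s in Set.Icc (0 : E d) 1, F s * conj (G s) := by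
  rw [← integral_push H D (G := fun s => F s * conj (G s))
    (hF.mul (Complex.continuous_conj.comp hG))]
  congr 1
  funext x
  unfold orb
  rw [map_mul, Complex.conj_ofReal]
  push_cast
  ring

end

end Pool.Agent.W564.MY
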