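import Pool.Agent.W564.MY.Cells2

/-!
# Orbitals with the semiclassical kinetic energy and prescribed density
-/

set_option autoImplicit false
set_option linter.unusedVariables false
set_option linter.unusedSimpArgs false
set_option linter.unusedSectionVars false

noncomputable section

namespace Pool.Agent.W564.MY

open MeasureTheory Filter Topology
open scoped ENNReal ComplexConjugate

theorem fderiv_eq_of_update {d : ℕ} {F : E d → ℂ} {s : E d} {j : Fin d} {D : ℂ}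
    (hF : DifferentiableAt ℝ F s)
    (h : HasDerivAt (fun t : ℝ => F (Function.update s j t)) D (s j)) :
    fderiv ℝ F s (Pi.single j (1 : ℝ)) = D := by
  have h1 : HasFDerivAt F (fderiv ℝ F s) (Function.update s j (s j)) := by
    rw [Function.update_eq_self]
    exact hF.hasFDerivAt
  have h2 := h1.comp_hasDerivAt (s j) (hasDerivAt_update s j (s j))
  exact h2.unique h

theorem Kcl_nonneg (d : ℕ) : 0 ≤ Kcl d := by
  unfold Kcl ballVol
  positivity

variable {d : ℕ} {u : E d → ℝ} {h : E d → E d → ℝ} {S : E d → E d}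
  {Y : Fin d → E d → E d → ℝ}

/-- the square of the gradient of one orbital -/
theorem orb_grad_sq {a : E d → ℝ} {b : Fin d → E d → ℝ} {len : Fin d → ℝ}
    {F : (Fin d → ℤ) → E d → ℂ} (HF : Fam d a b len F) (k : Fin d → ℤ) (w x : E d) :
    ‖orbD h S Y (F k) w x‖ ^ 2 = ((h w x * a (S x) + ∑ j, Y j w x * b j (S x)) ^ 2 +
      (a (S x) * ∑ j, Y j w x * (2 * Real.pi * k j / len j)) ^ 2) / ∏ j, len j := by
  obtain ⟨z, hz, hz1, hz2⟩ := HF.ph k (S x)
  have hL : 0 < ∏ j, len j := Finset.prod_pos fun j _ => HF.pos j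
  have hd : ∀ j, fderiv ℝ (F k) (S x) (Pi.single j (1 : ℝ)) =
      ((b j (S x) : ℂ) + (2 * Real.pi * k j / len j * a (S x) : ℝ) * Complex.I) * z /
        ((Real.sqrt (∏ j, len j) : ℝ) : ℂ) := fun j =>
    fderiv_eq_of_update ((HF.smooth k).differentiable (by simp) _) (hz2 j)
  have h1 : orbD h S Y (F k) w x =
      (((h w x * a (S x) + ∑ j, Y j w x * b j (S x) : ℝ) : ℂ) +
        ((a (S x) * ∑ j, Y j w x * (2 * Real.pi * k j / len j) : ℝ) : ℂ) * Complex.I) * z /
        ((Real.sqrt (∏ j, len j) : ℝ) : ℂ) := by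
    unfold orbD
    simp_rw [hd]
    rw [hz1]
    push_cast
    have e1 : ∑ j, (Y j w x : ℂ) * (((b j (S x) : ℂ) + (2 * Real.pi * k j / len j * a (S x)) *
        Complex.I) * z / ((Real.sqrt (∏ j, len j) : ℝ) : ℂ)) =
        ((∑ j, (Y j w x : ℂ) * b j (S x)) + (a (S x) * ∑ j, (Y j w x : ℂ) *
          (2 * Real.pi * k j / len j)) * Complex.I) * z /
          ((Real.sqrt (∏ j, len j) : ℝ) : ℂ) := by
      rw [Finset.mul_sum, Finset.sum_mul, ← Finset.sum_add_distrib, Finset.sum_mul,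
        Finset.sum_div]
      apply Finset.sum_congr rfl
      intro j _
      ring
    rw [e1]
    ring
  rw [h1, norm_div, norm_mul, hz, mul_one, div_pow]
  rw [Complex.norm_real, Real.norm_of_nonneg (Real.sqrt_nonneg _), Real.sq_sqrt hL.le]
  congr 1
  rw [← Complex.normSq_eq_norm_sq, Complex.normSq_add_mul_I]

theorem orb_norm_sq {a : E d → ℝ} {b : Fin d → E d → ℝ} {len : Fin d → ℝ}
    {F : (Fin d → ℤ) → E d → ℂ} (HF : Fam d a b len F) (k : Fin d → ℤ) (x : E d) :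
    ‖orb u S (F k) x‖ ^ 2 = u x ^ 2 * a (S x) ^ 2 / ∏ j, len j := by
  obtain ⟨z, hz, hz1, hz2⟩ := HF.ph k (S x)
  have hL : 0 < ∏ j, len j := Finset.prod_pos fun j _ => HF.pos j
  unfold orb
  rw [hz1, norm_mul, norm_div, norm_mul, hz, mul_one, Complex.norm_real, Complex.norm_real,
    Complex.norm_real, Real.norm_of_nonneg (Real.sqrt_nonneg _), mul_pow, div_pow,
    Real.sq_sqrt hL.le, Real.norm_eq_abs, Real.norm_eq_abs, sq_abs, sq_abs]
  ring

/-- the energy density of the whole system -/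
theorem energy_density (hd : 0 < d) {N J : ℕ} {p lam C ε : ℝ} {ι : Type} [Fintype ι]
    [DecidableEq ι] {a : ι → E d → ℝ} {b : ι → Fin d → E d → ℝ} {len : ι → Fin d → ℝ} {n : ι → ℕ}
    {F : ι → (Fin d → ℤ) → E d → ℂ} {cell : ι → Prop} (P : SysP d N J p lam C a b len n F cell)
    (hC : 0 ≤ C) (hε : 0 ≤ ε)
    (K : ι → Finset (Fin d → ℤ)) (hK : ∀ c, (K c).card = n c) (B : ι → Fin d → Fin d → ℝ)
    (hB : ∀ c, ∀ v : Fin d → ℝ, ∑ k ∈ K c, (∑ j, v j * (2 * Real.pi * k j / len c j)) ^ 2 ≤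
      (N : ℝ) ^ (2 / (d : ℝ)) * (N * ∏ j, len c j) * (Kcl d / d + ε) *
        ∑ m, (∑ j, B c j m * v j) ^ 2) (x : E d) (hSx : S x ∈ Set.Icc (0 : E d) 1) :
    ∑ c, ∑ k ∈ K c, ∑ i, ‖orbD h S Y (F c k) (Pi.single i (1 : ℝ)) x‖ ^ 2 ≤
      (2 * N * (∑ i, h (Pi.single i (1 : ℝ)) x ^ 2) +
        2 * N * (Fintype.card ι * d * C ^ 2) * fro (Mx Y x)) +
      (N : ℝ) ^ (1 + 2 / (d : ℝ)) * (Kcl d / d + ε) * ∑ c, a c (S x) ^ 2 * qf (B c) (Mx Y x) := by
  have hN0 : (0 : ℝ) ≤ N := Nat.cast_nonneg N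
  -- one component
  have h1 : ∀ c, ∑ k ∈ K c, ∑ i, ‖orbD h S Y (F c k) (Pi.single i (1 : ℝ)) x‖ ^ 2 ≤
      (2 * N * (∑ i, h (Pi.single i (1 : ℝ)) x ^ 2) * a c (S x) ^ 2 +
        2 * N * (d * C ^ 2) * fro (Mx Y x)) +
      (N : ℝ) ^ (1 + 2 / (d : ℝ)) * (Kcl d / d + ε) * (a c (S x) ^ 2 * qf (B c) (Mx Y x)) := by
    intro c
    have HF := P.fam c
    have hL : 0 < ∏ j, len c j := Finset.prod_pos fun j _ => HF.pos j
    have hn := P.hn c
    have e1 : ∑ k ∈ K c, ∑ i, ‖orbD h S Y (F c k) (Pi.single i (1 : ℝ)) x‖ ^ 2 =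
        ∑ i, (((n c : ℝ) / ∏ j, len c j) * (h (Pi.single i (1 : ℝ)) x * a c (S x) +
          ∑ j, Y j (Pi.single i (1 : ℝ)) x * b c j (S x)) ^ 2 +
          (a c (S x) ^ 2 / ∏ j, len c j) * ∑ k ∈ K c, (∑ j, Y j (Pi.single i (1 : ℝ)) x *
            (2 * Real.pi * k j / len c j)) ^ 2) := by
      rw [Finset.sum_comm]
      apply Finset.sum_congr rfl
      intro i _
      simp_rw [orb_grad_sq HF, add_div, mul_pow]
      rw [Finset.sum_add_distrib, Finset.sum_const, hK c, nsmul_eq_mul, Finset.mul_sum]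
      congr 1
      · ring
      · apply Finset.sum_congr rfl
        intro k _
        ring
    rw [e1]
    have e2 : (n c : ℝ) / ∏ j, len c j = N := by
      rw [hn]
      field_simp
    rw [e2]
    have h2 : ∀ i, N * (h (Pi.single i (1 : ℝ)) x * a c (S x) +
        ∑ j, Y j (Pi.single i (1 : ℝ)) x * b c j (S x)) ^ 2 ≤
        2 * N * h (Pi.single i (1 : ℝ)) x ^ 2 * a c (S x) ^ 2 +
          2 * N * (d * C ^ 2) * ∑ j, Y j (Pi.single i (1 : ℝ)) x ^ 2 := by
      intro i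
      have f1 : (∑ j, Y j (Pi.single i (1 : ℝ)) x * b c j (S x)) ^ 2 ≤
          (∑ j, Y j (Pi.single i (1 : ℝ)) x ^ 2) * (d * C ^ 2) := by
        refine (Finset.sum_mul_sq_le_sq_mul_sq _ _ _).trans ?_
        apply mul_le_mul_of_nonneg_left _ (Finset.sum_nonneg fun j _ => sq_nonneg _)
        calc ∑ j, b c j (S x) ^ 2 ≤ ∑ j : Fin d, C ^ 2 := by
              apply Finset.sum_le_sum
              intro j _
              rw [← sq_abs]
              exact pow_le_pow_left₀ (abs_nonneg _) (P.bb c j _) 2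
          _ = d * C ^ 2 := by simp
      have f2 : (h (Pi.single i (1 : ℝ)) x * a c (S x) +
          ∑ j, Y j (Pi.single i (1 : ℝ)) x * b c j (S x)) ^ 2 ≤
          2 * (h (Pi.single i (1 : ℝ)) x * a c (S x)) ^ 2 +
          2 * (∑ j, Y j (Pi.single i (1 : ℝ)) x * b c j (S x)) ^ 2 := by
        nlinarith [sq_nonneg (h (Pi.single i (1 : ℝ)) x * a c (S x) -
          ∑ j, Y j (Pi.single i (1 : ℝ)) x * b c j (S x))]
      have f3 := mul_le_mul_of_nonneg_left f2 hN0
      have f4 := mul_le_mul_of_nonneg_left f1 hN0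
      nlinarith
    have h3 : ∀ i, (a c (S x) ^ 2 / ∏ j, len c j) * ∑ k ∈ K c,
        (∑ j, Y j (Pi.single i (1 : ℝ)) x * (2 * Real.pi * k j / len c j)) ^ 2 ≤
        (N : ℝ) ^ (1 + 2 / (d : ℝ)) * (Kcl d / d + ε) * (a c (S x) ^ 2 *
          ∑ m, (∑ j, B c j m * Y j (Pi.single i (1 : ℝ)) x) ^ 2) := by
      intro i
      have f1 := hB c (fun j => Y j (Pi.single i (1 : ℝ)) x)
      have f2 : (a c (S x) ^ 2 / ∏ j, len c j) * ∑ k ∈ K c,
          (∑ j, Y j (Pi.single i (1 : ℝ)) x * (2 * Real.pi * k j / len c j)) ^ 2 ≤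
          (a c (S x) ^ 2 / ∏ j, len c j) * ((N : ℝ) ^ (2 / (d : ℝ)) * (N * ∏ j, len c j) *
            (Kcl d / d + ε) * ∑ m, (∑ j, B c j m * Y j (Pi.single i (1 : ℝ)) x) ^ 2) :=
        mul_le_mul_of_nonneg_left f1 (by positivity)
      refine f2.trans (le_of_eq ?_)
      rcases Nat.eq_zero_or_pos N with hN | hN
      · subst hN
        have : (1 + 2 / (d : ℝ)) ≠ 0 := by positivity
        simp [Real.zero_rpow this]
      · have hNr : (0 : ℝ) < N := by exact_mod_cast hN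
        rw [Real.rpow_add hNr, Real.rpow_one]
        field_simp
    calc ∑ i, (N * (h (Pi.single i (1 : ℝ)) x * a c (S x) +
          ∑ j, Y j (Pi.single i (1 : ℝ)) x * b c j (S x)) ^ 2 +
          (a c (S x) ^ 2 / ∏ j, len c j) * ∑ k ∈ K c, (∑ j, Y j (Pi.single i (1 : ℝ)) x *
            (2 * Real.pi * k j / len c j)) ^ 2)
        ≤ ∑ i, ((2 * N * h (Pi.single i (1 : ℝ)) x ^ 2 * a c (S x) ^ 2 +
          2 * N * (d * C ^ 2) * ∑ j, Y j (Pi.single i (1 : ℝ)) x ^ 2) +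
          (N : ℝ) ^ (1 + 2 / (d : ℝ)) * (Kcl d / d + ε) * (a c (S x) ^ 2 *
            ∑ m, (∑ j, B c j m * Y j (Pi.single i (1 : ℝ)) x) ^ 2)) :=
          Finset.sum_le_sum fun i _ => add_le_add (h2 i) (h3 i)
      _ = _ := by
          rw [Finset.sum_add_distrib, Finset.sum_add_distrib]
          congr 1
          · congr 1
            · rw [Finset.mul_sum, Finset.sum_mul]
            · rw [← Finset.mul_sum]
              congr 1
              unfold fro Mx
              rw [Finset.sum_comm]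
          · rw [← Finset.mul_sum, ← Finset.mul_sum]
            rfl
  refine (Finset.sum_le_sum fun c _ => h1 c).trans (le_of_eq ?_)
  rw [Finset.sum_add_distrib, Finset.sum_add_distrib, ← Finset.mul_sum, P.part _ hSx,
    Finset.sum_const, Finset.card_univ, ← Finset.mul_sum, nsmul_eq_mul]
  ring

end Pool.Agent.W564.MY
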