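import Pool.Agent.W564.MY.ThmU

/-!
# Theorem U
-/

set_option autoImplicit false
set_option linter.unusedVariables false
set_option linter.unusedSimpArgs false
set_option linter.unusedSectionVars false

noncomputable section

namespace Pool.Agent.W564.MY

open MeasureTheory Filter Topology
open scoped ENNReal ComplexConjugate

variable {d : ℕ} {u : E d → ℝ} {h : E d → E d → ℝ}

/-- the Thomas-Fermi power is integrable -/
theorem integrable_tgt (hd : 0 < d) (H : HypH u h) :
    Integrable (fun x => (u x ^ 2) ^ (1 + 2 / (d : ℝ))) := by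
  obtain ⟨S, Y, D⟩ := exists_KD d u h H
  have hdr : (0 : ℝ) < d := by exact_mod_cast hd
  have h1 : Integrable (tgt u) := by
    refine ⟨(measurable_tgt H.meas).aestronglyMeasurable, ?_⟩
    rw [hasFiniteIntegral_iff_ofReal (Eventually.of_forall fun x => tgt_nonneg u x)]
    exact lintegral_tgt_lt hd H D
  have h2 := h1.const_mul (1 / (d : ℝ))
  refine h2.congr (Eventually.of_forall fun x => ?_)
  simp only [tgt]
  field_simp

theorem lintegral_tgt_eq (hd : 0 < d) (H : HypH u h) :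
    ∫⁻ x, ENNReal.ofReal (tgt u x) =
      ENNReal.ofReal (d * ∫ x, (u x ^ 2) ^ (1 + 2 / (d : ℝ))) := by
  rw [← integral_const_mul]
  exact (ofReal_integral_eq_lintegral_ofReal ((integrable_tgt hd H).const_mul _)
    (Eventually.of_forall fun x => tgt_nonneg u x)).symm

theorem small_eps {κ T ε : ℝ} (hκ : 0 ≤ κ) (hT : 0 ≤ T) (hε : 0 < ε) :
    ∃ ε1 : ℝ, 0 < ε1 ∧ (κ + ε1) * (T + ε1) + ε1 ≤ κ * T + ε := by
  refine ⟨min 1 (ε / (κ + T + 2)), lt_min one_pos (by positivity), ?_⟩
  set ε1 := min 1 (ε / (κ + T + 2)) with h1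
  have h2 : ε1 ≤ 1 := min_le_left _ _
  have h3 : ε1 ≤ ε / (κ + T + 2) := min_le_right _ _
  have h4 : 0 < ε1 := lt_min one_pos (by positivity)
  rw [le_div_iff₀ (by positivity)] at h3
  nlinarith

/-- orbitals with prescribed density and asymptotically optimal kinetic energy -/
theorem thmU (hw : S_win) (hl : S_lattice) (hd : 0 < d) (H : HypH u h) {ε : ℝ} (hε : 0 < ε) :
    ∃ N₀ : ℕ, ∀ N : ℕ, N₀ ≤ N → ∃ (φ : Fin N → E d → ℂ) (g : Fin N → Fin d → E d → ℂ),
      (∀ a, IsH1 (φ a) (g a)) ∧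
      (∀ a b, ∫ x, φ a x * conj (φ b x) = if a = b then 1 else 0) ∧
      (∀ x, ∑ a, ‖φ a x‖ ^ 2 = N * u x ^ 2) ∧
      ∑ a, ∑ c, ∫ x, ‖g a c x‖ ^ 2 ≤ (N : ℝ) ^ (1 + 2 / (d : ℝ)) *
        (Kcl d * (∫ x, (u x ^ 2) ^ (1 + 2 / (d : ℝ))) + ε) := by
  have hdr : (0 : ℝ) < d := by exact_mod_cast hd
  obtain ⟨S, Y, D⟩ := exists_KD d u h H
  set T : ℝ := ∫ x, (u x ^ 2) ^ (1 + 2 / (d : ℝ)) with hT
  have hT0 : 0 ≤ T := integral_nonneg fun x => by positivity
  have hκ : 0 ≤ Kcl d / d := div_nonneg (Kcl_nonneg d) hdr.le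
  obtain ⟨ε1, hε1, hε1'⟩ := small_eps hκ (mul_nonneg hdr.le hT0) hε
  have hκT : Kcl d / d * (d * T) = Kcl d * T := by field_simp
  rw [hκT] at hε1'
  -- cells
  obtain ⟨ℬ, hℬf, hℬd, J, p, R, hJ, hp, hp4, hRm, hRi, hRA⟩ := cells hd H D
    (ε := ENNReal.ofReal ε1) (by simpa using hε1)
  rw [lintegral_tgt_eq hd H, ← hT, ← ENNReal.ofReal_add (by positivity) hε1.le] at hRi
  obtain ⟨lam, C, hlam, hC, hsys⟩ := exists_sys hw hJ hp hp4
  obtain ⟨ι, _, _, Ns, hNs⟩ := hsys d
  -- lattice points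
  have hlat : ∀ᶠ N : ℕ in atTop, ∀ B ∈ ℬ, ∀ len : Fin d → ℝ,
      (∀ j, lam ≤ len j ∧ len j ≤ 1) → ∀ n : ℕ, (n : ℝ) ≤ N * ∏ j, len j →
        ∃ K : Finset (Fin d → ℤ), K.card = n ∧ ∀ v : Fin d → ℝ,
          ∑ k ∈ K, (∑ j, v j * (2 * Real.pi * k j / len j)) ^ 2 ≤
            (N : ℝ) ^ (2 / (d : ℝ)) * (N * ∏ j, len j) * (Kcl d / d + ε1) *
              ∑ m, (∑ j, B j m * v j) ^ 2 := by
    rw [eventually_all_finite hℬf]
    intro B hB
    obtain ⟨N1, hN1⟩ := hl d hd (Matrix.of B) (hℬd B hB) lam hlam ε1 hε1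
    filter_upwards [eventually_ge_atTop N1] with N hN
    exact hN1 N hN
  -- lower order terms
  set A0 : ℝ := 2 * (∑ i : Fin d, (I2 volume (h (Pi.single i (1 : ℝ)))).toReal) +
    2 * (Fintype.card ι * d * C ^ 2) * (∫⁻ x, ENNReal.ofReal (fro (Mx Y x))).toReal with hA0
  have hA00 : 0 ≤ A0 := by
    have h1 : 0 ≤ ∑ i : Fin d, (I2 volume (h (Pi.single i (1 : ℝ)))).toReal :=
      Finset.sum_nonneg fun i _ => ENNReal.toReal_nonneg
    positivity
  have hlow : ∀ᶠ N : ℕ in atTop, A0 ≤ ε1 * (N : ℝ) ^ (2 / (d : ℝ)) := by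
    have h1 : Tendsto (fun N : ℕ => ε1 * (N : ℝ) ^ (2 / (d : ℝ))) atTop atTop :=
      Tendsto.const_mul_atTop hε1 ((tendsto_rpow_atTop (by positivity)).comp
        tendsto_natCast_atTop_atTop)
    exact h1.eventually (eventually_ge_atTop A0)
  obtain ⟨N₀, hN₀⟩ := ((hlat.and hlow).and (eventually_ge_atTop (Ns + 1))).exists_forall_of_atTop
  refine ⟨N₀, fun N hN => ?_⟩
  obtain ⟨⟨hlatN, hlowN⟩, hNsN⟩ := hN₀ N hN
  have hNpos : (0 : ℝ) < N := by
    have : 0 < N := by omega
    exact_mod_cast this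
  obtain ⟨a, b, len, n, F, cell, P⟩ := hNs N (by omega)
  -- choose the matrices
  have hchB : ∀ c, ∃ B ∈ ℬ, ∀ᵐ x, S x ∈ {s | a c s ≠ 0} → ENNReal.ofReal (qf B (Mx Y x)) ≤ R x := by
    intro c
    apply hRA
    by_cases hc : cell c
    · left
      intro s hs s' hs'
      exact P.cell_dist c hc s s' hs hs'
    · right
      intro s hs
      exact P.skel_sub c hc s hs
  choose B hBℬ hBR using hchB
  have hchK : ∀ c, ∃ K : Finset (Fin d → ℤ), K.card = n c ∧ ∀ v : Fin d → ℝ,
      ∑ k ∈ K, (∑ j, v j * (2 * Real.pi * k j / len c j)) ^ 2 ≤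
        (N : ℝ) ^ (2 / (d : ℝ)) * (N * ∏ j, len c j) * (Kcl d / d + ε1) *
          ∑ m, (∑ j, B c j m * v j) ^ 2 := fun c =>
    hlatN (B c) (hBℬ c) (len c) (P.lenb c) (n c) (P.hn c).le
  choose K hKc hKl using hchK
  -- indexing
  have hcard : Fintype.card (Σ c, K c) = N := by
    rw [Fintype.card_sigma]
    simp only [Fintype.card_coe, hKc]
    exact P.hsum
  let eq := (Fintype.equivFinOfCardEq hcard).symm
  have hbox : ∀ x, S x ∈ Set.Icc (0 : E d) 1 := fun x => mem_box (D.box x)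
  have hF1 : ∀ c k, ContDiff ℝ 1 (F c k) := fun c k => ((P.fam c).smooth k).of_le (by exact_mod_cast le_top)
  have hsumeq : ∀ f : (c : ι) → (Fin d → ℤ) → ℝ,
      ∑ q : Fin N, f (eq q).1 (eq q).2.1 = ∑ c, ∑ k ∈ K c, f c k := by
    intro f
    rw [Equiv.sum_comp eq (fun q => f q.1 q.2.1), Fintype.sum_sigma]
    apply Finset.sum_congr rfl
    intro c _
    exact Finset.sum_coe_sort (K c) (fun k => f c k)
  refine ⟨fun q => orb u S (F (eq q).1 (eq q).2.1),
    fun q i => orbD h S Y (F (eq q).1 (eq q).2.1) (Pi.single i (1 : ℝ)), ?_, ?_, ?_, ?_⟩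
  · intro q
    exact ⟨memLp_orb H D (hF1 _ _), fun i => memLp_orbD H D (hF1 _ _) _,
      fun i => weakDir_orb H D (hF1 _ _) _⟩
  · intro q q'
    rw [orb_inner H D (hF1 _ _).continuous (hF1 _ _).continuous]
    have h1 := P.on (eq q).1 (eq q').1 (eq q).2.1 (eq q').2.1
    unfold bip at h1
    rw [h1]
    congr 1
    apply propext
    constructor
    · rintro ⟨h2, h3⟩
      apply eq.injective
      apply Sigma.subtype_ext h2 h3
    · rintro rfl
      exact ⟨rfl, rfl⟩
  · intro x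
    rw [hsumeq (fun c k => ‖orb u S (F c k) x‖ ^ 2)]
    have h1 : ∀ c, ∑ k ∈ K c, ‖orb u S (F c k) x‖ ^ 2 = N * u x ^ 2 * a c (S x) ^ 2 := by
      intro c
      simp_rw [orb_norm_sq (P.fam c)]
      rw [Finset.sum_const, hKc c, nsmul_eq_mul, P.hn c]
      have hL : 0 < ∏ j, len c j := Finset.prod_pos fun j _ => (P.fam c).pos j
      field_simp
    simp_rw [h1]
    rw [← Finset.mul_sum, P.part _ (hbox x), mul_one]
  · -- the energy
    have hmeas : ∀ c k i, Measurable (orbD h S Y (F c k) (Pi.single i (1 : ℝ))) := fun c k i =>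
      measurable_orbD (H.hmeas _) D.Smeas (fun j => D.Ymeas j _) (hF1 c k)
    -- integrated bound
    have hae : ∀ᵐ x, ENNReal.ofReal (∑ c, ∑ k ∈ K c, ∑ i,
        ‖orbD h S Y (F c k) (Pi.single i (1 : ℝ)) x‖ ^ 2) ≤
        ENNReal.ofReal (2 * N * (∑ i, h (Pi.single i (1 : ℝ)) x ^ 2) +
          2 * N * (Fintype.card ι * d * C ^ 2) * fro (Mx Y x)) +
        ENNReal.ofReal ((N : ℝ) ^ (1 + 2 / (d : ℝ)) * (Kcl d / d + ε1)) * R x := by
      have hall : ∀ᵐ x, ∀ c, S x ∈ {s | a c s ≠ 0} → ENNReal.ofReal (qf (B c) (Mx Y x)) ≤ R x := by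
        rw [ae_all_iff]
        exact hBR
      filter_upwards [hall] with x hx
      have h1 := energy_density (h := h) (Y := Y) hd P hC hε1.le K hKc B hKl x (hbox x)
      refine (ENNReal.ofReal_le_ofReal h1).trans (ENNReal.ofReal_add_le.trans ?_)
      gcongr
      rw [ENNReal.ofReal_mul (by positivity)]
      gcongr
      rw [ENNReal.ofReal_sum_of_nonneg (fun c _ => mul_nonneg (sq_nonneg _) (qf_nonneg _ _))]
      calc ∑ c, ENNReal.ofReal (a c (S x) ^ 2 * qf (B c) (Mx Y x))
          ≤ ∑ c, ENNReal.ofReal (a c (S x) ^ 2) * R x := by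
            apply Finset.sum_le_sum
            intro c _
            rw [ENNReal.ofReal_mul (sq_nonneg _)]
            by_cases hac : a c (S x) = 0
            · simp [hac]
            · gcongr
              exact hx c hac
        _ = (∑ c, ENNReal.ofReal (a c (S x) ^ 2)) * R x := by rw [Finset.sum_mul]
        _ = R x := by
            rw [← ENNReal.ofReal_sum_of_nonneg (fun c _ => sq_nonneg _), P.part _ (hbox x)]
            simp
    have hint : ∫⁻ x, ENNReal.ofReal (∑ c, ∑ k ∈ K c, ∑ i,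
        ‖orbD h S Y (F c k) (Pi.single i (1 : ℝ)) x‖ ^ 2) ≤
        ENNReal.ofReal ((N : ℝ) ^ (1 + 2 / (d : ℝ)) * (Kcl d * T + ε)) := by
      have hm1 : Measurable fun x => 2 * N * (∑ i, h (Pi.single i (1 : ℝ)) x ^ 2) +
          2 * N * (Fintype.card ι * d * C ^ 2) * fro (Mx Y x) := by
        apply Measurable.add
        · exact (Finset.measurable_sum _ fun i _ => (H.hmeas _).pow_const 2).const_mul _
        · exact (measurable_fro D).const_mul _
      refine (lintegral_mono_ae hae).trans ?_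
      rw [lintegral_add_left hm1.ennreal_ofReal, lintegral_const_mul _ hRm]
      have hfirst : ∫⁻ x, ENNReal.ofReal (2 * N * (∑ i, h (Pi.single i (1 : ℝ)) x ^ 2) +
          2 * N * (Fintype.card ι * d * C ^ 2) * fro (Mx Y x)) = ENNReal.ofReal (N * A0) := by
        have e1 : ∀ x, ENNReal.ofReal (2 * N * (∑ i, h (Pi.single i (1 : ℝ)) x ^ 2) +
            2 * N * (Fintype.card ι * d * C ^ 2) * fro (Mx Y x)) =
            ENNReal.ofReal (2 * N) * (∑ i, ENNReal.ofReal (h (Pi.single i (1 : ℝ)) x ^ 2)) +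
            ENNReal.ofReal (2 * N * (Fintype.card ι * d * C ^ 2)) *
              ENNReal.ofReal (fro (Mx Y x)) := by
          intro x
          rw [ENNReal.ofReal_add (mul_nonneg (by positivity) (Finset.sum_nonneg fun _ _ => sq_nonneg _))
            (mul_nonneg (by positivity) (fro_nonneg _)), ENNReal.ofReal_mul (by positivity),
            ENNReal.ofReal_mul (p := 2 * N * (Fintype.card ι * d * C ^ 2)) (by positivity),
            ENNReal.ofReal_sum_of_nonneg (fun i _ => sq_nonneg _)]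
        simp_rw [e1]
        have m1 : ∀ i : Fin d, Measurable fun x => ENNReal.ofReal (h (Pi.single i (1 : ℝ)) x ^ 2) :=
          fun i => ((H.hmeas _).pow_const 2).ennreal_ofReal
        rw [lintegral_add_left ((Finset.measurable_sum _ fun i _ => m1 i).const_mul _),
          lintegral_const_mul _ (Finset.measurable_sum _ fun i _ => m1 i),
          lintegral_const_mul _ (measurable_fro D).ennreal_ofReal,
          lintegral_finsetSum _ (fun i _ => m1 i)]
        simp_rw [← I2_real]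
        have e2 : ∑ i : Fin d, I2 volume (h (Pi.single i (1 : ℝ))) =
            ENNReal.ofReal (∑ i : Fin d, (I2 volume (h (Pi.single i (1 : ℝ)))).toReal) := by
          rw [ENNReal.ofReal_sum_of_nonneg (fun i _ => ENNReal.toReal_nonneg)]
          apply Finset.sum_congr rfl
          intro i _
          rw [ENNReal.ofReal_toReal (H.hL2 _).ne]
        have e3 : ∫⁻ x, ENNReal.ofReal (fro (Mx Y x)) =
            ENNReal.ofReal (∫⁻ x, ENNReal.ofReal (fro (Mx Y x))).toReal := by
          rw [ENNReal.ofReal_toReal (lintegral_fro_lt D).ne]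
        have p1 : 0 ≤ ∑ i : Fin d, (I2 volume (h (Pi.single i (1 : ℝ)))).toReal :=
          Finset.sum_nonneg fun i _ => ENNReal.toReal_nonneg
        rw [e2, e3, ← ENNReal.ofReal_mul (by positivity), ← ENNReal.ofReal_mul (by positivity),
          ← ENNReal.ofReal_add (by positivity) (by positivity)]
        congr 1
        rw [hA0]
        ring
      rw [hfirst]
      calc ENNReal.ofReal (N * A0) + ENNReal.ofReal ((N : ℝ) ^ (1 + 2 / (d : ℝ)) *
            (Kcl d / d + ε1)) * ∫⁻ x, R x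
          ≤ ENNReal.ofReal (N * A0) + ENNReal.ofReal ((N : ℝ) ^ (1 + 2 / (d : ℝ)) *
            (Kcl d / d + ε1)) * ENNReal.ofReal (d * T + ε1) := by gcongr
        _ = ENNReal.ofReal (N * A0 + ((N : ℝ) ^ (1 + 2 / (d : ℝ)) *
            (Kcl d / d + ε1)) * (d * T + ε1)) := by
            rw [← ENNReal.ofReal_mul (by positivity), ← ENNReal.ofReal_add (by positivity)
              (by positivity)]
        _ ≤ ENNReal.ofReal ((N : ℝ) ^ (1 + 2 / (d : ℝ)) * (Kcl d * T + ε)) := by
            apply ENNReal.ofReal_le_ofReal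
            have e1 : (N : ℝ) ^ (1 + 2 / (d : ℝ)) = N * (N : ℝ) ^ (2 / (d : ℝ)) := by
              rw [Real.rpow_add hNpos, Real.rpow_one]
            have e2 : (N : ℝ) * A0 ≤ (N : ℝ) ^ (1 + 2 / (d : ℝ)) * ε1 := by
              rw [e1]
              have := mul_le_mul_of_nonneg_left hlowN hNpos.le
              linarith
            have e3 := mul_le_mul_of_nonneg_left hε1' (Real.rpow_nonneg hNpos.le (1 + 2 / (d : ℝ)))
            linarith
    -- back to Bochner integrals
    have hI : ∀ c k i, ∫ x, ‖orbD h S Y (F c k) (Pi.single i (1 : ℝ)) x‖ ^ 2 =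
        (I2 volume (orbD h S Y (F c k) (Pi.single i (1 : ℝ)))).toReal := fun c k i =>
      integral_norm_sq_toReal (hmeas c k i).aestronglyMeasurable
    have hfin : ∀ c k i, I2 volume (orbD h S Y (F c k) (Pi.single i (1 : ℝ))) ≠ ∞ := fun c k i =>
      (I2_lt_top (memLp_orbD H D (hF1 c k) _)).ne
    rw [hsumeq (fun c k => ∑ i, ∫ x, ‖orbD h S Y (F c k) (Pi.single i (1 : ℝ)) x‖ ^ 2)]
    simp_rw [hI]
    have hsum : ∑ c, ∑ k ∈ K c, ∑ i,
        (I2 volume (orbD h S Y (F c k) (Pi.single i (1 : ℝ)))).toReal =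
        (∑ c, ∑ k ∈ K c, ∑ i, I2 volume (orbD h S Y (F c k) (Pi.single i (1 : ℝ)))).toReal := by
      rw [ENNReal.toReal_sum (fun c _ => (ENNReal.sum_lt_top.2 fun k _ =>
        ENNReal.sum_lt_top.2 fun i _ => (hfin c k i).lt_top).ne)]
      apply Finset.sum_congr rfl
      intro c _
      rw [ENNReal.toReal_sum (fun k _ => (ENNReal.sum_lt_top.2 fun i _ => (hfin c k i).lt_top).ne)]
      apply Finset.sum_congr rfl
      intro k _
      rw [ENNReal.toReal_sum (fun i _ => hfin c k i)]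
    rw [hsum]
    apply ENNReal.toReal_le_of_le_ofReal
    · have := Real.rpow_nonneg hNpos.le (1 + 2 / (d : ℝ))
      have := Kcl_nonneg d
      positivity
    · refine le_trans (le_of_eq ?_) hint
      have e1 : ∀ x, ENNReal.ofReal (∑ c, ∑ k ∈ K c, ∑ i,
          ‖orbD h S Y (F c k) (Pi.single i (1 : ℝ)) x‖ ^ 2) = ∑ c, ∑ k ∈ K c, ∑ i,
          ‖orbD h S Y (F c k) (Pi.single i (1 : ℝ)) x‖ₑ ^ 2 := by
        intro x
        rw [ENNReal.ofReal_sum_of_nonneg (fun c _ => Finset.sum_nonneg fun k _ =>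
          Finset.sum_nonneg fun i _ => by positivity)]
        apply Finset.sum_congr rfl
        intro c _
        rw [ENNReal.ofReal_sum_of_nonneg (fun k _ => Finset.sum_nonneg fun i _ => by positivity)]
        apply Finset.sum_congr rfl
        intro k _
        rw [ENNReal.ofReal_sum_of_nonneg (fun i _ => by positivity)]
        apply Finset.sum_congr rfl
        intro i _
        rw [ofReal_norm_sq]
      simp_rw [e1]
      have m1 : ∀ c k i, Measurable fun x =>
          ‖orbD h S Y (F c k) (Pi.single i (1 : ℝ)) x‖ₑ ^ 2 := fun c k i =>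
        (hmeas c k i).enorm.pow_const 2
      rw [lintegral_finsetSum _ (fun c _ => Finset.measurable_sum _ fun k _ =>
        Finset.measurable_sum _ fun i _ => m1 c k i)]
      apply Finset.sum_congr rfl
      intro c _
      rw [lintegral_finsetSum _ (fun k _ => Finset.measurable_sum _ fun i _ => m1 c k i)]
      apply Finset.sum_congr rfl
      intro k _
      rw [lintegral_finsetSum _ (fun i _ => m1 c k i)]
      rfl

end Pool.Agent.W564.MY
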